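import Mathlib
import Pool.Agent.K9h17.L.Tens2

/-!
# Irreducibility under the elements of degree one from one more element
-/

set_option linter.unusedSectionVars false

namespace Pool.Agent.K9h17.D

open Module Polynomial
open Pool.Agent.W528.Odd (Nz unX unX_mem rN2 SIrr trace_br)
open Pool.Agent.W548.Odd (IsIdl exists_repr sq_zero_of_up)
open Pool.Agent.K9h17.L

noncomputable section

variable {V : Type} [AddCommGroup V] [Module ℂ V] [FiniteDimensional ℂ V]
  {𝔤 : Submodule ℂ (End ℂ V)}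

/-- The trace of a commutator on a stable subspace. -/
theorem tr_swap {E X Y : End ℂ V} (hX : X * E = E * X * E) (hY : Y * E = E * Y * E) :
    LinearMap.trace ℂ V (X * Y * E) = LinearMap.trace ℂ V (Y * X * E) := by
  have e1 : X * Y * E = (X * E) * (Y * E) := by
    calc X * Y * E = X * (Y * E) := by rw [mul_assoc]
    _ = X * (E * Y * E) := by rw [← hY]
    _ = (X * E) * (Y * E) := by simp only [mul_assoc]
  have e2 : Y * X * E = (Y * E) * (X * E) := by
    calc Y * X * E = Y * (X * E) := by rw [mul_assoc]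
    _ = Y * (E * X * E) := by rw [← hX]
    _ = (Y * E) * (X * E) := by simp only [mul_assoc]
  rw [e1, e2, LinearMap.trace_mul_comm]

variable (hbr : ∀ X ∈ 𝔤, ∀ Y ∈ 𝔤, X * Y - Y * X ∈ 𝔤)
  (hirr : ∀ W : Submodule ℂ V, (∀ X ∈ 𝔤, X * X = (1 / 4 : ℂ) • 1 → ∀ u ∈ W, X u ∈ W) →
    W = ⊥ ∨ W = ⊤)

include hbr hirr in
/-- The trace of the ideal on a stable subspace. -/
theorem tr_stab {D : End ℂ V} (hD : D ∈ 𝔤) (hD2 : D * D = 1) {E : End ℂ V}
    (hst : ∀ l ∈ LL 𝔤 D, l * E = E * l * E) (hEE : E * E = E) :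
    ∀ l ∈ LL 𝔤 D, LinearMap.trace ℂ V (l * E) = 0 := by
  obtain ⟨d, hd, s, hs⟩ := D_LL hbr hirr hD hD2
  have hDE : D * E = E * D * E := by
    rw [hs, add_mul, mul_add, add_mul, hst d hd, smul_mul_assoc, one_mul, mul_smul_comm,
      smul_mul_assoc, mul_one, hEE]
  have hz : ∀ z : ℂ, z = -z → z = 0 := by
    intro z hz
    linear_combination (1 / 2 : ℂ) * hz
  have hx : ∀ x ∈ UpS 𝔤 D, LinearMap.trace ℂ V (x * E) = 0 := by
    intro x hx
    refine hz _ ?_
    calc LinearMap.trace ℂ V (x * E) = LinearMap.trace ℂ V (D * x * E) := by rw [hx.2.1]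
    _ = LinearMap.trace ℂ V (x * D * E) := tr_swap hDE (hst x (up_LL hx))
    _ = -LinearMap.trace ℂ V (x * E) := by rw [hx.2.2, neg_mul, map_neg]
  have hy : ∀ y ∈ UpS 𝔤 (-D), LinearMap.trace ℂ V (y * E) = 0 := by
    intro y hy
    obtain ⟨-, h1, h2⟩ := dn_iff.1 hy
    refine hz _ ?_
    calc LinearMap.trace ℂ V (y * E) = LinearMap.trace ℂ V (y * D * E) := by rw [h2]
    _ = LinearMap.trace ℂ V (D * y * E) := tr_swap (hst y (dn_LL hy)) hDE
    _ = -LinearMap.trace ℂ V (y * E) := by rw [h1, neg_mul, map_neg]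
  intro l hl
  induction hl using Submodule.span_induction with
  | mem z hz =>
    rcases hz with (hz | hz) | ⟨x, hx', y, hy', rfl⟩
    · exact hx z hz
    · exact hy z hz
    · rw [sub_mul, map_sub, tr_swap (hst x (up_LL hx')) (hst y (dn_LL hy')), sub_self]
  | zero => rw [zero_mul, map_zero]
  | add z z' _ _ h5 h6 => rw [add_mul, map_add, h5, h6, add_zero]
  | smul c z _ h5 => rw [smul_mul_assoc, map_smul, h5, smul_zero]

include hbr hirr in
/-- Divisibility for an idempotent with a stable range. -/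
theorem dvd_stab {D : End ℂ V} (hD : D ∈ 𝔤) (hD2 : D * D = 1) {E : End ℂ V}
    (hst : ∀ l ∈ LL 𝔤 D, l * E = E * l * E) (hEE : E * E = E) {a b f : ℕ}
    (htr : LinearMap.trace ℂ V D = (a : ℂ) - b) (hn : finrank ℂ V = a + b)
    (hf : LinearMap.trace ℂ V E = f) : a + b ∣ f * a.gcd b := by
  obtain ⟨d, hd, s, hs⟩ := D_LL hbr hirr hD hD2
  have h1 := tr_stab hbr hirr hD hD2 hst hEE d hd
  have h2 := tr_comm hbr hirr hD hD2 (c := 1) (fun w _ => by rw [one_mul, mul_one]) hd
  rw [one_mul] at h2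
  have h3 : LinearMap.trace ℂ V D = s * finrank ℂ V := by
    rw [hs, map_add, h2, map_smul, LinearMap.trace_one, zero_add, smul_eq_mul]
  have h4 : LinearMap.trace ℂ V (D * E) = s * f := by
    rw [hs, add_mul, map_add, h1, smul_mul_assoc, one_mul, map_smul, zero_add, smul_eq_mul, hf]
  have hDE : D * E = E * D * E := by
    rw [hs, add_mul, mul_add, add_mul, hst d hd, smul_mul_assoc, one_mul, mul_smul_comm,
      smul_mul_assoc, mul_one, hEE]
  have aux : ∀ D' : End ℂ V, D' * D' = 1 → D' * E = E * D' * E → ∃ k : ℕ,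
      (k : ℂ) = 2⁻¹ * (f + LinearMap.trace ℂ V (D' * E)) := by
    intro D' h5 h6
    have h7 : ((2 : ℂ)⁻¹ • (1 + D') * E) * ((2 : ℂ)⁻¹ • (1 + D') * E) =
        (2 : ℂ)⁻¹ • (1 + D') * E := by
      have e0 := half_idem h5
      have e1 : E * ((2 : ℂ)⁻¹ • (1 + D')) * E = (2 : ℂ)⁻¹ • (1 + D') * E := by
        rw [mul_smul_comm, smul_mul_assoc, mul_add, add_mul, mul_one, hEE, ← h6, smul_mul_assoc,
          add_mul, one_mul]
      calc ((2 : ℂ)⁻¹ • (1 + D') * E) * ((2 : ℂ)⁻¹ • (1 + D') * E) =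
          (2 : ℂ)⁻¹ • (1 + D') * (E * ((2 : ℂ)⁻¹ • (1 + D')) * E) := by
            simp only [mul_assoc]
      _ = ((2 : ℂ)⁻¹ • (1 + D')) * ((2 : ℂ)⁻¹ • (1 + D')) * E := by
            rw [e1, mul_assoc]
      _ = (2 : ℂ)⁻¹ • (1 + D') * E := by rw [e0]
    obtain ⟨k, hk⟩ := trace_nat h7
    refine ⟨k, ?_⟩
    rw [← hk, smul_mul_assoc, map_smul, add_mul, map_add, one_mul, hf, smul_eq_mul]
  obtain ⟨k, hk⟩ := aux D hD2 hDE
  obtain ⟨k', hk'⟩ := aux (-D) (by rw [neg_mul_neg, hD2]) (by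
    rw [neg_mul, hDE, mul_neg, neg_mul])
  rw [neg_mul, map_neg] at hk'
  have hnC : (finrank ℂ V : ℂ) = (a : ℂ) + b := by rw [hn]; push_cast; rfl
  rw [hnC] at h3
  have h5 : s * ((a : ℂ) + b) = (a : ℂ) - b := by rw [← h3, htr]
  have h6 : f * a = (a + b) * k := by
    have h7 : (f : ℂ) * a = ((a : ℂ) + b) * k := by
      rw [hk, h4]
      linear_combination (-(f : ℂ) / 2) * h5
    exact_mod_cast h7
  have h7 : f * b = (a + b) * k' := by
    have h8 : (f : ℂ) * b = ((a : ℂ) + b) * k' := by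
      rw [hk', h4]
      linear_combination ((f : ℂ) / 2) * h5
    exact_mod_cast h8
  rw [← Nat.gcd_mul_left]
  exact Nat.dvd_gcd ⟨k, h6⟩ ⟨k', h7⟩

include hbr in
/-- The ideals of an involution in the centralizer. -/
theorem ll_le_cc {D D' : End ℂ V} (hD : D ∈ 𝔤) (hD2 : D * D = 1) (hD' : D' ∈ CC 𝔤 D) :
    LL 𝔤 D' ≤ CC 𝔤 D := by
  have hI := cc_idl hbr hD hD2
  have hx : ∀ x ∈ UpS 𝔤 D', x ∈ CC 𝔤 D := by
    intro x hx
    have h1 := hI.br x hx.1 D' hD'
    rw [hx.2.1, hx.2.2] at h1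
    have h2 : x = (-(1 / 2) : ℂ) • (-x - x) := by module
    rw [h2]
    exact Submodule.smul_mem _ _ h1
  have hy : ∀ x ∈ UpS 𝔤 (-D'), x ∈ CC 𝔤 D := by
    intro x hx
    obtain ⟨h0, h3, h4⟩ := dn_iff.1 hx
    have h1 := hI.br x h0 D' hD'
    rw [h3, h4] at h1
    have h2 : x = (1 / 2 : ℂ) • (x - -x) := by module
    rw [h2]
    exact Submodule.smul_mem _ _ h1
  refine Submodule.span_le.2 ?_
  rintro z ((hz | hz) | ⟨x, hx', y, hy', rfl⟩)
  · exact hx z hz
  · exact hy z hz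
  · exact hI.br x (hI.le (hx x hx')) y (hy y hy')

include hbr hirr in
/-- **Irreducibility**: the elements of degree one and minus one act irreducibly, if no other
involution commutes with them. -/
theorem irr_up' (T : Set (End ℂ V)) (hT1 : ∀ X ∈ T, X ∈ 𝔤) (hT2 : ∀ X ∈ T, X * X = 1)
    (hgen : ∀ L : Submodule ℂ (End ℂ V), (∀ X ∈ T, X ∈ L) →
      (∀ X ∈ L, ∀ Y ∈ L, X * Y - Y * X ∈ L) → 𝔤 ≤ L)
    {D : End ℂ V} (hD : D ∈ 𝔤) (hD2 : D * D = 1)
    (hT : ∀ D' ∈ T, D' ∈ CC 𝔤 D → D' ≠ 1 → D' ≠ -1 → False)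
    (W : Submodule ℂ V) (h1 : ∀ x ∈ UpS 𝔤 D, ∀ u ∈ W, x u ∈ W)
    (h2 : ∀ y ∈ UpS 𝔤 (-D), ∀ u ∈ W, y u ∈ W) : W = ⊥ ∨ W = ⊤ := by
  have hL : ∀ l ∈ LL 𝔤 D, ∀ u ∈ W, l u ∈ W := by
    intro l hl
    induction hl using Submodule.span_induction with
    | mem z hz =>
      rcases hz with (hz | hz) | ⟨x, hx, y, hy, rfl⟩
      · exact h1 z hz
      · exact h2 z hz
      · intro u hu
        rw [LinearMap.sub_apply, Module.End.mul_apply, Module.End.mul_apply]
        exact W.sub_mem (h1 _ hx _ (h2 _ hy _ hu)) (h2 _ hy _ (h1 _ hx _ hu))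
    | zero => exact fun u _ => W.zero_mem
    | add z z' _ _ h5 h6 => exact fun u hu => W.add_mem (h5 u hu) (h6 u hu)
    | smul c z _ h5 => exact fun u hu => W.smul_mem c (h5 u hu)
  by_cases hcomm : ∀ D' ∈ T, ∀ c ∈ CC 𝔤 D, D' * c = c * D'
  · have hcen : ∀ c ∈ CC 𝔤 D, ∃ s : ℂ, c = s • 1 := by
      intro c hc
      refine scal hirr fun x hx => ?_
      let L : Submodule ℂ (End ℂ V) :=
        { carrier := {g | ∀ c ∈ CC 𝔤 D, g * c = c * g}
          add_mem' := fun {x y} hx hy c hc => by rw [add_mul, mul_add, hx c hc, hy c hc]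
          zero_mem' := fun c _ => by rw [zero_mul, mul_zero]
          smul_mem' := fun s x hx c hc => by rw [smul_mul_assoc, mul_smul_comm, hx c hc] }
      have h3 : 𝔤 ≤ L := by
        refine hgen L (fun X hX => hcomm X hX) fun X hX Y hY c hc => ?_
        have e1 := hX c hc
        have e2 := hY c hc
        calc (X * Y - Y * X) * c = X * (Y * c) - Y * (X * c) := by
              rw [sub_mul, mul_assoc, mul_assoc]
        _ = X * (c * Y) - Y * (c * X) := by rw [e1, e2]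
        _ = (X * c) * Y - (Y * c) * X := by rw [mul_assoc, mul_assoc]
        _ = (c * X) * Y - (c * Y) * X := by rw [e1, e2]
        _ = c * (X * Y - Y * X) := by rw [mul_sub, mul_assoc, mul_assoc]
      exact (h3 hx c hc).symm
    refine hirr W fun X hX _ u hu => ?_
    obtain ⟨l, hl, c, hc, rfl⟩ := dec2 hbr hirr hD hD2 hX
    obtain ⟨s, rfl⟩ := hcen c hc
    rw [LinearMap.add_apply, LinearMap.smul_apply, Module.End.one_apply]
    exact W.add_mem (hL l hl u hu) (W.smul_mem s hu)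
  · exfalso
    push Not at hcomm
    obtain ⟨D', hD', c, hc, hne⟩ := hcomm
    have hD1' := hT1 D' hD'
    have hD2' := hT2 D' hD'
    rcases dich hbr hirr hD hD2 hD1' hD2' with h3 | h3
    · exact hne (h3 c hc)
    refine hT D' hD' ⟨hD1', h3⟩ ?_ ?_
    · rintro rfl
      exact hne (by rw [one_mul, mul_one])
    · rintro rfl
      exact hne (by rw [neg_mul, mul_neg, one_mul, mul_one])

/-! ### Eigenvalues -/

/-- An operator on the eigenspace. -/
theorem exists_eig [Nontrivial V] (c : End ℂ V) : ∃ (μ : ℂ) (q : ℂ[X]), aeval c q ≠ 0 ∧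
    c * aeval c q = μ • aeval c q := by
  have hint : IsIntegral ℂ c := Algebra.IsIntegral.isIntegral c
  obtain ⟨μ, hμ⟩ := IsAlgClosed.exists_root (minpoly ℂ c) (minpoly.degree_pos hint).ne'
  obtain ⟨q, hq⟩ := dvd_iff_isRoot.2 hμ
  refine ⟨μ, q, ?_, ?_⟩
  · intro h0
    have hq0 : q ≠ 0 := by
      rintro rfl
      rw [mul_zero] at hq
      exact minpoly.ne_zero hint hq
    have h1 := minpoly.degree_le_of_ne_zero ℂ c hq0 h0
    rw [hq, degree_mul, degree_X_sub_C, degree_eq_natDegree hq0] at h1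
    have h2 : (1 + q.natDegree : ℕ) ≤ q.natDegree := by exact_mod_cast h1
    omega
  · have h1 : aeval c (minpoly ℂ c) = 0 := minpoly.aeval ℂ c
    rw [hq, map_mul, map_sub, aeval_X, aeval_C, sub_mul, sub_eq_zero] at h1
    rw [h1, Algebra.algebraMap_eq_smul_one, smul_mul_assoc, one_mul]

theorem comm_aeval {x y : End ℂ V} (h : x * y = y * x) (q : ℂ[X]) :
    aeval x q * y = y * aeval x q := by
  have h1 : x ∈ Subalgebra.centralizer ℂ {y} := by
    rw [Subalgebra.mem_centralizer_iff]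
    rintro _ rfl
    exact h.symm
  have h2 : aeval x q ∈ Subalgebra.centralizer ℂ {y} := by
    have h3 : aeval x q ∈ Algebra.adjoin ℂ {x} := aeval_mem_adjoin_singleton ℂ x
    exact (Algebra.adjoin_le (by
      rintro _ rfl
      exact h1)) h3
  rw [Subalgebra.mem_centralizer_iff] at h2
  exact (h2 y rfl).symm

/-- The sum acts on an eigenspace of the second summand as the first one with a scalar. -/
theorem pow_eig {l c g : End ℂ V} {μ : ℂ} (hlc : l * c = c * l) (hg : c * g = μ • g) (k : ℕ) :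
    (l + c) ^ k * g = (l + μ • 1) ^ k * g := by
  have h1 : (l + c) * (l + μ • 1) = (l + μ • 1) * (l + c) := by
    have e1 : (l + c) * (l + μ • 1) = l * l + c * l + μ • (l + c) := by
      rw [mul_add, add_mul, mul_smul_comm, mul_one]
    have e2 : (l + μ • 1) * (l + c) = l * l + l * c + μ • (l + c) := by
      rw [add_mul, mul_add, smul_mul_assoc, one_mul]
    rw [e1, e2, hlc]
  induction k with
  | zero => rw [pow_zero, pow_zero]
  | succ k ih =>
    rw [pow_succ, mul_assoc]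
    have h2 : (l + c) * g = (l + μ • 1) * g := by
      rw [add_mul, add_mul, hg, smul_mul_assoc, one_mul]
    rw [h2, ← mul_assoc]
    have h3 : (l + c) ^ k * (l + μ • 1) = (l + μ • 1) * (l + c) ^ k := by
      exact (Commute.pow_left (show Commute (l + c) (l + μ • 1) from h1) k)
    rw [h3, mul_assoc, ih, ← mul_assoc, pow_succ']

theorem aeval_eig {l c g : End ℂ V} {μ : ℂ} (hlc : l * c = c * l) (hg : c * g = μ • g) (p : ℂ[X]) :
    aeval (l + c) p * g = aeval (l + μ • 1) p * g := by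
  rw [aeval_eq_sum_range, aeval_eq_sum_range, Finset.sum_mul, Finset.sum_mul]
  refine Finset.sum_congr rfl fun k _ => ?_
  rw [smul_mul_assoc, smul_mul_assoc, pow_eig hlc hg]

variable {D : End ℂ V} (hD : D ∈ 𝔤) (hD2 : D * D = 1) {l c : End ℂ V} (hl : l ∈ LL 𝔤 D)
  (hc : ∀ w ∈ LL 𝔤 D, c * w = w * c)

include hbr hirr hD hD2 hl hc in
/-- A relation for the sum gives relations for the first summand. -/
theorem rel_left {p : ℂ[X]} (hp : aeval (l + c) p = 0) {g : End ℂ V} {μ : ℂ} (hg0 : g ≠ 0)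
    (hg : c * g = μ • g) (hgL : ∀ w ∈ LL 𝔤 D, g * w = w * g) : aeval (l + μ • 1) p = 0 := by
  have h1 := aeval_eig (hc l hl).symm hg p
  rw [hp, zero_mul] at h1
  refine (prod_ne hbr hirr hD hD2 (u := aeval (l + μ • 1) p) (u' := g) ?_ hgL h1.symm).resolve_right
    hg0
  intro d hd
  exact comm_aeval (by
    rw [add_mul, mul_add, smul_mul_assoc, mul_smul_comm, one_mul, mul_one, hd.2 l hl]) p

include hbr hirr hD hD2 hl hc in
/-- A relation for the sum gives relations for the second summand. -/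
theorem rel_right {p : ℂ[X]} (hp : aeval (l + c) p = 0) {g : End ℂ V} {μ : ℂ} (hg0 : g ≠ 0)
    (hg : l * g = μ • g) (hgC : ∀ d ∈ CC 𝔤 D, g * d = d * g) (hgc : g * c = c * g) :
    aeval (c + μ • 1) p = 0 := by
  have h1 := aeval_eig (hc l hl) hg p
  rw [add_comm c l, hp, zero_mul] at h1
  refine (prod_ne hbr hirr hD hD2 (u := g) (u' := aeval (c + μ • 1) p) hgC ?_ ?_).resolve_left
    hg0
  · intro w hw
    exact comm_aeval (by
      rw [add_mul, mul_add, smul_mul_assoc, mul_smul_comm, one_mul, mul_one, hc w hw]) p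
  · rw [← comm_aeval (x := c + μ • 1) (y := g) (by
      rw [add_mul, mul_add, smul_mul_assoc, mul_smul_comm, one_mul, mul_one, hgc]) p]
    exact h1.symm

end

end Pool.Agent.K9h17.D
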