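import Mathlib
import Pool.Agent.K9h17.D.Tens

/-!
# Elements with two parts
-/

set_option linter.unusedSectionVars false

namespace Pool.Agent.K9h17.D

open Module Polynomial
open Pool.Agent.W528.Odd (Nz unX unX_mem rN2 SIrr trace_br)
open Pool.Agent.W548.Odd (IsIdl exists_repr sq_zero_of_up)
open Pool.Agent.K9h17.L

noncomputable section

variable {V : Type} [AddCommGroup V] [Module ℂ V] [FiniteDimensional ℂ V]
  {𝔤 : Submodule ℂ (End ℂ V)} (hbr : ∀ X ∈ 𝔤, ∀ Y ∈ 𝔤, X * Y - Y * X ∈ 𝔤)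
  (hirr : ∀ W : Submodule ℂ V, (∀ X ∈ 𝔤, X * X = (1 / 4 : ℂ) • 1 → ∀ u ∈ W, X u ∈ W) →
    W = ⊥ ∨ W = ⊤)
  {D : End ℂ V} (hD : D ∈ 𝔤) (hD2 : D * D = 1) {l c : End ℂ V} (hl : l ∈ LL 𝔤 D)
  (hc : ∀ w ∈ LL 𝔤 D, c * w = w * c)

theorem comm_add {c w : End ℂ V} (μ : ℂ) (h : c * w = w * c) :
    (c + μ • 1) * w = w * (c + μ • 1) := by
  rw [add_mul, mul_add, smul_mul_assoc, mul_smul_comm, one_mul, mul_one, h]

theorem sq_trace {N : End ℂ V} (h : N * N = 0) : LinearMap.trace ℂ V N = 0 := by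
  have h1 : IsNilpotent N := ⟨2, by rw [pow_two, h]⟩
  exact (LinearMap.isNilpotent_trace_of_isNilpotent h1).eq_zero

include hbr hirr hD hD2 hl in
theorem tr_l : LinearMap.trace ℂ V l = 0 := by
  have h1 := tr_comm hbr hirr hD hD2 (c := 1) (fun w _ => by rw [one_mul, mul_one]) hl
  rwa [one_mul] at h1

include hbr hirr hD hD2 hl hc in
/-- A nilpotent element belongs to one of the two parts. -/
theorem no_nil (h : (l + c) * (l + c) = 0) (ht : LinearMap.trace ℂ V c = 0) : l = 0 ∨ c = 0 := by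
  rcases subsingleton_or_nontrivial V with hV | hV
  · left
    exact LinearMap.ext fun v => Subsingleton.elim _ _
  have hn : (finrank ℂ V : ℂ) ≠ 0 := by
    have := finrank_pos (R := ℂ) (M := V)
    exact_mod_cast this.ne'
  have hlc := (hc l hl).symm
  have hp : aeval (l + c) ((X : ℂ[X]) ^ 2) = 0 := by rw [map_pow, aeval_X, pow_two, h]
  have htl := tr_l hbr hirr hD hD2 hl
  have hl2 : l * l = 0 := by
    obtain ⟨μ, q, hq0, hq⟩ := exists_eig c
    have h1 := rel_left hbr hirr hD hD2 hl hc hp hq0 hq fun w hw => comm_aeval (hc w hw) q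
    rw [map_pow, aeval_X, pow_two] at h1
    have h2 := sq_trace h1
    rw [map_add, htl, map_smul, LinearMap.trace_one, zero_add, smul_eq_mul] at h2
    rw [(mul_eq_zero.1 h2).resolve_right hn, zero_smul, add_zero] at h1
    exact h1
  have hc2 : c * c = 0 := by
    obtain ⟨μ, q, hq0, hq⟩ := exists_eig l
    have h1 := rel_right hbr hirr hD hD2 hl hc hp hq0 hq (fun d hd =>
      comm_aeval (hd.2 l hl).symm q) (comm_aeval hlc q)
    rw [map_pow, aeval_X, pow_two] at h1
    have h2 := sq_trace h1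
    rw [map_add, ht, map_smul, LinearMap.trace_one, zero_add, smul_eq_mul] at h2
    rw [(mul_eq_zero.1 h2).resolve_right hn, zero_smul, add_zero] at h1
    exact h1
  have e1 : (l + c) * (l + c) = l * l + c * c + (l * c + c * l) := by noncomm_ring
  rw [e1, hl2, hc2, hc l hl, zero_add, zero_add, ← two_smul ℂ] at h
  exact prod_ne hbr hirr hD hD2 (fun d hd => (hd.2 l hl).symm) hc
    ((smul_eq_zero.1 h).resolve_left two_ne_zero)

include hbr hirr hD hD2 hl hc in
/-- An idempotent belongs to one of the two parts, up to scalars. -/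
theorem no_two (h : (l + c) * (l + c) = l + c) :
    (∃ s : ℂ, l = s • 1) ∨ ∃ s : ℂ, c = s • 1 := by
  rcases subsingleton_or_nontrivial V with hV | hV
  · left
    exact ⟨0, LinearMap.ext fun v => Subsingleton.elim _ _⟩
  by_contra hcon
  push Not at hcon
  obtain ⟨hcl, hcc⟩ := hcon
  have hlc := (hc l hl).symm
  have hp : aeval (l + c) ((X : ℂ[X]) ^ 2 - X) = 0 := by
    rw [map_sub, map_pow, aeval_X, pow_two, h, sub_self]
  obtain ⟨μ, q, hq0, hq⟩ := exists_eig l
  have h1 := rel_right hbr hirr hD hD2 hl hc hp hq0 hq (fun d hd =>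
    comm_aeval (hd.2 l hl).symm q) (comm_aeval hlc q)
  rw [map_sub, map_pow, aeval_X, pow_two, sub_eq_zero] at h1
  obtain ⟨C, hC⟩ : ∃ C, C = c + μ • 1 := ⟨_, rfl⟩
  rw [← hC] at h1
  have hcC : c = C - μ • 1 := by rw [hC]; abel
  have hCL : ∀ w ∈ LL 𝔤 D, C * w = w * C := fun w hw => by rw [hC]; exact comm_add μ (hc w hw)
  have hC0 : C ≠ 0 := by
    intro h2
    refine hcc (-μ) ?_
    rw [hcC, h2]
    module
  have hC1 : 1 - C ≠ 0 := by
    intro h2
    refine hcc (1 - μ) ?_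
    rw [hcC, ← sub_eq_zero.1 h2]
    module
  have h3 := rel_left hbr hirr hD hD2 hl hc hp (g := C) (μ := 1 - μ) hC0 (by
    rw [hcC, sub_mul, h1, smul_mul_assoc, one_mul]
    module) hCL
  have h4 := rel_left hbr hirr hD hD2 hl hc hp (g := 1 - C) (μ := -μ) hC1 (by
    rw [hcC, sub_mul, mul_sub, h1, smul_mul_assoc, one_mul, mul_one]
    module) (fun w hw => by rw [sub_mul, mul_sub, one_mul, mul_one, hCL w hw])
  rw [map_sub, map_pow, aeval_X, pow_two, sub_eq_zero] at h3 h4
  obtain ⟨Y, hY⟩ : ∃ Y, Y = l + (-μ) • 1 := ⟨_, rfl⟩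
  have e1 : l + (1 - μ) • 1 = Y + 1 := by rw [hY]; module
  rw [← hY] at h4
  rw [e1] at h3
  have e2 : (Y + 1) * (Y + 1) = Y * Y + (Y + Y) + 1 := by noncomm_ring
  rw [e2, h4] at h3
  have h5 : Y + Y = 0 := by
    have h6 : Y + (Y + Y) + 1 - (Y + 1) = Y + Y := by abel
    rw [← h6, h3, sub_self]
  rw [← two_smul ℂ] at h5
  have h6 := (smul_eq_zero.1 h5).resolve_left two_ne_zero
  refine hcl μ ?_
  rw [h6] at hY
  have h7 : l = (l + (-μ) • 1) + μ • 1 := by module
  rw [h7, ← hY, zero_add]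

/-- The numerical consequence. -/
theorem nat_of_idem {x y : End ℂ V} (hx : x * x = x) (hy : y * y = y) {f : ℕ} {t : ℂ}
    (h1 : LinearMap.trace ℂ V x = t * finrank ℂ V)
    (hf : (f : ℂ) = t * finrank ℂ V - t * t * finrank ℂ V) :
    ∃ k : ℕ, k ≤ finrank ℂ V ∧ k * (finrank ℂ V - k) = finrank ℂ V * f := by
  obtain ⟨k, hk⟩ := trace_nat hx
  have hx' : (1 - x) * (1 - x) = 1 - x := by
    have e1 : (1 - x) * (1 - x) = 1 - x - x + x * x := by noncomm_ring
    rw [e1, hx]
    abel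
  obtain ⟨k', hk'⟩ := trace_nat hx'
  rw [map_sub, LinearMap.trace_one, hk] at hk'
  have hkk : finrank ℂ V = k + k' := by
    have h2 : (finrank ℂ V : ℂ) = k + k' := by rw [← hk']; ring
    exact_mod_cast h2
  refine ⟨k, by omega, ?_⟩
  have h3 : finrank ℂ V - k = k' := by omega
  rw [h3]
  have h4 : ((k * k' : ℕ) : ℂ) = ((finrank ℂ V * f : ℕ) : ℂ) := by
    push_cast
    rw [hf, ← hk', ← hk, h1]
    ring
  exact_mod_cast h4

include hbr hirr hD hD2 hl hc in
/-- The case of three classes. -/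
theorem three_arith (h : (l + c) * (l + c) * (l + c) = l + c)
    (ht : LinearMap.trace ℂ V c = 0) {f : ℕ}
    (hf : LinearMap.trace ℂ V ((l + c) * (l + c)) = 2 * f) (hcl : ∀ s : ℂ, l ≠ s • 1)
    (hcc : ∀ s : ℂ, c ≠ s • 1) :
    ∃ k : ℕ, k ≤ finrank ℂ V ∧ k * (finrank ℂ V - k) = finrank ℂ V * f := by
  rcases subsingleton_or_nontrivial V with hV | hV
  · exact absurd (LinearMap.ext fun v => Subsingleton.elim _ _) (hcl 0)
  have hlc := (hc l hl).symm
  have hp : aeval (l + c) ((X : ℂ[X]) ^ 3 - X) = 0 := by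
    rw [map_sub, map_pow, aeval_X, pow_succ, pow_two, h, sub_self]
  have htl := tr_l hbr hirr hD hD2 hl
  have htlc : LinearMap.trace ℂ V (l * c) = 0 := by
    rw [hlc]
    exact tr_comm hbr hirr hD hD2 hc hl
  obtain ⟨μ, q, hq0, hq⟩ := exists_eig l
  have h1 := rel_right hbr hirr hD hD2 hl hc hp hq0 hq (fun d hd =>
    comm_aeval (hd.2 l hl).symm q) (comm_aeval hlc q)
  rw [map_sub, map_pow, aeval_X, pow_succ, pow_two, sub_eq_zero] at h1
  obtain ⟨C, hC⟩ : ∃ C, C = c + μ • 1 := ⟨_, rfl⟩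
  rw [← hC] at h1
  have hcC : c = C - μ • 1 := by rw [hC]; abel
  have hCL : ∀ w ∈ LL 𝔤 D, C * w = w * C := fun w hw => by rw [hC]; exact comm_add μ (hc w hw)
  obtain ⟨Y, hY⟩ : ∃ Y, Y = l + (-μ) • 1 := ⟨_, rfl⟩
  have hYl : l = Y + μ • 1 := by rw [hY]; module
  have hYs : Y ≠ 0 := by
    intro h2
    refine hcl μ ?_
    rw [hYl, h2, zero_add]
  have hCs : ∀ s : ℂ, C ≠ s • 1 := by
    intro s h2
    refine hcc (s - μ) ?_
    rw [hcC, h2]
    module
  have hCC2 : ∀ w ∈ LL 𝔤 D, C * C * w = w * (C * C) := fun w hw => by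
    rw [mul_assoc, hCL w hw, ← mul_assoc, hCL w hw, mul_assoc]
  -- the relations
  have r0 : 1 - C * C ≠ 0 → Y * Y * Y = Y := by
    intro h2
    have h3 := rel_left hbr hirr hD hD2 hl hc hp (g := 1 - C * C) (μ := -μ) h2 (by
      rw [hcC, sub_mul, mul_sub, mul_one, ← mul_assoc, h1, sub_self, smul_mul_assoc, one_mul]
      module) (fun w hw => by rw [sub_mul, mul_sub, one_mul, mul_one, hCC2 w hw])
    rw [map_sub, map_pow, aeval_X, pow_succ, pow_two, sub_eq_zero, ← hY] at h3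
    exact h3
  have r1 : C * C + C ≠ 0 → (Y + 1) * (Y + 1) * (Y + 1) = Y + 1 := by
    intro h2
    have h3 := rel_left hbr hirr hD hD2 hl hc hp (g := C * C + C) (μ := 1 - μ) h2 (by
      rw [hcC, sub_mul, mul_add, ← mul_assoc, h1, smul_mul_assoc, one_mul]
      module) (fun w hw => by rw [add_mul, mul_add, hCC2 w hw, hCL w hw])
    have e1 : l + (1 - μ) • 1 = Y + 1 := by rw [hY]; module
    rw [map_sub, map_pow, aeval_X, pow_succ, pow_two, sub_eq_zero, e1] at h3
    exact h3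
  have r2 : C * C - C ≠ 0 → (Y - 1) * (Y - 1) * (Y - 1) = Y - 1 := by
    intro h2
    have h3 := rel_left hbr hirr hD hD2 hl hc hp (g := C * C - C) (μ := -1 - μ) h2 (by
      rw [hcC, sub_mul _ _ (C * C - C), mul_sub, ← mul_assoc, h1, smul_mul_assoc, one_mul]
      module) (fun w hw => by rw [sub_mul, mul_sub, hCC2 w hw, hCL w hw])
    have e1 : l + (-1 - μ) • 1 = Y - 1 := by rw [hY]; module
    rw [map_sub, map_pow, aeval_X, pow_succ, pow_two, sub_eq_zero, e1] at h3
    exact h3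
  have e3 : (Y + 1) * (Y + 1) * (Y + 1) = Y * Y * Y + (3 : ℂ) • (Y * Y) + (3 : ℂ) • Y + 1 := by
    have : (Y + 1) * (Y + 1) * (Y + 1) = Y * Y * Y + (Y * Y + Y * Y + Y * Y) + (Y + Y + Y) + 1 := by
      noncomm_ring
    rw [this]
    module
  have e4 : (Y - 1) * (Y - 1) * (Y - 1) = Y * Y * Y - (3 : ℂ) • (Y * Y) + (3 : ℂ) • Y - 1 := by
    have : (Y - 1) * (Y - 1) * (Y - 1) = Y * Y * Y - (Y * Y + Y * Y + Y * Y) + (Y + Y + Y) - 1 := by
      noncomm_ring
    rw [this]
    module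
  have htYC : LinearMap.trace ℂ V (Y * C) = -(μ * μ * finrank ℂ V) := by
    have e5 : Y * C = l * c + μ • l - μ • c - (μ * μ) • 1 := by
      rw [hY, hC]
      simp only [add_mul, mul_add, smul_mul_assoc, mul_smul_comm, one_mul, mul_one]
      module
    rw [e5, map_sub, map_sub, map_add, map_smul, map_smul, map_smul, htl, ht, htlc,
      LinearMap.trace_one, smul_eq_mul]
    simp
  have htY : LinearMap.trace ℂ V Y = -(μ * finrank ℂ V) := by
    rw [hY, map_add, htl, map_smul, LinearMap.trace_one, smul_eq_mul]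
    ring
  have htC : LinearMap.trace ℂ V C = μ * finrank ℂ V := by
    rw [hC, map_add, ht, map_smul, LinearMap.trace_one, smul_eq_mul]
    ring
  have hYC : Y * C = C * Y := by
    rw [hY, hC]
    simp only [add_mul, mul_add, smul_mul_assoc, mul_smul_comm, one_mul, mul_one, hlc]
    module
  have hsum : l + c = Y + C := by rw [hYl, hcC]; module
  have hff : LinearMap.trace ℂ V (Y * Y) + LinearMap.trace ℂ V (C * C) -
      2 * (μ * μ * finrank ℂ V) = 2 * f := by
    have e5 : (Y + C) * (Y + C) = Y * Y + C * C + (Y * C + C * Y) := by noncomm_ring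
    rw [hsum, e5, ← hYC, map_add, map_add, map_add, htYC] at hf
    rw [← hf]
    ring
  by_cases k1 : C * C + C = 0
  · -- `-C` is an idempotent
    have k2 : C * C = -C := eq_neg_of_add_eq_zero_left k1
    have k3 : 1 - C * C ≠ 0 := by
      intro h2
      rw [k2, sub_neg_eq_add] at h2
      refine hCs (-1) ?_
      rw [neg_one_smul]
      exact (eq_neg_of_add_eq_zero_right h2)
    have k4 : C * C - C ≠ 0 := by
      intro h2
      rw [k2] at h2
      refine hCs 0 ?_
      rw [zero_smul]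
      have h3 : (-2 : ℂ) • C = 0 := by rw [← h2]; module
      exact (smul_eq_zero.1 h3).resolve_left (by norm_num)
    have h2 := r0 k3
    have h3 := r2 k4
    rw [e4, h2] at h3
    have h4 : Y * Y = Y := by
      have h5 : (3 : ℂ) • (Y * Y - Y) = (Y - 1) - (Y - (3 : ℂ) • (Y * Y) + (3 : ℂ) • Y - 1) := by
        module
      rw [h3, sub_self] at h5
      exact sub_eq_zero.1 ((smul_eq_zero.1 h5).resolve_left (by norm_num))
    refine nat_of_idem (x := Y) (y := Y) h4 h4 (t := -μ) (by rw [htY]; ring) ?_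
    rw [h4, k2, map_neg, htY, htC] at hff
    linear_combination -(1 / 2 : ℂ) * hff
  · have h3 := r1 k1
    have k2 : C * C - C = 0 := by
      by_contra k4
      have h4 := r2 k4
      rw [e3] at h3
      rw [e4] at h4
      have h5 : (6 : ℂ) • (Y * Y) = (Y * Y * Y + (3 : ℂ) • (Y * Y) + (3 : ℂ) • Y + 1) -
          (Y * Y * Y - (3 : ℂ) • (Y * Y) + (3 : ℂ) • Y - 1) - (2 : ℂ) • 1 := by module
      rw [h3, h4] at h5
      have h6 : Y + 1 - (Y - 1) - (2 : ℂ) • (1 : End ℂ V) = 0 := by module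
      rw [h6] at h5
      have h7 : Y * Y = 0 := (smul_eq_zero.1 h5).resolve_left (by norm_num)
      rw [h7, zero_mul] at h3
      have h8 : (2 : ℂ) • Y = (0 + (3 : ℂ) • 0 + (3 : ℂ) • Y + 1) - (Y + 1) := by module
      rw [h3, sub_self] at h8
      exact hYs ((smul_eq_zero.1 h8).resolve_left (by norm_num))
    have k2 : C * C = C := sub_eq_zero.1 k2
    have k3 : 1 - C * C ≠ 0 := by
      intro h2
      rw [k2] at h2
      refine hCs 1 ?_
      rw [one_smul]
      exact (sub_eq_zero.1 h2).symm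
    have h2 := r0 k3
    rw [e3, h2] at h3
    have h4 : Y * Y = -Y := by
      have h5 : (3 : ℂ) • (Y * Y + Y) = (Y + (3 : ℂ) • (Y * Y) + (3 : ℂ) • Y + 1) - (Y + 1) := by
        module
      rw [h3, sub_self] at h5
      exact eq_neg_of_add_eq_zero_left ((smul_eq_zero.1 h5).resolve_left (by norm_num))
    refine nat_of_idem (x := C) (y := C) k2 k2 (t := μ) htC ?_
    rw [h4, k2, map_neg, htY, htC] at hff
    linear_combination -(1 / 2 : ℂ) * hff

end

end Pool.Agent.K9h17.D
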