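import Mathlib
import Pool.Agent.K9h17.B.Pair

/-!
# The invariant form if the minimal rank is not half of the multiplicity
-/

set_option linter.unusedSectionVars false

namespace Pool.Agent.K9h17.D

open Matrix Module
open Pool.Agent.Y4.G (trF trF_apply exists_dual exists_eig_range trace_idemM rank_mul_lt
  finrank_eq_one_of)
open Pool.Agent.Y4.G.Lie (pos mem_pos)
open Pool.Agent.N183.JP
open Pool.Agent.K9h17.L
open Pool.Agent.K9h17.B

noncomputable section

variable {B : Type} [Fintype B] [DecidableEq B]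

variable {G : Submodule ℂ (Matrix B B ℂ)} {P Q : Matrix B B ℂ} {a : ℕ}

/-- **All operators**: the part of degree zero acts on the range of `P` through all operators,
if the minimal rank is not half of `a`. -/
theorem full_P (H : LieP G P Q a a) (hR : P + Q ∈ G) (hI : IrrXY G P Q) (ha : 0 < a)
    {e f : Matrix B B ℂ} (he : IsMin G P Q e) (hf : f ∈ pos G Q P) (hefe : e * f * e = e)
    (hfef : f * e * f = f) (ht2 : trace (e * f) + trace (e * f) ≠ a)
    (ht1 : trace (e * f) ≠ 1) {x : Matrix B B ℂ} (hx : x ∈ pos G P Q)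
    (hx0 : (P - e * f) * x * (Q - f * e) ≠ 0) {w : Matrix B B ℂ} (h1 : P * w = w)
    (h2 : w * P = w) : w ∈ LieI.cor G P := by
  have HI := lieI_of H hR
  have k := trp_of_pair H he hf hefe hfef
  obtain ⟨p, hp⟩ : ∃ p, p = e * f := ⟨_, rfl⟩
  obtain ⟨q, hq⟩ : ∃ q, q = f * e := ⟨_, rfl⟩
  rw [← hp, ← hq] at k hx0
  rw [← hp] at ht1 ht2
  -- the orthogonal pair
  obtain ⟨x', hx', hx'0⟩ : ∃ x' : Matrix B B ℂ, IsMin G P Q x' ∧ (P - p) * x' * (Q - q) ≠ 0 := by
    by_contra hcon
    push Not at hcon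
    apply hx0
    have h3 := span_min H hI ha ha hx
    clear hx hx0
    induction h3 using Submodule.span_induction with
    | mem u hu => exact hcon u hu
    | zero => rw [mul_zero, zero_mul]
    | add u v _ _ hu hv => rw [mul_add, add_mul, hu, hv, add_zero]
    | smul c u _ hu => rw [mul_smul_comm, smul_mul_assoc, hu, smul_zero]
  have hPp := k.idP H.PP
  have hQq := k.idQ H.QQ
  obtain ⟨u, hu⟩ : ∃ u, u = (P - p) * x' * (Q - q) := ⟨_, rfl⟩
  rw [← hu] at hx'0
  have hum : u ∈ pos G P Q := by rw [hu]; exact k.mem0 hx'.1.1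
  have humin : IsMin G P Q u := by
    refine ⟨⟨hum, hx'0⟩, fun z hz => le_trans ?_ (hx'.2 z hz)⟩
    rw [hu]
    exact le_trans (rank_mul_le_left _ _) (rank_mul_le_right _ _)
  have hu1 : (P - p) * u = u := by rw [hu, ← mul_assoc, ← mul_assoc, hPp]
  have hu2 : u * (Q - q) = u := by rw [hu, mul_assoc, hQq]
  obtain ⟨y, hy, hxy, hyx⟩ := exists_partner H hum
  obtain ⟨v, hv⟩ : ∃ v, v = (Q - q) * y * (P - p) := ⟨_, rfl⟩
  have hvm : v ∈ pos G Q P := by rw [hv]; exact (trp_symm H k).mem0 hy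
  have huvu : u * v * u = u := by
    rw [hv]
    calc u * ((Q - q) * y * (P - p)) * u = (u * (Q - q)) * y * ((P - p) * u) := by noncomm_ring
    _ = u := by rw [hu1, hu2, hxy]
  obtain ⟨r, hr⟩ : ∃ r, r = u * v := ⟨_, rfl⟩
  have rr : r * r = r := by rw [hr, ← mul_assoc, huvu]
  have hv2 : v * (P - p) = v := by rw [hv, mul_assoc, hPp]
  have h1r : (P - p) * r = r := by rw [hr, ← mul_assoc, hu1]
  have hr1 : r * (P - p) = r := by rw [hr, mul_assoc, hv2]
  have hrc : r ∈ LieI.cor G P := by rw [hr]; exact xy_cor H hum hvm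
  have hpc : p ∈ LieI.cor G P := by rw [hp]; exact xy_cor H he.1.1 hf
  have hPc : P ∈ LieI.cor G P := ⟨P, HI.mP, rfl, H.PP.symm⟩
  -- traces
  have hrk : u.rank = e.rank := le_antisymm (humin.2 e he.1) (he.2 u ⟨hum, hx'0⟩)
  have hidr : ∀ {e p : Matrix B B ℂ} {f : Matrix B B ℂ}, p * e = e → p = e * f →
      LinearMap.range (mulVecLin p) = LinearMap.range (mulVecLin e) := by
    intro e p f h3 h4
    apply le_antisymm
    · rintro _ ⟨w, rfl⟩
      exact ⟨f *ᵥ w, by rw [mulVecLin_apply, mulVecLin_apply, mulVec_mulVec, ← h4]⟩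
    · rintro _ ⟨w, rfl⟩
      exact ⟨e *ᵥ w, by rw [mulVecLin_apply, mulVecLin_apply, mulVec_mulVec, h3]⟩
  have htrr : trace r = trace p := by
    rw [trace_idemM rr, trace_idemM k.pp, hidr (e := u) (f := v) (by rw [hr, huvu]) hr,
      hidr (e := e) (f := f) k.pe hp]
    exact congrArg _ hrk
  obtain ⟨m, hm⟩ : ∃ m : ℕ, trace p = m := ⟨_, trace_idemM k.pp⟩
  obtain ⟨m', hm'⟩ : ∃ m' : ℕ, trace (P - p) = m' := ⟨_, trace_idemM hPp⟩
  have hsum : m + m' = a := by
    have h3 : (m : ℂ) + m' = a := by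
      rw [← hm, ← hm', ← trace_add, add_sub_cancel, H.trP]
    exact_mod_cast h3
  have hmm' : m ≠ m' := by
    rintro rfl
    apply ht2
    rw [hm, ← hsum]
    push_cast
    rfl
  have hm0 : 0 < m := by
    rcases Nat.eq_zero_or_pos m with h3 | h3
    · exfalso
      apply trp_ne k
      rw [hm, h3, Nat.cast_zero]
    · exact h3
  have hr0 : r ≠ 0 := by
    intro h3
    rw [← hr, h3, zero_mul] at huvu
    exact hx'0 huvu.symm
  have hm'0 : 0 < m' := by
    rcases Nat.eq_zero_or_pos m' with h3 | h3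
    · exfalso
      apply hr0
      have h4 : P - p = 0 := idem_zero hPp (by rw [hm', h3, Nat.cast_zero])
      rw [← h1r, h4, zero_mul]
    · exact h3
  -- the corner
  have HC := HI.cor_lieI k.pp k.Pp k.pP hpc
  have H' := cor_lieP H HI hI ha ha k.pp hpc hm hm'
  have hI' := cor_irrXY H hI k HC H' hm0 hm'0
  obtain ⟨e', f', p', q', k'⟩ := exists_trp H' hm0 hm'0
  by_cases h0 : ∀ x ∈ pos (LieI.cor G P) p (P - p), (p - p') * x * (P - p - q') = 0
  · exfalso
    apply ht1
    refine rank_one_pair H' hI' k' h0 hrc rr h1r hr1 hr0 fun h3 => ?_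
    apply hmm'
    have h4 := hm'
    rw [sub_eq_zero.1 h3, htrr, hm] at h4
    exact_mod_cast h4
  · push Not at h0
    obtain ⟨z, hz, hz0⟩ := h0
    obtain ⟨hp'c, hp't⟩ := mem_one_of_two H' (by rw [add_sub_cancel]; exact hPc)
      (cor_nd H HI hI ha ha) hI' hmm' k' hz hz0
    have hCI : LieI (LieI.cor G P) P 0 :=
      { br := H'.br
        PP := H.PP
        QQ := by rw [mul_zero]
        PQ := by rw [mul_zero]
        QP := by rw [zero_mul]
        mP := hPc
        lel := fun X hX => by rw [add_zero]; exact (cor_P H.PP hX).1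
        ler := fun X hX => by rw [add_zero]; exact (cor_P H.PP hX).2
        irr := by
          intro U h3 h4
          rw [add_zero] at h3 ⊢
          have h5 := HC.irr U
          rw [add_sub_cancel] at h5
          exact h5 h3 h4 }
    exact full_of_one hCI (fun X _ => ⟨mul_zero _, zero_mul _⟩) hp'c k'.pp hp't H.PP h1 h2

/-- **The invariant form** if there are two orthogonal elements. -/
theorem exists_form_two (H : LieP G P Q a a) (hR : P + Q ∈ G) (hI : IrrXY G P Q) (ha : 0 < a)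
    (hNR : NR1 G P Q) {e f : Matrix B B ℂ} (he : IsMin G P Q e) (hf : f ∈ pos G Q P)
    (hefe : e * f * e = e) (hfef : f * e * f = f) (ht2 : trace (e * f) + trace (e * f) ≠ a)
    {x : Matrix B B ℂ} (hx : x ∈ pos G P Q) (hx0 : (P - e * f) * x * (Q - f * e) ≠ 0) :
    ∃ N : Matrix B B ℂ, (∀ v v' : B → ℂ, v ⬝ᵥ (N *ᵥ v') = v' ⬝ᵥ (N *ᵥ v)) ∧ N ≠ 0 ∧
      ∀ X ∈ G, ∃ μ : ℂ, ∀ v v' : B → ℂ,
        (X *ᵥ v) ⬝ᵥ (N *ᵥ v') + v ⬝ᵥ (N *ᵥ (X *ᵥ v')) = μ * (v ⬝ᵥ (N *ᵥ v')) := by
  have k := trp_of_pair H he hf hefe hfef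
  obtain ⟨m, hm⟩ : ∃ m : ℕ, trace (e * f) = m := ⟨_, trace_idemM k.pp⟩
  have hm0 : 1 ≤ m := by
    rcases Nat.eq_zero_or_pos m with h3 | h3
    · exfalso
      apply trp_ne k
      rw [hm, h3, Nat.cast_zero]
    · exact h3
  have hm2 := k.two_le hNR hm hm0
  have ht2' : trace (f * e) + trace (f * e) ≠ a := by rw [trace_mul_comm]; exact ht2
  have ht : trace (e * f) ≠ 1 := by
    rw [hm]
    intro h3
    have h4 : m = 1 := by exact_mod_cast h3
    omega
  have hf' := isMin_symm H he hf hefe hfef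
  have k' := trp_symm H k
  have hR' : Q + P ∈ G := by rwa [add_comm]
  have ht' : trace (f * e) ≠ 1 := by rw [trace_mul_comm]; exact ht
  have hy : ∃ y ∈ pos G Q P, (Q - f * e) * y * (P - e * f) ≠ 0 := by
    by_contra hcon
    push Not at hcon
    exact hx0 (no_two_symm H.symm k' hcon x hx)
  obtain ⟨y, hy, hy0⟩ := hy
  have fP : ∀ w, P * w = w → w * P = w → w ∈ LieI.cor G P := fun w h1 h2 =>
    full_P H hR hI ha he hf hefe hfef ht2 ht hx hx0 h1 h2
  have fQ : ∀ w, Q * w = w → w * Q = w → w ∈ LieI.cor G Q := fun w h1 h2 =>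
    full_P H.symm hR' hI.symm ha hf' he.1.1 hfef hefe ht2' ht' hy hy0 h1 h2
  have hP0 : P ≠ 0 := by
    intro h3
    have h4 := H.trP
    rw [h3, trace_zero] at h4
    have h5 : a = 0 := by exact_mod_cast h4.symm
    omega
  have hQ0 : Q ≠ 0 := by
    intro h3
    have h4 := H.trQ
    rw [h3, trace_zero] at h4
    have h5 : a = 0 := by exact_mod_cast h4.symm
    omega
  have hPp : P - e * f ≠ 0 := by
    intro h3
    apply hx0
    rw [h3, zero_mul, zero_mul]
  have c : Ctx G P Q a e f (e * f) (f * e) :=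
    { H := H
      k := k
      kP := fun n hn h1 h2 => ker_scalar H.symm hI.symm hQ0 (nr1_symm H hNR) fP hn h1 h2
      kQ := fun n hn h1 h2 => ker_scalar H hI hP0 hNR fQ hn h1 h2
      fP := fP
      fQ := fQ
      ht := ht
      hPp := hPp }
  have h3 : trace (P - e * f) ≠ 1 := by
    intro h4
    obtain ⟨v, φ, h5, -, -, -⟩ := exists_vec (k.idP H.PP) h4
    apply hx0
    refine hNR _ (k.mem0 hx) v fun u => ?_
    refine ⟨φ ⬝ᵥ ((x * (Q - f * e)) *ᵥ u), ?_⟩
    rw [← vm, ← h5, mulVec_mulVec, ← mul_assoc]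
  obtain ⟨v1, φ1, v2, φ2, t⟩ := exists_two k.pp c.p0 ht
  obtain ⟨Θ, T0, T1, T2, T3, T4, T5, T6⟩ := c.exTheta t
  exact c.exists_form t (Θ := Θ) ⟨T0, T1, T2, T3, T4, T5, T6⟩ h3 hI ha

/-- **The invariant form** if there are no elements of rank one. -/
theorem exists_form_of (H : LieP G P Q a a) (hR : P + Q ∈ G) (hI : IrrXY G P Q) (ha : 0 < a)
    (hhalf : ∀ e f, IsMin G P Q e → f ∈ pos G Q P → e * f * e = e → f * e * f = f →
      (∃ x ∈ pos G P Q, (P - e * f) * x * (Q - f * e) ≠ 0) →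
      trace (e * f) + trace (e * f) ≠ a)
    (hNR : NR1 G P Q) (hnb : ∀ t : ℕ, 2 ≤ t → a ≠ (2 * t - 1).choose t) :
    ∃ N : Matrix B B ℂ, (∀ v v' : B → ℂ, v ⬝ᵥ (N *ᵥ v') = v' ⬝ᵥ (N *ᵥ v)) ∧ N ≠ 0 ∧
      ∀ X ∈ G, ∃ μ : ℂ, ∀ v v' : B → ℂ,
        (X *ᵥ v) ⬝ᵥ (N *ᵥ v') + v ⬝ᵥ (N *ᵥ (X *ᵥ v')) = μ * (v ⬝ᵥ (N *ᵥ v')) := by
  obtain ⟨e, he⟩ := exists_min H ha ha
  obtain ⟨f, hf, hefe, hfef⟩ := exists_partner H he.1.1
  have k := trp_of_pair H he hf hefe hfef
  obtain ⟨m, hm⟩ : ∃ m : ℕ, trace (e * f) = m := ⟨_, trace_idemM k.pp⟩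
  have hm0 : 1 ≤ m := by
    rcases Nat.eq_zero_or_pos m with h3 | h3
    · exfalso
      apply trp_ne k
      rw [hm, h3, Nat.cast_zero]
    · exact h3
  have hm2 := k.two_le hNR hm hm0
  by_cases h0 : ∀ x ∈ pos G P Q, (P - e * f) * x * (Q - f * e) = 0
  · exfalso
    obtain ⟨d, s, t, hst, h1, h2⟩ := binom H k h0 hI
    have hst' : s = t := by
      have h3 : d.choose t = d.choose s := by rw [← h1, ← h2]
      have h4 := Nat.choose_symm_of_eq_add (n := d) (a := t) (b := d - t)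
      rcases Nat.eq_zero_or_pos t with h5 | h5
      · subst h5
        rw [Nat.choose_eq_zero_of_lt (show d < s by omega)] at h3
        rw [Nat.choose_zero_right] at h3
        omega
      · have h6 : t ≤ d := by
          by_contra h7
          rw [Nat.choose_eq_zero_of_lt (by omega)] at h1
          omega
        have h8 : d.choose s = d.choose (t - 1) := by
          have h9 : d = s + (t - 1) := by omega
          exact Nat.choose_symm_of_eq_add h9
        obtain ⟨r, rfl⟩ : ∃ r, t = r + 1 := ⟨t - 1, by omega⟩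
        rw [Nat.add_sub_cancel] at h8
        have h10 := Nat.choose_succ_right_eq d r
        rw [h3, h8] at h10
        have h11 : 0 < d.choose r := by
          rw [← h8, ← h2]
          exact ha
        have h12 := Nat.eq_of_mul_eq_mul_left h11 h10
        omega
    subst hst'
    have hd : d = 2 * s - 1 := by omega
    subst hd
    refine hnb s ?_ h1
    by_contra hs
    obtain rfl : s = 1 := by omega
    have h3 := H.trP
    have h5 : a = 1 := by rw [h1]; rfl
    subst h5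
    -- rank one
    have h6 := trace_idemM (k.idP H.PP)
    rw [trace_sub, H.trP, hm] at h6
    have h7 : ((1 : ℕ) : ℂ) = ((finrank ℂ (LinearMap.range
        (mulVecLin (P - e * f))) + m : ℕ) : ℂ) := by
      push_cast
      push_cast at h6
      rw [← h6]
      ring
    have h8 := Nat.cast_injective h7
    omega
  · push Not at h0
    obtain ⟨x, hx, hx0⟩ := h0
    exact exists_form_two H hR hI ha hNR he hf hefe hfef (hhalf e f he hf hefe hfef ⟨x, hx, hx0⟩)
      hx hx0

end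

end Pool.Agent.K9h17.D
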