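import Mathlib

/-!
# Irreducible spaces of operators with scalar squares

If a space of operators on a complex vector space is irreducible and the square of each of its
elements is a scalar, then the dimension of the vector space is a power of two.
-/

set_option linter.unusedSectionVars false

namespace Pool.Agent.K9h17.D

open Module

noncomputable section

section one

variable {W : Type} [AddCommGroup W] [Module ℂ W]

theorem polar {A : Submodule ℂ (End ℂ W)} (hsq : ∀ M ∈ A, ∃ c : ℂ, M * M = c • 1)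
    {M N : End ℂ W} (hM : M ∈ A) (hN : N ∈ A) : ∃ c : ℂ, M * N + N * M = c • 1 := by
  obtain ⟨a, ha⟩ := hsq M hM
  obtain ⟨b, hb⟩ := hsq N hN
  obtain ⟨c, hc⟩ := hsq _ (A.add_mem hM hN)
  refine ⟨c - a - b, ?_⟩
  rw [sub_smul, sub_smul, ← hc, ← ha, ← hb]
  noncomm_ring

theorem ker_false {A : Submodule ℂ (End ℂ W)} {M : End ℂ W} (h0 : M ≠ 0) (hMM : M * M = 0)
    (hirr : ∀ U : Submodule ℂ W, (∀ M ∈ A, ∀ u ∈ U, M u ∈ U) → U = ⊥ ∨ U = ⊤)
    (hA : ∀ N ∈ A, M * N = -(N * M)) : False := by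
  rcases hirr (LinearMap.ker M) (fun N hN u hu => by
    rw [LinearMap.mem_ker] at hu ⊢
    rw [← Module.End.mul_apply, hA N hN, LinearMap.neg_apply, Module.End.mul_apply, hu, map_zero,
      neg_zero]) with h1 | h1
  · apply h0
    refine LinearMap.ext fun u => ?_
    have h2 : M u ∈ LinearMap.ker M := by
      rw [LinearMap.mem_ker, ← Module.End.mul_apply, hMM, LinearMap.zero_apply]
    rw [h1, Submodule.mem_bot] at h2
    exact h2
  · exact h0 (LinearMap.ker_eq_top.1 h1)

theorem exists_unit {A : Submodule ℂ (End ℂ W)} (hsq : ∀ M ∈ A, ∃ c : ℂ, M * M = c • 1)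
    (h : ¬∀ M ∈ A, M * M = 0) : ∃ D ∈ A, D * D = 1 := by
  push Not at h
  obtain ⟨M, hM, h0⟩ := h
  obtain ⟨c, hc⟩ := hsq M hM
  have hc0 : c ≠ 0 := by
    rintro rfl
    rw [zero_smul] at hc
    exact h0 hc
  obtain ⟨z, hz⟩ := IsAlgClosed.exists_pow_nat_eq c (n := 2) (by norm_num)
  have hz0 : z ≠ 0 := by
    rintro rfl
    rw [zero_pow (by norm_num)] at hz
    exact hc0 hz.symm
  refine ⟨z⁻¹ • M, A.smul_mem _ hM, ?_⟩
  rw [smul_mul_smul_comm, hc, smul_smul, ← hz]
  have h1 : z⁻¹ * z⁻¹ * z ^ 2 = 1 := by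
    field_simp
  rw [h1, one_smul]

end one

/-- **The dimension is a power of two.** -/
theorem pow_two_of_clifford (n : ℕ) : ∀ (W : Type) [AddCommGroup W] [Module ℂ W]
    [FiniteDimensional ℂ W], finrank ℂ W = n → 0 < n → ∀ A : Submodule ℂ (End ℂ W),
    (∀ M ∈ A, ∃ c : ℂ, M * M = c • 1) →
    (∀ U : Submodule ℂ W, (∀ M ∈ A, ∀ u ∈ U, M u ∈ U) → U = ⊥ ∨ U = ⊤) → ∃ k, n = 2 ^ k := by
  induction n using Nat.strong_induction_on with
  | _ n ih =>
  intro W _ _ _ hn hn0 A hsq hirr
  have hnt : Nontrivial W := Module.nontrivial_of_finrank_pos (R := ℂ) (by rw [hn]; exact hn0)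
  have h10 : (1 : End ℂ W) ≠ 0 := one_ne_zero
  by_cases hsc : ∀ M ∈ A, ∃ c : ℂ, M = c • 1
  · -- scalars
    obtain ⟨v, hv⟩ := exists_ne (0 : W)
    have h1 : (Submodule.span ℂ {v}) = ⊤ := by
      refine (hirr (Submodule.span ℂ {v}) fun M hM u hu => ?_).resolve_left fun h => ?_
      · obtain ⟨c, rfl⟩ := hsc M hM
        rw [LinearMap.smul_apply, Module.End.one_apply]
        exact Submodule.smul_mem _ _ hu
      · rw [Submodule.span_singleton_eq_bot] at h
        exact hv h
    refine ⟨0, ?_⟩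
    rw [← hn, pow_zero, ← finrank_top ℂ W, ← h1, finrank_span_singleton hv]
  push Not at hsc
  obtain ⟨M0, hM0, hM0'⟩ := hsc
  -- no scalars in `A`
  have hns : ∀ c : ℂ, c • (1 : End ℂ W) ∈ A → c = 0 := by
    intro c hc
    by_contra hc0
    obtain ⟨d, hd⟩ := polar hsq hM0 hc
    rw [mul_smul_comm, smul_mul_assoc, mul_one, one_mul, ← two_smul ℂ, smul_smul] at hd
    refine hM0' ((2 * c)⁻¹ * d) ?_
    rw [mul_smul, ← hd, smul_smul, inv_mul_cancel₀ (mul_ne_zero two_ne_zero hc0), one_smul]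
  obtain ⟨D, hD, hDD⟩ := exists_unit hsq fun h => by
    refine ker_false (M := M0) ?_ (h M0 hM0) hirr fun N hN => ?_
    · rintro rfl
      exact hM0' 0 (by rw [zero_smul])
    · have h1 := h _ (A.add_mem hM0 hN)
      have e1 : (M0 + N) * (M0 + N) = M0 * M0 + N * N + (M0 * N + N * M0) := by noncomm_ring
      rw [e1, h _ hM0, h _ hN, add_zero, zero_add] at h1
      exact eq_neg_of_add_eq_zero_left h1
  have hDs : ∀ c : ℂ, D ≠ c • 1 := by
    intro c hc
    have h1 := hns c (hc ▸ hD)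
    rw [h1, zero_smul] at hc
    rw [hc, zero_mul] at hDD
    exact h10 hDD.symm
  -- the part which anticommutes with `D`
  let A' : Submodule ℂ (End ℂ W) :=
    { carrier := {M | M ∈ A ∧ M * D = -(D * M)}
      zero_mem' := ⟨A.zero_mem, by rw [zero_mul, mul_zero, neg_zero]⟩
      add_mem' := fun {M N} hM hN => ⟨A.add_mem hM.1 hN.1, by
        rw [add_mul, mul_add, hM.2, hN.2, neg_add]⟩
      smul_mem' := fun c M hM => ⟨A.smul_mem c hM.1, by
        rw [smul_mul_assoc, mul_smul_comm, hM.2, smul_neg]⟩ }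
  have hdec : ∀ M ∈ A, ∃ c : ℂ, M - c • D ∈ A' := by
    intro M hM
    obtain ⟨c, hc⟩ := polar hsq hM hD
    refine ⟨c / 2, A.sub_mem hM (A.smul_mem _ hD), ?_⟩
    rw [sub_mul, mul_sub, smul_mul_assoc, mul_smul_comm, hDD]
    have h1 : M * D = c • 1 - D * M := by rw [← hc]; abel
    rw [h1]
    module
  have hA'le : A' ≤ A := fun M hM => hM.1
  have hsq' : ∀ M ∈ A', ∃ c : ℂ, M * M = c • 1 := fun M hM => hsq M hM.1
  obtain ⟨E, hE, hEE⟩ := exists_unit hsq' fun h => by
    by_cases h0 : ∀ M ∈ A', M = 0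
    · -- then `A` is spanned by `D`
      have h1 : ∀ M ∈ A, ∃ c : ℂ, M = c • D := by
        intro M hM
        obtain ⟨c, hc⟩ := hdec M hM
        exact ⟨c, sub_eq_zero.1 (h0 _ hc)⟩
      rcases hirr (LinearMap.ker (D - 1)) (fun M hM u hu => by
        obtain ⟨c, rfl⟩ := h1 M hM
        rw [LinearMap.mem_ker, LinearMap.sub_apply, Module.End.one_apply, sub_eq_zero] at hu ⊢
        rw [LinearMap.smul_apply, hu, map_smul, hu]) with h2 | h2
      · refine hDs (-1) (LinearMap.ext fun u => ?_)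
        have h3 : D u + u ∈ LinearMap.ker (D - 1) := by
          rw [LinearMap.mem_ker, LinearMap.sub_apply, Module.End.one_apply, map_add,
            ← Module.End.mul_apply, hDD, Module.End.one_apply]
          abel
        rw [h2, Submodule.mem_bot] at h3
        rw [LinearMap.smul_apply, Module.End.one_apply, neg_one_smul]
        exact eq_neg_of_add_eq_zero_left h3
      · refine hDs 1 ?_
        rw [one_smul]
        exact sub_eq_zero.1 (LinearMap.ker_eq_top.1 h2)
    · push Not at h0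
      obtain ⟨M, hM, hM1⟩ := h0
      refine ker_false (M := M) hM1 (h M hM) hirr fun N hN => ?_
      obtain ⟨c, hc⟩ := hdec N hN
      have h1 := h _ (A'.add_mem hM hc)
      have e1 : (M + (N - c • D)) * (M + (N - c • D)) = M * M + (N - c • D) * (N - c • D) +
          (M * N + N * M) - c • (M * D + D * M) := by
        simp only [mul_add, add_mul, mul_sub, sub_mul, mul_smul_comm, smul_mul_assoc, smul_add]
        abel
      rw [e1, h _ hM, h _ hc, add_zero, zero_add, hM.2, neg_add_cancel, smul_zero, sub_zero] at h1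
      exact eq_neg_of_add_eq_zero_left h1
  have hED : E * D = -(D * E) := hE.2
  let A2 : Submodule ℂ (End ℂ W) :=
    { carrier := {M | M ∈ A' ∧ M * E = -(E * M)}
      zero_mem' := ⟨A'.zero_mem, by rw [zero_mul, mul_zero, neg_zero]⟩
      add_mem' := fun {M N} hM hN => ⟨A'.add_mem hM.1 hN.1, by
        rw [add_mul, mul_add, hM.2, hN.2, neg_add]⟩
      smul_mem' := fun c M hM => ⟨A'.smul_mem c hM.1, by
        rw [smul_mul_assoc, mul_smul_comm, hM.2, smul_neg]⟩ }
  have hdec2 : ∀ M ∈ A, ∃ c d : ℂ, M - c • D - d • E ∈ A2 := by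
    intro M hM
    obtain ⟨c, hc⟩ := hdec M hM
    obtain ⟨d, hd⟩ := polar hsq' hc hE
    refine ⟨c, d / 2, A'.sub_mem hc (A'.smul_mem _ hE), ?_⟩
    rw [sub_mul _ _ E, mul_sub E, smul_mul_assoc, mul_smul_comm, hEE]
    have h1 : (M - c • D) * E = d • 1 - E * (M - c • D) := by rw [← hd]; abel
    rw [h1]
    module
  -- the eigenspace
  let Wp : Submodule ℂ W := LinearMap.ker (D - 1)
  have hWp : ∀ u, u ∈ Wp ↔ D u = u := by
    intro u
    change u ∈ LinearMap.ker (D - 1) ↔ _
    rw [LinearMap.mem_ker, LinearMap.sub_apply, Module.End.one_apply, sub_eq_zero]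
  have hDE : ∀ u, D u = u → D (E u) = -E u := by
    intro u hu
    have h1 := LinearMap.congr_fun hED u
    rw [Module.End.mul_apply, LinearMap.neg_apply, Module.End.mul_apply, hu] at h1
    exact neg_eq_iff_eq_neg.1 h1.symm
  have hEEu : ∀ u, E (E u) = u := fun u => by
    rw [← Module.End.mul_apply, hEE, Module.End.one_apply]
  have hDDu : ∀ u, D (D u) = u := fun u => by
    rw [← Module.End.mul_apply, hDD, Module.End.one_apply]
  have h2z : ∀ u : W, u = -u → u = 0 := by
    intro u hu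
    have h1 : (2 : ℂ) • u = 0 := by
      rw [two_smul]
      nth_rewrite 1 [hu]
      rw [neg_add_cancel]
    exact (smul_eq_zero.1 h1).resolve_left two_ne_zero
  let φ : (Wp × Wp) →ₗ[ℂ] W :=
    Wp.subtype.comp (LinearMap.fst ℂ Wp Wp) + (E.comp Wp.subtype).comp (LinearMap.snd ℂ Wp Wp)
  have hφ : ∀ x : Wp × Wp, φ x = (x.1 : W) + E (x.2 : W) := fun x => rfl
  have hφi : Function.Injective φ := by
    rw [← LinearMap.ker_eq_bot, Submodule.eq_bot_iff]
    intro x hx
    rw [LinearMap.mem_ker, hφ] at hx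
    have h1 : (x.1 : W) - E (x.2 : W) = 0 := by
      have h2 := congrArg D hx
      rw [map_add, (hWp _).1 x.1.2, hDE _ ((hWp _).1 x.2.2), map_zero] at h2
      rw [sub_eq_add_neg]
      exact h2
    have h3 : (x.1 : W) = 0 := by
      refine h2z _ ?_
      have h4 : (x.1 : W) = E (x.2 : W) := sub_eq_zero.1 h1
      have h5 : (x.1 : W) = -E (x.2 : W) := eq_neg_of_add_eq_zero_left hx
      rw [← h4] at h5
      exact h5
    have h4 : E (x.2 : W) = 0 := by rw [h3, zero_add] at hx; exact hx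
    have h5 : (x.2 : W) = 0 := by rw [← hEEu (x.2 : W), h4, map_zero]
    exact Prod.ext (Subtype.ext h3) (Subtype.ext h5)
  have hφs : Function.Surjective φ := by
    intro w
    have h1 : (1 / 2 : ℂ) • (w + D w) ∈ Wp := by
      rw [hWp, map_smul, map_add, hDDu, add_comm]
    have h2 : (1 / 2 : ℂ) • E (w - D w) ∈ Wp := by
      rw [hWp, map_smul]
      congr 1
      have h3 := LinearMap.congr_fun hED (w - D w)
      rw [Module.End.mul_apply, LinearMap.neg_apply, Module.End.mul_apply, map_sub D, hDDu] at h3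
      have h4 : D w - w = -(w - D w) := by abel
      rw [h4, map_neg, neg_inj] at h3
      exact h3.symm
    refine ⟨(⟨_, h1⟩, ⟨_, h2⟩), ?_⟩
    rw [hφ]
    change (1 / 2 : ℂ) • (w + D w) + E ((1 / 2 : ℂ) • E (w - D w)) = w
    rw [map_smul, hEEu]
    module
  have hdim : n = finrank ℂ Wp + finrank ℂ Wp := by
    rw [← hn, ← Module.finrank_prod]
    exact (LinearEquiv.ofBijective φ ⟨hφi, hφs⟩).finrank_eq.symm
  have hp0 : 0 < finrank ℂ Wp := by omega
  have hEM : ∀ M ∈ A2, ∀ u, D u = u → D (E (M u)) = E (M u) := by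
    intro M hM u hu
    have h1 := LinearMap.congr_fun hM.1.2 u
    rw [Module.End.mul_apply, LinearMap.neg_apply, Module.End.mul_apply, hu] at h1
    have h2 := LinearMap.congr_fun hED (M u)
    rw [Module.End.mul_apply, LinearMap.neg_apply, Module.End.mul_apply] at h2
    have h3 : D (M u) = -M u := neg_eq_iff_eq_neg.1 h1.symm
    rw [h3, map_neg, neg_inj] at h2
    exact h2.symm
  let B : Submodule ℂ (End ℂ Wp) :=
    { carrier := {T | ∃ M ∈ A2, ∀ u : Wp, (T u : W) = E (M u)}
      zero_mem' := ⟨0, A2.zero_mem, fun u => by simp⟩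
      add_mem' := by
        rintro T T' ⟨M, hM, h1⟩ ⟨M', hM', h2⟩
        refine ⟨M + M', A2.add_mem hM hM', fun u => ?_⟩
        rw [LinearMap.add_apply, Submodule.coe_add, h1, h2, LinearMap.add_apply, map_add]
      smul_mem' := by
        rintro c T ⟨M, hM, h1⟩
        refine ⟨c • M, A2.smul_mem c hM, fun u => ?_⟩
        rw [LinearMap.smul_apply, Submodule.coe_smul, h1, LinearMap.smul_apply, map_smul] }
  have hBex : ∀ M ∈ A2, ∃ T ∈ B, ∀ u : Wp, (T u : W) = E (M u) := by
    intro M hM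
    let T : End ℂ Wp := (E.comp M).restrict (p := Wp) (q := Wp) fun u hu => by
      rw [hWp] at hu ⊢
      exact hEM M hM u hu
    exact ⟨T, ⟨M, hM, fun u => rfl⟩, fun u => rfl⟩
  obtain ⟨k, hk⟩ := ih (finrank ℂ Wp) (by omega) Wp rfl hp0 B (by
    rintro T ⟨M, hM, hT⟩
    obtain ⟨c, hc⟩ := hsq M hM.1.1
    refine ⟨-c, LinearMap.ext fun u => Subtype.ext ?_⟩
    rw [Module.End.mul_apply, hT, hT, LinearMap.smul_apply, Module.End.one_apply,
      Submodule.coe_smul]
    have h1 := LinearMap.congr_fun hM.2 (M u)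
    rw [Module.End.mul_apply, LinearMap.neg_apply, Module.End.mul_apply] at h1
    have h2 : M (M (u : W)) = c • (u : W) := by
      rw [← Module.End.mul_apply, hc, LinearMap.smul_apply, Module.End.one_apply]
    rw [h1, h2, map_neg, hEEu, neg_smul]) (by
    intro U hU
    let U' : Submodule ℂ W := (U.map Wp.subtype) ⊔ ((U.map Wp.subtype).map E)
    have hmem : ∀ w, w ∈ U' ↔ ∃ u ∈ U, ∃ v ∈ U, w = (u : W) + E (v : W) := by
      intro w
      constructor
      · intro hw
        obtain ⟨_, ⟨u, hu, rfl⟩, _, ⟨_, ⟨v, hv, rfl⟩, rfl⟩, rfl⟩ := Submodule.mem_sup.1 hw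
        exact ⟨u, hu, v, hv, rfl⟩
      · rintro ⟨u, hu, v, hv, rfl⟩
        exact Submodule.add_mem_sup ⟨u, hu, rfl⟩ ⟨_, ⟨v, hv, rfl⟩, rfl⟩
    rcases hirr U' (by
      intro M hM w hw
      obtain ⟨u, hu, v, hv, rfl⟩ := (hmem w).1 hw
      obtain ⟨c, d, hcd⟩ := hdec2 M hM
      obtain ⟨N, hN⟩ : ∃ N, N = M - c • D - d • E := ⟨_, rfl⟩
      rw [← hN] at hcd
      obtain ⟨T, hT, hTu⟩ := hBex N hcd
      have e1 : M = N + c • D + d • E := by rw [hN]; abel
      have e2 : N (u : W) = E (E (N u)) := (hEEu _).symm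
      have e3 : N (E (v : W)) = -E (N v) := by
        have h1 := LinearMap.congr_fun hcd.2 (v : W)
        exact h1
      rw [hmem]
      refine ⟨-T v + c • u + d • v, U.add_mem (U.add_mem (U.neg_mem (hU T hT v hv))
        (U.smul_mem c hu)) (U.smul_mem d hv), T u - c • v + d • u,
        U.add_mem (U.sub_mem (hU T hT u hu) (U.smul_mem c hv)) (U.smul_mem d hu), ?_⟩
      rw [e1]
      simp only [LinearMap.add_apply, LinearMap.smul_apply, map_add, map_sub, map_smul,
        Submodule.coe_add, Submodule.coe_sub, Submodule.coe_neg, Submodule.coe_smul, hTu]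
      rw [e3, (hWp _).1 u.2, hDE _ ((hWp _).1 v.2), hEEu, hEEu]
      module) with h1 | h1
    · left
      rw [Submodule.eq_bot_iff] at h1 ⊢
      intro u hu
      apply Subtype.ext
      refine h1 u ((hmem _).2 ⟨u, hu, 0, U.zero_mem, by simp⟩)
    · right
      rw [Submodule.eq_top_iff']
      intro w
      obtain ⟨u, hu, v, hv, h2⟩ := (hmem (w : W)).1 (by rw [h1]; trivial)
      have h3 := congrArg D h2
      rw [map_add, (hWp _).1 w.2, (hWp _).1 u.2, hDE _ ((hWp _).1 v.2)] at h3
      have h4 : w = u := by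
        apply Subtype.ext
        have h5 : (2 : ℂ) • ((w : W) - u) = 0 := by
          have e1 : (2 : ℂ) • ((w : W) - u) = (w : W) - u + ((w : W) - u) := two_smul _ _
          rw [e1]
          nth_rewrite 1 [h2]
          rw [h3]
          abel
        exact sub_eq_zero.1 ((smul_eq_zero.1 h5).resolve_left two_ne_zero)
      rw [h4]
      exact hu)
  exact ⟨k + 1, by rw [hdim, hk, pow_succ]; ring⟩

end

end Pool.Agent.K9h17.D
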