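import Mathlib
import Pool.Agent.K9h17.B.Full
import Pool.Agent.K9h17.D.Cliff

/-!
# The case that the minimal rank is half of the multiplicity
-/

set_option linter.unusedSectionVars false

namespace Pool.Agent.K9h17.D

open Matrix Module
open Pool.Agent.Y4.G (trF trF_apply exists_dual exists_eig_range trace_idemM rank_mul_lt)
open Pool.Agent.Y4.G.Lie (pos mem_pos)
open Pool.Agent.N183.JP
open Pool.Agent.K9h17.L
open Pool.Agent.K9h17.B

noncomputable section

variable {B : Type} [Fintype B] [DecidableEq B]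

variable {G : Submodule ℂ (Matrix B B ℂ)} {P Q : Matrix B B ℂ} {a : ℕ}

/-- An idempotent below another one with the same trace. -/
theorem idem_eq {r s : Matrix B B ℂ} (rr : r * r = r) (ss : s * s = s) (h1 : s * r = r)
    (h2 : r * s = r) (ht : trace r = trace s) : r = s := by
  have h3 : (s - r) * (s - r) = s - r := by
    have e1 : (s - r) * (s - r) = s * s - s * r - r * s + r * r := by noncomm_ring
    rw [e1, ss, h1, h2, rr]
    abel
  have h4 : s - r = 0 := idem_zero h3 (by rw [trace_sub, ht, sub_self])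
  exact (sub_eq_zero.1 h4).symm

/-- A complementary minimal pair. -/
theorem exists_compl (H : LieP G P Q a a) (hI : IrrXY G P Q) (ha : 0 < a)
    {e f : Matrix B B ℂ} (he : IsMin G P Q e) (hf : f ∈ pos G Q P) (hefe : e * f * e = e)
    (hfef : f * e * f = f) (h2 : trace (e * f) + trace (e * f) = a) {x : Matrix B B ℂ}
    (hx : x ∈ pos G P Q) (hx0 : (P - e * f) * x * (Q - f * e) ≠ 0) :
    ∃ u v : Matrix B B ℂ, TrpP G P Q u v (P - e * f) (Q - f * e) := by
  have k := trp_of_pair H he hf hefe hfef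
  obtain ⟨p, hp⟩ : ∃ p, p = e * f := ⟨_, rfl⟩
  obtain ⟨q, hq⟩ : ∃ q, q = f * e := ⟨_, rfl⟩
  rw [← hp, ← hq] at k hx0 ⊢
  rw [← hp] at h2
  obtain ⟨x', hx', hx'0⟩ : ∃ x' : Matrix B B ℂ, IsMin G P Q x' ∧ (P - p) * x' * (Q - q) ≠ 0 := by
    by_contra hcon
    push Not at hcon
    apply hx0
    have h3 := span_min H hI ha ha hx
    clear hx hx0
    induction h3 using Submodule.span_induction with
    | mem u hu => exact hcon u hu
    | zero => rw [mul_zero, zero_mul]
    | add u v _ _ hu hv => rw [mul_add, add_mul, hu, hv, add_zero]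
    | smul c u _ hu => rw [mul_smul_comm, smul_mul_assoc, hu, smul_zero]
  have hPp := k.idP H.PP
  have hQq := k.idQ H.QQ
  obtain ⟨u, hu⟩ : ∃ u, u = (P - p) * x' * (Q - q) := ⟨_, rfl⟩
  rw [← hu] at hx'0
  have hum : u ∈ pos G P Q := by rw [hu]; exact k.mem0 hx'.1.1
  have humin : IsMin G P Q u := by
    refine ⟨⟨hum, hx'0⟩, fun z hz => le_trans ?_ (hx'.2 z hz)⟩
    rw [hu]
    exact le_trans (rank_mul_le_left _ _) (rank_mul_le_right _ _)
  have hu1 : (P - p) * u = u := by rw [hu, ← mul_assoc, ← mul_assoc, hPp]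
  have hu2 : u * (Q - q) = u := by rw [hu, mul_assoc, hQq]
  obtain ⟨y, hy, hxy, hyx⟩ := exists_partner H hum
  obtain ⟨v, hv⟩ : ∃ v, v = (Q - q) * y * (P - p) := ⟨_, rfl⟩
  have hvm : v ∈ pos G Q P := by rw [hv]; exact (trp_symm H k).mem0 hy
  have huvu : u * v * u = u := by
    rw [hv]
    calc u * ((Q - q) * y * (P - p)) * u = (u * (Q - q)) * y * ((P - p) * u) := by noncomm_ring
    _ = u := by rw [hu1, hu2, hxy]
  have hvuv : v * u * v = v := by
    rw [hv]
    calc (Q - q) * y * (P - p) * u * ((Q - q) * y * (P - p)) =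
        (Q - q) * (y * ((P - p) * u * (Q - q)) * y) * (P - p) := by noncomm_ring
    _ = (Q - q) * y * (P - p) := by rw [hu1, hu2, hyx]
  have k' := trp_of_pair H humin hvm huvu hvuv
  have hrk : u.rank = e.rank := le_antisymm (humin.2 e he.1) (he.2 u ⟨hum, hx'0⟩)
  have hidr : ∀ {e p : Matrix B B ℂ} {f : Matrix B B ℂ}, p * e = e → p = e * f →
      LinearMap.range (mulVecLin p) = LinearMap.range (mulVecLin e) := by
    intro e p f h3 h4
    apply le_antisymm
    · rintro _ ⟨w, rfl⟩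
      exact ⟨f *ᵥ w, by rw [mulVecLin_apply, mulVecLin_apply, mulVec_mulVec, ← h4]⟩
    · rintro _ ⟨w, rfl⟩
      exact ⟨e *ᵥ w, by rw [mulVecLin_apply, mulVecLin_apply, mulVec_mulVec, h3]⟩
  have htrr : trace (u * v) = trace p := by
    rw [trace_idemM k'.pp, trace_idemM k.pp, hidr (e := u) (f := v) huvu rfl,
      hidr (e := e) (f := f) k.pe hp]
    exact congrArg _ hrk
  have htP : trace p = trace (P - p) := by
    rw [trace_sub, H.trP, ← h2]
    ring
  have htQ : trace p = trace (Q - q) := by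
    rw [trace_sub, H.trQ, k.trpq, ← h2]
    ring
  have hv2 : v * (P - p) = v := by rw [hv, mul_assoc, hPp]
  have hv1 : (Q - q) * v = v := by rw [hv, ← mul_assoc, ← mul_assoc, hQq]
  have e1 : u * v = P - p := idem_eq k'.pp hPp (by rw [← mul_assoc, hu1]) (by rw [mul_assoc, hv2])
    (htrr.trans htP)
  have e2 : v * u = Q - q := idem_eq k'.qq hQq (by rw [← mul_assoc, hv1]) (by rw [mul_assoc, hu2])
    (by rw [trace_mul_comm, htrr, htQ])
  rw [e1, e2] at k'
  exact ⟨u, v, k'⟩

/-- The squares in the case that the minimal rank is half of the multiplicity. -/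
theorem half_key (H : LieP G P Q a a) {e f u v p q : Matrix B B ℂ} (k : TrpP G P Q e f p q)
    (k' : TrpP G P Q u v (P - p) (Q - q)) (h2 : trace p + trace p = a) :
    ∃ x0 ∈ pos G P Q, ∃ y0 ∈ pos G Q P, x0 * y0 = P ∧ y0 * x0 = Q ∧
      ∀ x ∈ pos G P Q, trace (x * y0) = 0 → ∃ c : ℂ, x * y0 * (x * y0) = c • P := by
  obtain ⟨r, hr⟩ : ∃ r, r = P - p := ⟨_, rfl⟩
  obtain ⟨s, hs⟩ : ∃ s, s = Q - q := ⟨_, rfl⟩
  rw [← hr, ← hs] at k'
  have hPr : P = p + r := by rw [hr]; abel
  have hQs : Q = q + s := by rw [hs]; abel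
  have pr : p * r = 0 := by rw [hr, mul_sub, k.pP, k.pp, sub_self]
  have rp : r * p = 0 := by rw [hr, sub_mul, k.Pp, k.pp, sub_self]
  have qs : q * s = 0 := by rw [hs, mul_sub, k.qQ, k.qq, sub_self]
  have sq : s * q = 0 := by rw [hs, sub_mul, k.Qu, k.qq, sub_self]
  have sf : s * f = 0 := by rw [← k.qf, ← mul_assoc, sq, zero_mul]
  have fr : f * r = 0 := by rw [← k.fp, mul_assoc, pr, mul_zero]
  have qv : q * v = 0 := by rw [← k'.qf, ← mul_assoc, qs, zero_mul]
  have vp : v * p = 0 := by rw [← k'.fp, mul_assoc, rp, mul_zero]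
  have ev : e * v = 0 := by rw [← k.eq, mul_assoc, qv, mul_zero]
  have uf : u * f = 0 := by rw [← k'.eq, mul_assoc, sf, mul_zero]
  have ve : v * e = 0 := by rw [← k.pe, ← mul_assoc, vp, zero_mul]
  have fu : f * u = 0 := by rw [← k'.pe, ← mul_assoc, fr, zero_mul]
  have hm0 := trp_ne k
  have htr' : trace r = trace p := by
    rw [hr, trace_sub, H.trP, ← h2]
    ring
  obtain ⟨y0, hy0⟩ : ∃ y0, y0 = f + v := ⟨_, rfl⟩
  obtain ⟨x0, hx0⟩ : ∃ x0, x0 = e + u := ⟨_, rfl⟩
  have hy0m : y0 ∈ pos G Q P := by rw [hy0]; exact Submodule.add_mem _ k.fmem k'.fmem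
  have hx0m : x0 ∈ pos G P Q := by rw [hx0]; exact Submodule.add_mem _ k.mem k'.mem
  have xy0 : x0 * y0 = P := by
    rw [hx0, hy0, mul_add, add_mul, add_mul, k.ef, uf, ev, k'.ef, hPr, zero_add, add_zero]
  have yx0 : y0 * x0 = Q := by
    rw [hx0, hy0, mul_add, add_mul, add_mul, k.fe, ve, fu, k'.fe, hQs, zero_add, add_zero]
  -- the squares
  refine ⟨x0, hx0m, y0, hy0m, xy0, yx0, ?_⟩
  · intro x hx htx
    obtain ⟨α, hα⟩ : ∃ α, α = p * x * s := ⟨_, rfl⟩
    obtain ⟨β, hβ⟩ : ∃ β, β = r * x * q := ⟨_, rfl⟩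
    obtain ⟨c1, hc1⟩ := k.one _ (k.mem2 x hx) (by
      rw [← mul_assoc, ← mul_assoc, k.pp, mul_assoc, k.qq])
    obtain ⟨c2, hc2⟩ := k'.one _ (k'.mem2 x hx) (by
      rw [← mul_assoc, ← mul_assoc, k'.pp, mul_assoc, k'.qq])
    have hdec : x = c1 • e + c2 • u + (α + β) := by
      have h3 : x = P * x * Q := by rw [hx.2.1, hx.2.2]
      rw [← hc1, ← hc2, hα, hβ]
      nth_rewrite 1 [h3]
      rw [hPr, hQs]
      noncomm_ring
    have hz : α + β ∈ pos G P Q := by
      have h3 : α + β = x - c1 • e - c2 • u := by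
        nth_rewrite 1 [hdec]
        abel
      rw [h3]
      exact Submodule.sub_mem _ (Submodule.sub_mem _ hx (Submodule.smul_mem _ _ k.mem))
        (Submodule.smul_mem _ _ k'.mem)
    have αf : α * f = 0 := by rw [hα, mul_assoc, sf, mul_zero]
    have fβ : f * β = 0 := by rw [hβ, ← mul_assoc, ← mul_assoc, fr, zero_mul, zero_mul]
    have βv : β * v = 0 := by rw [hβ, mul_assoc, qv, mul_zero]
    have vα : v * α = 0 := by rw [hα, ← mul_assoc, ← mul_assoc, vp, zero_mul, zero_mul]
    have hzf : (α + β) * f * (α + β) = β * f * α := by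
      have e1 : (α + β) * f * (α + β) = α * f * (α + β) + β * (f * β) + β * f * α := by
        noncomm_ring
      rw [e1, αf, fβ]
      simp
    have hzv : (α + β) * v * (α + β) = α * v * β := by
      have e1 : (α + β) * v * (α + β) = β * v * (α + β) + α * (v * α) + α * v * β := by
        noncomm_ring
      rw [e1, βv, vα]
      simp
    have rβ : r * β = β := by rw [hβ, ← mul_assoc, ← mul_assoc, k'.pp]
    have βq : β * q = β := by rw [hβ, mul_assoc, k.qq]
    have pα : p * α = α := by rw [hα, ← mul_assoc, ← mul_assoc, k.pp]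
    have αs : α * s = α := by rw [hα, mul_assoc, k'.qq]
    obtain ⟨N, hN⟩ := k'.one (β * f * α) (by rw [← hzf]; exact H.quad hz k.fmem) (by
      rw [← mul_assoc, ← mul_assoc, rβ, mul_assoc, αs])
    obtain ⟨N', hN'⟩ := k.one (α * v * β) (by rw [← hzv]; exact H.quad hz k'.fmem) (by
      rw [← mul_assoc, ← mul_assoc, pα, mul_assoc, βq])
    have hNN : N = N' := by
      have h3 : trace (β * f * α * v) = N * trace p := by
        rw [hN, smul_mul_assoc, k'.ef, trace_smul, htr', smul_eq_mul]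
      have h4 : trace (α * v * β * f) = N' * trace p := by
        rw [hN', smul_mul_assoc, k.ef, trace_smul, smul_eq_mul]
      have h5 : trace (β * f * α * v) = trace (α * v * β * f) := by
        have e1 : β * f * α * v = β * f * (α * v) := by noncomm_ring
        have e2 : α * v * β * f = α * v * (β * f) := by noncomm_ring
        rw [e1, e2, trace_mul_comm]
      rw [h3, h4] at h5
      exact mul_right_cancel₀ hm0 h5
    have hzy : (α + β) * y0 = α * v + β * f := by
      rw [hy0, mul_add, add_mul, add_mul, αf, βv]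
      abel
    have hzz : (α + β) * y0 * ((α + β) * y0) = N • P := by
      have e1 : (α + β) * y0 * ((α + β) * y0) =
          ((α + β) * f * (α + β) + (α + β) * v * (α + β)) * y0 := by
        rw [hy0]
        noncomm_ring
      rw [e1, hzf, hzv, hN, hN', ← hNN, ← smul_add, smul_mul_assoc, add_comm u e, ← hx0, xy0]
    have htz : trace ((α + β) * y0) = 0 := by
      rw [hzy, trace_add]
      have h3 : trace (α * v) = 0 := by
        rw [← pα, mul_assoc, trace_mul_comm, mul_assoc, vp, mul_zero, trace_zero]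
      have h4 : trace (β * f) = 0 := by
        rw [← rβ, mul_assoc, trace_mul_comm, mul_assoc, fr, mul_zero, trace_zero]
      rw [h3, h4, add_zero]
    have hxy : x * y0 = c1 • p + c2 • r + (α + β) * y0 := by
      nth_rewrite 1 [hdec]
      have e1 : e * y0 = p := by rw [hy0, mul_add, k.ef, ev, add_zero]
      have e2 : u * y0 = r := by rw [hy0, mul_add, k'.ef, uf, zero_add]
      rw [add_mul, add_mul, smul_mul_assoc, smul_mul_assoc, e1, e2]
    have hcc : c2 = -c1 := by
      rw [hxy, trace_add, trace_add, trace_smul, trace_smul, htz, htr', add_zero, smul_eq_mul,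
        smul_eq_mul, ← add_mul] at htx
      have h3 := (mul_eq_zero.1 htx).resolve_right hm0
      linear_combination h3
    refine ⟨c1 * c1 + N, ?_⟩
    obtain ⟨w, hw⟩ : ∃ w, w = (α + β) * y0 := ⟨_, rfl⟩
    have hw' : w = α * v + β * f := by rw [hw, hzy]
    rw [hxy, ← hw, hcc]
    rw [← hw] at hzz
    have pw : p * w = α * v := by
      rw [hw', mul_add, ← mul_assoc, pα, ← mul_assoc, ← rβ, ← mul_assoc, pr, zero_mul, zero_mul,
        add_zero]
    have rw' : r * w = β * f := by
      rw [hw', mul_add, ← mul_assoc, ← mul_assoc, rβ, ← pα, ← mul_assoc, rp, zero_mul, zero_mul,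
        zero_add]
    have wp : w * p = β * f := by
      rw [hw', add_mul, mul_assoc, vp, mul_zero, mul_assoc, k.fp, zero_add]
    have wr : w * r = α * v := by
      rw [hw', add_mul, mul_assoc, k'.fp, mul_assoc, fr, mul_zero, add_zero]
    have e1 : (c1 • p + -c1 • r + w) * (c1 • p + -c1 • r + w) =
        (c1 * c1) • (p * p) - (c1 * c1) • (p * r) - (c1 * c1) • (r * p) + (c1 * c1) • (r * r) +
          c1 • (p * w - r * w + (w * p - w * r)) + w * w := by
      simp only [mul_add, add_mul, smul_mul_assoc, mul_smul_comm]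
      module
    rw [e1, k.pp, pr, rp, k'.pp, pw, rw', wp, wr, hzz, hPr]
    module

/-- **The multiplicity is a power of two** if the minimal rank is half of the multiplicity. -/
theorem pow_two_of_half (H : LieP G P Q a a) (hI : IrrXY G P Q) (ha : 0 < a)
    {e f : Matrix B B ℂ} (he : IsMin G P Q e) (hf : f ∈ pos G Q P) (hefe : e * f * e = e)
    (hfef : f * e * f = f) (h2 : trace (e * f) + trace (e * f) = a) {x : Matrix B B ℂ}
    (hx : x ∈ pos G P Q) (hx0 : (P - e * f) * x * (Q - f * e) ≠ 0) : ∃ j : ℕ, a = 2 ^ j := by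
  obtain ⟨u, v, k'⟩ := exists_compl H hI ha he hf hefe hfef h2 hx hx0
  have k := trp_of_pair H he hf hefe hfef
  clear hx0 hx
  obtain ⟨x0, hx0m, y0, hy0m, xy0, yx0, key⟩ := half_key H k k' h2
  -- the Clifford module
  let S0 : Submodule ℂ (Matrix B B ℂ) :=
    pos G P Q ⊓ LinearMap.ker ((traceLinearMap B ℂ ℂ).comp (LinearMap.mulRight ℂ y0))
  have hS0 : ∀ x, x ∈ S0 ↔ x ∈ pos G P Q ∧ trace (x * y0) = 0 := fun x => Iff.rfl
  have hxP : ∀ x : Matrix B B ℂ, x * y0 * P = x * y0 := fun x => by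
    rw [mul_assoc, hy0m.2.2]
  have hVP : finrank ℂ (VP P) = a := by
    have h3 := trace_idemM H.PP
    rw [H.trP] at h3
    have h4 : a = finrank ℂ (LinearMap.range (mulVecLin P)) := by exact_mod_cast h3
    exact h4.symm
  refine pow_two_of_clifford a (VP P) hVP ha
    (S0.map ((dn P).comp (LinearMap.mulRight ℂ y0))) ?_ ?_
  · rintro _ ⟨x, hx, rfl⟩
    obtain ⟨hx1, hx2⟩ := (hS0 x).1 hx
    obtain ⟨c, hc⟩ := key x hx1 hx2
    refine ⟨c, ?_⟩
    change dn P (x * y0) * dn P (x * y0) = c • 1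
    rw [dn_mul (hxP x), hc, map_smul, dn_one H.PP]
  · intro W hW
    have hst : ∀ x ∈ pos G P Q, ∀ u' ∈ W.map (VP P).subtype,
        (x * y0) *ᵥ u' ∈ W.map (VP P).subtype := by
      intro x hx u' hu'
      obtain ⟨t, ht⟩ : ∃ t : ℂ, t = trace (x * y0) / a := ⟨_, rfl⟩
      have ha' : (a : ℂ) ≠ 0 := by exact_mod_cast ha.ne'
      have h3 : x - t • x0 ∈ S0 := by
        refine (hS0 _).2 ⟨Submodule.sub_mem _ hx (Submodule.smul_mem _ _ hx0m), ?_⟩
        rw [sub_mul, trace_sub, smul_mul_assoc, xy0, trace_smul, H.trP, ht, smul_eq_mul,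
          div_mul_cancel₀ _ ha', sub_self]
      have h4 : x * y0 = (x - t • x0) * y0 + t • P := by
        rw [sub_mul, smul_mul_assoc, xy0, sub_add_cancel]
      obtain ⟨w, hw, rfl⟩ := hu'
      have h5 : P *ᵥ ((VP P).subtype w) = (VP P).subtype w := (mem_VP H.PP).1 w.2
      rw [h4, add_mulVec, smul_mulVec, h5]
      refine Submodule.add_mem _ ?_ (Submodule.smul_mem _ _ ⟨w, hw, rfl⟩)
      refine ⟨_, hW _ ⟨_, h3, rfl⟩ w hw, ?_⟩
      change P *ᵥ (((x - t • x0) * y0) *ᵥ (w : B → ℂ)) = _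
      rw [mulVec_mulVec, ← mul_assoc, mul_sub, mul_smul_comm, hx.2.1, hx0m.2.1]
      rfl
    rcases levi_xy H hI (W := W.map (VP P).subtype) (by
      rintro _ ⟨w, hw, rfl⟩
      exact (mem_VP H.PP).1 w.2) (by
      intro x hx y hy u' hu'
      have h3 : x *ᵥ (y *ᵥ u') = (x * y0) *ᵥ ((x0 * y * x0 * y0) *ᵥ u') := by
        obtain ⟨w, hw, rfl⟩ := hu'
        have h5 : P *ᵥ ((VP P).subtype w) = (VP P).subtype w := (mem_VP H.PP).1 w.2
        have e1 : x * y0 * (x0 * y * x0 * y0) = x * (y0 * x0) * y * (x0 * y0) := by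
          simp only [mul_assoc]
        rw [mulVec_mulVec, mulVec_mulVec, e1, yx0, xy0, hx.2.2, mul_assoc, hy.2.2]
      rw [h3]
      exact hst _ hx _ (hst _ (H.quad hx0m hy) _ hu')) with h3 | h3
    · left
      rw [Submodule.eq_bot_iff] at h3 ⊢
      intro w hw
      exact Subtype.ext (h3 _ ⟨w, hw, rfl⟩)
    · right
      rw [Submodule.eq_top_iff']
      intro w
      obtain ⟨w', hw', h4⟩ := h3 (w : B → ℂ) ((mem_VP H.PP).1 w.2)
      have h5 : w' = w := Subtype.ext h4
      rw [← h5]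
      exact hw'

end

end Pool.Agent.K9h17.D
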