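import Mathlib
import Pool.Agent.K9h17.D.Arith

/-!
# Irreducibility from a nilpotent element or an element with two or three eigenvalues
-/

set_option linter.unusedSectionVars false

namespace Pool.Agent.K9h17.D

open Module Polynomial
open Pool.Agent.W528.Odd (Nz unX unX_mem rN2 SIrr trace_br)
open Pool.Agent.W548.Odd (IsIdl exists_repr sq_zero_of_up rk)
open Pool.Agent.K9h17.L

noncomputable section

variable {V : Type} [AddCommGroup V] [Module ℂ V] [FiniteDimensional ℂ V]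
  {𝔤 : Submodule ℂ (End ℂ V)}

/-- The data: an operator which is modulo the scalars an element of the Lie algebra, and which is
nilpotent, or idempotent, or has the eigenvalues 1, 0, -1. -/
def GData (𝔤 : Submodule ℂ (End ℂ V)) (f r : ℕ) : Prop :=
  ∃ z : End ℂ V, (∃ s : ℂ, z - s • 1 ∈ 𝔤) ∧
    ((z * z = 0 ∧ rk z = f ∧ r = f) ∨ (z * z = z ∧ rk z = f ∧ r = f) ∨
      (z * z * z = z ∧ LinearMap.trace ℂ V z = 0 ∧ LinearMap.trace ℂ V (z * z) = 2 * f ∧
        r = 2 * f ∧ ∀ k ≤ finrank ℂ V, k * (finrank ℂ V - k) ≠ finrank ℂ V * f))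

/-- A generalized inverse. -/
theorem exists_ginv (N : End ℂ V) : ∃ M : End ℂ V, N * M * N = N := by
  obtain ⟨g, hg⟩ := LinearMap.exists_rightInverse_of_surjective N.rangeRestrict
    N.range_rangeRestrict
  obtain ⟨p, hp⟩ := LinearMap.exists_leftInverse_of_injective (LinearMap.range N).subtype
    (Submodule.ker_subtype _)
  refine ⟨g.comp p, LinearMap.ext fun v => ?_⟩
  have h1 : p (N v) = N.rangeRestrict v := LinearMap.congr_fun hp (N.rangeRestrict v)
  have h2 := congrArg Subtype.val (LinearMap.congr_fun hg (N.rangeRestrict v))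
  change N (g (p (N v))) = N v
  rw [h1]
  exact h2

theorem trace_rk {E : End ℂ V} (h : E * E = E) : LinearMap.trace ℂ V E = rk E :=
  (LinearMap.IsIdempotentElem.isProj_range E h).trace

theorem rk_ginv {N M : End ℂ V} (h : N * M * N = N) : rk (N * M) = rk N := by
  unfold rk
  have h1 : LinearMap.range (N * M) = LinearMap.range N := by
    apply le_antisymm
    · rintro _ ⟨v, rfl⟩
      exact ⟨M v, rfl⟩
    · rintro _ ⟨v, rfl⟩
      refine ⟨N v, ?_⟩
      change (N * M * N) v = N v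
      rw [h]
  rw [h1]

variable (hbr : ∀ X ∈ 𝔤, ∀ Y ∈ 𝔤, X * Y - Y * X ∈ 𝔤)
  (hirr : ∀ W : Submodule ℂ V, (∀ X ∈ 𝔤, X * X = (1 / 4 : ℂ) • 1 → ∀ u ∈ W, X u ∈ W) →
    W = ⊥ ∨ W = ⊤)

include hbr hirr in
theorem dvd_nil {D : End ℂ V} (hD : D ∈ 𝔤) (hD2 : D * D = 1) {N : End ℂ V}
    (hc : ∀ w ∈ LL 𝔤 D, N * w = w * N) {a b : ℕ}
    (htr : LinearMap.trace ℂ V D = (a : ℂ) - b) (hn : finrank ℂ V = a + b) :
    a + b ∣ rk N * a.gcd b := by
  obtain ⟨M, hM⟩ := exists_ginv N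
  have hE : N * M * (N * M) = N * M := by rw [← mul_assoc, hM]
  refine dvd_stab hbr hirr hD hD2 (E := N * M) (fun w hw => ?_) hE htr hn
    (by rw [trace_rk hE, rk_ginv hM])
  have h1 := hc w hw
  calc w * (N * M) = (w * N) * M := by rw [mul_assoc]
  _ = (N * w) * M := by rw [h1]
  _ = (N * M * N) * w * M := by rw [hM]
  _ = N * M * (N * w) * M := by simp only [mul_assoc]
  _ = N * M * (w * N) * M := by rw [h1]
  _ = N * M * w * (N * M) := by simp only [mul_assoc]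

include hbr hirr in
theorem dvd_idem {D : End ℂ V} (hD : D ∈ 𝔤) (hD2 : D * D = 1) {E : End ℂ V} (hE : E * E = E)
    (hc : ∀ w ∈ LL 𝔤 D, E * w = w * E) {a b f : ℕ}
    (htr : LinearMap.trace ℂ V D = (a : ℂ) - b) (hn : finrank ℂ V = a + b)
    (hf : LinearMap.trace ℂ V E = f) : a + b ∣ f * a.gcd b := by
  refine dvd_stab hbr hirr hD hD2 (fun w hw => ?_) hE htr hn hf
  rw [hc w hw, mul_assoc, hE]

include hbr hirr in
/-- **Irreducibility** under the elements of degree one and minus one. -/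
theorem irr_gal (T : Set (End ℂ V)) (hT1 : ∀ X ∈ T, X ∈ 𝔤) (hT2 : ∀ X ∈ T, X * X = 1)
    (hgen : ∀ L : Submodule ℂ (End ℂ V), (∀ X ∈ T, X ∈ L) →
      (∀ X ∈ L, ∀ Y ∈ L, X * Y - Y * X ∈ L) → 𝔤 ≤ L)
    {f r : ℕ} (hG : GData 𝔤 f r) {D : End ℂ V} (hD : D ∈ 𝔤) (hD2 : D * D = 1) {a b : ℕ}
    (htr : LinearMap.trace ℂ V D = (a : ℂ) - b) (hn : finrank ℂ V = a + b)
    (hDn : ¬a + b ∣ f * a.gcd b)
    (hT : ∀ D' ∈ T, ∀ a' b' : ℕ, LinearMap.trace ℂ V D' = (a' : ℂ) - b' → a' + b' = a + b →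
      0 < a' → 0 < b' → ¬ a + b ∣ f * a'.gcd b')
    (W : Submodule ℂ V) (h1 : ∀ x ∈ UpS 𝔤 D, ∀ u ∈ W, x u ∈ W)
    (h2 : ∀ y ∈ UpS 𝔤 (-D), ∀ u ∈ W, y u ∈ W) : W = ⊥ ∨ W = ⊤ := by
  refine irr_up' hbr hirr T hT1 hT2 hgen hD hD2 (fun D' hD' hcc hne1 hne2 => ?_) W h1 h2
  have hD1' := hT1 D' hD'
  have hD2' := hT2 D' hD'
  obtain ⟨a', b', ht', hn', ha', hb'⟩ := exists_mult hD2' hne1 hne2
  have hle := ll_le_cc hbr hD hD2 hcc
  have hn'' : finrank ℂ V = a' + b' := hn'.symm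
  have hTD : ¬a' + b' ∣ f * a'.gcd b' := by
    rw [hn', hn]
    exact hT D' hD' a' b' ht' (by rw [hn', hn]) ha' hb'
  obtain ⟨z, ⟨s, hEs⟩, hz⟩ := hG
  obtain ⟨l, hl, c₀, hc, hlc⟩ := dec2 hbr hirr hD hD2 hEs
  obtain ⟨c, hcdef⟩ : ∃ c, c = c₀ + s • 1 := ⟨_, rfl⟩
  have hE : z = l + c := by
    rw [hcdef, ← add_assoc, ← hlc]
    abel
  have hc' : ∀ w ∈ LL 𝔤 D, c * w = w * c := fun w hw => by
    rw [hcdef]
    exact comm_add s (hc.2 w hw)
  have hcl : ∀ w ∈ LL 𝔤 D', l * w = w * l := fun w hw => ((hle hw).2 l hl).symm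
  have htl := tr_l hbr hirr hD hD2 hl
  rcases hz with ⟨hNN, rfl, -⟩ | ⟨hEE, rfl, -⟩ | ⟨hν3, htν, hf, hr, hk⟩
  · have htN := sq_trace hNN
    rcases no_nil hbr hirr hD hD2 hl hc' (by rw [← hE]; exact hNN) (by
      rw [hE, map_add, htl, zero_add] at htN
      exact htN) with h3 | h3
    · apply hDn
      rw [h3, zero_add] at hE
      exact dvd_nil hbr hirr hD hD2 (fun w hw => by rw [hE]; exact hc' w hw) htr hn
    · apply hTD
      rw [h3, add_zero] at hE
      exact dvd_nil hbr hirr hD1' hD2' (fun w hw => by rw [hE]; exact hcl w hw) ht' hn''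
  · rcases no_two hbr hirr hD hD2 hl hc' (by rw [← hE]; exact hEE) with ⟨t, h3⟩ | ⟨t, h3⟩
    · apply hDn
      refine dvd_idem hbr hirr hD hD2 hEE (fun w hw => ?_) htr hn (trace_rk hEE)
      rw [hE, h3, add_mul, mul_add, hc' w hw, smul_mul_assoc, mul_smul_comm, one_mul, mul_one]
    · apply hTD
      refine dvd_idem hbr hirr hD1' hD2' hEE (fun w hw => ?_) ht' hn'' (trace_rk hEE)
      rw [hE, h3]
      exact comm_add t (hcl w hw)
  · have htc : LinearMap.trace ℂ V c = 0 := by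
      rw [hE, map_add, htl, zero_add] at htν
      exact htν
    obtain ⟨E, hEd⟩ : ∃ E, E = (2 : ℂ)⁻¹ • (z * z + z) := ⟨_, rfl⟩
    have hEE : E * E = E := by
      have e1 : (z * z + z) * (z * z + z) = (z * z * z) * z + (2 : ℂ) • (z * z * z) + z * z := by
        have : (z * z + z) * (z * z + z) = (z * z * z) * z + (z * z * z + z * z * z) + z * z := by
          noncomm_ring
        rw [this]
        module
      rw [hEd, smul_mul_smul_comm, e1, hν3]
      module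
    have htE : LinearMap.trace ℂ V E = f := by
      rw [hEd, map_smul, map_add, hf, htν, smul_eq_mul]
      ring
    have hcomm : ∀ w : End ℂ V, z * w = w * z → E * w = w * E := by
      intro w hw
      rw [hEd, smul_mul_assoc, mul_smul_comm, add_mul, mul_add, mul_assoc z z w, hw, ← mul_assoc z w,
        hw, mul_assoc w z z]
    by_cases h3 : ∃ t : ℂ, l = t • 1
    · obtain ⟨t, h3⟩ := h3
      apply hDn
      refine dvd_idem hbr hirr hD hD2 hEE (fun w hw => hcomm w ?_) htr hn htE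
      rw [hE, h3, add_mul, mul_add, hc' w hw, smul_mul_assoc, mul_smul_comm, one_mul, mul_one]
    by_cases h4 : ∃ t : ℂ, c = t • 1
    · obtain ⟨t, h4⟩ := h4
      apply hTD
      refine dvd_idem hbr hirr hD1' hD2' hEE (fun w hw => hcomm w ?_) ht' hn'' htE
      rw [hE, h4]
      exact comm_add t (hcl w hw)
    push Not at h3 h4
    obtain ⟨k, hkn, hk'⟩ := three_arith hbr hirr hD hD2 hl hc' (by rw [← hE]; exact hν3) htc
      (by rw [← hE]; exact hf) h3 h4
    exact hk k hkn hk'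

end

end Pool.Agent.K9h17.D
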