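import Mathlib
import Pool.Agent.K9h17.D.Full
import Pool.Agent.K9h17.D.Half
import Pool.Agent.K9h17.D.Up

/-!
# Elements of rank one if the elements of degree one and minus one act irreducibly
-/

set_option linter.unusedSectionVars false

namespace Pool.Agent.K9h17.D

open Module Matrix
open Pool.Agent.Y4.G (trace_idemM)
open Pool.Agent.Y4.G.Lie (pos mem_pos)
open Pool.Agent.W548.Odd (rk)
open Pool.Agent.N183.JP
open Pool.Agent.K9h17.L
open Pool.Agent.K9h17.B

noncomputable section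

variable {V : Type} [AddCommGroup V] [Module ℂ V] [FiniteDimensional ℂ V]
  {𝔤 : Submodule ℂ (End ℂ V)}

theorem rank_mm (x : End ℂ V) : (mm V x).rank = rk x := by
  have h1 := Matrix.rank_eq_finrank_range_toLin (mm V x) (finBasis ℂ V) (finBasis ℂ V)
  have h2 : Matrix.toLin (finBasis ℂ V) (finBasis ℂ V) (mm V x) = x :=
    Matrix.toLin_toMatrix (finBasis ℂ V) (finBasis ℂ V) x
  rw [h1, h2]
  rfl

/-- **Elements of rank one** if the multiplicities are different and not consecutive binomial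
coefficients, and if the elements of degree one and minus one act irreducibly. -/
theorem exists_rk1_ne (hbr : ∀ X ∈ 𝔤, ∀ Y ∈ 𝔤, X * Y - Y * X ∈ 𝔤)
    (hirr : ∀ W : Submodule ℂ V, (∀ X ∈ 𝔤, X * X = (1 / 4 : ℂ) • 1 → ∀ u ∈ W, X u ∈ W) →
      W = ⊥ ∨ W = ⊤)
    {D : End ℂ V} (hD : D ∈ 𝔤) (hD2 : D * D = 1) {a b : ℕ}
    (htr : LinearMap.trace ℂ V D = (a : ℂ) - b) (hn : finrank ℂ V = a + b) (ha : 0 < a) (hb : 0 < b)
    (hab : a ≠ b) (hnb : ∀ d s : ℕ, 2 ≤ s → s + 1 ≤ d → ¬(a = d.choose (s - 1) ∧ b = d.choose s))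
    (hUp : ∀ W : Submodule ℂ V, (∀ x ∈ UpS 𝔤 D, ∀ u ∈ W, x u ∈ W) →
      (∀ y ∈ UpS 𝔤 (-D), ∀ u ∈ W, y u ∈ W) → W = ⊥ ∨ W = ⊤) :
    ∃ x ∈ 𝔤, D * x = x ∧ x * D = -x ∧ rk x = 1 := by
  by_contra hcon
  push Not at hcon
  have hbr' := ads_br hbr
  have hirr' : ∀ W : Submodule ℂ V, (∀ X ∈ ads 𝔤, X * X = (1 / 4 : ℂ) • 1 → ∀ u ∈ W, X u ∈ W) →
      W = ⊥ ∨ W = ⊤ := fun W hW => hirr W fun X hX => hW X (le_ads hX)
  have hD' : D ∈ ads 𝔤 := le_ads hD
  have H := lieP hbr' hirr' hD' hD2 htr hn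
  have hNR : NR1 (mG (ads 𝔤)) (mm V (prj D)) (mm V (prj (-D))) :=
    nr1 fun x hx h1 h2 => hcon x (up_ads hbr hD hD2 hx h1 h2) h1 h2
  have hsum : mm V (prj D) + mm V (prj (-D)) = 1 := by rw [← map_add, prj_add, map_one]
  have hR : mm V (prj D) + mm V (prj (-D)) ∈ mG (ads 𝔤) := by
    rw [hsum, ← map_one (mm V)]
    exact mem_mG.2 one_ads
  have hnd : ∀ z ∈ mG (ads 𝔤), (∀ w ∈ mG (ads 𝔤), trace (z * w) = 0) → z = 0 := by
    intro z hz hzw
    obtain ⟨y, hy, rfl⟩ := exists_mG hz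
    rw [trace_nondeg hbr' hirr' hy fun w hw => ?_, map_zero]
    have h1 := hzw _ (mem_mG.2 hw)
    rwa [← map_mul, mm_trace] at h1
  have hDn : -D ∈ 𝔤 := 𝔤.neg_mem hD
  have hI : IrrXY (mG (ads 𝔤)) (mm V (prj D)) (mm V (prj (-D))) := by
    intro U _ hU1 hU2
    rcases hUp (U.comap (cf V).toLinearMap)
      (fun x hx u hu => by
        rw [Submodule.mem_comap] at hu ⊢
        change cf V (x u) ∈ U
        rw [← mm_mulVec]
        refine hU1 _ ⟨mem_mG.2 (le_ads hx.1), ?_, ?_⟩ _ hu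
        · rw [← map_mul, prj_of_D hx.2.1]
        · rw [← map_mul, prj_of_D' hx.2.2])
      (fun x hx u hu => by
        rw [Submodule.mem_comap] at hu ⊢
        change cf V (x u) ∈ U
        rw [← mm_mulVec]
        refine hU2 _ ⟨mem_mG.2 (le_ads hx.1), ?_, ?_⟩ _ hu
        · rw [← map_mul, prj_of_D hx.2.1]
        · have h3 := prj_of_D' hx.2.2
          rw [neg_neg] at h3
          rw [← map_mul, h3]) with h1 | h1
    · left
      rw [Submodule.eq_bot_iff] at h1 ⊢
      intro u hu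
      have h2 := h1 ((cf V).symm u) (by
        rw [Submodule.mem_comap]
        change cf V ((cf V).symm u) ∈ U
        rwa [LinearEquiv.apply_symm_apply])
      rw [← (cf V).apply_symm_apply u, h2, map_zero]
    · right
      intro u _
      have h2 : (cf V).symm u ∈ U.comap (cf V).toLinearMap := by rw [h1]; trivial
      rw [Submodule.mem_comap] at h2
      change cf V ((cf V).symm u) ∈ U at h2
      rwa [LinearEquiv.apply_symm_apply] at h2
  obtain ⟨e, f, p, q, k⟩ := exists_trp H ha hb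
  obtain ⟨m, c, hm, hm1, -, -, -⟩ := k.rel H
  have hm2 := k.two_le hNR hm hm1
  by_cases h0 : ∀ x ∈ pos (mG (ads 𝔤)) (mm V (prj D)) (mm V (prj (-D))),
      (mm V (prj D) - p) * x * (mm V (prj (-D)) - q) = 0
  · obtain ⟨d, s, t, hst, h1, h2⟩ := binom H k h0 hI
    have ha2 : 2 ≤ a := by
      have h3 := trace_idemM (k.idP H.PP)
      rw [trace_sub, H.trP, hm] at h3
      have h4 : (a : ℂ) = ((finrank ℂ (LinearMap.range
          (mulVecLin (mm V (prj D) - p))) + m : ℕ) : ℂ) := by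
        push_cast
        rw [← h3]
        ring
      have h5 := Nat.cast_injective h4
      omega
    have hb2 : 2 ≤ b := by
      have h3 := trace_idemM (k.idQ H.QQ)
      rw [trace_sub, H.trQ, k.trpq, hm] at h3
      have h4 : (b : ℂ) = ((finrank ℂ (LinearMap.range
          (mulVecLin (mm V (prj (-D)) - q))) + m : ℕ) : ℂ) := by
        push_cast
        rw [← h3]
        ring
      have h5 := Nat.cast_injective h4
      omega
    have ht1 : 1 ≤ t := by
      by_contra ht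
      obtain rfl : t = 0 := by omega
      rw [Nat.choose_zero_right] at h1
      omega
    have hs1 : 1 ≤ s := by
      by_contra ht
      obtain rfl : s = 0 := by omega
      rw [Nat.choose_zero_right] at h2
      omega
    have hsd : s ≠ d := by
      rintro rfl
      rw [Nat.choose_self] at h2
      omega
    have htd : t ≠ d := by
      rintro rfl
      rw [Nat.choose_self] at h1
      omega
    refine hnb d s (by omega) (by omega) ⟨?_, h2⟩
    rw [h1]
    exact (Nat.choose_symm_of_eq_add (by omega))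
  · push Not at h0
    obtain ⟨x, hx, hx0⟩ := h0
    have h1 := trace_one_of_two H hR hnd hI hab k hx hx0
    rw [hm] at h1
    have h2 : m = 1 := by exact_mod_cast h1
    omega

/-- **Elements of rank one** if the multiplicities are equal and not a middle binomial
coefficient, if there is no invariant symmetric form, and if the elements of degree one and minus
one act irreducibly. -/
theorem exists_rk1_bal (hbr : ∀ X ∈ 𝔤, ∀ Y ∈ 𝔤, X * Y - Y * X ∈ 𝔤)
    (hirr : ∀ W : Submodule ℂ V, (∀ X ∈ 𝔤, X * X = (1 / 4 : ℂ) • 1 → ∀ u ∈ W, X u ∈ W) →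
      W = ⊥ ∨ W = ⊤)
    (T : Set (End ℂ V)) (hT1 : ∀ X ∈ T, X ∈ 𝔤) (hT2 : ∀ X ∈ T, X * X = 1)
    (hgen : ∀ L : Submodule ℂ (End ℂ V), (∀ X ∈ T, X ∈ L) →
      (∀ X ∈ L, ∀ Y ∈ L, X * Y - Y * X ∈ L) → 𝔤 ≤ L)
    (hT : ∀ X ∈ T, LinearMap.trace ℂ V X = 0)
    (hNB : ∀ β : V →ₗ[ℂ] V →ₗ[ℂ] ℂ, (∀ u v, β u v = β v u) →
        (∀ X ∈ 𝔤, ∀ u v, β (X u) v + β u (X v) = 0) → ∀ u v, β u v = 0)
    {D : End ℂ V} (hD : D ∈ 𝔤) (hD2 : D * D = 1) {a : ℕ} (hn : finrank ℂ V = a + a)
    (ha : 0 < a) (hnb : ∀ t : ℕ, 3 ≤ t → a ≠ (2 * t - 1).choose t)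
    (hhalf : (¬∃ j : ℕ, a = 2 ^ j) ∨
      ∃ x : End ℂ V, (x ∈ UpS 𝔤 D ∨ x ∈ UpS 𝔤 (-D)) ∧ x ≠ 0 ∧ 2 * rk x < a)
    (hUp : ∀ W : Submodule ℂ V, (∀ x ∈ UpS 𝔤 D, ∀ u ∈ W, x u ∈ W) →
      (∀ y ∈ UpS 𝔤 (-D), ∀ u ∈ W, y u ∈ W) → W = ⊥ ∨ W = ⊤) :
    ∃ x ∈ 𝔤, D * x = x ∧ x * D = -x ∧ rk x = 1 := by
  have htr0 : ∀ X ∈ 𝔤, LinearMap.trace ℂ V X = 0 := by
    have h1 : 𝔤 ≤ LinearMap.ker (LinearMap.trace ℂ V) := by
      refine hgen _ (fun X hX => by rw [LinearMap.mem_ker, hT X hX]) fun X _ Y _ => ?_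
      rw [LinearMap.mem_ker, map_sub, LinearMap.trace_mul_comm, sub_self]
    exact fun X hX => LinearMap.mem_ker.1 (h1 hX)
  have htr : LinearMap.trace ℂ V D = (a : ℂ) - a := by rw [htr0 D hD, sub_self]
  by_cases ha3 : a = 3
  · subst ha3
    exact exists_rk1 hbr hirr (fun L hL1 hL2 => hgen L (fun X hX => hL1 X (hT1 X hX) (hT2 X hX)) hL2)
      hD hD2 htr hn ha ha (Or.inr ⟨Or.inr ⟨rfl, rfl⟩, htr0, hNB⟩)
  by_contra hcon
  push Not at hcon
  have hbr' := ads_br hbr
  have hirr' : ∀ W : Submodule ℂ V, (∀ X ∈ ads 𝔤, X * X = (1 / 4 : ℂ) • 1 → ∀ u ∈ W, X u ∈ W) →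
      W = ⊥ ∨ W = ⊤ := fun W hW => hirr W fun X hX => hW X (le_ads hX)
  have hD' : D ∈ ads 𝔤 := le_ads hD
  have H := lieP hbr' hirr' hD' hD2 htr hn
  have hNR : NR1 (mG (ads 𝔤)) (mm V (prj D)) (mm V (prj (-D))) :=
    nr1 fun x hx h1 h2 => hcon x (up_ads hbr hD hD2 hx h1 h2) h1 h2
  have hsum : mm V (prj D) + mm V (prj (-D)) = 1 := by rw [← map_add, prj_add, map_one]
  have hR : mm V (prj D) + mm V (prj (-D)) ∈ mG (ads 𝔤) := by
    rw [hsum, ← map_one (mm V)]
    exact mem_mG.2 one_ads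
  have hI : IrrXY (mG (ads 𝔤)) (mm V (prj D)) (mm V (prj (-D))) := by
    intro U _ hU1 hU2
    rcases hUp (U.comap (cf V).toLinearMap)
      (fun x hx u hu => by
        rw [Submodule.mem_comap] at hu ⊢
        change cf V (x u) ∈ U
        rw [← mm_mulVec]
        refine hU1 _ ⟨mem_mG.2 (le_ads hx.1), ?_, ?_⟩ _ hu
        · rw [← map_mul, prj_of_D hx.2.1]
        · rw [← map_mul, prj_of_D' hx.2.2])
      (fun x hx u hu => by
        rw [Submodule.mem_comap] at hu ⊢
        change cf V (x u) ∈ U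
        rw [← mm_mulVec]
        refine hU2 _ ⟨mem_mG.2 (le_ads hx.1), ?_, ?_⟩ _ hu
        · rw [← map_mul, prj_of_D hx.2.1]
        · have h3 := prj_of_D' hx.2.2
          rw [neg_neg] at h3
          rw [← map_mul, h3]) with h1 | h1
    · left
      rw [Submodule.eq_bot_iff] at h1 ⊢
      intro u hu
      have h2 := h1 ((cf V).symm u) (by
        rw [Submodule.mem_comap]
        change cf V ((cf V).symm u) ∈ U
        rwa [LinearEquiv.apply_symm_apply])
      rw [← (cf V).apply_symm_apply u, h2, map_zero]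
    · right
      intro u _
      have h2 : (cf V).symm u ∈ U.comap (cf V).toLinearMap := by rw [h1]; trivial
      rw [Submodule.mem_comap] at h2
      change cf V ((cf V).symm u) ∈ U at h2
      rwa [LinearEquiv.apply_symm_apply] at h2
  have hnb' : ∀ t : ℕ, 2 ≤ t → a ≠ (2 * t - 1).choose t := by
    intro t ht
    rcases Nat.lt_or_ge t 3 with h1 | h1
    · obtain rfl : t = 2 := by omega
      exact ha3
    · exact hnb t h1
  have hhalf' : ∀ e f, IsMin (mG (ads 𝔤)) (mm V (prj D)) (mm V (prj (-D))) e →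
      f ∈ pos (mG (ads 𝔤)) (mm V (prj (-D))) (mm V (prj D)) → e * f * e = e → f * e * f = f →
      (∃ x ∈ pos (mG (ads 𝔤)) (mm V (prj D)) (mm V (prj (-D))),
        (mm V (prj D) - e * f) * x * (mm V (prj (-D)) - f * e) ≠ 0) →
      trace (e * f) + trace (e * f) ≠ a := by
    rintro e f he hf hefe hfef ⟨x, hx, hx0⟩ h2
    rcases hhalf with h3 | ⟨z, hz, hz0, hzr⟩
    · exact h3 (pow_two_of_half H hI ha he hf hefe hfef h2 hx hx0)
    · have h4 : e.rank ≤ rk z := by
        rcases hz with hz | hz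
        · refine (he.2 (mm V z) ⟨⟨mem_mG.2 (le_ads hz.1), ?_, ?_⟩, ?_⟩).trans (rank_mm z).le
          · rw [← map_mul, prj_of_D hz.2.1]
          · rw [← map_mul, prj_of_D' hz.2.2]
          · intro h5
            exact hz0 ((map_eq_zero_iff _ (mm V).injective).1 h5)
        · have h3 := prj_of_D' hz.2.2
          rw [neg_neg] at h3
          obtain ⟨y, hy, h5, h6⟩ := exists_partner H.symm (e := mm V z)
            ⟨mem_mG.2 (le_ads hz.1), by rw [← map_mul, prj_of_D hz.2.1], by rw [← map_mul, h3]⟩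
          have hy0 : y ≠ 0 := by
            rintro rfl
            rw [mul_zero, zero_mul] at h5
            exact hz0 ((map_eq_zero_iff _ (mm V).injective).1 h5.symm)
          refine (he.2 y ⟨hy, hy0⟩).trans ?_
          rw [← rank_mm z, ← h6]
          exact (rank_mul_le_left _ _).trans (rank_mul_le_right _ _)
      have h5 : e * f * (e * f) = e * f := by rw [← mul_assoc, hefe]
      have h6 := trace_idemM h5
      rw [h6] at h2
      have h7 : finrank ℂ (LinearMap.range (mulVecLin (e * f))) ≤ e.rank := by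
        have h8 := rank_mul_le_left e f
        exact h8
      have h8 : finrank ℂ (LinearMap.range (mulVecLin (e * f))) +
          finrank ℂ (LinearMap.range (mulVecLin (e * f))) = a := by exact_mod_cast h2
      omega
  obtain ⟨N, hNs, hN0, hN⟩ := Pool.Agent.K9h17.D.exists_form_of H hR hI ha hhalf' hNR hnb'
  have hn0 : finrank ℂ V ≠ 0 := by omega
  have h1 := form_zero hirr T hT1 hT2 hgen hT hn0 hNB
    ((Matrix.toBilin' N).compl₁₂ (cf V).toLinearMap (cf V).toLinearMap)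
    (fun u v => by
      change Matrix.toBilin' N (cf V u) (cf V v) = Matrix.toBilin' N (cf V v) (cf V u)
      rw [Matrix.toBilin'_apply', Matrix.toBilin'_apply', hNs])
    (fun X hX => by
      obtain ⟨μ, hμ⟩ := hN _ (mem_mG.2 (le_ads hX))
      refine ⟨μ, fun u v => ?_⟩
      change Matrix.toBilin' N (cf V (X u)) (cf V v) + Matrix.toBilin' N (cf V u) (cf V (X v)) =
        μ * Matrix.toBilin' N (cf V u) (cf V v)
      rw [Matrix.toBilin'_apply', Matrix.toBilin'_apply', Matrix.toBilin'_apply', ← mm_mulVec,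
        ← mm_mulVec]
      exact hμ _ _)
  apply hN0
  refine Matrix.ext fun i j => ?_
  have h2 := h1 ((cf V).symm (Pi.single i 1)) ((cf V).symm (Pi.single j 1))
  change Matrix.toBilin' N (cf V ((cf V).symm (Pi.single i 1)))
    (cf V ((cf V).symm (Pi.single j 1))) = 0 at h2
  rw [LinearEquiv.apply_symm_apply, LinearEquiv.apply_symm_apply, Matrix.toBilin'_apply',
    mulVec_single_one, single_one_dotProduct] at h2
  exact h2

end

end Pool.Agent.K9h17.D
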