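import Mathlib
import Pool.Agent.K9h17.B.Full

/-!
# The normal form of a nilpotent element
-/

set_option linter.unusedSectionVars false

namespace Pool.Agent.K9h17.D

open Matrix Module
open Pool.Agent.Y4.G (trF trF_apply exists_dual exists_eig_range trace_idemM rank_mul_lt)
open Pool.Agent.Y4.G.Lie (pos mem_pos)
open Pool.Agent.N183.JP
open Pool.Agent.K9h17.L
open Pool.Agent.K9h17.B

noncomputable section

variable {B : Type} [Fintype B] [DecidableEq B]

/-- The rank of an orthogonal sum. -/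
theorem rank_orth {X Y g : Matrix B B ℂ} (h1 : g * X = X) (h2 : X * g = X) (h3 : g * Y = 0)
    (h4 : Y * g = 0) : (X + Y).rank = X.rank + Y.rank := by
  have e1 : LinearMap.range (mulVecLin (X + Y)) =
      LinearMap.range (mulVecLin X) ⊔ LinearMap.range (mulVecLin Y) := by
    apply le_antisymm
    · rintro _ ⟨v, rfl⟩
      rw [mulVecLin_apply, add_mulVec]
      exact Submodule.add_mem_sup ⟨v, rfl⟩ ⟨v, rfl⟩
    · refine sup_le ?_ ?_
      · rintro _ ⟨v, rfl⟩
        refine ⟨g *ᵥ v, ?_⟩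
        rw [mulVecLin_apply, mulVecLin_apply, mulVec_mulVec, add_mul, h2, h4, add_zero]
      · rintro _ ⟨v, rfl⟩
        refine ⟨v - g *ᵥ v, ?_⟩
        rw [mulVecLin_apply, mulVecLin_apply, mulVec_sub, mulVec_mulVec, add_mul, h2, h4, add_zero,
          add_mulVec, add_sub_cancel_left]
  have e2 : LinearMap.range (mulVecLin X) ⊓ LinearMap.range (mulVecLin Y) = ⊥ := by
    rw [eq_bot_iff]
    rintro _ ⟨⟨v, rfl⟩, ⟨w, hw⟩⟩
    rw [mulVecLin_apply] at hw
    rw [Submodule.mem_bot, mulVecLin_apply, ← h1, ← mulVec_mulVec]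
    rw [mulVecLin_apply] at hw
    rw [← hw, mulVec_mulVec, h3, zero_mulVec]
  have e3 := Submodule.finrank_sup_add_finrank_inf_eq (LinearMap.range (mulVecLin X))
    (LinearMap.range (mulVecLin Y))
  rw [e2, finrank_bot, add_zero, ← e1] at e3
  exact e3

variable {G : Submodule ℂ (Matrix B B ℂ)} {P Q : Matrix B B ℂ} {a b : ℕ}

/-- The normal form of a nilpotent element. -/
theorem nil_form (H : LieP G P Q a b) {N : Matrix B B ℂ} (hN : N ∈ G) (hNN : N * N = 0) :
    ∃ f M : Matrix B B ℂ, f ∈ pos G Q P ∧ P * N * Q * f * (P * N * Q) = P * N * Q ∧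
      f * (P * N * Q) * f = f ∧ M ∈ G ∧ M * M = 0 ∧ P * M * Q = 0 ∧
      (P * N * Q * f) * M = 0 ∧ M * (P * N * Q * f) = 0 ∧ (f * (P * N * Q)) * M = 0 ∧
      M * (f * (P * N * Q)) = 0 ∧ N.rank = (P * N * Q).rank + M.rank := by
  have zPQ : ∀ X Y : Matrix B B ℂ, X * P = X → Q * Y = Y → X * Y = 0 := fun X Y h1 h2 => by
    rw [← h1, ← h2, mul_assoc, ← mul_assoc P, H.PQ, zero_mul, mul_zero]
  have zQP : ∀ X Y : Matrix B B ℂ, X * Q = X → P * Y = Y → X * Y = 0 := fun X Y h1 h2 => by
    rw [← h1, ← h2, mul_assoc, ← mul_assoc Q, H.QP, zero_mul, mul_zero]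
  have blk : ∀ R S : Matrix B B ℂ, R * N * P * (P * N * S) + R * N * Q * (Q * N * S) = 0 := by
    intro R S
    calc R * N * P * (P * N * S) + R * N * Q * (Q * N * S) =
        R * N * (P * P) * N * S + R * N * (Q * Q) * N * S := by noncomm_ring
    _ = R * (N * ((P + Q) * N)) * S := by rw [H.PP, H.QQ]; noncomm_ring
    _ = 0 := by rw [H.lel N hN, hNN, mul_zero, zero_mul]
  obtain ⟨A, hA⟩ : ∃ A, A = P * N * P := ⟨_, rfl⟩
  obtain ⟨e, he⟩ : ∃ e, e = P * N * Q := ⟨_, rfl⟩
  obtain ⟨c, hc⟩ : ∃ c, c = Q * N * P := ⟨_, rfl⟩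
  obtain ⟨D, hD⟩ : ∃ D, D = Q * N * Q := ⟨_, rfl⟩
  have b1 : A * A + e * c = 0 := by rw [hA, he, hc]; exact blk P P
  have b2 : A * e + e * D = 0 := by rw [hA, he, hD]; exact blk P Q
  have hsp : N = A + e + c + D := by
    rw [hA, he, hc, hD]
    nth_rewrite 1 [H.split hN]
    abel
  rw [← he]
  have PA : P * A = A := by rw [hA, ← mul_assoc, ← mul_assoc, H.PP]
  have AP : A * P = A := by rw [hA, mul_assoc _ P P, H.PP]
  have QD : Q * D = D := by rw [hD, ← mul_assoc, ← mul_assoc, H.QQ]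
  have DQ : D * Q = D := by rw [hD, mul_assoc _ Q Q, H.QQ]
  have Pe : P * e = e := by rw [he, ← mul_assoc, ← mul_assoc, H.PP]
  have eQ : e * Q = e := by rw [he, mul_assoc _ Q Q, H.QQ]
  have Qc : Q * c = c := by rw [hc, ← mul_assoc, ← mul_assoc, H.QQ]
  have cP : c * P = c := by rw [hc, mul_assoc _ P P, H.PP]
  have hnm : A + D ∈ G := by rw [hA, hD]; exact H.gr0 hN
  have hem : e ∈ pos G P Q := ⟨by rw [he]; exact H.grP hN, Pe, eQ⟩
  obtain ⟨f, hf, hefe, hfef⟩ := exists_partner H hem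
  have Qf : Q * f = f := hf.2.1
  have fP : f * P = f := hf.2.2
  obtain ⟨p, hp⟩ : ∃ p, p = e * f := ⟨_, rfl⟩
  obtain ⟨q, hq⟩ : ∃ q, q = f * e := ⟨_, rfl⟩
  have Pp : P * p = p := by rw [hp, ← mul_assoc, Pe]
  have pP : p * P = p := by rw [hp, mul_assoc, fP]
  have QqE : Q * q = q := by rw [hq, ← mul_assoc, Qf]
  have qQ : q * Q = q := by rw [hq, mul_assoc, eQ]
  have pp : p * p = p := by rw [hp, ← mul_assoc, hefe]
  have qq : q * q = q := by rw [hq, ← mul_assoc, hfef]
  have pe : p * e = e := by rw [hp, hefe]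
  have eq : e * q = e := by rw [hq, ← mul_assoc, hefe]
  have qf : q * f = f := by rw [hq, hfef]
  have fp : f * p = f := by rw [hp, ← mul_assoc, hfef]
  have eD : e * D = -(A * e) := by rw [← add_eq_zero_iff_eq_neg, add_comm]; exact b2
  have hAe : A * e ∈ pos G P Q := by
    have h1 : A * e = (1 / 2 : ℂ) • ((A + D) * e - e * (A + D)) := by
      have h2 : (A + D) * e - e * (A + D) = (2 : ℂ) • (A * e) := by
        rw [add_mul, mul_add, zQP D e DQ Pe, zQP e A eQ PA, eD]
        module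
      rw [h2]
      module
    refine ⟨?_, by rw [← mul_assoc, PA], by rw [mul_assoc, eQ]⟩
    rw [h1]
    exact G.smul_mem _ (H.br _ hnm _ hem.1)
  obtain ⟨y, hy⟩ : ∃ y, y = f * A - D * f - f * (A * e) * f := ⟨_, rfl⟩
  have hym : y ∈ pos G Q P := by
    have h1 : f * A - D * f ∈ pos G Q P := by
      have h2 : f * A - D * f = f * (A + D) - (A + D) * f := by
        rw [mul_add, add_mul, zPQ f D fP QD, zPQ A f AP Qf]
        abel
      refine ⟨?_, ?_, ?_⟩
      · rw [h2]
        exact H.br _ hf.1 _ hnm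
      · rw [mul_sub, ← mul_assoc, ← mul_assoc, Qf, QD]
      · rw [sub_mul, mul_assoc, mul_assoc, AP, fP]
    rw [hy]
    exact Submodule.sub_mem _ h1 (H.symm.quad hf hAe)
  have Qy : Q * y = y := hym.2.1
  have yP : y * P = y := hym.2.2
  have yy : y * y = 0 := zPQ y y yP Qy
  have ey : e * y = p * A + A * p - p * A * p := by
    rw [hy, hp]
    have h1 : e * (f * A - D * f - f * (A * e) * f) = e * f * A - e * D * f -
        e * f * A * (e * f) := by noncomm_ring
    rw [h1, eD]
    noncomm_ring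
  have ye : y * e = -(D * q) := by
    rw [hy, hq]
    have h1 : (f * A - D * f - f * (A * e) * f) * e = f * A * e - D * (f * e) -
        f * A * (e * f * e) := by noncomm_ring
    rw [h1, hefe]
    abel
  obtain ⟨A', hA'⟩ : ∃ A', A' = A - e * y := ⟨_, rfl⟩
  obtain ⟨D', hD'⟩ : ∃ D', D' = D + y * e := ⟨_, rfl⟩
  obtain ⟨c', hc'⟩ : ∃ c', c' = c + y * A - D * y - y * e * y := ⟨_, rfl⟩
  have PA' : P * A' = A' := by rw [hA', mul_sub, PA, ← mul_assoc, Pe]
  have A'P : A' * P = A' := by rw [hA', sub_mul, AP, mul_assoc, yP]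
  have QD' : Q * D' = D' := by rw [hD', mul_add, QD, ← mul_assoc, Qy]
  have D'Q : D' * Q = D' := by rw [hD', add_mul, DQ, mul_assoc, eQ]
  have Qc' : Q * c' = c' := by
    rw [hc', mul_sub, mul_sub, mul_add, Qc, ← mul_assoc, Qy, ← mul_assoc, QD, ← mul_assoc,
      ← mul_assoc, Qy]
  have c'P : c' * P = c' := by
    rw [hc', sub_mul, sub_mul, add_mul, cP, mul_assoc y A, AP, mul_assoc D y, yP,
      mul_assoc (y * e) y, yP]
  have A'p : A' * p = 0 := by
    rw [hA', ey]
    have h1 : (A - (p * A + A * p - p * A * p)) * p = A * p - p * A * p - A * (p * p) +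
        p * A * (p * p) := by noncomm_ring
    rw [h1, pp]
    abel
  have pA' : p * A' = 0 := by
    rw [hA', ey]
    have h1 : p * (A - (p * A + A * p - p * A * p)) = p * A - p * p * A - p * A * p +
        p * p * A * p := by noncomm_ring
    rw [h1, pp]
    abel
  have D'q : D' * q = 0 := by
    rw [hD', ye]
    have h1 : (D + -(D * q)) * q = D * q - D * (q * q) := by noncomm_ring
    rw [h1, qq, sub_self]
  have qD' : q * D' = 0 := by
    rw [hD', ye]
    have h1 : q * (D + -(D * q)) = f * (e * D) - f * (e * D) * q := by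
      rw [hq]
      noncomm_ring
    rw [h1, eD]
    have h2 : f * -(A * e) - f * -(A * e) * q = -(f * A * e) + f * A * (e * q) := by noncomm_ring
    rw [h2, eq]
    abel
  obtain ⟨M, hM⟩ : ∃ M, M = A' + D' + c' := ⟨_, rfl⟩
  have hconj : (1 + y) * N * (1 - y) = e + M := by
    have h1 : (1 + y) * N * (1 - y) = N + y * N - N * y - y * N * y := by noncomm_ring
    have h2 : y * N = y * A + y * e := by
      rw [hsp]
      simp only [mul_add]
      rw [zPQ y c yP Qc, zPQ y D yP QD]
      abel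
    have h3 : N * y = e * y + D * y := by
      rw [hsp]
      simp only [add_mul]
      rw [zPQ A y AP Qy, zPQ c y cP Qy]
      abel
    have h4 : y * N * y = y * e * y := by
      rw [h2, add_mul, mul_assoc y A, zPQ A y AP Qy, mul_zero, zero_add]
    rw [h1, h4, h2, h3, hM, hA', hD', hc']
    nth_rewrite 1 [hsp]
    abel
  have hinv : (1 - y) * (1 + y) = 1 := by
    have h1 : (1 - y) * (1 + y) = 1 - y * y := by noncomm_ring
    rw [h1, yy, sub_zero]
  have hinv' : (1 + y) * (1 - y) = 1 := by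
    have h1 : (1 + y) * (1 - y) = 1 - y * y := by noncomm_ring
    rw [h1, yy, sub_zero]
  have hsq : (e + M) * (e + M) = 0 := by
    rw [← hconj]
    have h1 : (1 + y) * N * (1 - y) * ((1 + y) * N * (1 - y)) =
        (1 + y) * (N * ((1 - y) * (1 + y)) * N) * (1 - y) := by noncomm_ring
    rw [h1, hinv, mul_one, hNN, mul_zero, zero_mul]
  have PM1 : P * (e + M) = e + A' := by
    rw [hM, mul_add, mul_add, mul_add, Pe, PA', ← QD', ← Qc', ← mul_assoc, ← mul_assoc P Q, H.PQ,
      zero_mul, zero_mul]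
    abel
  have QM1 : Q * (e + M) = D' + c' := by
    rw [hM, mul_add, mul_add, mul_add, QD', Qc', ← Pe, ← PA', ← mul_assoc, ← mul_assoc Q P A', H.QP,
      zero_mul, zero_mul]
    abel
  have MP1 : (e + M) * P = A' + c' := by
    rw [hM, add_mul, add_mul, add_mul, A'P, c'P, ← eQ, ← D'Q, mul_assoc, mul_assoc D', H.QP,
      mul_zero, mul_zero]
    abel
  have MQ1 : (e + M) * Q = e + D' := by
    rw [hM, add_mul, add_mul, add_mul, eQ, D'Q, ← A'P, ← c'P, mul_assoc A', mul_assoc c', H.PQ,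
      mul_zero, mul_zero]
    abel
  have hb : ∀ R S : Matrix B B ℂ, R * (e + M) * ((e + M) * S) = 0 := fun R S => by
    have h1 : R * (e + M) * ((e + M) * S) = R * ((e + M) * (e + M)) * S := by noncomm_ring
    rw [h1, hsq, mul_zero, zero_mul]
  have i1 : e * c' + A' * A' = 0 := by
    have h1 := hb P P
    rw [PM1, MP1, add_mul, mul_add, mul_add, zQP e A' eQ PA', zPQ A' c' A'P Qc'] at h1
    rw [← h1]
    abel
  have i3 : D' * c' + c' * A' = 0 := by
    have h1 := hb Q P
    rw [QM1, MP1, add_mul, mul_add, mul_add, zQP D' A' D'Q PA', zPQ c' c' c'P Qc'] at h1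
    rw [← h1]
    abel
  have i4 : c' * e + D' * D' = 0 := by
    have h1 := hb Q Q
    rw [QM1, MQ1, add_mul, mul_add, mul_add, zQP D' e D'Q Pe, zPQ c' D' c'P QD'] at h1
    rw [← h1]
    abel
  have ec' : e * c' = 0 := by
    have h1 := congrArg (fun X => p * X) i1
    beta_reduce at h1
    rwa [mul_add, ← mul_assoc, pe, ← mul_assoc, pA', zero_mul, add_zero, mul_zero] at h1
  have c'e : c' * e = 0 := by
    have h1 := congrArg (fun X => X * q) i4
    beta_reduce at h1
    rwa [add_mul, mul_assoc, eq, mul_assoc, D'q, mul_zero, add_zero, zero_mul] at h1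
  have A'A' : A' * A' = 0 := by rwa [ec', zero_add] at i1
  have D'D' : D' * D' = 0 := by rwa [c'e, zero_add] at i4
  have pM : p * M = 0 := by
    rw [hM, mul_add, mul_add, pA', zPQ p D' pP QD', zPQ p c' pP Qc', add_zero, add_zero]
  have Mq : M * q = 0 := by
    rw [hM, add_mul, add_mul, D'q, zPQ A' q A'P QqE, zPQ c' q c'P QqE, add_zero, add_zero]
  have Mp : M * p = 0 := by
    rw [hM, add_mul, add_mul, A'p, zQP D' p D'Q Pp, hp, ← mul_assoc, c'e, zero_mul, add_zero,
      add_zero]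
  have qM : q * M = 0 := by
    rw [hM, mul_add, mul_add, qD', zQP q A' qQ PA', hq, mul_assoc f, ec', mul_zero, add_zero,
      add_zero]
  have MM : M * M = 0 := by
    have h1 : M * M = A' * A' + A' * D' + A' * c' + (D' * A' + D' * D') + (D' * c' + c' * A') +
        c' * D' + c' * c' := by
      rw [hM]
      noncomm_ring
    rw [h1, A'A', D'D', i3, zPQ A' D' A'P QD', zPQ A' c' A'P Qc', zQP D' A' D'Q PA',
      zPQ c' D' c'P QD', zPQ c' c' c'P Qc']
    abel
  have hMG : M ∈ G := by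
    have h1 : M = N + (y * N - N * y) - (1 / 2 : ℂ) • ((y * N - N * y) * y - y * (y * N - N * y)) -
        e := by
      have h2 : (y * N - N * y) * y - y * (y * N - N * y) = (2 : ℂ) • (y * N * y) := by
        have h3 : (y * N - N * y) * y - y * (y * N - N * y) = y * N * y + y * N * y -
            N * (y * y) - (y * y) * N := by noncomm_ring
        rw [h3, yy]
        simp only [mul_zero, zero_mul, sub_zero]
        module
      rw [h2]
      have h4 : M = (1 + y) * N * (1 - y) - e := by rw [hconj]; abel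
      rw [h4]
      have h5 : (1 + y) * N * (1 - y) = N + (y * N - N * y) - y * N * y := by noncomm_ring
      rw [h5]
      module
    rw [h1]
    have h2 := H.br _ hym.1 _ hN
    exact G.sub_mem (G.sub_mem (G.add_mem hN h2) (G.smul_mem _ (H.br _ h2 _ hym.1))) hem.1
  have PMQ : P * M * Q = 0 := by
    rw [hM, mul_add, mul_add, add_mul, add_mul, PA', ← A'P, mul_assoc A', H.PQ, mul_zero, ← QD',
      ← mul_assoc P, H.PQ, zero_mul, zero_mul, ← Qc', ← mul_assoc P, H.PQ, zero_mul, zero_mul,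
      add_zero, add_zero]
  have hrk : N.rank = (e + M).rank := by
    apply le_antisymm
    · have h1 : N = (1 - y) * (e + M) * (1 + y) := by
        rw [← hconj]
        have h2 : (1 - y) * ((1 + y) * N * (1 - y)) * (1 + y) =
            ((1 - y) * (1 + y)) * N * ((1 - y) * (1 + y)) := by noncomm_ring
        rw [h2, hinv, one_mul, mul_one]
      nth_rewrite 1 [h1]
      exact (rank_mul_le_left _ _).trans (rank_mul_le_right _ _)
    · rw [← hconj]
      exact (rank_mul_le_left _ _).trans (rank_mul_le_right _ _)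
  refine ⟨f, M, hf, hefe, hfef, hMG, MM, PMQ, ?_, ?_, ?_, ?_, ?_⟩
  · rw [← hp]; exact pM
  · rw [← hp]; exact Mp
  · rw [← hq]; exact qM
  · rw [← hq]; exact Mq
  · rw [hrk]
    refine rank_orth (g := p + q) ?_ ?_ ?_ ?_
    · rw [add_mul, pe, zQP q e qQ Pe, add_zero]
    · rw [mul_add, eq, zQP e p eQ Pp, zero_add]
    · rw [add_mul, pM, qM, add_zero]
    · rw [mul_add, Mp, Mq, add_zero]

end

end Pool.Agent.K9h17.D
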