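import Mathlib
import Pool.Agent.K9h17.D.Nrm
import Pool.Agent.K9h17.L.Binom

/-!
# Nilpotent elements in the binomial case
-/

set_option linter.unusedSectionVars false

namespace Pool.Agent.K9h17.D

open Matrix Module
open Pool.Agent.Y4.G (trF trF_apply exists_dual exists_eig_range trace_idemM rank_mul_lt)
open Pool.Agent.Y4.G.Lie (pos mem_pos)
open Pool.Agent.N183.JP
open Pool.Agent.K9h17.L
open Pool.Agent.K9h17.B

noncomputable section

variable {B : Type} [Fintype B] [DecidableEq B]

variable {G : Submodule ℂ (Matrix B B ℂ)} {P Q : Matrix B B ℂ} {a b : ℕ}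

/-- Dual families and consecutive binomial coefficients. -/
theorem binom' (H : LieP G P Q a b) {e f p q : Matrix B B ℂ} (k : TrpP G P Q e f p q)
    (h0 : ∀ x ∈ pos G P Q, (P - p) * x * (Q - q) = 0) (hirr : IrrXY G P Q) :
    ∃ (n s t : ℕ) (x Y : Fin n → Matrix B B ℂ), (∀ i, x i ∈ pos G P Q) ∧
      (∀ i, Y i ∈ pos G Q P) ∧
      (∀ g ∈ pos G Q P, ∑ i, trace (x i * g) • Y i = trace p • g) ∧
      ∑ i, x i * Y i = (t : ℂ) • P ∧ ∑ i, Y i * x i = (s : ℂ) • Q ∧ s + t = n + 1 ∧
      a = n.choose t ∧ b = n.choose s ∧ trace p * n = t * a ∧ trace p * n = s * b := by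
  have htp : trace p ≠ 0 := trp_ne k
  obtain ⟨n, b', y, hy, hyb, hys⟩ := exists_dual (trF B) (pos G P Q) (pos G Q P)
    (fun x hx h => H.nondeg hx h) (fun x hx h => H.symm.nondeg hx fun y hy => by
      rw [trF_apply, trace_mul_comm]
      exact h y hy)
  let x : Fin n → Matrix B B ℂ := fun i => (b' i : Matrix B B ℂ)
  let Y : Fin n → Matrix B B ℂ := fun i => trace p • y i
  have hx : ∀ i, x i ∈ pos G P Q := fun i => (b' i).2
  have hY : ∀ i, Y i ∈ pos G Q P := fun i => Submodule.smul_mem _ _ (hy i)
  have htr : ∀ i j, trace (x i * Y j) = if i = j then trace p else 0 := by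
    intro i j
    have h1 := hyb j (b' i)
    rw [trF_apply, Basis.repr_self, Finsupp.single_apply] at h1
    change trace (x i * trace p • y j) = _
    rw [mul_smul_comm, trace_smul, h1, smul_eq_mul, mul_ite, mul_one, mul_zero]
  have pol := hpol H k h0
  have pol' := hpol' H k h0
  have D : Dual2 G P Q x Y :=
    { hx := hx
      hy := hY
      sx := fun z hz => ⟨fun i => b'.repr ⟨z, hz⟩ i, by
        have h4 := congrArg Subtype.val (b'.sum_repr ⟨z, hz⟩)
        refine h4.symm.trans ?_
        rw [Submodule.coe_sum]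
        rfl⟩
      sy := fun z hz => ⟨fun i => trF B (b' i) z * (trace p)⁻¹, by
        refine (hys z hz).trans (Finset.sum_congr rfl fun i _ => ?_)
        change _ = _ • (trace p • y i)
        rw [smul_smul, mul_assoc, inv_mul_cancel₀ htp, mul_one]⟩
      t := fun i j l => by
        have h1 := pol _ _ _ (hx i) (hx l) (hY j)
        rw [htr, htr] at h1
        apply smul_right_injective _ htp
        change trace p • (x i * Y j * x l + x l * Y j * x i) = _
        rw [h1]
        change _ = trace p • (_ + _)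
        rw [smul_add, smul_ite, smul_ite, smul_zero, ite_smul, ite_smul, zero_smul, zero_smul]
      t' := fun i j l => by
        have h1 := pol' _ _ _ (hY i) (hY l) (hx j)
        rw [trace_mul_comm, trace_mul_comm (Y l), htr, htr] at h1
        apply smul_right_injective _ htp
        change trace p • (Y i * x j * Y l + Y l * x j * Y i) = _
        rw [h1]
        change _ = trace p • (_ + _)
        rw [smul_add, smul_ite, smul_ite, smul_zero, ite_smul, ite_smul, zero_smul, zero_smul]
        simp only [eq_comm (a := j)] }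
  have hP0 : P ≠ 0 := by
    intro h1
    apply k.ne
    rw [← k.mem.2.1, h1, zero_mul]
  have hQ0 : Q ≠ 0 := by
    intro h1
    apply k.ne
    rw [← k.mem.2.2, h1, mul_zero]
  obtain ⟨t, ht, htr1⟩ := GLd.main n _ _ (D.gl H hirr) hP0
  obtain ⟨s, hs, hsr1⟩ := GLd.main n _ _ (D.symm.gl H.symm hirr.symm) hQ0
  have htt : trace (∑ i, x i * Y i) = trace p * n := by
    rw [trace_sum, Finset.sum_congr rfl fun i _ => by rw [htr, if_pos rfl], Finset.sum_const,
      Finset.card_univ, Fintype.card_fin, nsmul_eq_mul, mul_comm]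
  have htt' : trace (∑ i, Y i * x i) = trace p * n := by
    rw [← htt, trace_sum, trace_sum]
    exact Finset.sum_congr rfl fun i _ => trace_mul_comm _ _
  refine ⟨n, s, t, x, Y, hx, hY, fun g hg => ?_, ht, hs, ?_, ?_, ?_, ?_, ?_⟩
  · have h1 := hys g hg
    rw [show trace p • g = trace p • ∑ i, trF B (b' i) g • y i from congrArg _ h1,
      Finset.smul_sum]
    refine Finset.sum_congr rfl fun i _ => ?_
    change trace (x i * g) • (trace p • y i) = trace p • (trF B (b' i) g • y i)
    rw [trF_apply, smul_comm]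
  · -- an element of the basis
    obtain ⟨c, hc⟩ := D.sx e k.mem
    obtain ⟨j, hj⟩ : ∃ j, x j ≠ 0 := by
      by_contra hcon
      push Not at hcon
      apply k.ne
      rw [hc]
      exact Finset.sum_eq_zero fun i _ => by rw [hcon, smul_zero]
    have h1 : (∑ i, x i * Y i) * x j + x j * ∑ i, Y i * x i = ((n : ℂ) + 1) • x j := by
      rw [Finset.sum_mul, Finset.mul_sum, ← Finset.sum_add_distrib]
      have h2 : ∀ i, x i * Y i * x j + x j * (Y i * x i) = x j + if j = i then x i else 0 := by
        intro i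
        rw [← mul_assoc, D.t, if_pos rfl]
      rw [Finset.sum_congr rfl fun i _ => h2 i, Finset.sum_add_distrib,
        Finset.sum_ite_eq Finset.univ j, if_pos (Finset.mem_univ _), Finset.sum_const,
        Finset.card_univ, Fintype.card_fin, add_smul, one_smul, Nat.cast_smul_eq_nsmul]
    rw [ht, hs, smul_mul_assoc, mul_smul_comm, (hx j).2.1, (hx j).2.2, ← add_smul, ← sub_eq_zero,
      ← sub_smul] at h1
    have h2 := sub_eq_zero.1 ((smul_eq_zero.1 h1).resolve_right hj)
    have h3 : (s : ℂ) + t = n + 1 := by rw [← h2]; ring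
    exact_mod_cast h3
  · have h1 := htr1
    rw [H.trP] at h1
    exact_mod_cast h1
  · have h1 := hsr1
    rw [H.trQ] at h1
    exact_mod_cast h1
  · rw [← htt, ht, trace_smul, H.trP, smul_eq_mul]
  · rw [← htt', hs, trace_smul, H.trQ, smul_eq_mul]

/-- An element of degree minus one with given traces. -/
theorem exists_trace (H : LieP G P Q a b) {u e z : Matrix B B ℂ} (hu : u ∈ pos G P Q)
    (he : e ∈ pos G P Q) (hz : z ∈ pos G P Q) (c : ℂ)
    (hne : ∀ α β : ℂ, z ≠ α • u + β • e) :
    ∃ g ∈ pos G Q P, trace (z * g) = c ∧ trace (u * g) = 0 ∧ trace (e * g) = 0 := by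
  obtain ⟨g, hg, h1, h2, h3⟩ : ∃ g ∈ pos G Q P, trace (z * g) ≠ 0 ∧ trace (u * g) = 0 ∧
      trace (e * g) = 0 := by
    by_contra hcon
    push Not at hcon
    let L : Matrix B B ℂ → (pos G Q P →ₗ[ℂ] ℂ) := fun x =>
      ((traceLinearMap B ℂ ℂ).comp (LinearMap.mulLeft ℂ x)).comp (pos G Q P).subtype
    have hL : ∀ x (g : pos G Q P), L x g = trace (x * (g : Matrix B B ℂ)) := fun _ _ => rfl
    have h1 : L z ∈ Submodule.span ℂ (Set.range ![L u, L e]) := by
      refine mem_span_of_iInf_ker_le_ker fun g hg => ?_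
      rw [Submodule.mem_iInf] at hg
      have h2 := hg 0
      have h3 := hg 1
      rw [LinearMap.mem_ker] at h2 h3 ⊢
      change L u g = 0 at h2
      change L e g = 0 at h3
      rw [hL] at h2 h3 ⊢
      by_contra h4
      exact hcon g g.2 h4 h2 h3
    rw [Matrix.range_cons, Matrix.range_cons, Matrix.range_empty, Set.union_empty,
      Set.singleton_union, Submodule.mem_span_pair] at h1
    obtain ⟨α, β, h1⟩ := h1
    apply hne α β
    have h2 : z - (α • u + β • e) ∈ pos G P Q := Submodule.sub_mem _ hz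
      (Submodule.add_mem _ (Submodule.smul_mem _ _ hu) (Submodule.smul_mem _ _ he))
    refine sub_eq_zero.1 (H.nondeg h2 fun y hy => ?_)
    have h3 := LinearMap.congr_fun h1 ⟨y, hy⟩
    rw [LinearMap.add_apply, LinearMap.smul_apply, LinearMap.smul_apply, hL, hL, hL,
      smul_eq_mul, smul_eq_mul] at h3
    rw [trF_apply, sub_mul, add_mul, trace_sub, trace_add, smul_mul_assoc, smul_mul_assoc,
      trace_smul, trace_smul, smul_eq_mul, smul_eq_mul]
    change α * trace (u * y) + β * trace (e * y) = trace (z * y) at h3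
    rw [h3, sub_self]
  refine ⟨(c * (trace (z * g))⁻¹) • g, Submodule.smul_mem _ _ hg, ?_, ?_, ?_⟩
  · rw [mul_smul_comm, trace_smul, smul_eq_mul, mul_assoc, inv_mul_cancel₀ h1, mul_one]
  · rw [mul_smul_comm, trace_smul, h2, smul_zero]
  · rw [mul_smul_comm, trace_smul, h3, smul_zero]

/-- The trace of a nilpotent matrix. -/
theorem trace_sq_zero {A : Matrix B B ℂ} (h : A * A = 0) : trace A = 0 := by
  have h1 : IsNilpotent A := ⟨2, by rw [pow_two, h]⟩
  exact (Matrix.isNilpotent_trace_of_isNilpotent h1).eq_zero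

/-- Elements which commute with the elements of degree one. -/
theorem comm_zero (H : LieP G P Q a b) (hI : IrrXY G P Q) (hne : pos G P Q ≠ ⊥)
    {W : Matrix B B ℂ} (hW : W ∈ G) (hP : P * W = W * P)
    (hc : ∀ x ∈ pos G P Q, W * x - x * W = 0) (ht : trace W = 0) : W = 0 := by
  have hQ := H.comm_Q hW hP
  have hc' : ∀ y ∈ pos G Q P, W * y - y * W = 0 := by
    intro y hy
    refine H.symm.nondeg (H.symm.br_pos hy hW hQ hP) fun x hx => ?_
    rw [trF_apply]
    have h1 : (W * y - y * W) * x = W * (y * x) - y * (W * x) := by noncomm_ring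
    rw [h1, trace_sub, trace_mul_comm W, sub_eq_zero.1 (hc x hx), mul_assoc, sub_self]
  obtain ⟨κ, hκ⟩ := schur_xy H hI (c := W * P) (by rw [← mul_assoc, hP, mul_assoc, H.PP])
    (by rw [mul_assoc, H.PP]) fun x hx y hy => by
      rw [mul_assoc W, ← mul_assoc P, hx.2.1, ← mul_assoc, sub_eq_zero.1 (hc x hx), mul_assoc,
        sub_eq_zero.1 (hc' y hy), mul_assoc x y, ← hP, ← mul_assoc y P, hy.2.2]
  obtain ⟨κ', hκ'⟩ := schur_xy H.symm hI.symm (c := W * Q) (by rw [← mul_assoc, hQ, mul_assoc, H.QQ])
    (by rw [mul_assoc, H.QQ]) fun x hx y hy => by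
      rw [mul_assoc W, ← mul_assoc Q, hx.2.1, ← mul_assoc, sub_eq_zero.1 (hc' x hx), mul_assoc,
        sub_eq_zero.1 (hc y hy), mul_assoc x y, ← hQ, ← mul_assoc y Q, hy.2.2]
  obtain ⟨x, hx, hx0⟩ := (Submodule.ne_bot_iff _).1 hne
  have h1 : κ = κ' := by
    have h2 : κ • x = κ' • x := by
      calc κ • x = (κ • P) * x := by rw [smul_mul_assoc, hx.2.1]
      _ = W * x := by rw [← hκ, mul_assoc, hx.2.1]
      _ = x * W := sub_eq_zero.1 (hc x hx)
      _ = x * (W * Q) := by rw [← hQ, ← mul_assoc, hx.2.2]
      _ = κ' • x := by rw [hκ', mul_smul_comm, hx.2.2]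
    have h3 : (κ - κ') • x = 0 := by rw [sub_smul, h2, sub_self]
    exact sub_eq_zero.1 ((smul_eq_zero.1 h3).resolve_right hx0)
  have h2 : W = κ • (P + Q) := by
    have h3 : κ • Q = κ' • Q := by rw [h1]
    rw [smul_add, ← hκ, h3, ← hκ', ← mul_add, H.ler W hW]
  rw [h2, trace_smul, trace_add, H.trP, H.trQ, smul_eq_mul] at ht
  rcases mul_eq_zero.1 ht with h3 | h3
  · rw [h2, h3, zero_smul]
  · exfalso
    have h4 : a = 0 := by
      have h5 : a + b = 0 := by exact_mod_cast h3
      omega
    apply hx0
    have h5 : P = 0 := idem_zero H.PP (by rw [H.trP, h4, Nat.cast_zero])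
    rw [← hx.2.1, h5, zero_mul]

/-- **Nilpotent elements in the binomial case** have the rank of the minimal elements. -/
theorem rank_bin (H : LieP G P Q a b) (hI : IrrXY G P Q) {e₀ f₀ p₀ q₀ : Matrix B B ℂ}
    (k : TrpP G P Q e₀ f₀ p₀ q₀) (h0 : ∀ x ∈ pos G P Q, (P - p₀) * x * (Q - q₀) = 0)
    {n s t : ℕ} {x Y : Fin n → Matrix B B ℂ}
    (hx : ∀ i, x i ∈ pos G P Q)
    (hY : ∀ g ∈ pos G Q P, ∑ i, trace (x i * g) • Y i = trace p₀ • g)
    (ht : ∑ i, x i * Y i = (t : ℂ) • P) (hs : ∑ i, Y i * x i = (s : ℂ) • Q) (ht1 : t ≠ 1)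
    (hs1 : s ≠ 1) {N : Matrix B B ℂ} (hN : N ∈ G) (hNN : N * N = 0) (hN0 : P * N * Q ≠ 0) :
    (N.rank : ℂ) = trace p₀ := by
  obtain ⟨f, M, hf, hefe, hfef, hM, MM, hPMQ, pM, Mp, qM, Mq, hrk⟩ := nil_form H hN hNN
  obtain ⟨e, he⟩ : ∃ e, e = P * N * Q := ⟨_, rfl⟩
  rw [← he] at hefe hfef pM Mp qM Mq hrk hN0
  have hem : e ∈ pos G P Q := by
    rw [he]
    exact ⟨H.grP hN, by rw [← mul_assoc, ← mul_assoc, H.PP], by rw [mul_assoc _ Q Q, H.QQ]⟩
  obtain ⟨m, hm⟩ : ∃ m, m = trace p₀ := ⟨_, rfl⟩
  have hm0 : m ≠ 0 := by rw [hm]; exact trp_ne k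
  have pol := hpol H k h0
  have pol' := hpol' H k h0
  rw [← hm] at pol pol' hY ⊢
  have xx : ∀ x ∈ pos G P Q, ∀ x' ∈ pos G P Q, x * x' = 0 := by
    intro x hx x' hx'
    rw [← hx.2.2, ← hx'.2.1, mul_assoc, ← mul_assoc Q, H.QP, zero_mul, mul_zero]
  have yy : ∀ x ∈ pos G Q P, ∀ x' ∈ pos G Q P, x * x' = 0 := by
    intro x hx x' hx'
    rw [← hx.2.2, ← hx'.2.1, mul_assoc, ← mul_assoc P, H.PQ, zero_mul, mul_zero]
  have hte : trace (e * f) = m := by
    have h1 := pol e e f hem hem hf
    rw [hefe, ← two_smul ℂ e, ← add_smul, smul_smul] at h1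
    have h2 : (m * 2 - (trace (e * f) + trace (e * f))) • e = 0 := by
      rw [sub_smul, h1, sub_self]
    have h3 := (smul_eq_zero.1 h2).resolve_right hN0
    linear_combination (-1 / 2 : ℂ) * h3
  have eM : e * M = 0 := by
    calc e * M = e * (f * e * M) := by rw [← mul_assoc, ← mul_assoc, hefe]
    _ = 0 := by rw [qM, mul_zero]
  have Me : M * e = 0 := by
    calc M * e = (M * (e * f)) * e := by rw [mul_assoc, hefe]
    _ = 0 := by rw [Mp, zero_mul]
  have fM : f * M = 0 := by
    calc f * M = f * (e * f * M) := by rw [← mul_assoc, ← mul_assoc, hfef]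
    _ = 0 := by rw [pM, mul_zero]
  have hc0 : Q * M * P = 0 := by
    obtain ⟨c, hc⟩ : ∃ c, c = Q * M * P := ⟨_, rfl⟩
    rw [← hc]
    have hcm : c ∈ pos G Q P := by
      rw [hc]
      exact ⟨H.grQ hM, by rw [← mul_assoc, ← mul_assoc, H.QQ], by rw [mul_assoc _ P P, H.PP]⟩
    have ec : e * c = 0 := by
      rw [hc, ← mul_assoc, ← mul_assoc, hem.2.2, eM, zero_mul]
    have ce : c * e = 0 := by
      rw [hc, mul_assoc, hem.2.1, mul_assoc, Me, mul_zero]
    refine H.symm.nondeg hcm fun u hu => ?_
    rw [trF_apply]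
    have h1 := congrArg (fun z => e * z * e) (pol' c f u hcm hf hu)
    beta_reduce at h1
    have e1 : e * (c * u * f + f * u * c) * e = (e * c) * u * f * e + e * f * u * (c * e) := by
      noncomm_ring
    rw [mul_smul_comm, smul_mul_assoc, e1, ec, ce, zero_mul, zero_mul, zero_mul, mul_zero,
      add_zero, smul_zero, mul_add, add_mul, mul_smul_comm, mul_smul_comm, ec, smul_zero, zero_mul,
      add_zero, smul_mul_assoc, hefe] at h1
    exact (smul_eq_zero.1 h1.symm).resolve_right hN0
  have hMP : P * M = M * P := by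
    calc P * M = P * (M * (P + Q)) := by rw [H.ler M hM]
    _ = P * M * P + P * M * Q := by noncomm_ring
    _ = P * M * P + Q * M * P := by rw [hPMQ, hc0]
    _ = (P + Q) * M * P := by noncomm_ring
    _ = M * P := by rw [H.lel M hM]
  have hMQ := H.comm_Q hM hMP
  have hne : pos G P Q ≠ ⊥ := by
    intro h1
    rw [h1, Submodule.mem_bot] at hem
    exact hN0 hem
  have hM0 : M = 0 := by
    by_contra hM0
    obtain ⟨u', hu', hu'0⟩ : ∃ u ∈ pos G P Q, M * u - u * M ≠ 0 := by
      by_contra hcon
      push Not at hcon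
      exact hM0 (comm_zero H hI hne hM hMP hcon (trace_sq_zero MM))
    obtain ⟨u, hu⟩ : ∃ u, u = u' - (trace (u' * f) * m⁻¹) • e := ⟨_, rfl⟩
    obtain ⟨z, hz⟩ : ∃ z, z = M * u - u * M := ⟨_, rfl⟩
    have hum : u ∈ pos G P Q := by
      rw [hu]
      exact Submodule.sub_mem _ hu' (Submodule.smul_mem _ _ hem)
    have hzm : z ∈ pos G P Q := by rw [hz]; exact H.br_pos hum hM hMP hMQ
    have hz0 : z ≠ 0 := by
      have h1 : z = M * u' - u' * M := by
        rw [hz, hu, mul_sub, sub_mul, mul_smul_comm, smul_mul_assoc, Me, eM, smul_zero, sub_zero,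
          sub_zero]
      rw [h1]
      exact hu'0
    have huf : trace (u * f) = 0 := by
      rw [hu, sub_mul, trace_sub, smul_mul_assoc, trace_smul, hte, smul_eq_mul, mul_assoc,
        inv_mul_cancel₀ hm0, mul_one, sub_self]
    have Mf : M * f = 0 := by
      calc M * f = (M * (f * e)) * f := by rw [mul_assoc, hfef]
      _ = 0 := by rw [Mq, zero_mul]
    have hzf : trace (z * f) = 0 := by
      rw [hz, sub_mul, mul_assoc u, Mf, mul_zero, sub_zero, mul_assoc, trace_mul_comm, mul_assoc,
        fM, mul_zero, trace_zero]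
    have hlin : ∀ α β : ℂ, z ≠ α • u + β • e := by
      intro α β h1
      have h2 : β = 0 := by
        have h3 := hzf
        rw [h1, add_mul, trace_add, smul_mul_assoc, smul_mul_assoc, trace_smul, trace_smul, huf,
          hte, smul_zero, zero_add, smul_eq_mul] at h3
        exact (mul_eq_zero.1 h3).resolve_right hm0
      rw [h2, zero_smul, add_zero, hz] at h1
      have h4 : α ≠ 0 := by
        rintro rfl
        rw [zero_smul] at h1
        exact hz0 (hz.trans h1)
      have h5 : M * u * M = 0 := by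
        have h6 := congrArg (fun z => M * z * M) h1
        beta_reduce at h6
        have e1 : M * (M * u - u * M) * M = (M * M) * u * M - M * u * (M * M) := by noncomm_ring
        rw [e1, MM, zero_mul, zero_mul, mul_zero, sub_zero, mul_smul_comm, smul_mul_assoc] at h6
        exact (smul_eq_zero.1 h6.symm).resolve_left h4
      have h6 : M * u = 0 := by
        have h7 := congrArg (fun z => M * z) h1
        beta_reduce at h7
        have e1 : M * (M * u - u * M) = (M * M) * u - M * u * M := by noncomm_ring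
        rw [e1, MM, zero_mul, h5, sub_zero, mul_smul_comm] at h7
        exact (smul_eq_zero.1 h7.symm).resolve_left h4
      have h7 : u * M = 0 := by
        have h8 := congrArg (fun z => z * M) h1
        beta_reduce at h8
        have e1 : (M * u - u * M) * M = M * u * M - u * (M * M) := by noncomm_ring
        rw [e1, MM, mul_zero, h5, sub_zero, smul_mul_assoc] at h8
        exact (smul_eq_zero.1 h8.symm).resolve_left h4
      apply hz0
      rw [hz, h6, h7, sub_zero]
    obtain ⟨g, hg, hzg, hug, heg⟩ := exists_trace H hum hem hzm m hlin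
    have hgz : trace (g * z) = m := by rw [trace_mul_comm, hzg]
    have hgu : trace (g * u) = 0 := by rw [trace_mul_comm, hug]
    -- the brackets with `D = [u, g]`
    obtain ⟨c, hc⟩ : ∃ c : Matrix B B ℂ → ℂ, ∀ x, c x = m⁻¹ * trace (x * g) := ⟨_, fun _ => rfl⟩
    obtain ⟨D, hD⟩ : ∃ D, D = u * g - g * u := ⟨_, rfl⟩
    have bD : ∀ x ∈ pos G P Q, D * x - x * D = c x • u := by
      intro x hx
      have h1 := pol u x g hum hx hg
      rw [hug, zero_smul, zero_add] at h1
      have h2 : D * x - x * D = u * g * x + x * g * u := by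
        have h3 : D * x - x * D = u * g * x + x * g * u - g * (u * x) - (x * u) * g := by
          rw [hD]
          noncomm_ring
        rw [h3, xx u hum x hx, xx x hx u hum, mul_zero, zero_mul, sub_zero, sub_zero]
      rw [h2, hc, mul_smul, ← h1, smul_smul, inv_mul_cancel₀ hm0, one_smul]
    have cu : c u = 0 := by rw [hc, hug, mul_zero]
    have ce : c e = 0 := by rw [hc, heg, mul_zero]
    have cz : c z = 1 := by rw [hc, hzg, inv_mul_cancel₀ hm0]
    obtain ⟨A, hA⟩ : ∃ A, A = D * M - M * D := ⟨_, rfl⟩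
    have bA : ∀ x ∈ pos G P Q, A * x - x * A = c (M * x - x * M) • u - c x • z := by
      intro x hx
      have h1 := bD _ (H.br_pos hx hM hMP hMQ)
      have h2 : A * x - x * A = (D * (M * x - x * M) - (M * x - x * M) * D) -
          (M * (D * x - x * D) - (D * x - x * D) * M) := by
        rw [hA]
        noncomm_ring
      rw [h2, h1, bD x hx, mul_smul_comm, smul_mul_assoc, ← smul_sub, ← hz]
    obtain ⟨W, hW⟩ : ∃ W, W = D * A - A * D + (2 : ℂ) • D := ⟨_, rfl⟩
    have bW : ∀ x ∈ pos G P Q, W * x - x * W = 0 := by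
      intro x hx
      have h2 : W * x - x * W = (D * (A * x - x * A) - (A * x - x * A) * D) -
          (A * (D * x - x * D) - (D * x - x * D) * A) + (2 : ℂ) • (D * x - x * D) := by
        rw [hW, add_mul, mul_add, smul_mul_assoc, mul_smul_comm, smul_sub]
        noncomm_ring
      have h3 := bD u hum
      have h4 := bD z hzm
      have h5 := bA u hum
      rw [cu, zero_smul] at h3
      rw [cz, one_smul] at h4
      rw [cu, zero_smul, ← hz, cz, one_smul, sub_zero] at h5
      have h6 : D * (A * x - x * A) - (A * x - x * A) * D =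
          c (M * x - x * M) • (D * u - u * D) - c x • (D * z - z * D) := by
        rw [bA x hx, mul_sub, sub_mul, mul_smul_comm, mul_smul_comm, smul_mul_assoc,
          smul_mul_assoc, smul_sub, smul_sub]
        abel
      rw [h2, h6, bD x hx, h3, h4, mul_smul_comm, smul_mul_assoc, ← smul_sub, h5]
      module
    have ugm : D ∈ G := by rw [hD]; exact H.br _ hum.1 _ hg.1
    have hAm : A ∈ G := by rw [hA]; exact H.br _ ugm _ hM
    have hWm : W ∈ G := by
      rw [hW]
      exact G.add_mem (H.br _ ugm _ hAm) (G.smul_mem _ ugm)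
    have hDP : P * D = D * P := by
      have h1 : P * g = 0 := by rw [← hg.2.1, ← mul_assoc, H.PQ, zero_mul]
      have h2 : u * P = 0 := by rw [← hum.2.2, mul_assoc, H.QP, mul_zero]
      rw [hD, mul_sub, sub_mul, ← mul_assoc, hum.2.1, ← mul_assoc P, h1, mul_assoc u, hg.2.2,
        mul_assoc g, h2, zero_mul, mul_zero]
    have hAP : P * A = A * P := by
      rw [hA, mul_sub, sub_mul, ← mul_assoc, ← mul_assoc P M, hDP, hMP, mul_assoc D, mul_assoc M,
        hDP, hMP, mul_assoc D, mul_assoc M]
    have hWP : P * W = W * P := by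
      rw [hW, mul_add, add_mul, mul_sub, sub_mul, ← mul_assoc, ← mul_assoc P A, hDP, hAP,
        mul_assoc D P A, mul_assoc A P D, hAP, hDP, mul_smul_comm, smul_mul_assoc, hDP,
        ← mul_assoc, ← mul_assoc]
    have htW : trace W = 0 := by
      rw [hW, trace_add, trace_sub, trace_mul_comm D, sub_self, zero_add, trace_smul, hD,
        trace_sub, trace_mul_comm u, sub_self, smul_zero]
    have hW0 : W = 0 := comm_zero H hI hne hWm hWP bW htW
    have De : D * e = e * D := by
      have h1 := bD e hem
      rw [ce, zero_smul] at h1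
      exact sub_eq_zero.1 h1
    have Ae : A * e = 0 := by
      rw [hA, sub_mul, mul_assoc, Me, mul_zero, mul_assoc, De, ← mul_assoc, Me, zero_mul, sub_zero]
    have De0 : D * e = 0 := by
      have h1 := congrArg (fun z => z * e) hW0
      beta_reduce at h1
      rw [zero_mul, hW, add_mul, sub_mul, mul_assoc, Ae, mul_zero, mul_assoc, De, ← mul_assoc, Ae,
        zero_mul, sub_zero, zero_add, smul_mul_assoc, De] at h1
      rw [De]
      exact (smul_eq_zero.1 h1).resolve_left two_ne_zero
    have eD0 : e * D = 0 := by rw [← De, De0]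
    have uge : u * g * e = 0 := by
      rw [hD, sub_mul, mul_assoc g, xx u hum e hem, mul_zero, sub_zero] at De0
      exact De0
    have egu : e * g * u = 0 := by
      rw [hD, mul_sub, ← mul_assoc, xx e hem u hum, zero_mul, zero_sub, neg_eq_zero,
        ← mul_assoc] at eD0
      exact eD0
    -- the relations
    have ra : ∀ v ∈ pos G Q P, m • (g * u * v * e) = trace (v * u) • (g * e) := by
      intro v hv
      have h1 := congrArg (fun z => z * e) (pol' g v u hg hv hum)
      beta_reduce at h1
      rw [hgu, zero_smul, zero_add, smul_mul_assoc, smul_mul_assoc, add_mul, mul_assoc (v * u),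
        mul_assoc v, ← mul_assoc u, uge, mul_zero, add_zero] at h1
      exact h1
    have dia : ∀ x ∈ pos G P Q, ∀ v ∈ pos G Q P, trace (e * v) = 0 →
        trace (x * g) • (u * v * e) = trace (v * u) • (x * g * e) := by
      intro x hx v hv hev
      have h1 := congrArg (fun z => z * (v * e)) (pol x u g hx hum hg)
      have h2 := congrArg (fun z => x * z) (ra v hv)
      have h3 := congrArg (fun z => u * g * z) (pol x e v hx hem hv)
      beta_reduce at h1 h2 h3
      rw [hug, zero_smul, add_zero, smul_mul_assoc, smul_mul_assoc, ← mul_assoc u v e] at h1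
      rw [hev, zero_smul, add_zero, mul_smul_comm, mul_smul_comm, uge, smul_zero] at h3
      rw [mul_smul_comm, mul_smul_comm, ← mul_assoc x g e] at h2
      have e1 : (x * g * u + u * g * x) * (v * e) = x * (g * u * v * e) +
          u * g * (x * v * e + e * v * x) - u * g * e * v * x := by noncomm_ring
      rw [e1, uge, zero_mul, zero_mul, sub_zero, smul_add, h3, add_zero, h2] at h1
      exact h1.symm
    obtain ⟨v, hv, huv, hev, -⟩ := exists_trace H hem hem hum 1 (by
      intro α β h1
      rw [← add_smul] at h1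
      have h2 := huf
      rw [h1, smul_mul_assoc, trace_smul, hte, smul_eq_mul] at h2
      rw [(mul_eq_zero.1 h2).resolve_right hm0, zero_smul] at h1
      apply hz0
      rw [hz, h1, mul_zero, zero_mul, sub_zero])
    have hvu : trace (v * u) = 1 := by rw [trace_mul_comm, huv]
    have key : ∀ x ∈ pos G P Q, m • (x * g * e) = trace (x * g) • (z * g * e) := by
      intro x hx
      have h1 := dia x hx v hv hev
      have h2 := dia z hzm v hv hev
      rw [hvu, one_smul] at h1 h2
      rw [← h1, ← h2, hzg, smul_comm]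
    have gzg : g * z * g = g := by
      have h1 := pol' g g z hg hg hzm
      rw [hgz, ← two_smul ℂ (g * z * g), ← add_smul, smul_smul] at h1
      have h2 : (m * 2) • (g * z * g - g) = 0 := by
        rw [smul_sub, h1, sub_eq_zero]
        congr 1
        ring
      exact sub_eq_zero.1 ((smul_eq_zero.1 h2).resolve_left (mul_ne_zero hm0 two_ne_zero))
    have ge0 : g * e = 0 := by
      have h1 : ((s : ℂ) * m) • (g * e) = m • (g * e) := by
        calc ((s : ℂ) * m) • (g * e) = m • (((s : ℂ) • Q) * g * e) := by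
              rw [smul_mul_assoc, hg.2.1, smul_mul_assoc, smul_smul, mul_comm]
        _ = ∑ i, Y i * (m • (x i * g * e)) := by
              rw [← hs, Finset.sum_mul, Finset.sum_mul, Finset.smul_sum]
              refine Finset.sum_congr rfl fun i _ => ?_
              rw [mul_smul_comm]
              congr 1
              simp only [mul_assoc]
        _ = (∑ i, trace (x i * g) • Y i) * (z * g * e) := by
              rw [Finset.sum_mul]
              refine Finset.sum_congr rfl fun i _ => ?_
              rw [key _ (hx i), mul_smul_comm, smul_mul_assoc]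
        _ = m • (g * z * g * e) := by
              rw [hY g hg, smul_mul_assoc]
              congr 1
              simp only [mul_assoc]
        _ = m • (g * e) := by rw [gzg]
      have h2 : (((s : ℂ) - 1) * m) • (g * e) = 0 := by
        rw [sub_mul, one_mul, sub_smul, h1, sub_self]
      refine (smul_eq_zero.1 h2).resolve_left (mul_ne_zero ?_ hm0)
      rw [sub_ne_zero]
      exact_mod_cast hs1
    have key2 : ∀ x ∈ pos G P Q, m • (e * g * x) = trace (x * g) • e := by
      intro x hx
      have h1 := pol x e g hx hem hg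
      rw [heg, zero_smul, add_zero, mul_assoc x, ge0, mul_zero, zero_add] at h1
      exact h1
    have eg0 : e * g = 0 := by
      have h1 : ((t : ℂ) * m) • (e * g) = m • (e * g) := by
        calc ((t : ℂ) * m) • (e * g) = m • (e * g * ((t : ℂ) • P)) := by
              rw [mul_smul_comm, mul_assoc e g P, hg.2.2, smul_smul, mul_comm]
        _ = ∑ i, (m • (e * g * x i)) * Y i := by
              rw [← ht, Finset.mul_sum, Finset.smul_sum]
              refine Finset.sum_congr rfl fun i _ => ?_
              rw [smul_mul_assoc]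
              congr 1
              simp only [mul_assoc]
        _ = e * ∑ i, trace (x i * g) • Y i := by
              rw [Finset.mul_sum]
              refine Finset.sum_congr rfl fun i _ => ?_
              rw [key2 _ (hx i), smul_mul_assoc, mul_smul_comm]
        _ = m • (e * g) := by rw [hY g hg, mul_smul_comm]
      have h2 : (((t : ℂ) - 1) * m) • (e * g) = 0 := by
        rw [sub_mul, one_mul, sub_smul, h1, sub_self]
      refine (smul_eq_zero.1 h2).resolve_left (mul_ne_zero ?_ hm0)
      rw [sub_ne_zero]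
      exact_mod_cast ht1
    have h1 := key2 z hzm
    rw [eg0, zero_mul, smul_zero, hzg] at h1
    exact hN0 ((smul_eq_zero.1 h1.symm).resolve_left hm0)
  rw [hrk, hM0, rank_zero, add_zero]
  have h1 : e * f * (e * f) = e * f := by rw [← mul_assoc, hefe]
  have h2 := trace_idemM h1
  rw [hte] at h2
  rw [h2]
  congr 1
  apply le_antisymm
  · calc e.rank = (e * f * e).rank := by rw [hefe]
    _ ≤ (e * f).rank := rank_mul_le_left _ _
  · exact rank_mul_le_left e f

end

end Pool.Agent.K9h17.D
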