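import Mathlib
import Pool.Agent.K9h17.D.Bal
import Pool.Agent.N183.U5.Slp

/-!
# The data from an operator which normalises the Lie algebra
-/

set_option linter.unusedSectionVars false

namespace Pool.Agent.K9h17.D

open Module Polynomial
open Pool.Agent.W528.Odd (trace_br)
open Pool.Agent.W548.Odd (rk exists_repr)
open Pool.Agent.N183.U5 (Adj Adj_apply Adj_pow_mem Adj_aeval_mem)
open Pool.Agent.N183.JP (trace_nondeg)
open Pool.Agent.K9h17.L

noncomputable section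

variable {V : Type} [AddCommGroup V] [Module ℂ V] [FiniteDimensional ℂ V]
  {𝔤 : Submodule ℂ (End ℂ V)}

/-- An operator that normalises the Lie algebra is contained in it modulo the scalars. -/
theorem nu_mem (hbr : ∀ X ∈ 𝔤, ∀ Y ∈ 𝔤, X * Y - Y * X ∈ 𝔤)
    (hirr : ∀ W : Submodule ℂ V, (∀ X ∈ 𝔤, X * X = (1 / 4 : ℂ) • 1 → ∀ u ∈ W, X u ∈ W) →
      W = ⊥ ∨ W = ⊤) {ν : End ℂ V} (hn : ∀ X ∈ 𝔤, ν * X - X * ν ∈ 𝔤) :
    ∃ s : ℂ, ν - s • 1 ∈ 𝔤 := by
  have hnd : ∀ y ∈ 𝔤, (∀ z ∈ 𝔤, LinearMap.trace ℂ V (y * z) = 0) → y = 0 :=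
    fun y hy h => trace_nondeg hbr hirr hy h
  obtain ⟨z, hz, hzt⟩ := exists_repr hnd ((LinearMap.trace ℂ V).comp (LinearMap.mulLeft ℂ ν))
  obtain ⟨w, hw⟩ : ∃ w, w = ν - z := ⟨_, rfl⟩
  have h1 : ∀ X ∈ 𝔤, LinearMap.trace ℂ V (w * X) = 0 := by
    intro X hX
    rw [hw, sub_mul, map_sub, ← hzt X hX]
    exact sub_self _
  have h2 : ∀ X ∈ 𝔤, w * X = X * w := by
    intro X hX
    have hm : w * X - X * w ∈ 𝔤 := by
      have e1 : w * X - X * w = (ν * X - X * ν) - (z * X - X * z) := by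
        rw [hw]
        noncomm_ring
      rw [e1]
      exact 𝔤.sub_mem (hn X hX) (hbr z hz X hX)
    rw [← sub_eq_zero]
    refine hnd _ hm fun Y hY => ?_
    have e1 : LinearMap.trace ℂ V ((w * X - X * w) * Y) =
        LinearMap.trace ℂ V (w * (X * Y - Y * X)) := by
      have e2 : (w * X - X * w) * Y = w * (X * Y) - X * (w * Y) := by noncomm_ring
      have e3 : w * (X * Y - Y * X) = w * (X * Y) - w * Y * X := by noncomm_ring
      rw [e2, e3, map_sub, map_sub, LinearMap.trace_mul_comm ℂ X]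
    rw [e1]
    exact h1 _ (hbr X hX Y hY)
  obtain ⟨s, hs'⟩ := scal hirr h2
  refine ⟨s, ?_⟩
  rw [← hs', hw, sub_sub_cancel]
  exact hz

/-- The data from a unipotent operator. -/
theorem ndata_unip (hbr : ∀ X ∈ 𝔤, ∀ Y ∈ 𝔤, X * Y - Y * X ∈ 𝔤)
    (hirr : ∀ W : Submodule ℂ V, (∀ X ∈ 𝔤, X * X = (1 / 4 : ℂ) • 1 → ∀ u ∈ W, X u ∈ W) →
      W = ⊥ ∨ W = ⊤)
    {γ γ' : End ℂ V} (h2 : γ' * γ = 1) (hn : ∀ X ∈ 𝔤, γ * X * γ' ∈ 𝔤)
    (hu : (γ - 1) * (γ - 1) = 0) : ∃ s : ℂ, γ - 1 - s • 1 ∈ 𝔤 := by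
  obtain ⟨N, hN⟩ : ∃ N, N = γ - 1 := ⟨_, rfl⟩
  rw [← hN] at hu ⊢
  have hγ : γ = 1 + N := by rw [hN]; abel
  have hγ' : γ' = 1 - N := by
    have h3 : (1 + N) * (1 - N) = 1 := by
      have e1 : (1 + N) * (1 - N) = 1 - N * N := by noncomm_ring
      rw [e1, hu, sub_zero]
    calc γ' = γ' * ((1 + N) * (1 - N)) := by rw [h3, mul_one]
    _ = γ' * γ * (1 - N) := by rw [hγ, mul_assoc]
    _ = 1 - N := by rw [h2, one_mul]
  have hz : ∀ X ∈ 𝔤, N * X - X * N - N * X * N ∈ 𝔤 := by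
    intro X hX
    have h3 := 𝔤.sub_mem (hn X hX) hX
    have e1 : γ * X * γ' - X = N * X - X * N - N * X * N := by
      rw [hγ, hγ']
      noncomm_ring
    rwa [e1] at h3
  have hz2 : ∀ X ∈ 𝔤, N * X * N ∈ 𝔤 := by
    intro X hX
    have h3 := hz _ (hz X hX)
    have e1 : N * (N * X - X * N - N * X * N) - (N * X - X * N - N * X * N) * N -
        N * (N * X - X * N - N * X * N) * N = (N * N) * X - (N * N) * X * N - (N * N) * X * N +
          X * (N * N) + N * X * (N * N) + N * X * (N * N) + (N * N) * X * (N * N) -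
            (N * X * N + N * X * N) := by
      noncomm_ring
    rw [e1, hu] at h3
    simp only [zero_mul, mul_zero, sub_zero, add_zero, zero_sub] at h3
    have h4 := 𝔤.smul_mem (-(1 / 2) : ℂ) h3
    have e2 : (-(1 / 2) : ℂ) • (-(N * X * N + N * X * N)) = N * X * N := by module
    rwa [e2] at h4
  refine nu_mem hbr hirr fun X hX => ?_
  have h3 := 𝔤.add_mem (hz X hX) (hz2 X hX)
  rwa [sub_add_cancel] at h3

/-- The data from a unipotent operator. -/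
theorem gdata_unip (hbr : ∀ X ∈ 𝔤, ∀ Y ∈ 𝔤, X * Y - Y * X ∈ 𝔤)
    (hirr : ∀ W : Submodule ℂ V, (∀ X ∈ 𝔤, X * X = (1 / 4 : ℂ) • 1 → ∀ u ∈ W, X u ∈ W) →
      W = ⊥ ∨ W = ⊤)
    {γ γ' : End ℂ V} (h2 : γ' * γ = 1) (hn : ∀ X ∈ 𝔤, γ * X * γ' ∈ 𝔤)
    (hu : (γ - 1) * (γ - 1) = 0) {f : ℕ} (hf : rk (γ - 1) = f) : GData 𝔤 f f :=
  ⟨γ - 1, ndata_unip hbr hirr h2 hn hu, Or.inl ⟨hu, hf, rfl⟩⟩

variable {γ γ' : End ℂ V} {n : ℕ} (w : Basis (Fin n) ℂ V) (α : Fin n → ℂˣ) (ε : Fin n → ℤ)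

/-- The diagonal operator. -/
def dg : End ℂ V := w.constr ℂ fun i => (ε i : ℂ) • w i

theorem dg_w (i : Fin n) : dg w ε (w i) = (ε i : ℂ) • w i := w.constr_basis ℂ _ i

/-- The diagonal operator normalises the Lie algebra. -/
theorem dg_norm (h2 : γ' * γ = 1) (hn : ∀ X ∈ 𝔤, γ * X * γ' ∈ 𝔤)
    (hw : ∀ i, γ (w i) = (α i : ℂ) • w i)
    (hrel : ∀ i j k l, α i * α l = α j * α k → ε i + ε l = ε j + ε k) :
    ∀ X ∈ 𝔤, dg w ε * X - X * dg w ε ∈ 𝔤 := by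
  classical
  have hγ' : ∀ i, γ' (w i) = ((α i)⁻¹ : ℂˣ) • w i := by
    intro i
    have h5 : γ' (γ (w i)) = w i := by
      rw [← Module.End.mul_apply, h2, Module.End.one_apply]
    rw [hw, map_smul] at h5
    have h6 : ((α i)⁻¹ : ℂˣ) • ((α i : ℂ) • γ' (w i)) = γ' (w i) := by
      rw [Units.smul_def, smul_smul, Units.inv_mul, one_smul]
    rw [h5] at h6
    exact h6.symm
  have hco : ∀ (T : End ℂ V) (τ : Fin n → ℂ), (∀ i, T (w i) = τ i • w i) → ∀ y i,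
      w.repr (T y) i = τ i * w.repr y i := by
    intro T τ hT y i
    have h5 : (w.coord i).comp T = τ i • w.coord i := by
      refine w.ext fun j => ?_
      rw [LinearMap.comp_apply, hT, LinearMap.smul_apply, map_smul, Basis.coord_apply,
        w.repr_self, smul_eq_mul, smul_eq_mul, Finsupp.single_apply]
      split_ifs with h6
      · rw [h6]
      · rw [mul_zero, mul_zero]
    exact LinearMap.congr_fun h5 y
  have hAd : ∀ (X : End ℂ V) i j, w.repr (Adj γ γ' X (w j)) i =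
      ((α i / α j : ℂˣ) : ℂ) * w.repr (X (w j)) i := by
    intro X i j
    rw [Adj_apply, Module.End.mul_apply, Module.End.mul_apply, hγ', Units.smul_def, map_smul,
      hco γ (fun i => (α i : ℂ)) hw, map_smul, Finsupp.smul_apply, smul_eq_mul,
      div_eq_mul_inv (α i) (α j), Units.val_mul]
    ring
  have hAdn : ∀ (m : ℕ) (X : End ℂ V) i j, w.repr ((Adj γ γ' ^ m) X (w j)) i =
      ((α i / α j : ℂˣ) : ℂ) ^ m * w.repr (X (w j)) i := by
    intro m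
    induction m with
    | zero =>
      intro X i j
      rw [pow_zero, Module.End.one_apply, pow_zero, one_mul]
    | succ m ih =>
      intro X i j
      rw [pow_succ', Module.End.mul_apply, hAd, ih, pow_succ]
      ring
  have hAdP : ∀ (P : ℂ[X]) (X : End ℂ V) i j, w.repr (aeval (Adj γ γ') P X (w j)) i =
      P.eval ((α i / α j : ℂˣ) : ℂ) * w.repr (X (w j)) i := by
    intro P X i j
    rw [aeval_eq_sum_range, eval_eq_sum_range, LinearMap.sum_apply, LinearMap.sum_apply, map_sum,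
      Finsupp.finsetSum_apply, Finset.sum_mul]
    refine Finset.sum_congr rfl fun m _ => ?_
    rw [LinearMap.smul_apply, LinearMap.smul_apply, map_smul, Finsupp.smul_apply, hAdn,
      smul_eq_mul]
    ring
  have hνw := dg_w w ε
  let s : Finset ℂ := Finset.univ.image fun p : Fin n × Fin n => ((α p.1 / α p.2 : ℂˣ) : ℂ)
  let f : ℂ → ℂ := fun ρ => if hρ : ∃ p : Fin n × Fin n, ((α p.1 / α p.2 : ℂˣ) : ℂ) = ρ then
    (ε hρ.choose.1 : ℂ) - ε hρ.choose.2 else 0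
  have hf : ∀ i j, f ((α i / α j : ℂˣ) : ℂ) = (ε i : ℂ) - ε j := by
    intro i j
    have hρ : ∃ p : Fin n × Fin n, ((α p.1 / α p.2 : ℂˣ) : ℂ) = ((α i / α j : ℂˣ) : ℂ) :=
      ⟨(i, j), rfl⟩
    simp only [f]
    rw [dif_pos hρ]
    have h5 := hρ.choose_spec
    have h6 : α hρ.choose.1 / α hρ.choose.2 = α i / α j := Units.ext h5
    rw [div_eq_div_iff_mul_eq_mul] at h6
    have h7 := hrel hρ.choose.1 i hρ.choose.2 j (by rw [h6])
    have h8 : (ε hρ.choose.1 : ℤ) - ε hρ.choose.2 = ε i - ε j := by omega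
    exact_mod_cast h8
  let P : ℂ[X] := Lagrange.interpolate s id f
  have hP : ∀ i j, P.eval ((α i / α j : ℂˣ) : ℂ) = (ε i : ℂ) - ε j := by
    intro i j
    have h5 := Lagrange.eval_interpolate_at_node (s := s) (v := (id : ℂ → ℂ))
      (i := ((α i / α j : ℂˣ) : ℂ)) f Function.injective_id.injOn
      (Finset.mem_image.2 ⟨(i, j), Finset.mem_univ _, rfl⟩)
    change P.eval ((α i / α j : ℂˣ) : ℂ) = f ((α i / α j : ℂˣ) : ℂ) at h5
    rw [h5, hf]
  intro X hX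
  have hνX : dg w ε * X - X * dg w ε = aeval (Adj γ γ') P X := by
    refine w.ext fun j => w.repr.injective ?_
    ext i
    rw [hAdP, hP, LinearMap.sub_apply, Module.End.mul_apply, Module.End.mul_apply, hνw, map_sub,
      Finsupp.sub_apply, hco (dg w ε) (fun i => (ε i : ℂ)) hνw, map_smul, map_smul,
      Finsupp.smul_apply, smul_eq_mul]
    ring
  rw [hνX]
  exact Adj_aeval_mem hn P hX

theorem trace_dg (T : End ℂ V) (τ : Fin n → ℂ) (hT : ∀ i, T (w i) = τ i • w i) :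
    LinearMap.trace ℂ V T = ∑ i, τ i := by
  rw [LinearMap.trace_eq_matrix_trace ℂ w, Matrix.trace]
  refine Finset.sum_congr rfl fun i _ => ?_
  rw [Matrix.diag_apply, LinearMap.toMatrix_apply, hT, map_smul, Finsupp.smul_apply,
    w.repr_self, Finsupp.single_eq_same, smul_eq_mul, mul_one]

theorem card_sum (c : ℤ) : (Nat.card {i // ε i = c} : ℂ) =
    ∑ i, if ε i = c then (1 : ℂ) else 0 := by
  rw [Finset.sum_boole, Nat.card_eq_fintype_card, Fintype.card_subtype]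

/-- The data from an operator with two classes of eigenvalues. -/
theorem edata_two (hbr : ∀ X ∈ 𝔤, ∀ Y ∈ 𝔤, X * Y - Y * X ∈ 𝔤)
    (hirr : ∀ W : Submodule ℂ V, (∀ X ∈ 𝔤, X * X = (1 / 4 : ℂ) • 1 → ∀ u ∈ W, X u ∈ W) →
      W = ⊥ ∨ W = ⊤)
    (h2 : γ' * γ = 1) (hn : ∀ X ∈ 𝔤, γ * X * γ' ∈ 𝔤)
    (hw : ∀ i, γ (w i) = (α i : ℂ) • w i)
    (hrel : ∀ i j k l, α i * α l = α j * α k → ε i + ε l = ε j + ε k)
    (hε : ∀ i, ε i = 1 ∨ ε i = 0) {f : ℕ} (hf : Nat.card {i // ε i = 1} = f) :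
    ∃ E : End ℂ V, (∃ s : ℂ, E - s • 1 ∈ 𝔤) ∧ E * E = E ∧ rk E = f := by
  have hEw := dg_w w ε
  have hEE : dg w ε * dg w ε = dg w ε := by
    refine w.ext fun i => ?_
    rw [Module.End.mul_apply, hEw, map_smul, hEw]
    rcases hε i with h5 | h5 <;> rw [h5] <;> simp
  have htE : LinearMap.trace ℂ V (dg w ε) = f := by
    rw [trace_dg w _ _ hEw, ← hf, card_sum ε 1]
    refine Finset.sum_congr rfl fun i _ => ?_
    rcases hε i with h5 | h5 <;> rw [h5] <;> simp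
  refine ⟨dg w ε, nu_mem hbr hirr (dg_norm w α ε h2 hn hw hrel), hEE, ?_⟩
  have h3 := trace_rk hEE
  rw [htE] at h3
  exact_mod_cast h3.symm

/-- The data from an operator with two classes of eigenvalues. -/
theorem gdata_two (hbr : ∀ X ∈ 𝔤, ∀ Y ∈ 𝔤, X * Y - Y * X ∈ 𝔤)
    (hirr : ∀ W : Submodule ℂ V, (∀ X ∈ 𝔤, X * X = (1 / 4 : ℂ) • 1 → ∀ u ∈ W, X u ∈ W) →
      W = ⊥ ∨ W = ⊤)
    (h2 : γ' * γ = 1) (hn : ∀ X ∈ 𝔤, γ * X * γ' ∈ 𝔤)
    (hw : ∀ i, γ (w i) = (α i : ℂ) • w i)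
    (hrel : ∀ i j k l, α i * α l = α j * α k → ε i + ε l = ε j + ε k)
    (hε : ∀ i, ε i = 1 ∨ ε i = 0) {f : ℕ} (hf : Nat.card {i // ε i = 1} = f) :
    GData 𝔤 f f := by
  obtain ⟨E, h3, h4, h5⟩ := edata_two w α ε hbr hirr h2 hn hw hrel hε hf
  exact ⟨E, h3, Or.inr (Or.inl ⟨h4, h5, rfl⟩)⟩

/-- The data from an operator with three classes of eigenvalues. -/
theorem gdata_three (hbr : ∀ X ∈ 𝔤, ∀ Y ∈ 𝔤, X * Y - Y * X ∈ 𝔤)
    (hirr : ∀ W : Submodule ℂ V, (∀ X ∈ 𝔤, X * X = (1 / 4 : ℂ) • 1 → ∀ u ∈ W, X u ∈ W) →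
      W = ⊥ ∨ W = ⊤)
    (h2 : γ' * γ = 1) (hn : ∀ X ∈ 𝔤, γ * X * γ' ∈ 𝔤)
    (hw : ∀ i, γ (w i) = (α i : ℂ) • w i)
    (hrel : ∀ i j k l, α i * α l = α j * α k → ε i + ε l = ε j + ε k)
    (hε : ∀ i, ε i = 1 ∨ ε i = 0 ∨ ε i = -1) {f : ℕ} (hf : Nat.card {i // ε i = 1} = f)
    (hf' : Nat.card {i // ε i = -1} = f) (hk : ∀ k ≤ n, k * (n - k) ≠ n * f) :
    GData 𝔤 f (2 * f) := by
  have hνw := dg_w w ε
  have hfr : finrank ℂ V = n := by
    rw [finrank_eq_card_basis w, Fintype.card_fin]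
  have hν3 : dg w ε * dg w ε * dg w ε = dg w ε := by
    refine w.ext fun i => ?_
    rw [Module.End.mul_apply, Module.End.mul_apply, hνw, map_smul, hνw, map_smul, map_smul, hνw]
    rcases hε i with h5 | h5 | h5 <;> rw [h5] <;> simp
  have ht0 : LinearMap.trace ℂ V (dg w ε) = 0 := by
    rw [trace_dg w _ _ hνw]
    have h5 : ∀ i, (ε i : ℂ) = (if ε i = 1 then (1 : ℂ) else 0) - if ε i = -1 then (1 : ℂ) else 0 := by
      intro i
      rcases hε i with h5 | h5 | h5 <;> rw [h5] <;> norm_num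
    rw [Finset.sum_congr rfl fun i _ => h5 i, Finset.sum_sub_distrib, ← card_sum ε 1,
      ← card_sum ε (-1), hf, hf', sub_self]
  have ht2 : LinearMap.trace ℂ V (dg w ε * dg w ε) = 2 * f := by
    rw [trace_dg w (dg w ε * dg w ε) (fun i => (ε i : ℂ) * ε i) (fun i => by
      rw [Module.End.mul_apply, hνw, map_smul, hνw, smul_smul])]
    have h5 : ∀ i, (ε i : ℂ) * ε i = (if ε i = 1 then (1 : ℂ) else 0) +
        if ε i = -1 then (1 : ℂ) else 0 := by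
      intro i
      rcases hε i with h5 | h5 | h5 <;> rw [h5] <;> norm_num
    rw [Finset.sum_congr rfl fun i _ => h5 i, Finset.sum_add_distrib, ← card_sum ε 1,
      ← card_sum ε (-1), hf, hf']
    ring
  refine ⟨dg w ε, nu_mem hbr hirr (dg_norm w α ε h2 hn hw hrel),
    Or.inr (Or.inr ⟨hν3, ht0, ht2, rfl, ?_⟩)⟩
  rw [hfr]
  exact hk

end

end Pool.Agent.K9h17.D
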