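import Mathlib
import Pool.Agent.K9h17.D.Slp

/-!
# Elements of rank one from one operator
-/

set_option linter.unusedSectionVars false

namespace Pool.Agent.K9h17.D

open Module
open Pool.Agent.W548.Odd (rk rk_mul_le_left rk_mul_le_right)
open Pool.Agent.K9h17.L
open Pool.Agent.Y4.G.Lie (pos mem_pos)

noncomputable section

variable {V : Type} [AddCommGroup V] [Module ℂ V] [FiniteDimensional ℂ V]
  {𝔤 : Submodule ℂ (End ℂ V)}

/-- The component of degree one. -/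
theorem up_mem (hbr : ∀ X ∈ 𝔤, ∀ Y ∈ 𝔤, X * Y - Y * X ∈ 𝔤) {D : End ℂ V} (hD : D ∈ 𝔤)
    (hD2 : D * D = 1) {z : End ℂ V} {s : ℂ} (hz : z - s • 1 ∈ 𝔤) :
    (1 + D) * z * (1 - D) ∈ UpS 𝔤 D := by
  refine ⟨?_, ?_, ?_⟩
  · obtain ⟨y, hy⟩ : ∃ y, y = z - s • 1 := ⟨_, rfl⟩
    rw [← hy] at hz
    have h1 := hbr D hD y hz
    have h2 := hbr D hD _ h1
    have h3 := 𝔤.add_mem (𝔤.smul_mem (1 / 2 : ℂ) h2) h1
    have e1 : (1 + D) * z * (1 - D) = (1 + D) * y * (1 - D) := by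
      have e2 : z = y + s • 1 := by rw [hy, sub_add_cancel]
      have e3 : (1 + D) * (1 - D) = 0 := by
        have : (1 + D) * (1 - D) = 1 - D * D := by noncomm_ring
        rw [this, hD2, sub_self]
      rw [e2, mul_add, add_mul, mul_smul_comm, mul_one, smul_mul_assoc, e3, smul_zero, add_zero]
    have e2 : (1 / 2 : ℂ) • (D * (D * y - y * D) - (D * y - y * D) * D) + (D * y - y * D) =
        (1 + D) * y * (1 - D) := by
      have e3 : D * (D * y - y * D) - (D * y - y * D) * D =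
          (D * D) * y + y * (D * D) - (2 : ℂ) • (D * y * D) := by
        have : D * (D * y - y * D) - (D * y - y * D) * D =
          (D * D) * y + y * (D * D) - (D * y * D + D * y * D) := by noncomm_ring
        rw [this]
        module
      have e4 : (1 + D) * y * (1 - D) = y - D * y * D + (D * y - y * D) := by noncomm_ring
      rw [e3, hD2, one_mul, mul_one, e4]
      module
    rw [e1, ← e2]
    exact h3
  · have e1 : D * ((1 + D) * z * (1 - D)) = (D + D * D) * z * (1 - D) := by noncomm_ring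
    rw [e1, hD2, add_comm]
  · have e1 : (1 + D) * z * (1 - D) * D = (1 + D) * z * (D - D * D) := by noncomm_ring
    have e2 : D - 1 = -(1 - D) := by abel
    rw [e1, hD2, e2, mul_neg]

variable (hbr : ∀ X ∈ 𝔤, ∀ Y ∈ 𝔤, X * Y - Y * X ∈ 𝔤)
  (hirr : ∀ W : Submodule ℂ V, (∀ X ∈ 𝔤, X * X = (1 / 4 : ℂ) • 1 → ∀ u ∈ W, X u ∈ W) →
    W = ⊥ ∨ W = ⊤)

include hbr hirr in
/-- Elements of degree one or minus one of small rank. -/
theorem exists_low (T : Set (End ℂ V)) (hT1 : ∀ X ∈ T, X ∈ 𝔤) (hT2 : ∀ X ∈ T, X * X = 1)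
    (hgen : ∀ L : Submodule ℂ (End ℂ V), (∀ X ∈ T, X ∈ L) →
      (∀ X ∈ L, ∀ Y ∈ L, X * Y - Y * X ∈ L) → 𝔤 ≤ L) (h0 : 0 < finrank ℂ V)
    {f r c : ℕ} (hG : GData 𝔤 f r) (hf : ¬finrank ℂ V ∣ f * c) :
    ∃ D ∈ T, ∃ x : End ℂ V, (x ∈ UpS 𝔤 D ∨ x ∈ UpS 𝔤 (-D)) ∧ x ≠ 0 ∧ rk x ≤ r := by
  obtain ⟨z, ⟨s, hz⟩, h⟩ := hG
  have hr : rk z ≤ r := by
    rcases h with ⟨-, h1, rfl⟩ | ⟨-, h1, rfl⟩ | ⟨h1, -, h2, h3, -⟩
    · exact h1.le
    · exact h1.le
    · have h4 : z * z * (z * z) = z * z := by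
        rw [← mul_assoc, h1]
      have h5 := trace_rk h4
      rw [h2] at h5
      have h6 : r = rk (z * z) := by
        rw [h3]
        exact_mod_cast h5
      rw [h6]
      calc rk z = rk (z * z * z) := by rw [h1]
      _ ≤ rk (z * z) := rk_mul_le_left _ _
  have hn0 : (finrank ℂ V : ℂ) ≠ 0 := by exact_mod_cast h0.ne'
  have hne : ∃ D ∈ T, z * D ≠ D * z := by
    by_contra hcon
    push Not at hcon
    have h1 : 𝔤 ≤ LinearMap.ker (LinearMap.mulLeft ℂ z - LinearMap.mulRight ℂ z) := by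
      refine hgen _ (fun X hX => ?_) fun X hX Y hY => ?_
      · rw [LinearMap.mem_ker, LinearMap.sub_apply, LinearMap.mulLeft_apply,
          LinearMap.mulRight_apply, hcon X hX, sub_self]
      · rw [LinearMap.mem_ker, LinearMap.sub_apply, LinearMap.mulLeft_apply,
          LinearMap.mulRight_apply, sub_eq_zero] at hX hY ⊢
        rw [mul_sub, sub_mul, ← mul_assoc, ← mul_assoc, hX, hY, mul_assoc, mul_assoc, hX, hY,
          mul_assoc, mul_assoc]
    obtain ⟨c', hc'⟩ := scal hirr (y := z) fun x hx => by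
      have h2 := LinearMap.mem_ker.1 (h1 hx)
      rwa [LinearMap.sub_apply, LinearMap.mulLeft_apply, LinearMap.mulRight_apply,
        sub_eq_zero] at h2
    have hrk : ∀ c : ℂ, c ≠ 0 → rk (c • (1 : End ℂ V)) = finrank ℂ V := by
      intro c hc
      unfold rk
      have h3 : LinearMap.range (c • (1 : End ℂ V)) = ⊤ := by
        rw [eq_top_iff]
        intro v _
        exact ⟨c⁻¹ • v, by
          rw [LinearMap.smul_apply, Module.End.one_apply, smul_smul, mul_inv_cancel₀ hc,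
            one_smul]⟩
      rw [h3, finrank_top]
    apply hf
    rcases h with ⟨h2, h3, -⟩ | ⟨h2, h3, -⟩ | ⟨h1, h2, h3, -, -⟩
    · have h4 : c' = 0 := by
        by_contra h5
        have h6 := sq_trace h2
        rw [hc', map_smul, LinearMap.trace_one, smul_eq_mul] at h6
        exact (mul_ne_zero h5 hn0) h6
      have h5 : f = 0 := by
        rw [← h3, hc', h4, zero_smul]
        unfold rk
        rw [LinearMap.range_zero, finrank_bot]
      rw [h5, zero_mul]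
      exact dvd_zero _
    · by_cases h4 : c' = 0
      · have h5 : f = 0 := by
          rw [← h3, hc', h4, zero_smul]
          unfold rk
          rw [LinearMap.range_zero, finrank_bot]
        rw [h5, zero_mul]
        exact dvd_zero _
      · have h5 : f = finrank ℂ V := by rw [← h3, hc', hrk c' h4]
        rw [h5]
        exact dvd_mul_right _ _
    · rw [hc', map_smul, LinearMap.trace_one, smul_eq_mul] at h2
      have h4 : c' = 0 := (mul_eq_zero.1 h2).resolve_right hn0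
      rw [hc', h4, zero_smul, mul_zero, map_zero] at h3
      have h5 : f = 0 := by
        have h6 : (f : ℂ) = 0 := by linear_combination (-1 / 2 : ℂ) * h3
        exact_mod_cast h6
      rw [h5, zero_mul]
      exact dvd_zero _
  obtain ⟨D, hD, hne⟩ := hne
  have hD1 := hT1 D hD
  have hD2 := hT2 D hD
  have hrr : ∀ A B : End ℂ V, rk (A * z * B) ≤ r := fun A B =>
    ((rk_mul_le_left _ _).trans (rk_mul_le_right _ _)).trans hr
  by_cases hx : (1 + D) * z * (1 - D) = 0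
  · refine ⟨D, hD, (1 + -D) * z * (1 - -D), Or.inr ?_, fun h1 => hne ?_, hrr _ _⟩
    · exact up_mem hbr (𝔤.neg_mem hD1) (by rw [neg_mul_neg, hD2]) hz
    · have e1 : (1 + D) * z * (1 - D) - (1 + -D) * z * (1 - -D) =
          (2 : ℂ) • (D * z - z * D) := by
        have : (1 + D) * z * (1 - D) - (1 + -D) * z * (1 - -D) =
          (D * z - z * D) + (D * z - z * D) := by noncomm_ring
        rw [this]
        module
      rw [hx, h1, sub_zero] at e1
      have e2 : (D * z - z * D) = 0 := by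
        have h5 : (2 : ℂ) ≠ 0 := two_ne_zero
        exact (smul_eq_zero.1 e1.symm).resolve_left h5
      exact (sub_eq_zero.1 e2).symm
  · exact ⟨D, hD, _, Or.inl (up_mem hbr hD1 hD2 hz), hx, hrr _ _⟩

include hbr hirr in
/-- **Elements of rank one**, the unbalanced case. -/
theorem rk1_gal_ne (T : Set (End ℂ V)) (hT1 : ∀ X ∈ T, X ∈ 𝔤) (hT2 : ∀ X ∈ T, X * X = 1)
    (hgen : ∀ L : Submodule ℂ (End ℂ V), (∀ X ∈ T, X ∈ L) →
      (∀ X ∈ L, ∀ Y ∈ L, X * Y - Y * X ∈ L) → 𝔤 ≤ L)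
    {f r : ℕ} (hG : GData 𝔤 f r) {D : End ℂ V} (hD : D ∈ 𝔤) (hD2 : D * D = 1) {a b : ℕ}
    (htr : LinearMap.trace ℂ V D = (a : ℂ) - b) (hn : finrank ℂ V = a + b) (ha : 0 < a) (hb : 0 < b)
    (hab : a ≠ b) (hnb : ∀ d s : ℕ, 2 ≤ s → s + 1 ≤ d → ¬(a = d.choose (s - 1) ∧ b = d.choose s))
    (hDn : ¬a + b ∣ f * a.gcd b)
    (hT : ∀ D' ∈ T, ∀ a' b' : ℕ, LinearMap.trace ℂ V D' = (a' : ℂ) - b' → a' + b' = a + b →
      0 < a' → 0 < b' → ¬ a + b ∣ f * a'.gcd b') :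
    ∃ x ∈ 𝔤, D * x = x ∧ x * D = -x ∧ rk x = 1 :=
  exists_rk1_ne hbr hirr hD hD2 htr hn ha hb hab hnb
    (irr_gal hbr hirr T hT1 hT2 hgen hG hD hD2 htr hn hDn hT)

include hbr hirr in
/-- **Elements of rank one**, the balanced case. -/
theorem rk1_gal_bal (T : Set (End ℂ V)) (hT1 : ∀ X ∈ T, X ∈ 𝔤) (hT2 : ∀ X ∈ T, X * X = 1)
    (hgen : ∀ L : Submodule ℂ (End ℂ V), (∀ X ∈ T, X ∈ L) →
      (∀ X ∈ L, ∀ Y ∈ L, X * Y - Y * X ∈ L) → 𝔤 ≤ L)
    (hT : ∀ X ∈ T, LinearMap.trace ℂ V X = 0)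
    (hNB : ∀ β : V →ₗ[ℂ] V →ₗ[ℂ] ℂ, (∀ u v, β u v = β v u) →
        (∀ X ∈ 𝔤, ∀ u v, β (X u) v + β u (X v) = 0) → ∀ u v, β u v = 0)
    {a : ℕ} (hn : finrank ℂ V = a + a) (ha : 0 < a)
    (hnb : ∀ t : ℕ, 3 ≤ t → a ≠ (2 * t - 1).choose t)
    {f r : ℕ} (hG : GData 𝔤 f r) (hf : Odd f) (hh : (¬∃ j : ℕ, a = 2 ^ j) ∨ 2 * r < a) :
    ∃ D ∈ T, ∃ x ∈ 𝔤, D * x = x ∧ x * D = -x ∧ rk x = 1 := by
  have hnd : ¬a + a ∣ f * a.gcd a := by
    rw [Nat.gcd_self, ← two_mul, mul_comm f a, mul_comm 2 a]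
    intro h1
    have h2 := Nat.dvd_of_mul_dvd_mul_left ha h1
    exact (Nat.not_even_iff_odd.2 hf) (even_iff_two_dvd.2 h2)
  obtain ⟨D, hD, x, hx, hx0, hxr⟩ := exists_low hbr hirr T hT1 hT2 hgen (by omega) hG
    (c := a.gcd a) (by rw [hn]; exact hnd)
  have htr : LinearMap.trace ℂ V D = (a : ℂ) - a := by rw [hT D hD, sub_self]
  refine ⟨D, hD, exists_rk1_bal hbr hirr T hT1 hT2 hgen hT hNB (hT1 D hD) (hT2 D hD) hn ha hnb
    (hh.imp id fun h => ⟨x, hx, hx0, by omega⟩)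
    (irr_gal hbr hirr T hT1 hT2 hgen hG (hT1 D hD) (hT2 D hD) htr hn hnd ?_)⟩
  intro D' hD' a' b' h1 h2 _ _
  rw [hT D' hD'] at h1
  have h3 : a' = b' := by
    have h4 : (a' : ℂ) = b' := by linear_combination -h1
    exact_mod_cast h4
  obtain rfl : a' = a := by omega
  rw [← h3]
  exact hnd

end

end Pool.Agent.K9h17.D
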