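import Mathlib
import Pool.Agent.K9h17.C.Stm

/-!
# Simple abelian varieties of type IV with one element of the Galois group

Let `Y` be a simple abelian variety and let `a` be an endomorphism such that `ℚ[a]` is a maximal
subfield of the endomorphism algebra, of degree `m`. The embeddings of `ℚ[a]` in `ℂ` are the roots
`s` of the minimal polynomial of `a`, and `ℂ ⊗ H_1(Y, ℚ)` is the sum of the eigenspaces `V_s`, of
dimension `n = 2 dim(Y) / m`, the relative dimension of `Y`. The relative signature at `s` is the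
pair `(p, q)` with `p + q = n`, where `p` is the multiplicity of `s` as an eigenvalue of `a` on the
tangent space; it is indefinite if `p, q > 0`.
-/

namespace Pool.Agent.K9h17.D

open Module Pool.Agent.Y90 Pool.Agent.R915 Pool.Agent.N183.U5 Polynomial TensorProduct
open Pool.Agent.K9h17.S Pool.Agent.K9h17.C

/-- The operator `t` acts on the subspace `W`, of dimension `n`, in one of three ways.

* `(t - 1) ^ 2 = 0` on `W` and `t - 1` has the rank `f` on `W`. Here `r = f`. (Example: an element of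
  the inertia group at a place of semistable reduction.)
* Two classes of eigenvalues: `t` is diagonalizable on `W`, with the eigenvalues `α i`, and there
  are integers `ε i`, `f` of them equal to `1` and the others equal to `0`, such that `ε i - ε j` is
  determined by the quotient `α i / α j`. Here `r = f`. (Example: a Frobenius element with two
  slopes on `W`.)
* Three classes of eigenvalues: likewise with `ε i` equal to `1`, `0` or `-1`, where the values `1`
  and `-1` are both taken `f` times, and `k (n - k) ≠ n f` for all `k ≤ n`. Here `r = 2 f`. -/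
def IsSparse {V : Type} [AddCommGroup V] [Module ℂ V] (t : Module.End ℂ V) (W : Submodule ℂ V)
    (f r : ℕ) : Prop :=
  ((∀ w ∈ W, (t - 1) ((t - 1) w) = 0) ∧ finrank ℂ (W.map (t - 1)) = f ∧ r = f) ∨
  ∃ (n : ℕ) (w : Basis (Fin n) ℂ W) (α : Fin n → ℂˣ) (ε : Fin n → ℤ),
    (∀ i, t (w i) = (α i : ℂ) • (w i : V)) ∧
      (∀ i j k l, α i * α l = α j * α k → ε i + ε l = ε j + ε k) ∧
      Nat.card {i // ε i = 1} = f ∧
      (((∀ i, ε i = 1 ∨ ε i = 0) ∧ r = f) ∨
        ((∀ i, ε i = 1 ∨ ε i = 0 ∨ ε i = -1) ∧ Nat.card {i // ε i = -1} = f ∧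
          (∀ k ≤ n, k * (n - k) ≠ n * f) ∧ r = 2 * f))

/-- The operator `t` acts on `W` as a unipotent operator with `(t - 1) ^ 2 = 0`, and `t - 1` has the
rank `f` on `W`. -/
def IsUnipOn {V : Type} [AddCommGroup V] [Module ℂ V] (t : Module.End ℂ V) (W : Submodule ℂ V)
    (f : ℕ) : Prop :=
  (∀ w ∈ W, (t - 1) ((t - 1) w) = 0) ∧ finrank ℂ (W.map (t - 1)) = f

/-- The operator `t` is diagonalizable on `W`, and its eigenvalues `α i` are in two classes with `f`
and `g` elements: there are integers `ε i`, `f` of them equal to `1` and `g` of them equal to `0`,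
such that `ε i - ε j` is determined by the quotient `α i / α j`. (Example: a Frobenius element with
two slopes on `W`, of the multiplicities `f` and `g`.) -/
def HasSlopes {V : Type} [AddCommGroup V] [Module ℂ V] (t : Module.End ℂ V) (W : Submodule ℂ V)
    (f g : ℕ) : Prop :=
  ∃ (n : ℕ) (w : Basis (Fin n) ℂ W) (α : Fin n → ℂˣ) (ε : Fin n → ℤ),
    (∀ i, t (w i) = (α i : ℂ) • (w i : V)) ∧
      (∀ i j k l, α i * α l = α j * α k → ε i + ε l = ε j + ε k) ∧
      (∀ i, ε i = 1 ∨ ε i = 0) ∧ Nat.card {i // ε i = 1} = f ∧ Nat.card {i // ε i = 0} = g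

/-- If `(p, q) = (C(d, k - 1), C(d, k))` with `2 ≤ k ≤ d - 1` then `f ≠ C(d - 1, k - 1)`. (If `p = q`
then this number is even.) -/
def NotBinomialRank (p q f : ℕ) : Prop :=
  ∀ d k : ℕ, 2 ≤ k → k + 1 ≤ d → p = d.choose (k - 1) → q = d.choose k →
    f ≠ (d - 1).choose (k - 1)

section gal

variable {K : Type} [Field K] [CharZero K] [Algebra K ℂ] {Γ : Type} [Group Γ]

/-- One embedding `s₀` of `ℚ[a]` has an indefinite relative signature `(p, q)`. For each embedding
`s` some element of the Galois group acts on `V_s` as a unipotent element of rank `f` (`IsUnipOn`),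
where `f` satisfies `NotBinomialRank`, and where the relative dimension does not divide
`f gcd(p', q')` for any indefinite relative signature `(p', q')` of `Y`. The element and `f` may
depend on `s`. There is no condition on the type of `Y`. (If all indefinite signatures are `(p, p)`,
for instance if `Y` is of type I, II or III, then the conditions on `f` say that `f` is odd.) -/
def UnipotentGal (X : AV) (ρ : Representation K Γ (K ⊗[ℚ] X.H)) (Y : AV) : Prop :=
  ∃ (a : Module.End ℚ Y.H) (Ψ : Module.End ℂ Y.T) (s₀ : ℂ) (p q : ℕ), MaxField Y a ∧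
    (∀ v, Ψ (Y.per v) = Y.per (a v)) ∧ aeval s₀ (minpoly ℚ a) = 0 ∧
    finrank ℂ (Ψ.eigenspace s₀) = p ∧ (minpoly ℚ a).natDegree * (p + q) = finrank ℚ Y.H ∧
    0 < p ∧ 0 < q ∧
    ∀ s : ℂ, aeval s (minpoly ℚ a) = 0 → ∃ (γ : Γ) (t : Module.End K (K ⊗[ℚ] Y.H)) (f : ℕ),
      ActsBy X ρ Y γ t ∧ IsUnipOn (t.baseChange ℂ) (VS K Y a s) f ∧ NotBinomialRank p q f ∧
        ∀ (s' : ℂ) (p' q' : ℕ), aeval s' (minpoly ℚ a) = 0 → finrank ℂ (Ψ.eigenspace s') = p' →
          p' + q' = p + q → 0 < p' → 0 < q' → ¬p + q ∣ f * p'.gcd q'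

/-- For each embedding `s` some element of the Galois group has two slopes on `V_s`
(`HasSlopes`), of different multiplicities `f` and `g` which are not a pair of consecutive binomial
coefficients, where the relative dimension `f + g` does not divide `f gcd(p', q')` for any indefinite
relative signature `(p', q')` of `Y`. The element and `f`, `g` may depend on `s`. There is no
condition on the type of `Y`. -/
def SlopeGal (X : AV) (ρ : Representation K Γ (K ⊗[ℚ] X.H)) (Y : AV) : Prop :=
  ∃ (a : Module.End ℚ Y.H) (Ψ : Module.End ℂ Y.T), MaxField Y a ∧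
    (∀ v, Ψ (Y.per v) = Y.per (a v)) ∧
    ∀ s : ℂ, aeval s (minpoly ℚ a) = 0 → ∃ (γ : Γ) (t : Module.End K (K ⊗[ℚ] Y.H)) (f g : ℕ),
      ActsBy X ρ Y γ t ∧ HasSlopes (t.baseChange ℂ) (VS K Y a s) f g ∧ 0 < f ∧ 0 < g ∧ f ≠ g ∧
        NotBinomial f g ∧
        ∀ (s' : ℂ) (p' q' : ℕ), aeval s' (minpoly ℚ a) = 0 → finrank ℂ (Ψ.eigenspace s') = p' →
          p' + q' = f + g → 0 < p' → 0 < q' → ¬f + g ∣ f * p'.gcd q'

/-- One embedding `s₀` of `ℚ[a]` has an indefinite relative signature `(p, q)` with `p ≠ q` which is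
not a pair of consecutive binomial coefficients. For each embedding `s` some element of the Galois
group is sparse on `V_s` (`IsSparse`), where the relative dimension does not divide `f gcd(p', q')`
for any indefinite relative signature `(p', q')` of `Y`. The element and `f` may depend on `s`. -/
def UnbalancedGal (X : AV) (ρ : Representation K Γ (K ⊗[ℚ] X.H)) (Y : AV) : Prop :=
  ∃ (a : Module.End ℚ Y.H) (Ψ : Module.End ℂ Y.T) (s₀ : ℂ) (p q : ℕ), MaxField Y a ∧
    (∀ v, Ψ (Y.per v) = Y.per (a v)) ∧ aeval s₀ (minpoly ℚ a) = 0 ∧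
    finrank ℂ (Ψ.eigenspace s₀) = p ∧ (minpoly ℚ a).natDegree * (p + q) = finrank ℚ Y.H ∧
    0 < p ∧ 0 < q ∧ p ≠ q ∧ NotBinomial p q ∧
    ∀ s : ℂ, aeval s (minpoly ℚ a) = 0 → ∃ (γ : Γ) (t : Module.End K (K ⊗[ℚ] Y.H)) (f r : ℕ),
      ActsBy X ρ Y γ t ∧ IsSparse (t.baseChange ℂ) (VS K Y a s) f r ∧
        ∀ (s' : ℂ) (p' q' : ℕ), aeval s' (minpoly ℚ a) = 0 → finrank ℂ (Ψ.eigenspace s') = p' →
          p' + q' = p + q → 0 < p' → 0 < q' → ¬p + q ∣ f * p'.gcd q'

/-- `Y` is of type IV (the centre of the endomorphism algebra, generated by `φ`, is a totally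
imaginary field) and all relative signatures are `(p, p)`, where `p` is not of the form
`C(2 t - 1, t)` with `t ≥ 3`. For each embedding `s` some element of the Galois group is sparse on
`V_s` (`IsSparse`), where `f` is odd, and where `2 r < p` if `p` is a power of two. -/
def BalancedGal (X : AV) (ρ : Representation K Γ (K ⊗[ℚ] X.H)) (Y : AV) : Prop :=
  ∃ (a : Module.End ℚ Y.H) (Ψ : Module.End ℂ Y.T) (p : ℕ), MaxField Y a ∧
    (∀ v, Ψ (Y.per v) = Y.per (a v)) ∧ NotMiddle p ∧
    (∀ s : ℂ, aeval s (minpoly ℚ a) = 0 → finrank ℂ (Ψ.eigenspace s) = p) ∧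
    (minpoly ℚ a).natDegree * (p + p) = finrank ℚ Y.H ∧
    (∃ φ : Module.End ℚ Y.H, CentreGen Y φ ∧ ∀ s : ℂ, aeval s (minpoly ℚ φ) = 0 → s.im ≠ 0) ∧
    ∀ s : ℂ, aeval s (minpoly ℚ a) = 0 → ∃ (γ : Γ) (t : Module.End K (K ⊗[ℚ] Y.H)) (f r : ℕ),
      ActsBy X ρ Y γ t ∧ IsSparse (t.baseChange ℂ) (VS K Y a s) f r ∧ Odd f ∧
        ((¬∃ j : ℕ, p = 2 ^ j) ∨ 2 * r < p)

/-- The multilinear form `φ` in `2 m` variables on the Tate module is a Tate tensor: a subgroup of
finite index of the Galois group acts on it through the `m`-th power of the cyclotomic character. -/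
def IsTateTensor {V : Type} [AddCommGroup V] [Module K V] (ρ : Representation K Γ V) (χ : Γ →* K)
    {m : ℕ} (φ : MultilinearMap K (fun _ : Fin m × Fin 2 => V) K) : Prop :=
  ∃ Δ : Subgroup Γ, Δ.FiniteIndex ∧ ∀ g ∈ Δ, ∀ v : Fin m × Fin 2 → V,
    φ (fun k => ρ g (v k)) = χ g ^ m * φ v

variable (K) in
/-- The form `φ` on `K ⊗ H_1(X, ℚ)` is a linear combination of Hodge tensors, that is, of rational
multilinear forms on `H_1(X, ℚ)` which are Hodge classes. (Its values on `H_1(X, ℚ)` determine the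
form.) -/
def IsHodgeComb (X : AV) {m : ℕ}
    (φ : MultilinearMap K (fun _ : Fin m × Fin 2 => K ⊗[ℚ] X.H) K) : Prop :=
  ∃ (n : ℕ) (c : Fin n → K) (f : Fin n → MultilinearMap ℚ (fun _ : Fin m × Fin 2 => X.H) ℚ),
    (∀ j, IsHodgeTensor X.per (f j)) ∧
      ∀ v : Fin m × Fin 2 → X.H, φ (fun k => (1 : K) ⊗ₜ[ℚ] v k) = ∑ j, c j * ((f j v : ℚ) : K)

/-- Tate tensors are combinations of Hodge tensors. So the Hodge conjecture for the powers of `X`
implies the Tate conjecture for the powers of `X`. -/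
def TateIsHodge (X : AV) (ρ : Representation K Γ (K ⊗[ℚ] X.H)) (χ : Γ →* K) : Prop :=
  ∀ (m : ℕ) (φ : MultilinearMap K (fun _ : Fin m × Fin 2 => K ⊗[ℚ] X.H) K),
    IsTateTensor ρ χ φ → IsHodgeComb K X φ

/-- The operator `T` is unipotent with `(T - 1) ^ 2 = 0`, and `T - 1` has the rank `m`. -/
def IsUnip {V : Type} [AddCommGroup V] [Module K V] (T : Module.End K V) (m : ℕ) : Prop :=
  (∀ v, T (T v - v) = T v - v) ∧ finrank K (Submodule.span K (Set.range fun v => T v - v)) = m

/-- The operator `T` commutes with `S`, and it is unipotent of rank `m`. -/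
def IsUnipWith {V : Type} [AddCommGroup V] [Module K V] (T S : Module.End K V) (m : ℕ) : Prop :=
  (∀ v, T (S v) = S (T v)) ∧ IsUnip T m

/-- The element `γ` of the Galois group commutes with the endomorphism `h`, and it acts on the Tate
module as a unipotent element with `(γ - 1) ^ 2 = 0`, where `γ - 1` has the rank `2 f`. (Example: a
generator of the inertia group at a place of semistable reduction, where `2 f` is the dimension of
the torus in the reduction.) -/
def IsUnipotent {X : AV} (ρ : Representation K Γ (K ⊗[ℚ] X.H)) (h : Module.End ℚ X.H) (γ : Γ)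
    (f : ℕ) : Prop :=
  IsUnipWith (ρ γ) (h.baseChange K) (2 * f)

end gal

/-- `X` is simple and its endomorphism algebra is `ℚ`. -/
def EndTrivial (X : AV) : Prop :=
  IsSimple X ∧ ∀ f : Module.End ℚ X.H, IsHom X X f → ∃ c : ℚ, f = c • LinearMap.id

/-- `X` is simple and its endomorphism algebra is the imaginary quadratic field generated by `h`, of
signature `(p, q)`, where `p, q > 0`: for a square root `s` of `h ^ 2 = -d`, the multiplicities of `s`
and `-s` on the tangent space are `p` and `q`. -/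
def HasSignature (X : AV) (h : Module.End ℚ X.H) (p q : ℕ) : Prop :=
  IsSimple X ∧ 0 < p ∧ 0 < q ∧ ∃ (d : ℚ) (Ψ : Module.End ℂ X.T) (s : ℂ), EndQuad X d h ∧
    (∀ v, Ψ (X.per v) = X.per (h v)) ∧ s * s = -(d : ℂ) ∧ finrank ℂ (Ψ.eigenspace s) = p ∧
      finrank ℂ (Ψ.eigenspace (-s)) = q

end Pool.Agent.K9h17.D
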