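import Mathlib
import Pool.Agent.K9h17.D.Loc
import Pool.Agent.K9h17.D.Stm
import Pool.Agent.K9h17.C.Loc
import Pool.Agent.K9h17.T.Glob

/-!
# The local condition for the new classes
-/

set_option linter.unusedSectionVars false

namespace Pool.Agent.K9h17.D

open Matrix Module Pool.Agent.W437.HC Pool.Agent.W437.HD Pool.Agent.W548.Odd Pool.Agent.W522.U
open Pool.Agent.H204R3.SP Pool.Agent.H204R3.GP Pool.Agent.Y90 Pool.Agent.Y224.TS TensorProduct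
open Pool.Agent.Y224.TS.St (IsHodgeTate IsTateModule)
open Pool.Agent.W437.HP (cK cK_mul cK_one)
open Pool.Agent.R915 (VE mem_VE VE_cj VE_main VE_stab commL_of pd_sig eig_conj root_conj
  hom_iff hom_iff' RF)
open Pool.Agent.N183.TS Pool.Agent.N183.U5
open Pool.Agent.K9h17.S Pool.Agent.K9h17.C Pool.Agent.K9h17.G
open Polynomial

open scoped ComplexOrder

noncomputable section

section Z

variable {G : ℕ} {Z : Matrix (Fin G) (Fin G) ℂ}
  {S : Set (Matrix (Fin G ⊕ Fin G) (Fin G ⊕ Fin G) ℂ)}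

/-- The data from an operator in the image of the Galois group. -/
theorem gdata_of (h : TD Z S) (hZ : PM Z) {U : Submodule ℂ (Fin G ⊕ Fin G → ℂ)}
    (hU : IrS (LZ Z) U) {t t' : Matrix (Fin G ⊕ Fin G) (Fin G ⊕ Fin G) ℂ} (h2 : t' * t = 1)
    (hN : ∀ X ∈ Y224.TS.LT S, t * X * t' ∈ Y224.TS.LT S)
    (htU : ∀ u ∈ U, t *ᵥ u ∈ U) (htU' : ∀ u ∈ U, t' *ᵥ u ∈ U) {f r : ℕ}
    (hor : ((∀ u ∈ U, (t - 1) *ᵥ ((t - 1) *ᵥ u) = 0) ∧
        finrank ℂ (U.map (mulVecLin (t - 1))) = f ∧ r = f) ∨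
      ∃ (n : ℕ) (w : Basis (Fin n) ℂ U) (α : Fin n → ℂˣ) (ε : Fin n → ℤ),
        (∀ i, t *ᵥ (w i : Fin G ⊕ Fin G → ℂ) = (α i : ℂ) • (w i : Fin G ⊕ Fin G → ℂ)) ∧
          (∀ i j k l, α i * α l = α j * α k → ε i + ε l = ε j + ε k) ∧
          Nat.card {i // ε i = 1} = f ∧
          (((∀ i, ε i = 1 ∨ ε i = 0) ∧ r = f) ∨
            ((∀ i, ε i = 1 ∨ ε i = 0 ∨ ε i = -1) ∧ Nat.card {i // ε i = -1} = f ∧
              (∀ k ≤ n, k * (n - k) ≠ n * f) ∧ r = 2 * f))) :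
    GData (resL (Y224.TS.LT S) U) f r := by
  have hU' : IrS (Y224.TS.LT S) U := (h.irS hZ).2 hU
  have hbr := resL_br (L := Y224.TS.LT S) (fun X hX Y hY => LT_br hX hY) U
  have hirr := res_irr h.sq hU'
  have h2' : resM t' U htU' * resM t U htU = 1 := by
    refine LinearMap.ext fun u => Subtype.ext ?_
    rw [Module.End.mul_apply, resM_coe, resM_coe, mulVec_mulVec, h2, one_mulVec]
    rfl
  have hn : ∀ X ∈ resL (Y224.TS.LT S) U, resM t U htU * X * resM t' U htU' ∈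
      resL (Y224.TS.LT S) U := by
    rintro Y ⟨X, hX, hXY⟩
    refine ⟨_, hN X hX, fun u => ?_⟩
    rw [Module.End.mul_apply, Module.End.mul_apply, resM_coe, hXY, resM_coe, mulVec_mulVec,
      mulVec_mulVec]
  have hsub : ∀ u : U, ((resM t U htU - 1) u : Fin G ⊕ Fin G → ℂ) =
      (t - 1) *ᵥ (u : Fin G ⊕ Fin G → ℂ) := by
    intro u
    rw [LinearMap.sub_apply, Submodule.coe_sub, resM_coe, sub_mulVec, one_mulVec]
    rfl
  rcases hor with ⟨hu, hf, rfl⟩ | ⟨n, w, α, ε, hw, hrel, hf, hor⟩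
  · refine gdata_unip hbr hirr h2' hn ?_ ?_
    · refine LinearMap.ext fun u => Subtype.ext ?_
      rw [Module.End.mul_apply, hsub, hsub, hu _ u.2]
      rfl
    · rw [← hf]
      unfold rk
      have h3 : U.map (mulVecLin (t - 1)) = (LinearMap.range (resM t U htU - 1)).map
          U.subtype := by
        ext x
        constructor
        · rintro ⟨u, hu, rfl⟩
          exact ⟨_, ⟨⟨u, hu⟩, rfl⟩, hsub ⟨u, hu⟩⟩
        · rintro ⟨_, ⟨u, rfl⟩, rfl⟩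
          exact ⟨u, u.2, (hsub u).symm⟩
      rw [h3]
      exact (LinearEquiv.finrank_eq (Submodule.equivMapOfInjective _ U.injective_subtype _))
  · have hw' : ∀ i, resM t U htU (w i) = (α i : ℂ) • w i := fun i => Subtype.ext (hw i)
    rcases hor with ⟨hε, rfl⟩ | ⟨hε, hf', hk, rfl⟩
    · exact gdata_two w α ε hbr hirr h2' hn hw' hrel hε hf
    · exact gdata_three w α ε hbr hirr h2' hn hw' hrel hε hf hf' hk

variable (h : TD Z S) (hZ : PM Z) {U : Submodule ℂ (Fin G ⊕ Fin G → ℂ)} (hU : IrS (LZ Z) U)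
include h hZ hU

/-- Elements of rank one, the unbalanced case. -/
theorem rk1D_gal_ne {f r : ℕ} (hG : GData (resL (Y224.TS.LT S) U) f r)
    {D : Matrix (Fin G ⊕ Fin G) (Fin G ⊕ Fin G) ℂ} (hD : D ∈ S) {σ : ℂ ≃+* ℂ}
    (hσ : ∀ P : Matrix (Fin G ⊕ Fin G) (Fin G ⊕ Fin G) ℂ, (∀ X ∈ LZ Z, P * X = X * P) →
      (P * D).trace = (P * DS Z σ).trace) {p q : ℕ} (hpd : pd Z (cjS σ.symm U) = p)
    (hqd : qd Z (cjS σ.symm U) = q)
    (hp : 0 < p) (hq : 0 < q) (hne : p ≠ q) (hnb : NotBinomial p q)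
    (hτ : ∀ τ : ℂ ≃+* ℂ, 0 < pd Z (cjS τ U) → 0 < qd Z (cjS τ U) →
      ¬p + q ∣ f * (pd Z (cjS τ U)).gcd (qd Z (cjS τ U))) : Rk1D S D U := by
  have hU' : IrS (Y224.TS.LT S) U := (h.irS hZ).2 hU
  have hst' : ∀ X ∈ Y224.TS.LT S, ∀ u ∈ U, X *ᵥ u ∈ U := hU'.2.1
  have hst : ∀ u ∈ U, D *ᵥ u ∈ U := fun u hu => hU'.2.1 D (LT_gen hD) u hu
  obtain ⟨d1, d2⟩ := h.dims hZ hD hσ hU.2.1
  rw [hpd] at d1
  rw [hqd] at d2
  have htr : LinearMap.trace ℂ U (resM D U hst) = (p : ℂ) - (q : ℂ) := by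
    rw [trace_res (h.sq D hD) hst, d1, d2]
  have hDD : ∀ D ∈ S, ph (Fin G ⊕ Fin G) D * ph (Fin G ⊕ Fin G) D = 1 := fun D hD => by
    rw [← map_mul, h.sq D hD, map_one]
  have hn : finrank ℂ U = p + q := by
    rw [← d1, ← d2]
    exact (es_add (hDD D hD) hst).symm
  obtain ⟨x, hx, h1, h2, h3⟩ := rk1_gal_ne (𝔤 := resL (Y224.TS.LT S) U)
    (resL_br (fun X hX Y hY => LT_br hX hY) U) (res_irr h.sq hU')
    {X | ∃ D' ∈ S, ∃ hD' : ∀ u ∈ U, D' *ᵥ u ∈ U, X = resM D' U hD'}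
    (by
      rintro _ ⟨D', hD', h4, rfl⟩
      exact ⟨D', LT_gen hD', fun u => rfl⟩)
    (by
      rintro _ ⟨D', hD', h4, rfl⟩
      exact res_sq (h.sq D' hD') h4)
    (fun L hL1 hL2 => res_ind hst' L (fun D hD => hL1 _ ⟨D, hD, _, rfl⟩) hL2) hG
    (D := resM D U hst) ⟨D, LT_gen hD, fun u => rfl⟩ (res_sq (h.sq D hD) hst) htr hn hp hq hne hnb
    (by
      have e7 := hτ σ.symm (by rw [hpd]; exact hp) (by rw [hqd]; exact hq)
      rwa [hpd, hqd] at e7)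
    (by
      rintro _ ⟨D', hD', h4, rfl⟩ a' b' ht hn' ha' hb'
      obtain ⟨τ, hτ'⟩ := h.tr D' hD'
      obtain ⟨e1, e2⟩ := h.dims hZ hD' hτ' hU.2.1
      have e3 := es_add (hDD D' hD') h4
      rw [trace_res (h.sq D' hD') h4, e1, e2] at ht
      rw [e1, e2, hn] at e3
      have e4 : (pd Z (cjS τ.symm U) : ℂ) + (qd Z (cjS τ.symm U) : ℂ) = (a' : ℂ) + b' := by
        exact_mod_cast e3.trans hn'.symm
      have e5 : pd Z (cjS τ.symm U) = a' := by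
        have e6 : (pd Z (cjS τ.symm U) : ℂ) = (a' : ℂ) := by
          linear_combination (1 / 2 : ℂ) * ht + (1 / 2 : ℂ) * e4
        exact_mod_cast e6
      have e6 : qd Z (cjS τ.symm U) = b' := by omega
      have e7 := hτ τ.symm (by rw [e5]; exact ha') (by rw [e6]; exact hb')
      rwa [e5, e6] at e7)
  exact ⟨1, Or.inl rfl, rk_of_res h.sq hD hst (Or.inl rfl) hx (by rw [one_smul, h1])
    (by rw [one_smul, h2]) h3⟩

/-- Elements of rank one, the balanced case. -/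
theorem rk1T_gal_bal {f r : ℕ} (hG : GData (resL (Y224.TS.LT S) U) f r) (hf : Odd f)
    {p : ℕ} (hp : 0 < p) (hh : (¬∃ j : ℕ, p = 2 ^ j) ∨ 2 * r < p)
    (hpd : ∀ τ : ℂ ≃+* ℂ, pd Z (cjS τ U) = p)
    (hqd : ∀ τ : ℂ ≃+* ℂ, qd Z (cjS τ U) = p) (hnm : NotMiddle p)
    (hnb : ∀ b : (Fin G ⊕ Fin G → ℂ) →ₗ[ℂ] (Fin G ⊕ Fin G → ℂ) →ₗ[ℂ] ℂ,
      (∀ X ∈ LZ Z, ∀ u ∈ U, ∀ v ∈ U, b (X *ᵥ u) v + b u (X *ᵥ v) = 0) →
      ∀ u ∈ U, ∀ v ∈ U, b u v = 0) : Rk1T S U := by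
  have hU' : IrS (Y224.TS.LT S) U := (h.irS hZ).2 hU
  have hst' : ∀ X ∈ Y224.TS.LT S, ∀ u ∈ U, X *ᵥ u ∈ U := hU'.2.1
  have hDD : ∀ D ∈ S, ph (Fin G ⊕ Fin G) D * ph (Fin G ⊕ Fin G) D = 1 := fun D hD => by
    rw [← map_mul, h.sq D hD, map_one]
  have htr : ∀ D' ∈ S, ∀ hD' : (∀ u ∈ U, D' *ᵥ u ∈ U), LinearMap.trace ℂ U (resM D' U hD') = 0 ∧
      finrank ℂ U = p + p := by
    intro D' hD' h4
    obtain ⟨τ, hτ⟩ := h.tr D' hD'
    obtain ⟨e1, e2⟩ := h.dims hZ hD' hτ hU.2.1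
    have e3 := es_add (hDD D' hD') h4
    rw [trace_res (h.sq D' hD') h4, e1, e2, hpd, hqd, sub_self]
    rw [e1, e2, hpd, hqd] at e3
    exact ⟨rfl, e3.symm⟩
  obtain ⟨D₀, hD₀, -⟩ := h.ex (RingEquiv.refl ℂ)
  obtain ⟨_, ⟨D, hD, hst, rfl⟩, x, hx, h1, h2, h3⟩ := rk1_gal_bal
    (𝔤 := resL (Y224.TS.LT S) U)
    (resL_br (fun X hX Y hY => LT_br hX hY) U) (res_irr h.sq hU')
    {X | ∃ D' ∈ S, ∃ hD' : ∀ u ∈ U, D' *ᵥ u ∈ U, X = resM D' U hD'}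
    (by
      rintro _ ⟨D', hD', h4, rfl⟩
      exact ⟨D', LT_gen hD', fun u => rfl⟩)
    (by
      rintro _ ⟨D', hD', h4, rfl⟩
      exact res_sq (h.sq D' hD') h4)
    (fun L hL1 hL2 => res_ind hst' L (fun D hD => hL1 _ ⟨D, hD, _, rfl⟩) hL2)
    (by
      rintro _ ⟨D', hD', h4, rfl⟩
      exact (htr D' hD' h4).1)
    (by
      intro β _ hβ u v
      obtain ⟨g, hg⟩ := LinearMap.exists_leftInverse_of_injective U.subtype
        (Submodule.ker_subtype U)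
      have hg' : ∀ u : U, g (u : Fin G ⊕ Fin G → ℂ) = u := fun u => congrArg (fun f => f u) hg
      have hbT : ∀ X ∈ Y224.TS.LT S, ∀ u ∈ U, ∀ v ∈ U,
          (β.compl₁₂ g g) (X *ᵥ u) v + (β.compl₁₂ g g) u (X *ᵥ v) = 0 := by
        intro X hX u hu v hv
        have e1 := hβ (resM X U (hst' X hX)) ⟨X, hX, fun u => rfl⟩ ⟨u, hu⟩ ⟨v, hv⟩
        rw [LinearMap.compl₁₂_apply, LinearMap.compl₁₂_apply]
        have e2 := hg' (resM X U (hst' X hX) ⟨u, hu⟩)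
        have e3 := hg' (resM X U (hst' X hX) ⟨v, hv⟩)
        have e4 := hg' ⟨u, hu⟩
        have e5 := hg' ⟨v, hv⟩
        rw [resM_coe] at e2 e3
        change g (X *ᵥ u) = _ at e2
        change g (X *ᵥ v) = _ at e3
        change g u = _ at e4
        change g v = _ at e5
        rw [e2, e3, e4, e5]
        exact e1
      have e6 := hnb _ ((h.bil_on hZ hU.2.1 hU.2.1 (β.compl₁₂ g g)).1 hbT) u u.2 v v.2
      rw [LinearMap.compl₁₂_apply, hg', hg'] at e6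
      exact e6)
    (htr D₀ hD₀ fun u hu => hU'.2.1 D₀ (LT_gen hD₀) u hu).2 hp hnm hG hf hh
  exact Rk1D.rk1T hD ⟨1, Or.inl rfl, rk_of_res h.sq hD hst (Or.inl rfl) hx (by rw [one_smul, h1])
    (by rw [one_smul, h2]) h3⟩

end Z

section gal

variable {K : Type} [Field K] [CharZero K] [Algebra K ℂ] {Γ : Type} [Group Γ] {X : AV}
  {ρ : Representation K Γ (K ⊗[ℚ] X.H)} {χ : Γ →* K} {G : ℕ} {Z : Matrix (Fin G) (Fin G) ℂ}
  {b : Basis (Fin G ⊕ Fin G) ℚ X.H} {a : ℕ} {Z' : Matrix (Fin a) (Fin a) ℂ}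
  {E : Matrix (Fin G ⊕ Fin G) (Fin a ⊕ Fin a) ℚ} {F : Matrix (Fin a ⊕ Fin a) (Fin G ⊕ Fin G) ℚ}

/-- The data on an eigenspace. -/
theorem gdata_gal (h' : PM Z') (hZ : PM Z)
    (hC : Cht (X.per.comp b.equivFun.symm.toLinearMap.toAddMonoidHom) (JR Z))
    (hT : TD Z (SH X.per ρ χ b)) (hf : Fac Z Z' E F) (hs : IsSimpleAV Z')
    (hi : IsHom (AVZ h') X (inc h' b E)) {f : Module.End ℚ (AVZ h').H} (k : MaxField (AVZ h') f)
    {s : ℂ} (hne : VE (LinearMap.toMatrix' f) s ≠ ⊥) {γ : Γ}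
    {t : Module.End K (K ⊗[ℚ] (AVZ h').H)} {c r : ℕ} (hA : ActsBy X ρ (AVZ h') γ t)
    (hSp : IsSparse (t.baseChange ℂ) (VS K (AVZ h') f s) c r) :
    GData (resL (Y224.TS.LT (SF E F (SH X.per ρ χ b))) (VE (LinearMap.toMatrix' f) s)) c r := by
  have hTD := tdF hf hT hZ h'
  have hIr := (k.mf h').irr h' hs hne
  have hg : ∀ a : X.H →ₗ[ℚ] X.H, Pool.Agent.Y90.St.IsHom X.per X.per a → ∀ v,
      ρ γ (a.baseChange K v) = a.baseChange K (ρ γ v) := hA.1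
  have hmt := acts_mat h' hf hA hi
  have e1 : Rf b E F ρ γ⁻¹ * Rf b E F ρ γ = 1 := Rf_inv hC hf hg
  have e2 := fun X hX => Rf_gen (X := X) hC hf hg hT hX
  have hst : ∀ γ' : Γ, (∀ a : X.H →ₗ[ℚ] X.H, Pool.Agent.Y90.St.IsHom X.per X.per a → ∀ v,
      ρ γ' (a.baseChange K v) = a.baseChange K (ρ γ' v)) →
      ∀ u ∈ VE (LinearMap.toMatrix' f) s, Rf b E F ρ γ' *ᵥ u ∈ VE (LinearMap.toMatrix' f) s := by
    intro γ' hγ' u hu
    rw [mem_VE] at hu ⊢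
    rw [mulVec_mulVec, Rf_comm hC hf hγ' (k.mf h').comm, ← mulVec_mulVec, hu, mulVec_smul]
  have e4 := hst γ hg
  have e5 := hst γ⁻¹ (comm_inv hg)
  have hsub : ∀ v : ℂ ⊗[K] (K ⊗[ℚ] (AVZ h').H), (Rf b E F ρ γ - 1) *ᵥ eY K (bs a) v =
      eY K (bs a) ((t.baseChange ℂ - 1) v) := by
    intro v
    rw [← hmt, LinearMap.sub_apply, map_sub, sub_mulVec, one_mulVec, mt_mulVec]
    rfl
  refine gdata_of hTD h' hIr e1 e2 e4 e5 ?_
  rcases hSp with ⟨h1, h2, h3⟩ | ⟨n, w, α, ε, h1, h2, h3, h4⟩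
  · refine Or.inl ⟨fun u hu => ?_, ?_, h3⟩
    · have h4 : (eY K (bs a)).symm u ∈ VS K (AVZ h') f s := by
        rw [mem_VS, LinearEquiv.apply_symm_apply]
        exact hu
      have h5 := h1 _ h4
      have h6 := hsub ((eY K (bs a)).symm u)
      rw [LinearEquiv.apply_symm_apply] at h6
      rw [h6, hsub, h5, map_zero]
    · rw [← h2]
      have h8 : (VE (LinearMap.toMatrix' f) s).map (mulVecLin (Rf b E F ρ γ - 1)) =
          ((VS K (AVZ h') f s).map (t.baseChange ℂ - 1)).map (eY K (bs a)).toLinearMap := by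
        ext x
        simp only [Submodule.mem_map]
        constructor
        · rintro ⟨u, hu, rfl⟩
          refine ⟨(t.baseChange ℂ - 1) ((eY K (bs a)).symm u), ⟨(eY K (bs a)).symm u, ?_, rfl⟩, ?_⟩
          · rw [mem_VS, LinearEquiv.apply_symm_apply]
            exact hu
          · have h6 := hsub ((eY K (bs a)).symm u)
            rw [LinearEquiv.apply_symm_apply] at h6
            exact h6.symm
        · rintro ⟨_, ⟨u, hu, rfl⟩, rfl⟩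
          exact ⟨eY K (bs a) u, (mem_VS h').1 hu, hsub u⟩
      rw [h8]
      exact LinearEquiv.finrank_map_eq (eY K (bs a)) _
  · refine Or.inr ⟨n, w.map (eVS h' f s), α, ε, fun i => ?_, h2, h3, h4⟩
    rw [Basis.map_apply, eVS_coe, ← hmt, mt_mulVec, h1, map_smul]

end gal

end

end Pool.Agent.K9h17.D
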