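import Mathlib
import Pool.Agent.K9h17.D.Glob

/-!
# The new classes
-/

set_option linter.unusedSectionVars false

namespace Pool.Agent.K9h17.D

open Matrix Module Pool.Agent.W437.HC Pool.Agent.W437.HD Pool.Agent.W548.Odd Pool.Agent.W522.U
open Pool.Agent.H204R3.SP Pool.Agent.H204R3.GP Pool.Agent.Y90 Pool.Agent.Y224.TS TensorProduct
open Pool.Agent.Y224.TS.St (IsHodgeTate IsTateModule)
open Pool.Agent.W437.HP (cK cK_mul cK_one)
open Pool.Agent.R915 (VE mem_VE VE_cj VE_main VE_stab commL_of pd_sig eig_conj root_conj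
  hom_iff hom_iff' RF)
open Pool.Agent.N183.TS Pool.Agent.N183.U5
open Pool.Agent.K9h17.S Pool.Agent.K9h17.C Pool.Agent.K9h17.G
open Polynomial

open scoped ComplexOrder

noncomputable section

variable {K : Type} [Field K] [CharZero K] [Algebra K ℂ] {Γ : Type} [Group Γ] {X : AV}
  {ρ : Representation K Γ (K ⊗[ℚ] X.H)} {χ : Γ →* K} {G : ℕ} {Z : Matrix (Fin G) (Fin G) ℂ}
  {b : Basis (Fin G ⊕ Fin G) ℚ X.H} {a : ℕ} {Z' : Matrix (Fin a) (Fin a) ℂ}
  {E : Matrix (Fin G ⊕ Fin G) (Fin a ⊕ Fin a) ℚ} {F : Matrix (Fin a ⊕ Fin a) (Fin G ⊕ Fin G) ℚ}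

/-- The unbalanced class. -/
theorem UnbalancedGal.cls (h' : PM Z') (hZ : PM Z)
    (hC : Cht (X.per.comp b.equivFun.symm.toLinearMap.toAddMonoidHom) (JR Z))
    (hT : TD Z (SH X.per ρ χ b)) (hf : Fac Z Z' E F) (hs : IsSimpleAV Z') (ha : 0 < a)
    (hi : IsHom (AVZ h') X (inc h' b E)) (k : UnbalancedGal X ρ (AVZ h'))
    {U : Submodule ℂ (Fin a ⊕ Fin a → ℂ)} (hU : IrS (LZ Z') U) :
    Rk1T (SF E F (SH X.per ρ χ b)) U := by
  obtain ⟨f, Ψ, s₀, p, q, k, hΨ, hs₀, hp, hpq, hp0, hq0, hne, hnb, hc⟩ := k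
  have hpd := fun s' => pd_mult h' k hΨ s'
  rw [← minpoly_mat] at hs₀
  have hdeg : 0 < (minpoly ℚ (LinearMap.toMatrix' f)).natDegree := by
    rw [Nat.pos_iff_ne_zero]
    intro h5
    rw [minpoly_mat] at h5
    rw [h5, zero_mul, R915.finrank_AVZ] at hpq
    omega
  rw [← minpoly_mat, R915.finrank_AVZ] at hpq
  have hall : ∀ s' : ℂ, aeval s' (minpoly ℚ (LinearMap.toMatrix' f)) = 0 →
      pd Z' (VE (LinearMap.toMatrix' f) s') + qd Z' (VE (LinearMap.toMatrix' f) s') = p + q := by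
    intro s' hs'
    have h3 := (k.mf h').dim h' hs ha (VE_ne_of_root hs')
    rw [← hpq] at h3
    have h4 := Nat.eq_of_mul_eq_mul_left hdeg h3
    rw [← h4]
    exact pd_add_qd h' (VE_stab (k.mf h').comm s')
  have h1 : pd Z' (VE (LinearMap.toMatrix' f) s₀) = p := by rw [hpd, hp]
  have h2 : qd Z' (VE (LinearMap.toMatrix' f) s₀) = q := by
    have h3 := hall s₀ hs₀
    omega
  have hTD := tdF hf hT hZ h'
  obtain ⟨s, T, hs0, hne', hT1, hT2, hTU⟩ := (k.mf h').proj h' hs ha hU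
  refine Rk1T.of_map hTD h' hU hT1 hT2 ?_
  rw [hTU]
  have hIr := (k.mf h').irr h' hs hne'
  have hne0 := VE_ne_of_root hs₀
  obtain ⟨v, hv, hv0⟩ := Submodule.exists_mem_ne_zero_of_ne_bot hne'
  obtain ⟨w, hw, hw0⟩ := Submodule.exists_mem_ne_zero_of_ne_bot hne0
  obtain ⟨σ, hσ⟩ := eig_conj h' hs (k.mf h').comm hw0 (mem_VE.1 hw) hv0 (mem_VE.1 hv)
  have e1 : cjS σ.symm (VE (LinearMap.toMatrix' f) s) = VE (LinearMap.toMatrix' f) s₀ := by
    rw [VE_cj, ← hσ]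
    congr 1
    exact σ.symm_apply_apply _
  obtain ⟨D, hD, hDσ⟩ := hTD.ex σ
  obtain ⟨γ, t, c, r, hA, hSp, hdv⟩ := hc s (by rw [← minpoly_mat]; exact hs0)
  have hG := gdata_gal h' hZ hC hT hf hs hi k hne' hA hSp
  refine (rk1D_gal_ne hTD h' hIr hG hD hDσ ((congrArg (pd Z') e1).trans h1)
    ((congrArg (qd Z') e1).trans h2) hp0 hq0 hne hnb fun τ h3 h4 => ?_).rk1T hD
  rw [VE_cj] at h3 h4 ⊢
  have h5 := root_conj hs0 τ
  exact hdv (τ s) _ _ (by rw [← minpoly_mat]; exact h5) (hpd _).symm (hall _ h5) h3 h4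

/-- The balanced class. -/
theorem BalancedGal.cls (h' : PM Z') (hZ : PM Z)
    (hC : Cht (X.per.comp b.equivFun.symm.toLinearMap.toAddMonoidHom) (JR Z))
    (hT : TD Z (SH X.per ρ χ b)) (hf : Fac Z Z' E F) (hs : IsSimpleAV Z') (ha : 0 < a)
    (hi : IsHom (AVZ h') X (inc h' b E)) (k : BalancedGal X ρ (AVZ h'))
    {U : Submodule ℂ (Fin a ⊕ Fin a → ℂ)} (hU : IrS (LZ Z') U) :
    Rk1T (SF E F (SH X.per ρ χ b)) U := by
  obtain ⟨f, Ψ, p, k, hΨ, hnm, hp, hdim, ⟨φ, hφ, him⟩, hc⟩ := k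
  have hpd := fun s' => pd_mult h' k hΨ s'
  rw [← minpoly_mat, R915.finrank_AVZ] at hdim
  have hp0 : 0 < p := by
    rw [Nat.pos_iff_ne_zero]
    rintro rfl
    omega
  have hdeg : 0 < (minpoly ℚ (LinearMap.toMatrix' f)).natDegree := by
    rw [Nat.pos_iff_ne_zero]
    intro h5
    rw [h5, zero_mul] at hdim
    omega
  have hall : ∀ s' : ℂ, aeval s' (minpoly ℚ (LinearMap.toMatrix' f)) = 0 →
      pd Z' (VE (LinearMap.toMatrix' f) s') + qd Z' (VE (LinearMap.toMatrix' f) s') = p + p := by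
    intro s' hs'
    have h3 := (k.mf h').dim h' hs ha (VE_ne_of_root hs')
    rw [← hdim] at h3
    have h4 := Nat.eq_of_mul_eq_mul_left hdeg h3
    rw [← h4]
    exact pd_add_qd h' (VE_stab (k.mf h').comm s')
  have hp' : ∀ s : ℂ, aeval s (minpoly ℚ (LinearMap.toMatrix' f)) = 0 →
      pd Z' (VE (LinearMap.toMatrix' f) s) = p := by
    intro s hs
    rw [hpd]
    refine hp s ?_
    rw [← minpoly_mat]
    exact hs
  have hcg : CG Z' (LinearMap.toMatrix (Pi.basisFun ℚ (Fin a ⊕ Fin a))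
      (Pi.basisFun ℚ (Fin a ⊕ Fin a)) φ) := by
    refine CentreGen.cg (X := AVZ h') (b := Pi.basisFun ℚ (Fin a ⊕ Fin a)) ?_ hφ
    exact h'.cht
  have hTD := tdF hf hT hZ h'
  obtain ⟨s, T, hs0, hne', hT1, hT2, hTU⟩ := (k.mf h').proj h' hs ha hU
  refine Rk1T.of_map hTD h' hU hT1 hT2 ?_
  rw [hTU]
  have hIr := (k.mf h').irr h' hs hne'
  obtain ⟨θ, hθ⟩ := hcg.label h' hIr
  obtain ⟨γ, t, c, r, hA, hSp, hodd, hh⟩ := hc s (by rw [← minpoly_mat]; exact hs0)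
  have hG := gdata_gal h' hZ hC hT hf hs hi k hne' hA hSp
  refine rk1T_gal_bal hTD h' hIr hG hodd hp0 hh (fun τ => ?_) (fun τ => ?_) hnm ?_
  · rw [VE_cj]
    exact hp' _ (root_conj hs0 τ)
  · rw [VE_cj]
    have h1 := hall _ (root_conj hs0 τ)
    have h2 := hp' _ (root_conj hs0 τ)
    omega
  · refine no_form h' hcg hIr hθ fun h2 => ?_
    obtain ⟨v, hv, hv0⟩ := Submodule.exists_mem_ne_zero_of_ne_bot hne'
    have h1 := R915.aeval_eig (mem_VE.1 (hθ hv)) (minpoly ℚ (LinearMap.toMatrix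
      (Pi.basisFun ℚ (Fin a ⊕ Fin a)) (Pi.basisFun ℚ (Fin a ⊕ Fin a)) φ))
    rw [minpoly.aeval, qm_zero, zero_mulVec] at h1
    have h3 := (smul_eq_zero.1 h1.symm).resolve_right hv0
    have h4 : aeval θ (minpoly ℚ φ) = 0 := by
      rw [← h3]
      congr 1
      exact (minpoly.algEquiv_eq (LinearMap.toMatrixAlgEquiv (Pi.basisFun ℚ (Fin a ⊕ Fin a)))
        φ).symm
    exact him θ h4 (Complex.conj_eq_iff_im.1 h2)

end

end Pool.Agent.K9h17.D
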