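import Mathlib
import Pool.Agent.K9h17.D.Bin
import Pool.Agent.K9h17.D.Half
import Pool.Agent.K9h17.D.Up

/-!
# Nilpotent elements in the case that the minimal rank is half of the multiplicity
-/

set_option linter.unusedSectionVars false

namespace Pool.Agent.K9h17.D

open Matrix Module
open Pool.Agent.Y4.G (trF trF_apply exists_dual exists_eig_range trace_idemM rank_mul_lt)
open Pool.Agent.Y4.G.Lie (pos mem_pos)
open Pool.Agent.N183.JP
open Pool.Agent.K9h17.L
open Pool.Agent.K9h17.B

noncomputable section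

variable {B : Type} [Fintype B] [DecidableEq B]

theorem exists_ginvM (R : Matrix B B ℂ) : ∃ S : Matrix B B ℂ, R * S * R = R := by
  obtain ⟨M, hM⟩ := exists_ginv (Matrix.toLin' R)
  refine ⟨LinearMap.toMatrix' M, ?_⟩
  apply Matrix.toLin'.injective
  rw [Matrix.toLin'_mul, Matrix.toLin'_mul, Matrix.toLin'_toMatrix']
  exact hM

theorem idem_le {E F : Matrix B B ℂ} (EE : E * E = E) (FF : F * F = F) (h1 : E * F = F)
    (h2 : F * E = F) {a b : ℕ} (ha : trace E = a) (hb : trace F = b) : b ≤ a := by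
  have h3 : (E - F) * (E - F) = E - F := by
    have e1 : (E - F) * (E - F) = E * E - E * F - F * E + F * F := by noncomm_ring
    rw [e1, EE, h1, h2, FF]
    abel
  have h4 := trace_idemM h3
  rw [trace_sub, ha, hb] at h4
  have h5 : (a : ℂ) = (b + finrank ℂ (LinearMap.range (mulVecLin (E - F))) : ℕ) := by
    push_cast
    rw [← h4]
    ring
  have h6 : a = b + finrank ℂ (LinearMap.range (mulVecLin (E - F))) := by exact_mod_cast h5
  omega

theorem trace_pair {e f : Matrix B B ℂ} (h : e * f * e = e) : trace (e * f) = e.rank := by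
  have h1 : e * f * (e * f) = e * f := by rw [← mul_assoc, h]
  rw [trace_idemM h1]
  congr 1
  apply le_antisymm
  · exact rank_mul_le_left e f
  · calc e.rank = (e * f * e).rank := by rw [h]
    _ ≤ (e * f).rank := rank_mul_le_left _ _

/-- An element with square zero. -/
theorem two_rank_le {R E : Matrix B B ℂ} (EE : E * E = E) (h1 : E * R = R) (h2 : R * E = R)
    (hRR : R * R = 0) {a : ℕ} (ht : trace E = a) : R.rank + R.rank ≤ a := by
  obtain ⟨S', hS'⟩ := exists_ginvM R
  obtain ⟨S, hS⟩ : ∃ S, S = E * S' * E := ⟨_, rfl⟩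
  have hRSR : R * S * R = R := by
    calc R * S * R = (R * E) * S' * (E * R) := by rw [hS]; noncomm_ring
    _ = R := by rw [h1, h2, hS']
  have ES : E * S = S := by rw [hS, ← mul_assoc, ← mul_assoc, EE]
  have SE : S * E = S := by rw [hS, mul_assoc _ E E, EE]
  obtain ⟨A, hA⟩ : ∃ A, A = R * S := ⟨_, rfl⟩
  obtain ⟨C, hC⟩ : ∃ C, C = S * R := ⟨_, rfl⟩
  have AA : A * A = A := by rw [hA, ← mul_assoc, hRSR]
  have CC : C * C = C := by rw [hC, mul_assoc, ← mul_assoc R, hRSR]
  have CA : C * A = 0 := by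
    calc C * A = S * (R * R) * S := by rw [hA, hC]; noncomm_ring
    _ = 0 := by rw [hRR, mul_zero, zero_mul]
  have h3 : (A + C - A * C) * (A + C - A * C) = A + C - A * C := by
    have e1 : (A + C - A * C) * (A + C - A * C) = A * A + A * C - (A * A) * C + C * A + C * C -
        (C * A) * C - A * (C * A) - A * (C * C) + A * (C * A) * C := by noncomm_ring
    rw [e1, AA, CA, CC]
    simp only [zero_mul, mul_zero]
    abel
  have htA : trace A = R.rank := by rw [hA]; exact trace_pair hRSR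
  have htC : trace C = R.rank := by rw [hC, trace_mul_comm, ← hA, htA]
  have h4 : trace (A + C - A * C) = ((R.rank + R.rank : ℕ) : ℂ) := by
    rw [trace_sub, trace_add, trace_mul_comm A C, CA, trace_zero, htA, htC, sub_zero]
    push_cast
    rfl
  have EA : E * A = A := by rw [hA, ← mul_assoc, h1]
  have EC : E * C = C := by rw [hC, ← mul_assoc, ES]
  have AE : A * E = A := by rw [hA, mul_assoc, SE]
  have CE : C * E = C := by rw [hC, mul_assoc, h2]
  exact idem_le EE h3 (by rw [mul_sub, mul_add, ← mul_assoc, EA, EC])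
    (by rw [sub_mul, add_mul, mul_assoc, AE, CE]) ht h4

variable {G : Submodule ℂ (Matrix B B ℂ)} {P Q : Matrix B B ℂ} {a b : ℕ}

/-- The ranks of the elements of degree one in the half case. -/
theorem rank_half (H : LieP G P Q a a) (ha : 0 < a) {x0 y0 : Matrix B B ℂ}
    (hy0 : y0 ∈ pos G Q P) (hx0 : x0 ∈ pos G P Q) (xy0 : x0 * y0 = P) (yx0 : y0 * x0 = Q)
    (key : ∀ x ∈ pos G P Q, trace (x * y0) = 0 → ∃ c : ℂ, x * y0 * (x * y0) = c • P)
    {x : Matrix B B ℂ} (hx : x ∈ pos G P Q) : x.rank = a ∨ x.rank + x.rank ≤ a := by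
  have ha' : (a : ℂ) ≠ 0 := by exact_mod_cast ha.ne'
  obtain ⟨t, ht⟩ : ∃ t : ℂ, t = trace (x * y0) / a := ⟨_, rfl⟩
  have hxm : x - t • x0 ∈ pos G P Q := Submodule.sub_mem _ hx (Submodule.smul_mem _ _ hx0)
  obtain ⟨c, hc⟩ := key _ hxm (by
    rw [sub_mul, trace_sub, smul_mul_assoc, xy0, trace_smul, H.trP, ht, smul_eq_mul,
      div_mul_cancel₀ _ ha', sub_self])
  obtain ⟨R, hR⟩ : ∃ R, R = x * y0 := ⟨_, rfl⟩
  have PR : P * R = R := by rw [hR, ← mul_assoc, hx.2.1]
  have RP : R * P = R := by rw [hR, mul_assoc, hy0.2.2]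
  have hrk : R.rank = x.rank := by
    apply le_antisymm
    · rw [hR]
      exact rank_mul_le_left _ _
    · have h1 : x = R * x0 := by rw [hR, mul_assoc, yx0, hx.2.2]
      nth_rewrite 1 [h1]
      exact rank_mul_le_left _ _
  have hZ : (x - t • x0) * y0 = R - t • P := by rw [sub_mul, smul_mul_assoc, xy0, ← hR]
  rw [hZ] at hc
  have hc' : R * R = (2 * t) • R + (c - t * t) • P := by
    have e1 : (R - t • P) * (R - t • P) = R * R - t • (R * P) - t • (P * R) + (t * t) • (P * P) := by
      simp only [mul_sub, sub_mul, mul_smul_comm, smul_mul_assoc, smul_smul, smul_sub]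
      abel
    rw [e1, RP, PR, H.PP] at hc
    have e2 : R * R = c • P + t • R + t • R - (t * t) • P := by
      rw [← hc]
      abel
    rw [e2]
    module
  rw [← hrk]
  by_cases h0 : c - t * t = 0
  · right
    rw [h0, zero_smul, add_zero] at hc'
    by_cases ht0 : t = 0
    · rw [ht0, mul_zero, zero_smul] at hc'
      exact two_rank_le H.PP PR RP hc' H.trP
    · have h2t : 2 * t ≠ 0 := mul_ne_zero two_ne_zero ht0
      have h1 : ((2 * t)⁻¹ • R) * ((2 * t)⁻¹ • R) = (2 * t)⁻¹ • R := by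
        rw [smul_mul_smul_comm, hc', smul_smul, mul_assoc, inv_mul_cancel₀ h2t, mul_one]
      have h2 := trace_idemM h1
      have h3 : finrank ℂ (LinearMap.range (mulVecLin ((2 * t)⁻¹ • R))) = R.rank := by
        apply le_antisymm
        · have h4 : (2 * t)⁻¹ • R = R * ((2 * t)⁻¹ • 1) := by
            rw [mul_smul_comm, mul_one]
          rw [h4]
          exact rank_mul_le_left _ _
        · have h4 : R = ((2 * t)⁻¹ • R) * ((2 * t) • 1) := by
            rw [smul_mul_smul_comm, inv_mul_cancel₀ h2t, mul_one, one_smul]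
          nth_rewrite 1 [h4]
          exact rank_mul_le_left _ _
      rw [h3, trace_smul, smul_eq_mul] at h2
      have h5 : trace R = t * a := by
        rw [hR, ht, div_mul_cancel₀ _ ha']
      rw [h5] at h2
      have h6 : (a : ℂ) = ((R.rank + R.rank : ℕ) : ℂ) := by
        push_cast
        rw [← h2]
        field_simp
        ring
      have h7 : a = R.rank + R.rank := by exact_mod_cast h6
      omega
  · left
    have h1 : P = R * ((c - t * t)⁻¹ • (R - (2 * t) • 1)) := by
      rw [mul_smul_comm, mul_sub, hc', mul_smul_comm, mul_one, add_sub_cancel_left, smul_smul,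
        inv_mul_cancel₀ h0, one_smul]
    have hP : (P.rank : ℂ) = a := by rw [← H.trP, trace_idemM H.PP]; rfl
    have hP' : P.rank = a := by exact_mod_cast hP
    rw [← hP']
    apply le_antisymm
    · rw [← PR]
      exact rank_mul_le_left _ _
    · nth_rewrite 1 [h1]
      exact rank_mul_le_left _ _

/-- **Nilpotent elements in the half case** have even rank. -/
theorem even_half (H : LieP G P Q a a) (hI : IrrXY G P Q) (ha : 0 < a) (hNR : NR1 G P Q)
    {e₀ f₀ : Matrix B B ℂ} (he₀ : IsMin G P Q e₀) (hf₀ : f₀ ∈ pos G Q P)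
    (hefe₀ : e₀ * f₀ * e₀ = e₀) (hfef₀ : f₀ * e₀ * f₀ = f₀)
    (h2₀ : trace (e₀ * f₀) + trace (e₀ * f₀) = a) {x₀ : Matrix B B ℂ}
    (hx₀ : x₀ ∈ pos G P Q) (hx₀0 : (P - e₀ * f₀) * x₀ * (Q - f₀ * e₀) ≠ 0)
    {N : Matrix B B ℂ} (hN : N ∈ G) (hNN : N * N = 0) (hN0 : P * N * Q ≠ 0) : Even N.rank := by
  -- the ranks
  have hm2 : 2 ≤ e₀.rank := by
    have k₀ := trp_of_pair H he₀ hf₀ hefe₀ hfef₀
    refine k₀.two_le hNR (m := e₀.rank) (trace_pair hefe₀) ?_
    rcases Nat.eq_zero_or_pos e₀.rank with h3 | h3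
    · exfalso
      apply trp_ne k₀
      rw [trace_pair hefe₀, h3, Nat.cast_zero]
    · exact h3
  have h2m : e₀.rank + e₀.rank = a := by
    rw [trace_pair hefe₀] at h2₀
    exact_mod_cast h2₀
  obtain ⟨j, hj⟩ := pow_two_of_half H hI ha he₀ hf₀ hefe₀ hfef₀ h2₀ hx₀ hx₀0
  have hme : Even e₀.rank := by
    rcases j with _ | j
    · rw [pow_zero] at hj
      omega
    rcases j with _ | j
    · rw [zero_add, pow_one] at hj
      omega
    · refine ⟨2 ^ j, ?_⟩
      rw [pow_succ, pow_succ] at hj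
      omega
  have hranks : ∀ x ∈ pos G P Q, x ≠ 0 → x.rank = a ∨ x.rank = e₀.rank := by
    intro x hx hx0
    obtain ⟨u, v, k'⟩ := exists_compl H hI ha he₀ hf₀ hefe₀ hfef₀ h2₀ hx₀ hx₀0
    have k := trp_of_pair H he₀ hf₀ hefe₀ hfef₀
    obtain ⟨x0, hx0m, y0, hy0m, xy0, yx0, key⟩ := half_key H k k' h2₀
    rcases rank_half H ha hy0m hx0m xy0 yx0 key hx with h1 | h1
    · exact Or.inl h1
    · right
      have h3 := he₀.2 x ⟨hx, hx0⟩
      omega
  -- the normal form
  obtain ⟨f, M, hf, hefe, hfef, hM, MM, hPMQ, pM, Mp, qM, Mq, hrk⟩ := nil_form H hN hNN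
  obtain ⟨e, he⟩ : ∃ e, e = P * N * Q := ⟨_, rfl⟩
  rw [← he] at hefe hfef pM Mp qM Mq hrk hN0
  have hem : e ∈ pos G P Q := by
    rw [he]
    exact ⟨H.grP hN, by rw [← mul_assoc, ← mul_assoc, H.PP], by rw [mul_assoc _ Q Q, H.QQ]⟩
  have hP : P.rank = a := by
    have h3 : (P.rank : ℂ) = a := by rw [← H.trP, trace_idemM H.PP]; rfl
    exact_mod_cast h3
  rcases hranks e hem hN0 with hra | hra
  · -- full rank
    have h3 : e * f = P := idem_eq (by rw [← mul_assoc, hefe]) H.PP
      (by rw [← mul_assoc, hem.2.1]) (by rw [mul_assoc, hf.2.2])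
      (by rw [trace_pair hefe, H.trP, hra])
    have h4 : f * e = Q := idem_eq (by rw [← mul_assoc, hfef]) H.QQ
      (by rw [← mul_assoc, hf.2.1]) (by rw [mul_assoc, hem.2.2])
      (by rw [trace_mul_comm, trace_pair hefe, H.trQ, hra])
    have h5 : M = 0 := by
      rw [← H.ler M hM, mul_add, ← h3, ← h4, Mp, Mq, add_zero]
    rw [hrk, h5, rank_zero, add_zero, hra]
    exact ⟨e₀.rank, h2m.symm⟩
  -- the minimal rank
  have hemin : IsMin G P Q e := ⟨⟨hem, hN0⟩, fun x hx => by rw [hra]; exact he₀.2 x hx⟩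
  have k := trp_of_pair H hemin hf hefe hfef
  have h2 : trace (e * f) + trace (e * f) = a := by
    rw [trace_pair hefe, hra]
    exact_mod_cast h2m
  obtain ⟨x, hx, hx0⟩ : ∃ x ∈ pos G P Q, (P - e * f) * x * (Q - f * e) ≠ 0 := by
    by_contra hcon
    push Not at hcon
    obtain ⟨n, s, t, -, -, -, -, -, -, -, hst, -, -, h3, h4⟩ := binom' H k hcon hI
    have ha' : (a : ℂ) ≠ 0 := by exact_mod_cast ha.ne'
    have h5 : (n : ℂ) = 2 * t := by
      apply mul_left_cancel₀ ha'
      linear_combination (-(n : ℂ)) * h2 + 2 * h3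
    have h6 : (n : ℂ) = 2 * s := by
      apply mul_left_cancel₀ ha'
      linear_combination (-(n : ℂ)) * h2 + 2 * h4
    have h7 : n = 2 * t := by exact_mod_cast h5
    have h8 : n = 2 * s := by exact_mod_cast h6
    omega
  obtain ⟨u, v, k'⟩ := exists_compl H hI ha hemin hf hefe hfef h2 hx hx0
  obtain ⟨p, hp⟩ : ∃ p, p = e * f := ⟨_, rfl⟩
  obtain ⟨q, hq⟩ : ∃ q, q = f * e := ⟨_, rfl⟩
  rw [← hp] at pM Mp h2
  rw [← hq] at qM Mq
  rw [← hp, ← hq] at k k'
  clear hx0 hx
  obtain ⟨r, hr⟩ : ∃ r, r = P - p := ⟨_, rfl⟩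
  obtain ⟨s, hs⟩ : ∃ s, s = Q - q := ⟨_, rfl⟩
  rw [← hr, ← hs] at k'
  have hMP' : M * r = M * P := by rw [hr, mul_sub, Mp, sub_zero]
  have hMQ' : M * s = M * Q := by rw [hs, mul_sub, Mq, sub_zero]
  have hPM' : r * M = P * M := by rw [hr, sub_mul, pM, sub_zero]
  have hQM' : s * M = Q * M := by rw [hs, sub_mul, qM, sub_zero]
  have htr : trace r = ((e₀.rank : ℕ) : ℂ) := by
    rw [hr, trace_sub, H.trP, ← h2, hp, trace_pair hefe, hra]
    ring
  have hurk : u.rank = e₀.rank := by
    have h3 : u * v * u = u := by rw [k'.ef, k'.pe]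
    have h4 := trace_pair h3
    rw [k'.ef, htr] at h4
    exact_mod_cast h4.symm
  have hvrk : v.rank = e₀.rank := by
    have h3 : v * u * v = v := by rw [k'.fe, k'.qf]
    have h4 := trace_pair h3
    rw [trace_mul_comm, k'.ef, htr] at h4
    exact_mod_cast h4.symm
  obtain ⟨c, hc⟩ : ∃ c, c = Q * M * P := ⟨_, rfl⟩
  have hcm : c ∈ pos G Q P := by
    rw [hc]
    exact ⟨H.grQ hM, by rw [← mul_assoc, ← mul_assoc, H.QQ], by rw [mul_assoc _ P P, H.PP]⟩
  obtain ⟨l, hl⟩ := k'.one' c hcm (by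
    rw [hc]
    calc s * (Q * M * P) * r = (s * Q) * M * (P * r) := by noncomm_ring
    _ = Q * M * P := by
      rw [k'.qQ, k'.Pp, hQM', mul_assoc, hMP', ← mul_assoc])
  by_cases hl0 : l = 0
  · -- `M` has degree zero
    rw [hl0, zero_smul, hc] at hl
    have hMP : P * M = M * P := by
      calc P * M = P * (M * (P + Q)) := by rw [H.ler M hM]
      _ = P * M * P + P * M * Q := by noncomm_ring
      _ = P * M * P + Q * M * P := by rw [hPMQ, hl]
      _ = (P + Q) * M * P := by noncomm_ring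
      _ = M * P := by rw [H.lel M hM]
    have hMQ := H.comm_Q hM hMP
    obtain ⟨κ, hκ⟩ := k'.one _ (H.br_pos k'.mem hM hMP hMQ) (by
      calc r * (M * u - u * M) * s = (r * M) * (u * s) - (r * u) * (M * s) := by noncomm_ring
      _ = M * u - u * M := by
        rw [k'.eq, k'.pe, hPM', hMQ', hMP, ← hMQ, mul_assoc, k'.mem.2.1, ← mul_assoc,
          k'.mem.2.2])
    have hκ0 : κ = 0 := by
      have h3 := congrArg (fun z => trace (z * v)) hκ
      beta_reduce at h3
      have t1 : trace (M * P) = 0 := trace_sq_zero (by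
        calc M * P * (M * P) = M * (P * M) * P := by noncomm_ring
        _ = (M * M) * (P * P) := by rw [hMP]; noncomm_ring
        _ = 0 := by rw [MM, zero_mul])
      have t2 : trace (M * Q) = 0 := trace_sq_zero (by
        calc M * Q * (M * Q) = M * (Q * M) * Q := by noncomm_ring
        _ = (M * M) * (Q * Q) := by rw [hMQ]; noncomm_ring
        _ = 0 := by rw [MM, zero_mul])
      have t3 : trace (u * M * v) = 0 := by
        rw [mul_assoc, trace_mul_comm, mul_assoc, k'.fe, hMQ', t2]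
      rw [sub_mul, trace_sub, t3, mul_assoc, k'.ef, hMP', t1, smul_mul_assoc, k'.ef, trace_smul,
        htr, sub_zero, smul_eq_mul] at h3
      rcases mul_eq_zero.1 h3.symm with h4 | h4
      · exact h4
      · exfalso
        have h5 : e₀.rank = 0 := by exact_mod_cast h4
        omega
    rw [hκ0, zero_smul, sub_eq_zero] at hκ
    have hrr : (M * P).rank = (M * Q).rank := by
      apply le_antisymm
      · have h3 : M * P = u * (M * Q) * v := by
          rw [← hMP', ← k'.ef, ← mul_assoc, hκ, ← hMQ, ← mul_assoc u Q M, k'.mem.2.2]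
        rw [h3]
        exact (rank_mul_le_left _ _).trans (rank_mul_le_right _ _)
      · have h3 : M * Q = v * (M * P) * u := by
          rw [← hMQ, ← hQM', ← k'.fe, mul_assoc v u M, ← hκ, mul_assoc v, mul_assoc M P u,
            k'.mem.2.1]
        rw [h3]
        exact (rank_mul_le_left _ _).trans (rank_mul_le_right _ _)
    have hMr : M.rank = (M * P).rank + (M * Q).rank := by
      have h3 : M = M * P + M * Q := by rw [← mul_add, H.ler M hM]
      nth_rewrite 1 [h3]
      refine rank_orth (g := P) ?_ ?_ ?_ ?_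
      · rw [← mul_assoc, hMP, mul_assoc, H.PP]
      · rw [mul_assoc, H.PP]
      · rw [← hMQ, ← mul_assoc, H.PQ, zero_mul]
      · rw [mul_assoc, H.QP, mul_zero]
    rw [hrk, hMr, hrr, hra]
    exact hme.add ⟨_, rfl⟩
  · -- the rank of `M` is maximal
    have h3 : M.rank + M.rank ≤ a := by
      have h4 : (r + s) * (r + s) = r + s := by
        have rs : r * s = 0 := by rw [← k'.pP, ← k'.Qu, mul_assoc, ← mul_assoc P, H.PQ, zero_mul,
          mul_zero]
        have sr : s * r = 0 := by rw [← k'.qQ, ← k'.Pp, mul_assoc, ← mul_assoc Q, H.QP, zero_mul,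
          mul_zero]
        rw [mul_add, add_mul, add_mul, k'.pp, k'.qq, rs, sr, add_zero, zero_add]
      refine two_rank_le h4 ?_ ?_ MM ?_
      · rw [add_mul, hPM', hQM', ← add_mul, H.lel M hM]
      · rw [mul_add, hMP', hMQ', ← mul_add, H.ler M hM]
      · rw [trace_add, k'.trpq, htr]
        exact_mod_cast h2m
    have h4 : e₀.rank ≤ M.rank := by
      rw [← hvrk]
      have h5 : v = (Q * M * P) * (l⁻¹ • 1) := by
        rw [mul_smul_comm, mul_one, ← hc, hl, smul_smul, inv_mul_cancel₀ hl0, one_smul]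
      rw [h5]
      exact ((rank_mul_le_left _ _).trans (rank_mul_le_left _ _)).trans (rank_mul_le_right _ _)
    have h5 : M.rank = e₀.rank := by omega
    rw [hrk, h5, hra]
    exact ⟨_, rfl⟩

end

end Pool.Agent.K9h17.D
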