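import Mathlib
import Pool.Agent.K9h17.D.Full
import Pool.Agent.K9h17.D.Par

/-!
# Nilpotent elements if there are no elements of rank one
-/

set_option linter.unusedSectionVars false

namespace Pool.Agent.K9h17.D

open Matrix Module
open Pool.Agent.Y4.G (trF trF_apply exists_dual exists_eig_range trace_idemM rank_mul_lt)
open Pool.Agent.Y4.G.Lie (pos mem_pos)
open Pool.Agent.N183.JP
open Pool.Agent.K9h17.L
open Pool.Agent.K9h17.B

noncomputable section

variable {B : Type} [Fintype B] [DecidableEq B]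

variable {G : Submodule ℂ (Matrix B B ℂ)} {P Q : Matrix B B ℂ} {a b : ℕ}

theorem rank_bin_left (H : LieP G P Q a b) (hI : IrrXY G P Q) {e f p q : Matrix B B ℂ}
    (k : TrpP G P Q e f p q) (h0 : ∀ x ∈ pos G P Q, (P - p) * x * (Q - q) = 0)
    (hm1 : trace p ≠ 1) {N : Matrix B B ℂ} (hN : N ∈ G) (hNN : N * N = 0)
    (hN0 : P * N * Q ≠ 0) : (N.rank : ℂ) = trace p := by
  obtain ⟨n, s, t, x, Y, hx, -, hY, ht, hs, hst, ha, hb, h3, h4⟩ := binom' H k h0 hI
  refine rank_bin H hI k h0 hx hY ht hs ?_ ?_ hN hNN hN0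
  · rintro rfl
    rw [Nat.choose_one_right] at ha
    have h5 : (n : ℂ) ≠ 0 := by
      intro h6
      have h7 : n = 0 := by exact_mod_cast h6
      apply k.ne
      have h8 : P = 0 := idem_zero H.PP (by rw [H.trP, ha, h7, Nat.cast_zero])
      rw [← k.mem.2.1, h8, zero_mul]
    apply hm1
    apply mul_right_cancel₀ h5
    rw [h3, ha, Nat.cast_one]
  · rintro rfl
    rw [Nat.choose_one_right] at hb
    have h5 : (n : ℂ) ≠ 0 := by
      intro h6
      have h7 : n = 0 := by exact_mod_cast h6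
      apply k.ne
      have h8 : Q = 0 := idem_zero H.QQ (by rw [H.trQ, hb, h7, Nat.cast_zero])
      rw [← k.mem.2.2, h8, mul_zero]
    apply hm1
    apply mul_right_cancel₀ h5
    rw [h4, hb, Nat.cast_one]

/-- **Nilpotent elements in the binomial case** have the rank of the minimal elements. -/
theorem rank_bin_of (H : LieP G P Q a b) (hI : IrrXY G P Q) {e f p q : Matrix B B ℂ}
    (k : TrpP G P Q e f p q) (h0 : ∀ x ∈ pos G P Q, (P - p) * x * (Q - q) = 0)
    (hm1 : trace p ≠ 1) {N : Matrix B B ℂ} (hN : N ∈ G) (hNN : N * N = 0)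
    (hN0 : P * N * Q ≠ 0 ∨ Q * N * P ≠ 0) : (N.rank : ℂ) = trace p := by
  rcases hN0 with h1 | h1
  · exact rank_bin_left H hI k h0 hm1 hN hNN h1
  · rw [← k.trpq]
    exact rank_bin_left H.symm hI.symm (trp_symm H k) (no_two_symm H k h0)
      (by rw [k.trpq]; exact hm1) hN hNN h1

/-- **Nilpotent elements in the half case** have even rank. -/
theorem even_half_of (H : LieP G P Q a a) (hI : IrrXY G P Q) (ha : 0 < a) (hNR : NR1 G P Q)
    {e f : Matrix B B ℂ} (he : IsMin G P Q e) (hf : f ∈ pos G Q P) (hefe : e * f * e = e)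
    (hfef : f * e * f = f) (h2 : trace (e * f) + trace (e * f) = a) {x : Matrix B B ℂ}
    (hx : x ∈ pos G P Q) (hx0 : (P - e * f) * x * (Q - f * e) ≠ 0)
    {N : Matrix B B ℂ} (hN : N ∈ G) (hNN : N * N = 0)
    (hN0 : P * N * Q ≠ 0 ∨ Q * N * P ≠ 0) : Even N.rank := by
  rcases hN0 with h1 | h1
  · exact even_half H hI ha hNR he hf hefe hfef h2 hx hx0 hN hNN h1
  · have k := trp_of_pair H he hf hefe hfef
    obtain ⟨y, hy, hy0⟩ : ∃ y ∈ pos G Q P, (Q - f * e) * y * (P - e * f) ≠ 0 := by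
      by_contra hcon
      push Not at hcon
      exact hx0 (no_two_symm H.symm (trp_symm H k) hcon x hx)
    exact even_half H.symm hI.symm ha (nr1_symm H hNR) (isMin_symm H he hf hefe hfef) he.1.1
      hfef hefe (by rw [trace_mul_comm]; exact h2) hy hy0 hN hNN h1

/-- The numbers in the binomial case with equal multiplicities. -/
theorem bin_bal {n s t m a : ℕ} (ha : 0 < a) (hst : s + t = n + 1) (h1 : a = n.choose t)
    (h3 : m * n = t * a) (h4 : m * n = s * a) : n = 2 * t - 1 ∧ m = (2 * t - 2).choose (t - 1) ∧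
      1 ≤ t := by
  have h5 : s = t := Nat.eq_of_mul_eq_mul_right ha (h4.symm.trans h3)
  have ht : 1 ≤ t := by omega
  have hn : n = 2 * t - 1 := by omega
  refine ⟨hn, ?_, ht⟩
  obtain ⟨r, rfl⟩ : ∃ r, t = r + 1 := ⟨t - 1, by omega⟩
  have h6 := Nat.add_one_mul_choose_eq (2 * r) r
  have h7 : n = 2 * r + 1 := by omega
  rw [h7] at h1 h3
  have h8 : 2 * (r + 1) - 2 = 2 * r := by omega
  rw [h8, Nat.add_sub_cancel]
  have h9 : (2 * r + 1) * m = (2 * r + 1) * (2 * r).choose r := by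
    rw [mul_comm, h3, h1]
    rw [h6, mul_comm]
  exact Nat.eq_of_mul_eq_mul_left (by omega) h9

/-- **Nilpotent elements of odd rank**: equal multiplicities. -/
theorem nil_bal (H : LieP G P Q a a) (hR : P + Q ∈ G) (hI : IrrXY G P Q) (ha : 0 < a)
    (hNR : NR1 G P Q) {N : Matrix B B ℂ} (hN : N ∈ G) (hNN : N * N = 0)
    (hN0 : P * N * Q ≠ 0 ∨ Q * N * P ≠ 0) (hodd : Odd N.rank) :
    ∃ N : Matrix B B ℂ, (∀ v v' : B → ℂ, v ⬝ᵥ (N *ᵥ v') = v' ⬝ᵥ (N *ᵥ v)) ∧ N ≠ 0 ∧
      ∀ X ∈ G, ∃ μ : ℂ, ∀ v v' : B → ℂ,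
        (X *ᵥ v) ⬝ᵥ (N *ᵥ v') + v ⬝ᵥ (N *ᵥ (X *ᵥ v')) = μ * (v ⬝ᵥ (N *ᵥ v')) := by
  obtain ⟨e, he⟩ := exists_min H ha ha
  obtain ⟨f, hf, hefe, hfef⟩ := exists_partner H he.1.1
  have k := trp_of_pair H he hf hefe hfef
  obtain ⟨m, hm⟩ : ∃ m : ℕ, trace (e * f) = m := ⟨_, trace_idemM k.pp⟩
  have hm0 : 1 ≤ m := by
    rcases Nat.eq_zero_or_pos m with h3 | h3
    · exfalso
      apply trp_ne k
      rw [hm, h3, Nat.cast_zero]
    · exact h3
  have hm2 := k.two_le hNR hm hm0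
  by_cases h0 : ∀ x ∈ pos G P Q, (P - e * f) * x * (Q - f * e) = 0
  · exfalso
    have h1 := rank_bin_of H hI k h0 (by
      rw [hm]
      intro h3
      have h4 : m = 1 := by exact_mod_cast h3
      omega) hN hNN hN0
    obtain ⟨n, s, t, -, -, -, -, -, -, -, hst, ha', -, h3, h4⟩ := binom' H k h0 hI
    rw [hm] at h1 h3 h4
    have h1' : N.rank = m := by exact_mod_cast h1
    have h3' : m * n = t * a := by exact_mod_cast h3
    have h4' : m * n = s * a := by exact_mod_cast h4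
    obtain ⟨-, h5, h6⟩ := bin_bal ha hst ha' h3' h4'
    obtain ⟨r, rfl⟩ : ∃ r, t = r + 1 := ⟨t - 1, by omega⟩
    have h7 : 2 * (r + 1) - 2 = 2 * r := by omega
    rw [h7, Nat.add_sub_cancel] at h5
    have hr : 0 < r := by
      rcases Nat.eq_zero_or_pos r with h8 | h8
      · subst h8
        rw [mul_zero, Nat.choose_self] at h5
        omega
      · exact h8
    have h8 := Nat.two_dvd_centralBinom_of_one_le hr
    rw [Nat.centralBinom] at h8
    rw [h1', h5] at hodd
    exact (Nat.not_even_iff_odd.2 hodd) (even_iff_two_dvd.2 h8)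
  · push Not at h0
    obtain ⟨x, hx, hx0⟩ := h0
    by_cases h2 : trace (e * f) + trace (e * f) = a
    · exfalso
      exact (Nat.not_even_iff_odd.2 hodd)
        (even_half_of H hI ha hNR he hf hefe hfef h2 hx hx0 hN hNN hN0)
    · exact exists_form_two H hR hI ha hNR he hf hefe hfef h2 hx hx0

/-- **Nilpotent elements**: different multiplicities. -/
theorem nil_ne (H : LieP G P Q a b) (hR : P + Q ∈ G)
    (hnd : ∀ z ∈ G, (∀ w ∈ G, trace (z * w) = 0) → z = 0) (hI : IrrXY G P Q) (hab : a ≠ b)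
    (ha : 0 < a) (hb : 0 < b) (hNR : NR1 G P Q) :
    ∃ d s : ℕ, 2 ≤ s ∧ s + 1 ≤ d ∧ a = d.choose (s - 1) ∧ b = d.choose s ∧
      ∀ N ∈ G, N * N = 0 → (P * N * Q ≠ 0 ∨ Q * N * P ≠ 0) →
        N.rank = (d - 1).choose (s - 1) := by
  obtain ⟨e, f, p, q, k⟩ := exists_trp H ha hb
  obtain ⟨m, c, hm, hm1, -, -, -⟩ := k.rel H
  have hm2 := k.two_le hNR hm hm1
  have h0 : ∀ x ∈ pos G P Q, (P - p) * x * (Q - q) = 0 := by
    by_contra h0
    push Not at h0
    obtain ⟨x, hx, hx0⟩ := h0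
    have h1 := trace_one_of_two H hR hnd hI hab k hx hx0
    rw [hm] at h1
    have h2 : m = 1 := by exact_mod_cast h1
    omega
  obtain ⟨d, s, t, -, -, -, -, -, -, -, hst, h1, h2, h3, h4⟩ := binom' H k h0 hI
  rw [hm] at h3 h4
  have h3' : m * d = t * a := by exact_mod_cast h3
  have h4' : m * d = s * b := by exact_mod_cast h4
  have ht1 : 1 ≤ t := by
    by_contra ht
    obtain rfl : t = 0 := by omega
    rw [Nat.choose_eq_zero_of_lt (by omega)] at h2
    omega
  have hs1 : 1 ≤ s := by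
    by_contra ht
    obtain rfl : s = 0 := by omega
    rw [Nat.choose_eq_zero_of_lt (by omega)] at h1
    omega
  have hd : 0 < d := by omega
  -- the rank
  have hmr : m = (d - 1).choose (s - 1) := by
    obtain ⟨r, rfl⟩ : ∃ r, s = r + 1 := ⟨s - 1, by omega⟩
    obtain ⟨c, rfl⟩ : ∃ c, d = c + 1 := ⟨d - 1, by omega⟩
    rw [Nat.add_sub_cancel, Nat.add_sub_cancel]
    have h6 := Nat.add_one_mul_choose_eq c r
    refine Nat.eq_of_mul_eq_mul_left hd ?_
    rw [mul_comm, h4', h2]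
    rw [h6, mul_comm]
  have hs2 : 2 ≤ s := by
    by_contra h5
    obtain rfl : s = 1 := by omega
    rw [Nat.sub_self, Nat.choose_zero_right] at hmr
    omega
  have hsd : s + 1 ≤ d := by
    by_contra h5
    have h6 : s = d := by omega
    rw [h6, Nat.choose_self] at hmr
    omega
  refine ⟨d, s, hs2, hsd, ?_, h2, fun N hN hNN hN0 => ?_⟩
  · rw [h1]
    exact (Nat.choose_symm_of_eq_add (by omega))
  · rw [← hmr]
    have h5 := rank_bin_of H hI k h0 (by
      rw [hm]
      intro h6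
      have h7 : m = 1 := by exact_mod_cast h6
      omega) hN hNN hN0
    rw [hm] at h5
    exact_mod_cast h5

end

end Pool.Agent.K9h17.D
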