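import Mathlib
import Pool.Agent.K9h17.D.Nil
import Pool.Agent.K9h17.D.Loc

/-!
# Elements of rank one from a nilpotent element
-/

set_option linter.unusedSectionVars false

namespace Pool.Agent.K9h17.D

open Module Matrix
open Pool.Agent.Y4.G (trace_idemM)
open Pool.Agent.Y4.G.Lie (pos mem_pos)
open Pool.Agent.W548.Odd (rk sq_zero_of_up)
open Pool.Agent.N183.JP
open Pool.Agent.K9h17.L
open Pool.Agent.K9h17.B

noncomputable section

variable {V : Type} [AddCommGroup V] [Module ℂ V] [FiniteDimensional ℂ V]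
  {𝔤 : Submodule ℂ (End ℂ V)}

/-- The rank of an operator which is skew for a nondegenerate symmetric form is even. -/
theorem even_rk_of_form {β : V →ₗ[ℂ] V →ₗ[ℂ] ℂ} (hs : ∀ u v, β u v = β v u)
    (hnd : ∀ u, (∀ v, β u v = 0) → u = 0) {N : End ℂ V}
    (hN : ∀ u v, β (N u) v + β u (N v) = 0) : Even (rk N) := by
  obtain ⟨W, hW⟩ := Submodule.exists_isCompl (LinearMap.ker N)
  obtain ⟨m, hm⟩ : ∃ m, m = finrank ℂ W := ⟨_, rfl⟩
  let b : Basis (Fin m) ℂ W := (finBasis ℂ W).reindex (finCongr hm.symm)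
  let M : Matrix (Fin m) (Fin m) ℂ := Matrix.of fun i j => β (N (b i : V)) (b j : V)
  have hMt : Mᵀ = -M := by
    ext i j
    rw [Matrix.transpose_apply, Matrix.neg_apply]
    change β (N (b j : V)) (b i : V) = -β (N (b i : V)) (b j : V)
    rw [hs (N (b i : V)), ← add_eq_zero_iff_eq_neg, hN]
  have hdet : M.det ≠ 0 := by
    intro h0
    obtain ⟨c, hc0, hc⟩ := Matrix.exists_vecMul_eq_zero_iff.2 h0
    obtain ⟨w, hw⟩ : ∃ w : W, w = ∑ i, c i • b i := ⟨_, rfl⟩
    have h1 : ∀ j, β (N (w : V)) (b j : V) = 0 := by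
      intro j
      have h2 := congrFun hc j
      rw [Matrix.vecMul, dotProduct] at h2
      rw [hw, Submodule.coe_sum, map_sum, map_sum, LinearMap.sum_apply]
      refine Eq.trans (Finset.sum_congr rfl fun i _ => ?_) h2
      rw [Submodule.coe_smul, map_smul, map_smul, LinearMap.smul_apply, smul_eq_mul]
      rfl
    have h2 : ∀ w' : W, β (N (w : V)) (w' : V) = 0 := by
      intro w'
      rw [← b.sum_repr w', Submodule.coe_sum, map_sum]
      refine Finset.sum_eq_zero fun j _ => ?_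
      rw [Submodule.coe_smul, map_smul, h1, smul_zero]
    have h3 : N (w : V) = 0 := by
      refine hnd _ fun v => ?_
      obtain ⟨k, hk, w', hw', rfl⟩ := Submodule.mem_sup.1 (by
        rw [hW.sup_eq_top]
        exact Submodule.mem_top (x := v))
      have h4 := hN (w : V) k
      rw [LinearMap.mem_ker.1 hk, map_zero, add_zero] at h4
      rw [map_add, h4, h2 ⟨w', hw'⟩, add_zero]
    have h4 : (w : V) ∈ LinearMap.ker N ⊓ W := ⟨h3, w.2⟩
    rw [hW.inf_eq_bot, Submodule.mem_bot] at h4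
    have h5 : w = 0 := Subtype.ext h4
    apply hc0
    rw [hw] at h5
    funext i
    exact (Fintype.linearIndependent_iff.1 b.linearIndependent) c h5 i
  have h1 := congrArg Matrix.det hMt
  rw [Matrix.det_transpose, Matrix.det_neg, Fintype.card_fin] at h1
  have h2 : (-1 : ℂ) ^ m = 1 := by
    have h3 : ((-1 : ℂ) ^ m - 1) * M.det = 0 := by linear_combination -h1
    exact sub_eq_zero.1 ((mul_eq_zero.1 h3).resolve_right hdet)
  have h3 : Even m := by
    rcases Nat.even_or_odd m with h4 | h4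
    · exact h4
    · exfalso
      rw [h4.neg_one_pow] at h2
      norm_num at h2
  have h4 := LinearMap.finrank_range_add_finrank_ker N
  have h5 := Submodule.finrank_add_eq_of_isCompl hW
  have h6 : rk N = m := by
    unfold rk
    omega
  rw [h6]
  exact h3

variable (hbr : ∀ X ∈ 𝔤, ∀ Y ∈ 𝔤, X * Y - Y * X ∈ 𝔤)
  (hirr : ∀ W : Submodule ℂ V, (∀ X ∈ 𝔤, X * X = (1 / 4 : ℂ) • 1 → ∀ u ∈ W, X u ∈ W) →
    W = ⊥ ∨ W = ⊤)

include hirr in
/-- A symmetric form with multipliers and a nilpotent element of odd rank. -/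
theorem form_nil {β : V →ₗ[ℂ] V →ₗ[ℂ] ℂ} (hs : ∀ u v, β u v = β v u)
    (hβ : ∀ X ∈ 𝔤, ∃ μ : ℂ, ∀ u v, β (X u) v + β u (X v) = μ * β u v)
    {N : End ℂ V} (hN : ∃ μ : ℂ, ∀ u v, β (N u) v + β u (N v) = μ * β u v) (hNN : N * N = 0)
    (hodd : Odd (rk N)) : ∀ u v, β u v = 0 := by
  have hrad : LinearMap.ker β = ⊥ ∨ LinearMap.ker β = ⊤ := by
    refine hirr _ fun X hX _ u hu => ?_
    obtain ⟨μ, hμ⟩ := hβ X hX
    rw [LinearMap.mem_ker] at hu ⊢
    refine LinearMap.ext fun v => ?_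
    have h1 := hμ u v
    rw [hu, LinearMap.zero_apply, LinearMap.zero_apply, mul_zero, add_zero] at h1
    rw [h1, LinearMap.zero_apply]
  rcases hrad with hr | hr
  · exfalso
    obtain ⟨μ, hμ⟩ := hN
    have hNN' : ∀ u, N (N u) = 0 := fun u => LinearMap.congr_fun hNN u
    have hnd : ∀ u, (∀ v, β u v = 0) → u = 0 := by
      intro u hu
      have h1 : u ∈ LinearMap.ker β := LinearMap.mem_ker.2 (LinearMap.ext hu)
      rwa [hr, Submodule.mem_bot] at h1
    have hN' : ∀ u v, β (N u) v + β u (N v) = 0 := by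
      intro u v
      have h1 := hμ (N u) v
      have h2 := hμ u (N v)
      have h3 := hμ (N u) (N v)
      have h4 := hμ u v
      rw [hNN', map_zero, LinearMap.zero_apply, zero_add] at h1
      rw [hNN', map_zero, add_zero] at h2
      rw [hNN', hNN', map_zero, map_zero, LinearMap.zero_apply, add_zero] at h3
      rcases mul_eq_zero.1 h3.symm with h5 | h5
      · rw [h4, h5, zero_mul]
      · rw [h5] at h1 h2
        rcases mul_eq_zero.1 h1.symm with h6 | h6
        · rw [h4, h6, zero_mul]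
        · rcases mul_eq_zero.1 h2.symm with h7 | h7
          · rw [h4, h7, zero_mul]
          · rw [h6, h7, add_zero]
    exact (Nat.not_even_iff_odd.2 hodd) (even_rk_of_form hs hnd hN')
  · intro u v
    have h1 : u ∈ LinearMap.ker β := by rw [hr]; trivial
    rw [LinearMap.mem_ker.1 h1, LinearMap.zero_apply]

include hbr hirr in
/-- The matrices. -/
theorem mat_data {D : End ℂ V} (hD : D ∈ 𝔤) (hD2 : D * D = 1) {a b : ℕ}
    (htr : LinearMap.trace ℂ V D = (a : ℂ) - b) (hn : finrank ℂ V = a + b)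
    (hUp : ∀ W : Submodule ℂ V, (∀ x ∈ UpS 𝔤 D, ∀ u ∈ W, x u ∈ W) →
      (∀ y ∈ UpS 𝔤 (-D), ∀ u ∈ W, y u ∈ W) → W = ⊥ ∨ W = ⊤) :
    LieP (mG (ads 𝔤)) (mm V (prj D)) (mm V (prj (-D))) a b ∧
      mm V (prj D) + mm V (prj (-D)) ∈ mG (ads 𝔤) ∧
      (∀ z ∈ mG (ads 𝔤), (∀ w ∈ mG (ads 𝔤), trace (z * w) = 0) → z = 0) ∧
      IrrXY (mG (ads 𝔤)) (mm V (prj D)) (mm V (prj (-D))) := by
  have hbr' := ads_br hbr
  have hirr' : ∀ W : Submodule ℂ V, (∀ X ∈ ads 𝔤, X * X = (1 / 4 : ℂ) • 1 → ∀ u ∈ W, X u ∈ W) →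
      W = ⊥ ∨ W = ⊤ := fun W hW => hirr W fun X hX => hW X (le_ads hX)
  have hD' : D ∈ ads 𝔤 := le_ads hD
  have hsum : mm V (prj D) + mm V (prj (-D)) = 1 := by rw [← map_add, prj_add, map_one]
  refine ⟨lieP hbr' hirr' hD' hD2 htr hn, ?_, ?_, ?_⟩
  · rw [hsum, ← map_one (mm V)]
    exact mem_mG.2 one_ads
  · intro z hz hzw
    obtain ⟨y, hy, rfl⟩ := exists_mG hz
    rw [trace_nondeg hbr' hirr' hy fun w hw => ?_, map_zero]
    have h1 := hzw _ (mem_mG.2 hw)
    rwa [← map_mul, mm_trace] at h1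
  · intro U _ hU1 hU2
    rcases hUp (U.comap (cf V).toLinearMap)
      (fun x hx u hu => by
        rw [Submodule.mem_comap] at hu ⊢
        change cf V (x u) ∈ U
        rw [← mm_mulVec]
        refine hU1 _ ⟨mem_mG.2 (le_ads hx.1), ?_, ?_⟩ _ hu
        · rw [← map_mul, prj_of_D hx.2.1]
        · rw [← map_mul, prj_of_D' hx.2.2])
      (fun x hx u hu => by
        rw [Submodule.mem_comap] at hu ⊢
        change cf V (x u) ∈ U
        rw [← mm_mulVec]
        refine hU2 _ ⟨mem_mG.2 (le_ads hx.1), ?_, ?_⟩ _ hu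
        · rw [← map_mul, prj_of_D hx.2.1]
        · have h3 := prj_of_D' hx.2.2
          rw [neg_neg] at h3
          rw [← map_mul, h3]) with h1 | h1
    · left
      rw [Submodule.eq_bot_iff] at h1 ⊢
      intro u hu
      have h2 := h1 ((cf V).symm u) (by
        rw [Submodule.mem_comap]
        change cf V ((cf V).symm u) ∈ U
        rwa [LinearEquiv.apply_symm_apply])
      rw [← (cf V).apply_symm_apply u, h2, map_zero]
    · right
      intro u _
      have h2 : (cf V).symm u ∈ U.comap (cf V).toLinearMap := by rw [h1]; trivial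
      rw [Submodule.mem_comap] at h2
      change cf V ((cf V).symm u) ∈ U at h2
      rwa [LinearEquiv.apply_symm_apply] at h2

/-- The components of an operator which does not commute with `D`. -/
theorem comp_ne {D N : End ℂ V} (hc : N * D ≠ D * N) :
    mm V (prj D) * mm V N * mm V (prj (-D)) ≠ 0 ∨
      mm V (prj (-D)) * mm V N * mm V (prj D) ≠ 0 := by
  by_contra hcon
  push Not at hcon
  obtain ⟨h1, h2⟩ := hcon
  rw [← map_mul, ← map_mul] at h1 h2
  have h3 := (map_eq_zero_iff _ (mm V).injective).1 h1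
  have h4 := (map_eq_zero_iff _ (mm V).injective).1 h2
  apply hc
  have h5 : (1 + D) * N * (1 - D) = 0 := by
    have e1 : prj D * N * prj (-D) = ((2 : ℂ)⁻¹ * (2 : ℂ)⁻¹) • ((1 + D) * N * (1 - D)) := by
      unfold prj
      rw [smul_mul_assoc, smul_mul_smul_comm, ← sub_eq_add_neg]
    rw [e1] at h3
    exact (smul_eq_zero.1 h3).resolve_left (by norm_num)
  have h6 : (1 - D) * N * (1 + D) = 0 := by
    have e1 : prj (-D) * N * prj D = ((2 : ℂ)⁻¹ * (2 : ℂ)⁻¹) • ((1 - D) * N * (1 + D)) := by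
      unfold prj
      rw [smul_mul_assoc, smul_mul_smul_comm, ← sub_eq_add_neg]
    rw [e1] at h4
    exact (smul_eq_zero.1 h4).resolve_left (by norm_num)
  have h7 : (2 : ℂ) • (D * N - N * D) = 0 := by
    have e1 : (1 + D) * N * (1 - D) - (1 - D) * N * (1 + D) = (D * N - N * D) + (D * N - N * D) := by
      noncomm_ring
    rw [h5, h6, sub_self] at e1
    rw [two_smul, ← e1]
  exact (sub_eq_zero.1 ((smul_eq_zero.1 h7).resolve_left two_ne_zero)).symm

include hbr hirr in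
/-- **Elements of rank one** from a nilpotent element which does not commute with `D`. -/
theorem exists_rk1_nil_at {D : End ℂ V} (hD : D ∈ 𝔤) (hD2 : D * D = 1) {a b : ℕ}
    (htr : LinearMap.trace ℂ V D = (a : ℂ) - b) (hn : finrank ℂ V = a + b) (ha : 0 < a) (hb : 0 < b)
    (hUp : ∀ W : Submodule ℂ V, (∀ x ∈ UpS 𝔤 D, ∀ u ∈ W, x u ∈ W) →
      (∀ y ∈ UpS 𝔤 (-D), ∀ u ∈ W, y u ∈ W) → W = ⊥ ∨ W = ⊤)
    {N : End ℂ V} {s : ℂ} (hN : N - s • 1 ∈ 𝔤) (hNN : N * N = 0) (hc : N * D ≠ D * N)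
    (hodd : a = b → Odd (rk N))
    (hbin : ∀ d k : ℕ, 2 ≤ k → k + 1 ≤ d → a = d.choose (k - 1) → b = d.choose k →
      rk N ≠ (d - 1).choose (k - 1)) : ∃ x ∈ 𝔤, rk x = 1 := by
  by_contra hcon
  push Not at hcon
  obtain ⟨H, hR, hnd, hI⟩ := mat_data hbr hirr hD hD2 htr hn hUp
  have hNR : NR1 (mG (ads 𝔤)) (mm V (prj D)) (mm V (prj (-D))) :=
    nr1 fun x hx h1 h2 => hcon x (up_ads hbr hD hD2 hx h1 h2)
  have hNa : N ∈ ads 𝔤 := by
    have h1 : N = (N - s • 1) + s • 1 := by rw [sub_add_cancel]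
    rw [h1]
    exact (ads 𝔤).add_mem (le_ads hN) ((ads 𝔤).smul_mem _ one_ads)
  have hNm : mm V N ∈ mG (ads 𝔤) := mem_mG.2 hNa
  have hNN' : mm V N * mm V N = 0 := by rw [← map_mul, hNN, map_zero]
  have hrk : (mm V N).rank = rk N := rank_mm N
  have hc' := comp_ne hc
  by_cases hab : a = b
  · subst hab
    obtain ⟨S, hSs, hS0, hS⟩ := nil_bal H hR hI ha hNR hNm hNN' hc' (by
      rw [hrk]
      exact hodd rfl)
    have hSX : ∀ X ∈ ads 𝔤, ∃ μ : ℂ, ∀ u v,
        ((Matrix.toBilin' S).compl₁₂ (cf V).toLinearMap (cf V).toLinearMap) (X u) v +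
          ((Matrix.toBilin' S).compl₁₂ (cf V).toLinearMap (cf V).toLinearMap) u (X v) =
        μ * ((Matrix.toBilin' S).compl₁₂ (cf V).toLinearMap (cf V).toLinearMap) u v := by
      intro X hX
      obtain ⟨μ, hμ⟩ := hS _ (mem_mG.2 hX)
      refine ⟨μ, fun u v => ?_⟩
      change Matrix.toBilin' S (cf V (X u)) (cf V v) + Matrix.toBilin' S (cf V u) (cf V (X v)) =
        μ * Matrix.toBilin' S (cf V u) (cf V v)
      rw [Matrix.toBilin'_apply', Matrix.toBilin'_apply', Matrix.toBilin'_apply', ← mm_mulVec,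
        ← mm_mulVec]
      exact hμ _ _
    have h1 := form_nil hirr (β := (Matrix.toBilin' S).compl₁₂ (cf V).toLinearMap
      (cf V).toLinearMap) (fun u v => by
        change Matrix.toBilin' S (cf V u) (cf V v) = Matrix.toBilin' S (cf V v) (cf V u)
        rw [Matrix.toBilin'_apply', Matrix.toBilin'_apply', hSs])
      (fun X hX => hSX X (le_ads hX)) (hSX N hNa) hNN (hodd rfl)
    apply hS0
    refine Matrix.ext fun i j => ?_
    have h2 := h1 ((cf V).symm (Pi.single i 1)) ((cf V).symm (Pi.single j 1))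
    change Matrix.toBilin' S (cf V ((cf V).symm (Pi.single i 1)))
      (cf V ((cf V).symm (Pi.single j 1))) = 0 at h2
    rw [LinearEquiv.apply_symm_apply, LinearEquiv.apply_symm_apply, Matrix.toBilin'_apply',
      mulVec_single_one, single_one_dotProduct] at h2
    exact h2
  · obtain ⟨d, k, hk2, hkd, h1, h2, h3⟩ := nil_ne H hR hnd hI hab ha hb hNR
    refine hbin d k hk2 hkd h1 h2 ?_
    rw [← hrk]
    exact h3 _ hNm hNN' hc'

/-- The conjugates of an involution. -/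
theorem conj_inv {D n : End ℂ V} (hD2 : D * D = 1)
    (hn : (D * n = n ∧ n * D = -n) ∨ (D * n = -n ∧ n * D = n)) :
    (D - (2 : ℂ) • n) * (D - (2 : ℂ) • n) = 1 ∧
      LinearMap.trace ℂ V (D - (2 : ℂ) • n) = LinearMap.trace ℂ V D := by
  have hnn : n * n = 0 := by
    rcases hn with ⟨h1, h2⟩ | ⟨h1, h2⟩
    · exact sq_zero_of_up h1 h2
    · refine sq_zero_of_up (D := -D) (by rw [neg_mul, h1, neg_neg]) (by rw [mul_neg, h2])
  have hDn : D * n + n * D = 0 := by
    rcases hn with ⟨h1, h2⟩ | ⟨h1, h2⟩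
    · rw [h1, h2, add_neg_cancel]
    · rw [h1, h2, neg_add_cancel]
  refine ⟨?_, ?_⟩
  · have e1 : (D - (2 : ℂ) • n) * (D - (2 : ℂ) • n) = D * D - (2 : ℂ) • (D * n + n * D) +
        (4 : ℂ) • (n * n) := by
      simp only [mul_sub, sub_mul, mul_smul_comm, smul_mul_assoc]
      module
    rw [e1, hD2, hDn, hnn]
    simp
  · rw [map_sub, map_smul, sq_trace hnn, smul_zero, sub_zero]

include hbr hirr in
/-- **Elements of rank one** from a nilpotent element. -/
theorem exists_rk1_nil (T : Set (End ℂ V)) (hT1 : ∀ X ∈ T, X ∈ 𝔤) (hT2 : ∀ X ∈ T, X * X = 1)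
    (hgen : ∀ L : Submodule ℂ (End ℂ V), (∀ X ∈ T, X ∈ L) →
      (∀ X ∈ L, ∀ Y ∈ L, X * Y - Y * X ∈ L) → 𝔤 ≤ L)
    {N : End ℂ V} {s : ℂ} (hN : N - s • 1 ∈ 𝔤) (hNN : N * N = 0)
    {D : End ℂ V} (hD : D ∈ 𝔤) (hD2 : D * D = 1) {a b : ℕ}
    (htr : LinearMap.trace ℂ V D = (a : ℂ) - b) (hn : finrank ℂ V = a + b) (ha : 0 < a) (hb : 0 < b)
    (hDn : ¬a + b ∣ rk N * a.gcd b)
    (hT : ∀ D' ∈ T, ∀ a' b' : ℕ, LinearMap.trace ℂ V D' = (a' : ℂ) - b' → a' + b' = a + b →
      0 < a' → 0 < b' → ¬ a + b ∣ rk N * a'.gcd b')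
    (hbin : ∀ d k : ℕ, 2 ≤ k → k + 1 ≤ d → a = d.choose (k - 1) → b = d.choose k →
      rk N ≠ (d - 1).choose (k - 1)) : ∃ x ∈ 𝔤, rk x = 1 := by
  have hG : GData 𝔤 (rk N) (rk N) := ⟨N, ⟨s, hN⟩, Or.inl ⟨hNN, rfl, rfl⟩⟩
  have hirD : ∀ {D : End ℂ V}, D ∈ 𝔤 → D * D = 1 → LinearMap.trace ℂ V D = (a : ℂ) - b →
      ∀ W : Submodule ℂ V, (∀ x ∈ UpS 𝔤 D, ∀ u ∈ W, x u ∈ W) →
      (∀ y ∈ UpS 𝔤 (-D), ∀ u ∈ W, y u ∈ W) → W = ⊥ ∨ W = ⊤ := fun hD hD2 htr =>
    irr_gal hbr hirr T hT1 hT2 hgen hG hD hD2 htr hn hDn hT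
  have hodd : a = b → Odd (rk N) := by
    rintro rfl
    rw [← Nat.not_even_iff_odd]
    rintro ⟨c, hc⟩
    apply hDn
    rw [Nat.gcd_self, hc]
    exact ⟨c, by ring⟩
  -- a conjugate which does not commute with `N`
  obtain ⟨D', hD', hD2', htr', hc⟩ : ∃ D' ∈ 𝔤, D' * D' = 1 ∧
      LinearMap.trace ℂ V D' = (a : ℂ) - b ∧ N * D' ≠ D' * N := by
    by_contra hcon
    push Not at hcon
    have hcD := hcon D hD hD2 htr
    have hcn : ∀ n ∈ 𝔤, ((D * n = n ∧ n * D = -n) ∨ (D * n = -n ∧ n * D = n)) →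
        N * n = n * N := by
      intro n hn hn'
      obtain ⟨h1, h2⟩ := conj_inv hD2 hn'
      have h3 := hcon (D - (2 : ℂ) • n) (𝔤.sub_mem hD (𝔤.smul_mem _ hn)) h1 (h2.trans htr)
      rw [mul_sub, sub_mul, hcD, mul_smul_comm, smul_mul_assoc] at h3
      have h4 : (2 : ℂ) • (N * n - n * N) = 0 := by
        rw [smul_sub, sub_eq_zero]
        exact sub_right_injective h3
      exact sub_eq_zero.1 ((smul_eq_zero.1 h4).resolve_left two_ne_zero)
    have hker : LinearMap.ker N = ⊥ ∨ LinearMap.ker N = ⊤ := by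
      refine hirD hD hD2 htr _ (fun x hx u hu => ?_) (fun x hx u hu => ?_)
      · have h1 := hcn x hx.1 (Or.inl hx.2)
        rw [LinearMap.mem_ker] at hu ⊢
        rw [← Module.End.mul_apply, h1, Module.End.mul_apply, hu, map_zero]
      · obtain ⟨hx1, hx2, hx3⟩ := hx
        rw [neg_mul] at hx2
        rw [mul_neg] at hx3
        have h1 := hcn x hx1 (Or.inr ⟨neg_eq_iff_eq_neg.1 hx2, neg_injective hx3⟩)
        rw [LinearMap.mem_ker] at hu ⊢
        rw [← Module.End.mul_apply, h1, Module.End.mul_apply, hu, map_zero]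
    have hN0 : N = 0 := by
      rcases hker with h1 | h1
      · have h2 : LinearMap.range N ≤ LinearMap.ker N := by
          rintro _ ⟨v, rfl⟩
          exact LinearMap.congr_fun hNN v
        rw [h1, le_bot_iff] at h2
        exact LinearMap.range_eq_bot.1 h2
      · exact LinearMap.ker_eq_top.1 h1
    apply hDn
    rw [hN0]
    unfold rk
    rw [LinearMap.range_zero, finrank_bot, zero_mul]
    exact dvd_zero _
  exact exists_rk1_nil_at hbr hirr hD' hD2' htr' hn ha hb (hirD hD' hD2' htr') hN hNN hc hodd hbin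

include hbr hirr in
/-- **Irreducibility** under the elements of degree one and minus one, from an idempotent. -/
theorem irr_two (T : Set (End ℂ V)) (hT1 : ∀ X ∈ T, X ∈ 𝔤) (hT2 : ∀ X ∈ T, X * X = 1)
    (hgen : ∀ L : Submodule ℂ (End ℂ V), (∀ X ∈ T, X ∈ L) →
      (∀ X ∈ L, ∀ Y ∈ L, X * Y - Y * X ∈ L) → 𝔤 ≤ L)
    {E : End ℂ V} {s : ℂ} (hEs : E - s • 1 ∈ 𝔤) (hEE : E * E = E) {D : End ℂ V} (hD : D ∈ 𝔤)
    (hD2 : D * D = 1) (hcD : ∃ w ∈ LL 𝔤 D, E * w ≠ w * E)
    (hT : ∀ D' ∈ T, ∀ a' b' : ℕ, LinearMap.trace ℂ V D' = (a' : ℂ) - b' →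
      a' + b' = finrank ℂ V → 0 < a' → 0 < b' → ¬ finrank ℂ V ∣ rk E * a'.gcd b')
    (W : Submodule ℂ V) (h1 : ∀ x ∈ UpS 𝔤 D, ∀ u ∈ W, x u ∈ W)
    (h2 : ∀ y ∈ UpS 𝔤 (-D), ∀ u ∈ W, y u ∈ W) : W = ⊥ ∨ W = ⊤ := by
  refine irr_up' hbr hirr T hT1 hT2 hgen hD hD2 (fun D' hD' hcc hne1 hne2 => ?_) W h1 h2
  have hD1' := hT1 D' hD'
  have hD2' := hT2 D' hD'
  obtain ⟨a', b', ht', hn', ha', hb'⟩ := exists_mult hD2' hne1 hne2
  have hle := ll_le_cc hbr hD hD2 hcc
  have hTD : ¬a' + b' ∣ rk E * a'.gcd b' := by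
    rw [hn']
    exact hT D' hD' a' b' ht' hn' ha' hb'
  obtain ⟨l, hl, c₀, hc, hlc⟩ := dec2 hbr hirr hD hD2 hEs
  obtain ⟨c, hcdef⟩ : ∃ c, c = c₀ + s • 1 := ⟨_, rfl⟩
  have hE : E = l + c := by
    rw [hcdef, ← add_assoc, ← hlc]
    abel
  have hc' : ∀ w ∈ LL 𝔤 D, c * w = w * c := fun w hw => by
    rw [hcdef]
    exact comm_add s (hc.2 w hw)
  have hcl : ∀ w ∈ LL 𝔤 D', l * w = w * l := fun w hw => ((hle hw).2 l hl).symm
  rcases no_two hbr hirr hD hD2 hl hc' (by rw [← hE]; exact hEE) with ⟨t, h3⟩ | ⟨t, h3⟩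
  · obtain ⟨w, hw, hne⟩ := hcD
    apply hne
    rw [hE, h3, add_mul, mul_add, hc' w hw, smul_mul_assoc, mul_smul_comm, one_mul, mul_one]
  · apply hTD
    refine dvd_idem hbr hirr hD1' hD2' hEE (fun w hw => ?_) ht' hn'.symm (trace_rk hEE)
    rw [hE, h3]
    exact comm_add t (hcl w hw)

include hbr hirr in
/-- **Elements of rank one** from an idempotent. -/
theorem exists_rk1_two (T : Set (End ℂ V)) (hT1 : ∀ X ∈ T, X ∈ 𝔤) (hT2 : ∀ X ∈ T, X * X = 1)
    (hgen : ∀ L : Submodule ℂ (End ℂ V), (∀ X ∈ T, X ∈ L) →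
      (∀ X ∈ L, ∀ Y ∈ L, X * Y - Y * X ∈ L) → 𝔤 ≤ L)
    {E : End ℂ V} {s : ℂ} (hE : E - s • 1 ∈ 𝔤) (hEE : E * E = E) {a b : ℕ} (ha : rk E = a)
    (hn : finrank ℂ V = a + b) (ha0 : 0 < a) (hb0 : 0 < b) (hab : a ≠ b)
    (hnb : ∀ d s : ℕ, 2 ≤ s → s + 1 ≤ d → ¬(a = d.choose (s - 1) ∧ b = d.choose s))
    (hT : ∀ D' ∈ T, ∀ a' b' : ℕ, LinearMap.trace ℂ V D' = (a' : ℂ) - b' → a' + b' = a + b →
      0 < a' → 0 < b' → ¬ a + b ∣ a * a'.gcd b') : ∃ x ∈ 𝔤, rk x = 1 := by
  obtain ⟨D, hDdef⟩ : ∃ D, D = (2 : ℂ) • E - 1 := ⟨_, rfl⟩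
  have hEa : E ∈ ads 𝔤 := by
    have h1 : E = (E - s • 1) + s • 1 := by rw [sub_add_cancel]
    rw [h1]
    exact (ads 𝔤).add_mem (le_ads hE) ((ads 𝔤).smul_mem _ one_ads)
  have hD : D ∈ ads 𝔤 := by
    rw [hDdef]
    exact (ads 𝔤).sub_mem ((ads 𝔤).smul_mem _ hEa) one_ads
  have hD2 : D * D = 1 := by
    have e1 : D * D = (4 : ℂ) • (E * E) - (4 : ℂ) • E + 1 := by
      rw [hDdef]
      simp only [mul_sub, sub_mul, mul_smul_comm, smul_mul_assoc, mul_one, one_mul]
      module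
    rw [e1, hEE, sub_self, zero_add]
  have htr : LinearMap.trace ℂ V D = (a : ℂ) - b := by
    rw [hDdef, map_sub, map_smul, trace_rk hEE, ha, LinearMap.trace_one, hn, smul_eq_mul]
    push_cast
    ring
  have hbr' := ads_br hbr
  have hirr' : ∀ W : Submodule ℂ V, (∀ X ∈ ads 𝔤, X * X = (1 / 4 : ℂ) • 1 → ∀ u ∈ W, X u ∈ W) →
      W = ⊥ ∨ W = ⊤ := fun W hW => hirr W fun X hX => hW X (le_ads hX)
  have hgen' : ∀ L : Submodule ℂ (End ℂ V), (∀ X ∈ insert 1 T, X ∈ L) →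
      (∀ X ∈ L, ∀ Y ∈ L, X * Y - Y * X ∈ L) → ads 𝔤 ≤ L := by
    intro L hL1 hL2 x hx
    obtain ⟨y, hy, t, rfl⟩ := mem_ads hx
    exact L.add_mem (hgen L (fun X hX => hL1 X (Set.mem_insert_of_mem _ hX)) hL2 hy)
      (L.smul_mem _ (hL1 1 (Set.mem_insert _ _)))
  -- `E` does not commute with the elements of degree one and minus one
  have hcD : ∃ w ∈ LL (ads 𝔤) D, E * w ≠ w * E := by
    by_contra hcon
    push Not at hcon
    have hDc : ∀ w ∈ LL (ads 𝔤) D, D * w = w * D := by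
      intro w hw
      rw [hDdef, sub_mul, mul_sub, smul_mul_assoc, mul_smul_comm, hcon w hw, one_mul, mul_one]
    have hz : ∀ x ∈ ads 𝔤, ((D * x = x ∧ x * D = -x) ∨ (D * x = -x ∧ x * D = x)) → x = 0 := by
      intro x hx hx'
      have h1 : x ∈ LL (ads 𝔤) D := by
        rcases hx' with ⟨h1, h2⟩ | ⟨h1, h2⟩
        · exact Submodule.subset_span (Or.inl (Or.inl ⟨hx, h1, h2⟩))
        · exact Submodule.subset_span (Or.inl (Or.inr ⟨hx, by rw [neg_mul, h1, neg_neg], by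
            rw [mul_neg, h2]⟩))
      have h2 := hDc x h1
      have h3 : x = -x := by
        rcases hx' with ⟨h3, h4⟩ | ⟨h3, h4⟩
        · rw [h3, h4] at h2
          exact h2
        · rw [h3, h4] at h2
          exact h2.symm
      have h4 : (2 : ℂ) • x = 0 := by
        rw [two_smul]
        nth_rewrite 1 [h3]
        rw [neg_add_cancel]
      exact (smul_eq_zero.1 h4).resolve_left two_ne_zero
    have hDn : ∀ y ∈ 𝔤, D * y = y * D := by
      intro y hy
      have hya : y ∈ ads 𝔤 := le_ads hy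
      have hDneg : -D ∈ ads 𝔤 := (ads 𝔤).neg_mem hD
      have h1 := up_mem hbr' hD hD2 (z := y) (s := 0) (by rw [zero_smul, sub_zero]; exact hya)
      have h2 := up_mem hbr' hDneg (by rw [neg_mul_neg, hD2]) (z := y) (s := 0)
        (by rw [zero_smul, sub_zero]; exact hya)
      have h3 := hz _ h1.1 (Or.inl h1.2)
      have h4 := hz _ h2.1 (Or.inr ⟨by
        have h5 := h2.2.1
        rw [neg_mul] at h5
        exact neg_eq_iff_eq_neg.1 h5, by
        have h5 := h2.2.2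
        rw [mul_neg] at h5
        exact neg_injective h5⟩)
      have e1 : (1 + D) * y * (1 - D) - (1 + -D) * y * (1 - -D) =
          (2 : ℂ) • (D * y - y * D) := by
        have : (1 + D) * y * (1 - D) - (1 + -D) * y * (1 - -D) =
          (D * y - y * D) + (D * y - y * D) := by noncomm_ring
        rw [this, two_smul]
      rw [h3, h4, sub_zero] at e1
      exact sub_eq_zero.1 ((smul_eq_zero.1 e1.symm).resolve_left two_ne_zero)
    obtain ⟨c, hc⟩ := scal hirr (y := D) fun x hx => hDn x hx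
    have hn0 : (finrank ℂ V : ℂ) ≠ 0 := by
      rw [hn]
      exact_mod_cast (by omega : a + b ≠ 0)
    have h1 : c * c = 1 := by
      have h2 := hD2
      rw [hc, smul_mul_smul_comm, mul_one] at h2
      have h3 := congrArg (LinearMap.trace ℂ V) h2
      rw [map_smul, LinearMap.trace_one, smul_eq_mul] at h3
      exact mul_right_cancel₀ hn0 (h3.trans (one_mul _).symm)
    rw [hc, map_smul, LinearMap.trace_one, smul_eq_mul, hn] at htr
    push_cast at htr
    have h2 : (c - 1) * (c + 1) = 0 := by linear_combination h1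
    rcases mul_eq_zero.1 h2 with h3 | h3
    · have h4 : (b : ℂ) = 0 := by linear_combination (1 / 2 : ℂ) * htr - (1 / 2 : ℂ) * (a + b) * h3
      have h5 : b = 0 := by exact_mod_cast h4
      omega
    · have h4 : (a : ℂ) = 0 := by linear_combination (-1 / 2 : ℂ) * htr + (1 / 2 : ℂ) * (a + b) * h3
      have h5 : a = 0 := by exact_mod_cast h4
      omega
  obtain ⟨x, hx, h1, h2, h3⟩ := exists_rk1_ne hbr' hirr' hD hD2 htr hn ha0 hb0 hab hnb
    (irr_two hbr' hirr' (insert 1 T)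
      (by
        rintro X (rfl | hX)
        · exact one_ads
        · exact le_ads (hT1 X hX))
      (by
        rintro X (rfl | hX)
        · rw [mul_one]
        · exact hT2 X hX)
      hgen' (s := 0) (by rw [zero_smul, sub_zero]; exact hEa) hEE hD hD2 hcD
      (by
        rintro X (rfl | hX) a' b' ht hab' ha' hb'
        · exfalso
          rw [LinearMap.trace_one, ← hab'] at ht
          push_cast at ht
          have h4 : (b' : ℂ) = 0 := by linear_combination (1 / 2 : ℂ) * ht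
          have h5 : b' = 0 := by exact_mod_cast h4
          omega
        · rw [hn] at hab' ⊢
          rw [ha]
          exact hT X hX a' b' ht hab' ha' hb'))
  refine ⟨x, ?_, h3⟩
  obtain ⟨y, hy, t, hxy⟩ := mem_ads hx
  have h4 : x = (E - s • 1) * y - y * (E - s • 1) := by
    have h5 : (2 : ℂ) • (E * x - x * E) = (2 : ℂ) • x := by
      have e1 : (2 : ℂ) • (E * x - x * E) = D * x - x * D := by
        rw [hDdef, smul_sub, sub_mul, mul_sub, smul_mul_assoc, mul_smul_comm, one_mul, mul_one]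
        abel
      rw [e1, h1, h2, two_smul]
      abel
    have h6 := smul_right_injective _ (two_ne_zero (α := ℂ)) h5
    beta_reduce at h6
    rw [← h6, hxy]
    simp only [mul_sub, sub_mul, mul_add, add_mul, smul_mul_assoc, mul_smul_comm, one_mul, mul_one]
    abel
  rw [h4]
  exact hbr _ hE _ hy

end

end Pool.Agent.K9h17.D
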