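import Mathlib
import Pool.Agent.K9h17.D.Glob
import Pool.Agent.K9h17.D.One

/-!
# The local condition for the classes with unipotent elements or elements with two slopes
-/

set_option linter.unusedSectionVars false

namespace Pool.Agent.K9h17.D

open Matrix Module Pool.Agent.W437.HC Pool.Agent.W437.HD Pool.Agent.W548.Odd Pool.Agent.W522.U
open Pool.Agent.H204R3.SP Pool.Agent.H204R3.GP Pool.Agent.Y90 Pool.Agent.Y224.TS TensorProduct
open Pool.Agent.Y224.TS.St (IsHodgeTate IsTateModule)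
open Pool.Agent.W437.HP (cK cK_mul cK_one)
open Pool.Agent.R915 (VE mem_VE VE_cj VE_main VE_stab commL_of pd_sig eig_conj root_conj
  hom_iff hom_iff' RF)
open Pool.Agent.N183.TS Pool.Agent.N183.U5
open Pool.Agent.K9h17.S Pool.Agent.K9h17.C Pool.Agent.K9h17.G
open Polynomial

open scoped ComplexOrder

noncomputable section

section Z

variable {G : ℕ} {Z : Matrix (Fin G) (Fin G) ℂ}
  {S : Set (Matrix (Fin G ⊕ Fin G) (Fin G ⊕ Fin G) ℂ)}

/-- The restriction of an operator in the image of the Galois group. -/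
theorem norm_of {U : Submodule ℂ (Fin G ⊕ Fin G → ℂ)}
    {t t' : Matrix (Fin G ⊕ Fin G) (Fin G ⊕ Fin G) ℂ} (h2 : t' * t = 1)
    (hN : ∀ X ∈ Y224.TS.LT S, t * X * t' ∈ Y224.TS.LT S)
    (htU : ∀ u ∈ U, t *ᵥ u ∈ U) (htU' : ∀ u ∈ U, t' *ᵥ u ∈ U) :
    ∃ g' : End ℂ U, g' * resM t U htU = 1 ∧
      ∀ X ∈ resL (Y224.TS.LT S) U, resM t U htU * X * g' ∈ resL (Y224.TS.LT S) U := by
  refine ⟨resM t' U htU', ?_, ?_⟩
  · refine LinearMap.ext fun u => Subtype.ext ?_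
    rw [Module.End.mul_apply, resM_coe, resM_coe, mulVec_mulVec, h2, one_mulVec]
    rfl
  · rintro Y ⟨X, hX, hXY⟩
    refine ⟨_, hN X hX, fun u => ?_⟩
    rw [Module.End.mul_apply, Module.End.mul_apply, resM_coe, hXY, resM_coe, mulVec_mulVec,
      mulVec_mulVec]

variable (h : TD Z S) (hZ : PM Z) {U : Submodule ℂ (Fin G ⊕ Fin G → ℂ)} (hU : IrS (LZ Z) U)
include h hZ hU

/-- Elements of rank one from a nilpotent element. -/
theorem rk1T_gal_nil {N : End ℂ U} {s : ℂ} (hN : N - s • 1 ∈ resL (Y224.TS.LT S) U)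
    (hNN : N * N = 0) {σ : ℂ ≃+* ℂ} {p q : ℕ} (hpd : pd Z (cjS σ.symm U) = p)
    (hqd : qd Z (cjS σ.symm U) = q) (hp : 0 < p) (hq : 0 < q) (hb : NotBinomialRank p q (rk N))
    (hτ : ∀ τ : ℂ ≃+* ℂ, 0 < pd Z (cjS τ U) → 0 < qd Z (cjS τ U) →
      ¬p + q ∣ rk N * (pd Z (cjS τ U)).gcd (qd Z (cjS τ U))) : Rk1T S U := by
  have hU' : IrS (Y224.TS.LT S) U := (h.irS hZ).2 hU
  obtain ⟨D, hD, hσ⟩ := h.ex σ
  have hst' : ∀ X ∈ Y224.TS.LT S, ∀ u ∈ U, X *ᵥ u ∈ U := hU'.2.1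
  have hst : ∀ u ∈ U, D *ᵥ u ∈ U := fun u hu => hU'.2.1 D (LT_gen hD) u hu
  obtain ⟨d1, d2⟩ := h.dims hZ hD hσ hU.2.1
  rw [hpd] at d1
  rw [hqd] at d2
  have htr : LinearMap.trace ℂ U (resM D U hst) = (p : ℂ) - (q : ℂ) := by
    rw [trace_res (h.sq D hD) hst, d1, d2]
  have hDD : ∀ D ∈ S, ph (Fin G ⊕ Fin G) D * ph (Fin G ⊕ Fin G) D = 1 := fun D hD => by
    rw [← map_mul, h.sq D hD, map_one]
  have hn : finrank ℂ U = p + q := by
    rw [← d1, ← d2]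
    exact (es_add (hDD D hD) hst).symm
  obtain ⟨x, hx, h3⟩ := exists_rk1_nil (𝔤 := resL (Y224.TS.LT S) U)
    (resL_br (fun X hX Y hY => LT_br hX hY) U) (res_irr h.sq hU')
    {X | ∃ D' ∈ S, ∃ hD' : ∀ u ∈ U, D' *ᵥ u ∈ U, X = resM D' U hD'}
    (by
      rintro _ ⟨D', hD', h4, rfl⟩
      exact ⟨D', LT_gen hD', fun u => rfl⟩)
    (by
      rintro _ ⟨D', hD', h4, rfl⟩
      exact res_sq (h.sq D' hD') h4)
    (fun L hL1 hL2 => res_ind hst' L (fun D hD => hL1 _ ⟨D, hD, _, rfl⟩) hL2) hN hNN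
    (D := resM D U hst) ⟨D, LT_gen hD, fun u => rfl⟩ (res_sq (h.sq D hD) hst) htr hn hp hq
    (by
      have e7 := hτ σ.symm (by rw [hpd]; exact hp) (by rw [hqd]; exact hq)
      rwa [hpd, hqd] at e7)
    (by
      rintro _ ⟨D', hD', h4, rfl⟩ a' b' ht hn' ha' hb'
      obtain ⟨τ, hτ'⟩ := h.tr D' hD'
      obtain ⟨e1, e2⟩ := h.dims hZ hD' hτ' hU.2.1
      have e3 := es_add (hDD D' hD') h4
      rw [trace_res (h.sq D' hD') h4, e1, e2] at ht
      rw [e1, e2, hn] at e3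
      have e4 : (pd Z (cjS τ.symm U) : ℂ) + (qd Z (cjS τ.symm U) : ℂ) = (a' : ℂ) + b' := by
        exact_mod_cast e3.trans hn'.symm
      have e5 : pd Z (cjS τ.symm U) = a' := by
        have e6 : (pd Z (cjS τ.symm U) : ℂ) = (a' : ℂ) := by
          linear_combination (1 / 2 : ℂ) * ht + (1 / 2 : ℂ) * e4
        exact_mod_cast e6
      have e6 : qd Z (cjS τ.symm U) = b' := by omega
      have e7 := hτ τ.symm (by rw [e5]; exact ha') (by rw [e6]; exact hb')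
      rwa [e5, e6] at e7)
    (fun d k h1 h2 h3 h4 => hb d k h1 h2 h3 h4)
  exact rk1T_of_rk h hZ hU (by omega) hx h3

/-- Elements of rank one from an idempotent. -/
theorem rk1T_gal_two {E : End ℂ U} {s : ℂ} (hE : E - s • 1 ∈ resL (Y224.TS.LT S) U)
    (hEE : E * E = E) {a b : ℕ} (ha : rk E = a) (hn : finrank ℂ U = a + b) (ha0 : 0 < a)
    (hb0 : 0 < b) (hne : a ≠ b) (hnb : NotBinomial a b)
    (hτ : ∀ τ : ℂ ≃+* ℂ, 0 < pd Z (cjS τ U) → 0 < qd Z (cjS τ U) →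
      ¬a + b ∣ a * (pd Z (cjS τ U)).gcd (qd Z (cjS τ U))) : Rk1T S U := by
  have hU' : IrS (Y224.TS.LT S) U := (h.irS hZ).2 hU
  have hst' : ∀ X ∈ Y224.TS.LT S, ∀ u ∈ U, X *ᵥ u ∈ U := hU'.2.1
  have hDD : ∀ D ∈ S, ph (Fin G ⊕ Fin G) D * ph (Fin G ⊕ Fin G) D = 1 := fun D hD => by
    rw [← map_mul, h.sq D hD, map_one]
  obtain ⟨x, hx, h3⟩ := exists_rk1_two (𝔤 := resL (Y224.TS.LT S) U)
    (resL_br (fun X hX Y hY => LT_br hX hY) U) (res_irr h.sq hU')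
    {X | ∃ D' ∈ S, ∃ hD' : ∀ u ∈ U, D' *ᵥ u ∈ U, X = resM D' U hD'}
    (by
      rintro _ ⟨D', hD', h4, rfl⟩
      exact ⟨D', LT_gen hD', fun u => rfl⟩)
    (by
      rintro _ ⟨D', hD', h4, rfl⟩
      exact res_sq (h.sq D' hD') h4)
    (fun L hL1 hL2 => res_ind hst' L (fun D hD => hL1 _ ⟨D, hD, _, rfl⟩) hL2) hE hEE ha hn ha0 hb0
    hne hnb
    (by
      rintro _ ⟨D', hD', h4, rfl⟩ a' b' ht hn' ha' hb'
      obtain ⟨τ, hτ'⟩ := h.tr D' hD'
      obtain ⟨e1, e2⟩ := h.dims hZ hD' hτ' hU.2.1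
      have e3 := es_add (hDD D' hD') h4
      rw [trace_res (h.sq D' hD') h4, e1, e2] at ht
      rw [e1, e2, hn] at e3
      have e4 : (pd Z (cjS τ.symm U) : ℂ) + (qd Z (cjS τ.symm U) : ℂ) = (a' : ℂ) + b' := by
        exact_mod_cast e3.trans hn'.symm
      have e5 : pd Z (cjS τ.symm U) = a' := by
        have e6 : (pd Z (cjS τ.symm U) : ℂ) = (a' : ℂ) := by
          linear_combination (1 / 2 : ℂ) * ht + (1 / 2 : ℂ) * e4
        exact_mod_cast e6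
      have e6 : qd Z (cjS τ.symm U) = b' := by omega
      have e7 := hτ τ.symm (by rw [e5]; exact ha') (by rw [e6]; exact hb')
      rwa [e5, e6] at e7)
  exact rk1T_of_rk h hZ hU (by omega) hx h3

end Z

section gal

variable {K : Type} [Field K] [CharZero K] [Algebra K ℂ] {Γ : Type} [Group Γ] {X : AV}
  {ρ : Representation K Γ (K ⊗[ℚ] X.H)} {χ : Γ →* K} {G : ℕ} {Z : Matrix (Fin G) (Fin G) ℂ}
  {b : Basis (Fin G ⊕ Fin G) ℚ X.H} {a : ℕ} {Z' : Matrix (Fin a) (Fin a) ℂ}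
  {E : Matrix (Fin G ⊕ Fin G) (Fin a ⊕ Fin a) ℚ} {F : Matrix (Fin a ⊕ Fin a) (Fin G ⊕ Fin G) ℚ}

/-- The operator on an eigenspace. -/
theorem oper_gal (h' : PM Z') (hZ : PM Z)
    (hC : Cht (X.per.comp b.equivFun.symm.toLinearMap.toAddMonoidHom) (JR Z))
    (hT : TD Z (SH X.per ρ χ b)) (hf : Fac Z Z' E F)
    (hi : IsHom (AVZ h') X (inc h' b E)) {f : Module.End ℚ (AVZ h').H} (k : MaxField (AVZ h') f)
    {s : ℂ} {γ : Γ} {t : Module.End K (K ⊗[ℚ] (AVZ h').H)} (hA : ActsBy X ρ (AVZ h') γ t) :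
    ∃ g g' : End ℂ (VE (LinearMap.toMatrix' f) s), g' * g = 1 ∧
      (∀ Y ∈ resL (Y224.TS.LT (SF E F (SH X.per ρ χ b))) (VE (LinearMap.toMatrix' f) s),
        g * Y * g' ∈ resL (Y224.TS.LT (SF E F (SH X.per ρ χ b)))
          (VE (LinearMap.toMatrix' f) s)) ∧
      ∀ (v : ℂ ⊗[K] (K ⊗[ℚ] (AVZ h').H)) (u : VE (LinearMap.toMatrix' f) s),
        (u : Fin a ⊕ Fin a → ℂ) = eY K (bs a) v →
          ((g u : VE (LinearMap.toMatrix' f) s) : Fin a ⊕ Fin a → ℂ) =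
            eY K (bs a) (t.baseChange ℂ v) := by
  have hg : ∀ a : X.H →ₗ[ℚ] X.H, Pool.Agent.Y90.St.IsHom X.per X.per a → ∀ v,
      ρ γ (a.baseChange K v) = a.baseChange K (ρ γ v) := hA.1
  have hmt := acts_mat h' hf hA hi
  have e1 : Rf b E F ρ γ⁻¹ * Rf b E F ρ γ = 1 := Rf_inv hC hf hg
  have e2 := fun X hX => Rf_gen (X := X) hC hf hg hT hX
  have hst : ∀ γ' : Γ, (∀ a : X.H →ₗ[ℚ] X.H, Pool.Agent.Y90.St.IsHom X.per X.per a → ∀ v,
      ρ γ' (a.baseChange K v) = a.baseChange K (ρ γ' v)) →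
      ∀ u ∈ VE (LinearMap.toMatrix' f) s, Rf b E F ρ γ' *ᵥ u ∈ VE (LinearMap.toMatrix' f) s := by
    intro γ' hγ' u hu
    rw [mem_VE] at hu ⊢
    rw [mulVec_mulVec, Rf_comm hC hf hγ' (k.mf h').comm, ← mulVec_mulVec, hu, mulVec_smul]
  have e4 := hst γ hg
  have e5 := hst γ⁻¹ (comm_inv hg)
  obtain ⟨g', h1, h2⟩ := norm_of (S := SF E F (SH X.per ρ χ b)) e1 e2 e4 e5
  refine ⟨resM _ _ e4, g', h1, h2, fun v u huv => ?_⟩
  rw [resM_coe, huv, ← hmt, mt_mulVec]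

/-- The nilpotent element on an eigenspace. -/
theorem ndata_gal (h' : PM Z') (hZ : PM Z)
    (hC : Cht (X.per.comp b.equivFun.symm.toLinearMap.toAddMonoidHom) (JR Z))
    (hT : TD Z (SH X.per ρ χ b)) (hf : Fac Z Z' E F) (hs : IsSimpleAV Z')
    (hi : IsHom (AVZ h') X (inc h' b E)) {f : Module.End ℚ (AVZ h').H} (k : MaxField (AVZ h') f)
    {s : ℂ} (hne : VE (LinearMap.toMatrix' f) s ≠ ⊥) {γ : Γ}
    {t : Module.End K (K ⊗[ℚ] (AVZ h').H)} {c : ℕ} (hA : ActsBy X ρ (AVZ h') γ t)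
    (hSp : IsUnipOn (t.baseChange ℂ) (VS K (AVZ h') f s) c) :
    ∃ (N : End ℂ (VE (LinearMap.toMatrix' f) s)) (r : ℂ),
      N - r • 1 ∈ resL (Y224.TS.LT (SF E F (SH X.per ρ χ b))) (VE (LinearMap.toMatrix' f) s) ∧
        N * N = 0 ∧ rk N = c := by
  have hTD := tdF hf hT hZ h'
  have hIr := (k.mf h').irr h' hs hne
  have hU' : IrS (Y224.TS.LT (SF E F (SH X.per ρ χ b))) (VE (LinearMap.toMatrix' f) s) :=
    (hTD.irS h').2 hIr
  obtain ⟨g, g', h2, hn, hgt⟩ := oper_gal (s := s) h' hZ hC hT hf hi k hA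
  obtain ⟨hu, hc⟩ := hSp
  have hsub : ∀ (v : ℂ ⊗[K] (K ⊗[ℚ] (AVZ h').H)) (u : VE (LinearMap.toMatrix' f) s),
      (u : Fin a ⊕ Fin a → ℂ) = eY K (bs a) v →
        (((g - 1) u : VE (LinearMap.toMatrix' f) s) : Fin a ⊕ Fin a → ℂ) =
          eY K (bs a) ((t.baseChange ℂ - 1) v) := by
    intro v u huv
    rw [LinearMap.sub_apply, LinearMap.sub_apply, map_sub, Submodule.coe_sub, hgt v u huv,
      Module.End.one_apply, Module.End.one_apply, huv]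
  have hNN : (g - 1) * (g - 1) = 0 := by
    refine LinearMap.ext fun u => Subtype.ext ?_
    obtain ⟨v, hv⟩ : ∃ v, v = (eY K (bs a)).symm (u : Fin a ⊕ Fin a → ℂ) := ⟨_, rfl⟩
    have huv : (u : Fin a ⊕ Fin a → ℂ) = eY K (bs a) v := by
      rw [hv, LinearEquiv.apply_symm_apply]
    have h3 : v ∈ VS K (AVZ h') f s := by
      rw [mem_VS, ← huv]
      exact u.2
    rw [Module.End.mul_apply, hsub _ _ (hsub v u huv), hu v h3, map_zero]
    rfl
  obtain ⟨r, hr⟩ := ndata_unip (resL_br (fun X hX Y hY => LT_br hX hY) _) (res_irr hTD.sq hU')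
    h2 hn hNN
  refine ⟨g - 1, r, hr, hNN, ?_⟩
  rw [← hc]
  unfold rk
  have h8 : (LinearMap.range (g - 1)).map (VE (LinearMap.toMatrix' f) s).subtype =
      ((VS K (AVZ h') f s).map (t.baseChange ℂ - 1)).map (eY K (bs a)).toLinearMap := by
    ext x
    simp only [Submodule.mem_map]
    constructor
    · rintro ⟨_, ⟨u, rfl⟩, rfl⟩
      have huv : (u : Fin a ⊕ Fin a → ℂ) = eY K (bs a) ((eY K (bs a)).symm u) := by
        rw [LinearEquiv.apply_symm_apply]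
      refine ⟨(t.baseChange ℂ - 1) ((eY K (bs a)).symm u), ⟨(eY K (bs a)).symm u, ?_, rfl⟩, ?_⟩
      · rw [mem_VS, ← huv]
        exact u.2
      · exact (hsub _ u huv).symm
    · rintro ⟨_, ⟨v, hv, rfl⟩, rfl⟩
      exact ⟨_, ⟨⟨eY K (bs a) v, (mem_VS h').1 hv⟩, rfl⟩, hsub v _ rfl⟩
  have h9 := LinearEquiv.finrank_map_eq (eY K (bs a))
    ((VS K (AVZ h') f s).map (t.baseChange ℂ - 1))
  have h10 := LinearEquiv.finrank_eq (Submodule.equivMapOfInjective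
    (VE (LinearMap.toMatrix' f) s).subtype (Submodule.injective_subtype _)
    (LinearMap.range (g - 1)))
  rw [h10, h8]
  exact h9

/-- The idempotent on an eigenspace. -/
theorem edata_gal (h' : PM Z') (hZ : PM Z)
    (hC : Cht (X.per.comp b.equivFun.symm.toLinearMap.toAddMonoidHom) (JR Z))
    (hT : TD Z (SH X.per ρ χ b)) (hf : Fac Z Z' E F) (hs : IsSimpleAV Z')
    (hi : IsHom (AVZ h') X (inc h' b E)) {f : Module.End ℚ (AVZ h').H} (k : MaxField (AVZ h') f)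
    {s : ℂ} (hne : VE (LinearMap.toMatrix' f) s ≠ ⊥) {γ : Γ}
    {t : Module.End K (K ⊗[ℚ] (AVZ h').H)} {c c' : ℕ} (hA : ActsBy X ρ (AVZ h') γ t)
    (hSp : HasSlopes (t.baseChange ℂ) (VS K (AVZ h') f s) c c') :
    (∃ (E' : End ℂ (VE (LinearMap.toMatrix' f) s)) (r : ℂ),
      E' - r • 1 ∈ resL (Y224.TS.LT (SF E F (SH X.per ρ χ b))) (VE (LinearMap.toMatrix' f) s) ∧
        E' * E' = E' ∧ rk E' = c) ∧ finrank ℂ (VE (LinearMap.toMatrix' f) s) = c + c' := by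
  have hTD := tdF hf hT hZ h'
  have hIr := (k.mf h').irr h' hs hne
  have hU' : IrS (Y224.TS.LT (SF E F (SH X.per ρ χ b))) (VE (LinearMap.toMatrix' f) s) :=
    (hTD.irS h').2 hIr
  obtain ⟨g, g', h2, hn, hgt⟩ := oper_gal (s := s) h' hZ hC hT hf hi k hA
  obtain ⟨n, w, α, ε, hw, hrel, hε, hc, hc'⟩ := hSp
  have hw' : ∀ i, g (w.map (eVS h' f s) i) = (α i : ℂ) • w.map (eVS h' f s) i := by
    intro i
    refine Subtype.ext ?_
    rw [Submodule.coe_smul, Basis.map_apply, hgt (w i) _ (eVS_coe h' f s (w i)), hw, map_smul,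
      eVS_coe]
  obtain ⟨E', ⟨r, hr⟩, h3, h4⟩ := edata_two (w.map (eVS h' f s)) α ε
    (resL_br (fun X hX Y hY => LT_br hX hY) _) (res_irr hTD.sq hU') h2 hn hw' hrel hε hc
  refine ⟨⟨E', r, hr, h3, h4⟩, ?_⟩
  rw [finrank_eq_card_basis (w.map (eVS h' f s)), Fintype.card_fin, ← hc, ← hc']
  have h5 : (Nat.card {i // ε i = 1} : ℂ) + (Nat.card {i // ε i = 0} : ℂ) = n := by
    rw [card_sum ε 1, card_sum ε 0, ← Finset.sum_add_distrib]
    have h6 : ∀ i ∈ Finset.univ, (if ε i = 1 then (1 : ℂ) else 0) + (if ε i = 0 then 1 else 0) =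
        1 := by
      intro i _
      rcases hε i with h7 | h7 <;> rw [h7] <;> simp
    rw [Finset.sum_congr rfl h6, Finset.sum_const, Finset.card_univ, Fintype.card_fin, nsmul_eq_mul,
      mul_one]
  exact_mod_cast h5.symm

/-- The class with unipotent elements. -/
theorem UnipotentGal.cls (h' : PM Z') (hZ : PM Z)
    (hC : Cht (X.per.comp b.equivFun.symm.toLinearMap.toAddMonoidHom) (JR Z))
    (hT : TD Z (SH X.per ρ χ b)) (hf : Fac Z Z' E F) (hs : IsSimpleAV Z') (ha : 0 < a)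
    (hi : IsHom (AVZ h') X (inc h' b E)) (k : UnipotentGal X ρ (AVZ h'))
    {U : Submodule ℂ (Fin a ⊕ Fin a → ℂ)} (hU : IrS (LZ Z') U) :
    Rk1T (SF E F (SH X.per ρ χ b)) U := by
  obtain ⟨f, Ψ, s₀, p, q, k, hΨ, hs₀, hp, hpq, hp0, hq0, hc⟩ := k
  have hpd := fun s' => pd_mult h' k hΨ s'
  rw [← minpoly_mat] at hs₀
  have hdeg : 0 < (minpoly ℚ (LinearMap.toMatrix' f)).natDegree := by
    rw [Nat.pos_iff_ne_zero]
    intro h5
    rw [minpoly_mat] at h5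
    rw [h5, zero_mul, R915.finrank_AVZ] at hpq
    omega
  rw [← minpoly_mat, R915.finrank_AVZ] at hpq
  have hall : ∀ s' : ℂ, aeval s' (minpoly ℚ (LinearMap.toMatrix' f)) = 0 →
      pd Z' (VE (LinearMap.toMatrix' f) s') + qd Z' (VE (LinearMap.toMatrix' f) s') = p + q := by
    intro s' hs'
    have h3 := (k.mf h').dim h' hs ha (VE_ne_of_root hs')
    rw [← hpq] at h3
    have h4 := Nat.eq_of_mul_eq_mul_left hdeg h3
    rw [← h4]
    exact pd_add_qd h' (VE_stab (k.mf h').comm s')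
  have h1 : pd Z' (VE (LinearMap.toMatrix' f) s₀) = p := by rw [hpd, hp]
  have h2 : qd Z' (VE (LinearMap.toMatrix' f) s₀) = q := by
    have h3 := hall s₀ hs₀
    omega
  have hTD := tdF hf hT hZ h'
  obtain ⟨s, T, hs0, hne', hT1, hT2, hTU⟩ := (k.mf h').proj h' hs ha hU
  refine Rk1T.of_map hTD h' hU hT1 hT2 ?_
  rw [hTU]
  have hIr := (k.mf h').irr h' hs hne'
  have hne0 := VE_ne_of_root hs₀
  obtain ⟨v, hv, hv0⟩ := Submodule.exists_mem_ne_zero_of_ne_bot hne'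
  obtain ⟨w, hw, hw0⟩ := Submodule.exists_mem_ne_zero_of_ne_bot hne0
  obtain ⟨σ, hσ⟩ := eig_conj h' hs (k.mf h').comm hw0 (mem_VE.1 hw) hv0 (mem_VE.1 hv)
  have e1 : cjS σ.symm (VE (LinearMap.toMatrix' f) s) = VE (LinearMap.toMatrix' f) s₀ := by
    rw [VE_cj, ← hσ]
    congr 1
    exact σ.symm_apply_apply _
  obtain ⟨γ, t, c, hA, hSp, hb, hdv⟩ := hc s (by rw [← minpoly_mat]; exact hs0)
  obtain ⟨N, r, hr, hNN, rfl⟩ := ndata_gal h' hZ hC hT hf hs hi k hne' hA hSp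
  refine rk1T_gal_nil hTD h' hIr hr hNN (σ := σ) ((congrArg (pd Z') e1).trans h1)
    ((congrArg (qd Z') e1).trans h2) hp0 hq0 hb fun τ h3 h4 => ?_
  rw [VE_cj] at h3 h4 ⊢
  have h5 := root_conj hs0 τ
  exact hdv (τ s) _ _ (by rw [← minpoly_mat]; exact h5) (hpd _).symm (hall _ h5) h3 h4

/-- The class with two slopes. -/
theorem SlopeGal.cls (h' : PM Z') (hZ : PM Z)
    (hC : Cht (X.per.comp b.equivFun.symm.toLinearMap.toAddMonoidHom) (JR Z))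
    (hT : TD Z (SH X.per ρ χ b)) (hf : Fac Z Z' E F) (hs : IsSimpleAV Z') (ha : 0 < a)
    (hi : IsHom (AVZ h') X (inc h' b E)) (k : SlopeGal X ρ (AVZ h'))
    {U : Submodule ℂ (Fin a ⊕ Fin a → ℂ)} (hU : IrS (LZ Z') U) :
    Rk1T (SF E F (SH X.per ρ χ b)) U := by
  obtain ⟨f, Ψ, k, hΨ, hc⟩ := k
  have hpd := fun s' => pd_mult h' k hΨ s'
  have hTD := tdF hf hT hZ h'
  obtain ⟨s, T, hs0, hne', hT1, hT2, hTU⟩ := (k.mf h').proj h' hs ha hU
  refine Rk1T.of_map hTD h' hU hT1 hT2 ?_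
  rw [hTU]
  have hIr := (k.mf h').irr h' hs hne'
  obtain ⟨γ, t, c, c', hA, hSp, hc0, hc0', hne, hnb, hdv⟩ := hc s (by rw [← minpoly_mat]; exact hs0)
  obtain ⟨⟨E', r, hr, hEE, hrk⟩, hfr⟩ := edata_gal h' hZ hC hT hf hs hi k hne' hA hSp
  have hdeg : 0 < (minpoly ℚ (LinearMap.toMatrix' f)).natDegree := by
    have h3 := (k.mf h').dim h' hs ha hne'
    rw [Nat.pos_iff_ne_zero]
    intro h5
    rw [h5, zero_mul] at h3
    omega
  have hall : ∀ s' : ℂ, aeval s' (minpoly ℚ (LinearMap.toMatrix' f)) = 0 →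
      pd Z' (VE (LinearMap.toMatrix' f) s') + qd Z' (VE (LinearMap.toMatrix' f) s') = c + c' := by
    intro s' hs'
    have h3 := (k.mf h').dim h' hs ha (VE_ne_of_root hs')
    have h3' := (k.mf h').dim h' hs ha hne'
    rw [← h3'] at h3
    have h4 := Nat.eq_of_mul_eq_mul_left hdeg h3
    rw [hfr] at h4
    rw [← h4]
    exact pd_add_qd h' (VE_stab (k.mf h').comm s')
  refine rk1T_gal_two hTD h' hIr hr hEE hrk hfr hc0 hc0' hne hnb fun τ h3 h4 => ?_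
  rw [VE_cj] at h3 h4 ⊢
  have h5 := root_conj hs0 τ
  exact hdv (τ s) _ _ (by rw [← minpoly_mat]; exact h5) (hpd _).symm (hall _ h5) h3 h4

/-- The classes with one element of the Galois group. -/
def NewGal (X : AV) (ρ : Representation K Γ (K ⊗[ℚ] X.H)) (Y : AV) : Prop :=
  UnipotentGal X ρ Y ∨ SlopeGal X ρ Y ∨ UnbalancedGal X ρ Y ∨ BalancedGal X ρ Y

end gal

end

end Pool.Agent.K9h17.D
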