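import Mathlib
import Pool.Agent.K9h17.D.Mt
import Pool.Agent.K9h17.T.Cor

/-!
# The rank of a unipotent element on the two eigenspaces
-/

set_option linter.unusedSectionVars false

namespace Pool.Agent.K9h17.D

open Matrix Module Pool.Agent.W437.HC Pool.Agent.W437.HD Pool.Agent.W548.Odd
open Pool.Agent.H204R3.SP Pool.Agent.H204R3.GP Pool.Agent.Y90 Pool.Agent.Y224.TS TensorProduct
open Pool.Agent.Y224.TS.St (IsHodgeTate IsTateModule)
open Pool.Agent.W437.HP (cK cK_mul cK_one)
open Pool.Agent.R915 (RealMax QuadMult HasCMult IsFactor IsSimple Sys Unbalanced IsOfType EndQuad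
  VE mem_VE VE_stab QF)
open Pool.Agent.N183.TS Pool.Agent.N183.U5 Pool.Agent.K9h17.S Pool.Agent.K9h17.G
open Pool.Agent.K9h17.C
open Polynomial

noncomputable section

section lin

variable {W : Type} [AddCommGroup W] [Module ℂ W] [FiniteDimensional ℂ W]

theorem finrank_map_add (N : End ℂ W) (U : Submodule ℂ W) :
    finrank ℂ (U.map N) + finrank ℂ (U ⊓ LinearMap.ker N : Submodule ℂ W) = finrank ℂ U := by
  have h1 := LinearMap.finrank_range_add_finrank_ker (N.domRestrict U)
  have h0 : U.map N = LinearMap.range (N.domRestrict U) := (LinearMap.range_domRestrict _ _).symm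
  rw [← h1, h0]
  congr 1
  · have h2 : (U ⊓ LinearMap.ker N : Submodule ℂ W) = (LinearMap.ker (N.domRestrict U)).map
        U.subtype := by
      ext x
      constructor
      · rintro ⟨h3, h4⟩
        exact ⟨⟨x, h3⟩, h4, rfl⟩
      · rintro ⟨y, h3, rfl⟩
        exact ⟨y.2, h3⟩
    rw [h2]
    exact (LinearEquiv.finrank_eq (Submodule.equivMapOfInjective _ U.injective_subtype _)).symm

/-- The ranks of a skew operator on two dual subspaces. -/
theorem dual_rank {B : LinearMap.BilinForm ℂ W} (hB : B.Nondegenerate) {U U' : Submodule ℂ W}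
    (hc : IsCompl U U') (h1 : ∀ u ∈ U, ∀ v ∈ U, B u v = 0) (h2 : ∀ u ∈ U', ∀ v ∈ U', B u v = 0)
    {N : End ℂ W} (hN : ∀ u v, B (N u) v = -B u (N v))
    (hU : ∀ u ∈ U, N u ∈ U) (hU' : ∀ u ∈ U', N u ∈ U') :
    finrank ℂ (U.map N) = finrank ℂ (U'.map N) := by
  have e1 : B.orthogonal (U.map N) = U ⊔ (U' ⊓ LinearMap.ker N) := by
    ext y
    rw [LinearMap.BilinForm.mem_orthogonal_iff]
    constructor
    · intro hy
      obtain ⟨a, ha, b, hb, rfl⟩ := Submodule.mem_sup.1 (by
        rw [hc.sup_eq_top]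
        exact Submodule.mem_top (x := y))
      refine Submodule.add_mem_sup ha ⟨hb, LinearMap.mem_ker.2 ?_⟩
      apply hB.2
      intro x
      obtain ⟨u, hu, u', hu', rfl⟩ := Submodule.mem_sup.1 (by
        rw [hc.sup_eq_top]
        exact Submodule.mem_top (x := x))
      rw [map_add, LinearMap.add_apply, h2 u' hu' _ (hU' b hb), add_zero]
      have h3 : B (N u) (a + b) = 0 := hy _ ⟨u, hu, rfl⟩
      rw [hN, map_add, map_add, h1 u hu _ (hU a ha), zero_add] at h3
      exact neg_eq_zero.1 h3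
    · intro hy
      obtain ⟨a, ha, b, ⟨hb, hb'⟩, rfl⟩ := Submodule.mem_sup.1 hy
      rintro _ ⟨u, hu, rfl⟩
      change B (N u) (a + b) = 0
      rw [hN, map_add, LinearMap.mem_ker.1 hb', add_zero, h1 u hu _ (hU a ha), neg_zero]
  have e2 := LinearMap.BilinForm.finrank_orthogonal hB (U.map N)
  rw [e1] at e2
  have e3 := Submodule.finrank_sup_add_finrank_inf_eq U (U' ⊓ LinearMap.ker N)
  have e4 : U ⊓ (U' ⊓ LinearMap.ker N) = ⊥ := by
    rw [← inf_assoc, hc.inf_eq_bot, bot_inf_eq]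
  rw [e4, finrank_bot, add_zero, e2] at e3
  have e5 := finrank_map_add N U'
  have e6 := Submodule.finrank_add_eq_of_isCompl hc
  have e7 : finrank ℂ (U.map N) ≤ finrank ℂ W := Submodule.finrank_le _
  omega

theorem range_rank {U U' : Submodule ℂ W} (hc : IsCompl U U') {N : End ℂ W}
    (hU : ∀ u ∈ U, N u ∈ U) (hU' : ∀ u ∈ U', N u ∈ U') :
    finrank ℂ (LinearMap.range N) = finrank ℂ (U.map N) + finrank ℂ (U'.map N) := by
  have e1 : LinearMap.range N = U.map N ⊔ U'.map N := by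
    rw [← Submodule.map_sup, hc.sup_eq_top, Submodule.map_top]
  have e2 : U.map N ⊓ U'.map N = ⊥ := by
    rw [eq_bot_iff, ← hc.inf_eq_bot]
    refine inf_le_inf ?_ ?_
    · rintro _ ⟨u, hu, rfl⟩
      exact hU u hu
    · rintro _ ⟨u, hu, rfl⟩
      exact hU' u hu
  have e3 := Submodule.finrank_sup_add_finrank_inf_eq (U.map N) (U'.map N)
  rw [e2, finrank_bot, add_zero, ← e1] at e3
  exact e3

/-- Unipotent similitudes. -/
theorem skew_unip [Nontrivial W] {B : LinearMap.BilinForm ℂ W} (hB : B.Nondegenerate)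
    {g : End ℂ W} {c : ℂ} (hg : ∀ u v, B (g u) (g v) = c * B u v) (hu : (g - 1) * (g - 1) = 0) :
    ∀ u v, B ((g - 1) u) v = -B u ((g - 1) v) := by
  have hgg : ∀ v, (g - 1) ((g - 1) v) = 0 := fun v => LinearMap.congr_fun hu v
  have hg1 : ∀ v, g v = v + (g - 1) v := fun v => by
    rw [LinearMap.sub_apply, Module.End.one_apply]
    abel
  have hc : c = 1 := by
    obtain ⟨u, hu1, hu0⟩ : ∃ u, (g - 1) u = 0 ∧ u ≠ 0 := by
      obtain ⟨v, hv⟩ := exists_ne (0 : W)
      by_cases h1 : (g - 1) v = 0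
      · exact ⟨v, h1, hv⟩
      · exact ⟨_, hgg v, h1⟩
    by_contra hc
    apply hu0
    apply hB.1
    have h2 : ∀ v, B u ((g - 1) v) = 0 := by
      intro v
      have h3 := hg u ((g - 1) v)
      rw [hg1 u, hu1, add_zero, hg1 ((g - 1) v), hgg, add_zero] at h3
      have h4 : (1 - c) * B u ((g - 1) v) = 0 := by linear_combination h3
      exact (mul_eq_zero.1 h4).resolve_left (sub_ne_zero.2 (Ne.symm hc))
    intro v
    have h3 := hg u v
    rw [hg1 u, hu1, add_zero, hg1 v, map_add, h2, add_zero] at h3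
    have h4 : (1 - c) * B u v = 0 := by linear_combination h3
    exact (mul_eq_zero.1 h4).resolve_left (sub_ne_zero.2 (Ne.symm hc))
  intro u v
  have h1 : ∀ u v, B ((g - 1) u) v + B u ((g - 1) v) + B ((g - 1) u) ((g - 1) v) = 0 := by
    intro u v
    have h2 := hg u v
    rw [hc, one_mul, hg1 u, hg1 v] at h2
    simp only [map_add, LinearMap.add_apply] at h2
    linear_combination h2
  have h2 := h1 u ((g - 1) v)
  rw [hgg, map_zero, map_zero, add_zero, add_zero] at h2
  have h3 := h1 u v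
  rw [h2, add_zero] at h3
  linear_combination h3

end lin

/-- The rank does not change under a base change. -/
theorem rank_bc {K : Type} [Field K] [Algebra K ℂ] {V : Type} [AddCommGroup V] [Module K V]
    [FiniteDimensional K V] (f : Module.End K V) :
    finrank ℂ (LinearMap.range (f.baseChange ℂ)) = finrank K (LinearMap.range f) := by
  have h1 : f = (LinearMap.range f).subtype.comp f.rangeRestrict :=
    LinearMap.ext fun v => rfl
  have h2 : f.baseChange ℂ = ((LinearMap.range f).subtype.baseChange ℂ).comp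
      (f.rangeRestrict.baseChange ℂ) := by
    rw [← LinearMap.baseChange_comp, ← h1]
  have h3 : Function.Surjective (f.rangeRestrict.baseChange ℂ) :=
    LinearMap.lTensor_surjective ℂ f.surjective_rangeRestrict
  have h4 : Function.Injective ((LinearMap.range f).subtype.baseChange ℂ) :=
    Module.Flat.lTensor_preserves_injective_linearMap (M := ℂ) _
      (LinearMap.range f).injective_subtype
  rw [h2, LinearMap.range_comp_of_range_eq_top _ (LinearMap.range_eq_top.2 h3),
    LinearMap.finrank_range_of_inj h4, finrank_baseChange]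

/-- The eigenspaces of a square root. -/
theorem isCompl_eig {W : Type} [AddCommGroup W] [Module ℂ W] {F : Module.End ℂ W} {s : ℂ}
    (hs : s ≠ 0) (hF : ∀ x, F (F x) = (s * s) • x) :
    IsCompl (F.eigenspace s) (F.eigenspace (-s)) := by
  refine ⟨?_, ?_⟩
  · rw [Submodule.disjoint_def]
    intro x h1 h2
    rw [Module.End.mem_eigenspace_iff] at h1 h2
    rw [h1] at h2
    have h3 : (2 * s) • x = 0 := by
      rw [two_mul, add_smul]
      nth_rewrite 2 [h2]
      rw [neg_smul, add_neg_cancel]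
    exact (smul_eq_zero.1 h3).resolve_left (mul_ne_zero two_ne_zero hs)
  · rw [codisjoint_iff, eq_top_iff]
    intro x _
    have h2 : x = (2 * s)⁻¹ • (F x + s • x) + (-(2 * s)⁻¹) • (F x - s • x) := by
      have h3 : (2 * s)⁻¹ • (F x + s • x) + (-(2 * s)⁻¹) • (F x - s • x) =
          ((2 * s)⁻¹ * (2 * s)) • x := by module
      rw [h3, inv_mul_cancel₀ (mul_ne_zero two_ne_zero hs), one_smul]
    rw [h2]
    refine Submodule.add_mem_sup (Submodule.smul_mem _ _ ?_) (Submodule.smul_mem _ _ ?_)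
    · rw [Module.End.mem_eigenspace_iff, map_add, map_smul, hF, smul_add, smul_smul, add_comm]
    · rw [Module.End.mem_eigenspace_iff, map_sub, map_smul, hF, smul_sub, smul_smul]
      module

section quad

variable {K : Type} [Field K] [CharZero K] [Algebra K ℂ] {Γ : Type} [Group Γ] {X : AV} {d : ℚ}
  {h : Module.End ℚ X.H} (k : EndQuad X d h)
include k

/-- Imaginary quadratic multiplication in coordinates. -/
theorem endQuad_qf {G : ℕ} {Z : Matrix (Fin G) (Fin G) ℂ} {b : Basis (Fin G ⊕ Fin G) ℚ X.H}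
    (hC : Cht (X.per.comp b.equivFun.symm.toLinearMap.toAddMonoidHom) (JR Z)) :
    QF Z (LinearMap.toMatrix b b h) d := by
  have hh : ∀ a : Module.End ℚ X.H, IsHom X X a ↔
      ∀ Y ∈ LZ Z, qm (LinearMap.toMatrix b b a) * Y = Y * qm (LinearMap.toMatrix b b a) :=
    fun a => hom_iff b hC a
  refine ⟨k.pos, ?_, (hh h).1 k.hom _ DZ_mem, fun ψ hψ => ?_⟩
  · have h1 : h * h = -(d • (1 : Module.End ℚ X.H)) := LinearMap.ext fun w => k.sq w
    have h2 := congrArg (LinearMap.toMatrix b b) h1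
    rw [LinearMap.toMatrix_mul] at h2
    rw [h2, map_neg, map_smul, LinearMap.toMatrix_one]
  · obtain ⟨x, y, h1⟩ := k.max (Matrix.toLin b b ψ) ((hh _).2 (by
      rw [LinearMap.toMatrix_toLin]
      exact fun Y hY => (R915.commL_of hψ Y hY).symm))
    refine ⟨x, y, ?_⟩
    have h2 := congrArg (LinearMap.toMatrix b b) h1
    rw [LinearMap.toMatrix_toLin, map_add, map_smul, map_smul, LinearMap.toMatrix_id] at h2
    exact h2

/-- The rank of a unipotent element on the two eigenspaces. -/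
theorem rank_quad (hX : IsSimple X) {E : X.H → X.H → ℚ}
    (hE : Pool.Agent.Y90.St.IsPolarization X.per E)
    {ρ : Representation K Γ (K ⊗[ℚ] X.H)} {χ : Γ →* K} (hρ : IsTateModule X.per E ρ χ) {γ : Γ}
    (hγ : ∀ v, ρ γ (h.baseChange K v) = h.baseChange K (ρ γ v))
    (hu : (ρ γ - 1) * (ρ γ - 1) = 0) {f : ℕ} (hf : finrank K (LinearMap.range (ρ γ - 1)) = 2 * f)
    {s : ℂ} (hs : s * s = -(d : ℂ)) :
    finrank ℂ ((VS K X h s).map ((ρ γ).baseChange ℂ - 1)) = f := by
  obtain ⟨G, Z, hZ, b, hC, hb⟩ := exists_ppav' (AV.isAV X) hE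
  obtain ⟨ω, hω, hωρ⟩ := hρ.weil
  have hq := endQuad_qf k hC
  have hs0 := root_ne k.pos hs
  have hs' : -s * -s = -(d : ℂ) := by rw [neg_mul_neg]; exact hs
  have hnt : Nontrivial (ℂ ⊗[K] (K ⊗[ℚ] X.H)) := by
    obtain ⟨v, hv⟩ := hX.1
    have _ : Nontrivial X.H := ⟨v, 0, hv⟩
    have h1 : finrank ℂ (ℂ ⊗[K] (K ⊗[ℚ] X.H)) = finrank ℚ X.H := by
      rw [finrank_baseChange, finrank_baseChange]
    exact Module.nontrivial_of_finrank_pos (R := ℂ) (by rw [h1]; exact finrank_pos)
  have hB : (bcb ℂ ω : LinearMap.BilinForm ℂ (ℂ ⊗[K] (K ⊗[ℚ] X.H))).Nondegenerate := by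
    refine ⟨fun u hu => weil_nd b hb hω u hu, fun u hu => weil_nd b hb hω u fun v => ?_⟩
    rw [weil_om b hb hω, om_anti, ← weil_om b hb hω, hu v, neg_zero]
  obtain ⟨g, hgdef⟩ : ∃ g : Module.End ℂ (ℂ ⊗[K] (K ⊗[ℚ] X.H)), g = (ρ γ).baseChange ℂ := ⟨_, rfl⟩
  have hgB : ∀ u v, bcb ℂ ω (g u) (g v) = algebraMap K ℂ (χ γ) * bcb ℂ ω u v := by
    intro u v
    rw [hgdef]
    exact bcb_inv ρ χ ω hωρ γ u v
  have hg1 : g - 1 = (ρ γ - 1).baseChange ℂ := by
    rw [LinearMap.baseChange_sub, hgdef]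
    congr 1
    exact LinearMap.baseChange_id.symm
  have hgu : (g - 1) * (g - 1) = 0 := by
    rw [hg1]
    change ((ρ γ - 1).baseChange ℂ).comp ((ρ γ - 1).baseChange ℂ) = 0
    rw [← LinearMap.baseChange_comp]
    change ((ρ γ - 1) * (ρ γ - 1)).baseChange ℂ = 0
    rw [hu, LinearMap.baseChange_zero]
  obtain ⟨F, hFdef⟩ : ∃ F : Module.End ℂ (ℂ ⊗[K] (K ⊗[ℚ] X.H)),
    F = (h.baseChange K).baseChange ℂ := ⟨_, rfl⟩
  have hFF : ∀ x, F (F x) = (s * s) • x := by
    intro x
    apply (eY K b).injective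
    have h1 : ∀ y, eY K b (F y) = qm (LinearMap.toMatrix b b h) *ᵥ eY K b y := fun y => by
      rw [← mt_bc2 (K := K) b h, mt_mulVec, hFdef]
    rw [h1, h1, hq.sqv, map_smul, hs]
  have hgF : ∀ x, g (F x) = F (g x) := by
    intro x
    rw [hgdef, hFdef]
    have h2 : (ρ γ).comp (h.baseChange K) = (h.baseChange K).comp (ρ γ) :=
      LinearMap.ext fun v => hγ v
    have h3 := congrArg (fun f : (K ⊗[ℚ] X.H) →ₗ[K] (K ⊗[ℚ] X.H) => f.baseChange ℂ) h2
    simp only [LinearMap.baseChange_comp] at h3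
    exact LinearMap.congr_fun h3 x
  have hVS : ∀ t, VS K X h t = F.eigenspace t := fun t => by rw [hFdef]; rfl
  have hst : ∀ t, ∀ u ∈ VS K X h t, (g - 1) u ∈ VS K X h t := by
    intro t u hu
    rw [hVS, Module.End.mem_eigenspace_iff] at hu ⊢
    rw [LinearMap.sub_apply, Module.End.one_apply, map_sub, ← hgF, hu, map_smul, smul_sub]
  have hiso : ∀ t : ℂ, t * t = -(d : ℂ) → ∀ u ∈ VS K X h t, ∀ v ∈ VS K X h t,
      bcb ℂ ω u v = 0 := by
    intro t ht u hu v hv
    have hmem : ∀ v, v ∈ VS K X h t → eY K b v ∈ VE (LinearMap.toMatrix b b h) t := by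
      intro v hv
      rw [hVS, Module.End.mem_eigenspace_iff] at hv
      rw [mem_VE, ← mt_bc2 (K := K) b h, mt_mulVec, ← map_smul, ← hv, hFdef]
    rw [weil_om b hb hω]
    by_cases hne : VE (LinearMap.toMatrix b b h) t = ⊥
    · have h1 := hmem u hu
      rw [hne, Submodule.mem_bot] at h1
      rw [h1, map_zero]
    · exact hq.isot hZ ht (fun v => mem_VE) hne _ (hmem v hv) _ (hmem u hu)
  have hcompl : IsCompl (VS K X h s) (VS K X h (-s)) := by
    rw [hVS, hVS]
    exact isCompl_eig hs0 hFF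
  have e1 := dual_rank hB hcompl (hiso s hs) (hiso (-s) hs') (skew_unip hB hgB hgu) (hst s)
    (hst (-s))
  have e2 := range_rank hcompl (hst s) (hst (-s))
  rw [← e1, hg1, rank_bc, hf] at e2
  rw [← hgdef, hg1]
  omega

end quad

end

end Pool.Agent.K9h17.D
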