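import Mathlib
import Pool.Agent.K9h17.D.Dual
import Pool.Agent.K9h17.C.Quad

/-!
# Imaginary quadratic multiplication, or no multiplication, and a unipotent element
-/

set_option linter.unusedSectionVars false

namespace Pool.Agent.K9h17.D

open Module Pool.Agent.Y90 Pool.Agent.R915 Pool.Agent.N183.U5 Pool.Agent.K9h17.S Polynomial
open Pool.Agent.H204R3.GP TensorProduct Pool.Agent.N183.TS Pool.Agent.K9h17.G
open Pool.Agent.Y224.TS.St (IsTateModule)
open Pool.Agent.K9h17.C
open Pool.Agent.K9h17.T (bcE bcE_end eqVS frT frT_apply acts_frT bcE_frT)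

noncomputable section

theorem notBinomialRank_odd {p f : ℕ} (hf : Odd f) : NotBinomialRank p p f := by
  intro d k hk hkd h1 h2 h3
  obtain ⟨r, rfl⟩ : ∃ r, k = r + 1 := ⟨k - 1, by omega⟩
  rw [Nat.add_sub_cancel] at h1 h3
  have h4 := Nat.choose_succ_right_eq d r
  rw [← h1, ← h2] at h4
  have hp : 0 < p := by
    rw [h1]
    exact Nat.choose_pos (by omega)
  have h5 := Nat.eq_of_mul_eq_mul_left hp h4
  have h6 : d - 1 = 2 * r := by omega
  rw [h6] at h3
  have h7 := Nat.two_dvd_centralBinom_of_one_le (n := r) (by omega)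
  rw [Nat.centralBinom, ← h3] at h7
  exact (Nat.not_even_iff_odd.2 hf) (even_iff_two_dvd.2 h7)

theorem odd_not_dvd {p f : ℕ} (hp : 0 < p) (hf : Odd f) : ¬p + p ∣ f * p.gcd p := by
  rw [Nat.gcd_self, ← two_mul, mul_comm f p, mul_comm 2 p]
  intro h1
  have h2 := Nat.dvd_of_mul_dvd_mul_left hp h1
  exact (Nat.not_even_iff_odd.2 hf) (even_iff_two_dvd.2 h2)

variable {K : Type} [Field K] [CharZero K] [Algebra K ℂ] {Γ : Type} [Group Γ]

/-- Isogenies and unipotent elements. -/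
theorem unipOn_iso {X Y : AV} (e : Y.H ≃ₗ[ℚ] X.H) (ρ : Representation K Γ (K ⊗[ℚ] X.H)) (γ : Γ)
    (a : Module.End ℚ X.H) (s : ℂ) {f : ℕ}
    (h : IsUnipOn ((ρ γ).baseChange ℂ) (VS K X a s) f) :
    IsUnipOn ((frT e ρ γ).baseChange ℂ) (VS K Y (cjg e a) s) f := by
  have hsub : ∀ x, bcE (K := K) e (((frT e ρ γ).baseChange ℂ - 1) x) =
      ((ρ γ).baseChange ℂ - 1) (bcE (K := K) e x) := by
    intro x
    rw [LinearMap.sub_apply, LinearMap.sub_apply, Module.End.one_apply, Module.End.one_apply,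
      map_sub, bcE_end e (ρ γ) (frT e ρ γ) (frT_apply e ρ γ)]
  obtain ⟨h1, h2⟩ := h
  refine ⟨fun x hx => ?_, ?_⟩
  · apply (bcE (K := K) e).injective
    rw [hsub, hsub, map_zero]
    exact h1 _ ((T.mem_VS e a s x).1 hx)
  · rw [← h2]
    have h4 : (VS K X a s).map ((ρ γ).baseChange ℂ - 1) =
        ((VS K Y (cjg e a) s).map ((frT e ρ γ).baseChange ℂ - 1)).map
          (bcE (K := K) e).toLinearMap := by
      ext x
      simp only [Submodule.mem_map]
      constructor
      · rintro ⟨u, hu, rfl⟩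
        refine ⟨_, ⟨(bcE (K := K) e).symm u, ?_, rfl⟩, ?_⟩
        · rw [T.mem_VS, LinearEquiv.apply_symm_apply]
          exact hu
        · change bcE (K := K) e _ = _
          rw [hsub, LinearEquiv.apply_symm_apply]
      · rintro ⟨_, ⟨u, hu, rfl⟩, rfl⟩
        exact ⟨bcE (K := K) e u, (T.mem_VS e a s u).1 hu, (hsub u).symm⟩
    rw [h4]
    exact (LinearEquiv.finrank_map_eq (bcE (K := K) e) _).symm

theorem eq_rho {X : AV} {ρ : Representation K Γ (K ⊗[ℚ] X.H)} {γ : Γ}
    {t : Module.End K (K ⊗[ℚ] X.H)} (h : ActsBy X ρ X γ t) : t = ρ γ := by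
  refine LinearMap.ext fun v => ?_
  have h1 := h.2 LinearMap.id ⟨LinearMap.id, fun v => rfl⟩ v
  rw [LinearMap.baseChange_id] at h1
  exact h1.symm

/-- The class with unipotent elements for the simple factors. -/
theorem unipotentGal_iso {X Y : AV} {e : Y.H ≃ₗ[ℚ] X.H} (he : IsHom Y X e.toLinearMap)
    {ρ : Representation K Γ (K ⊗[ℚ] X.H)} (h : UnipotentGal X ρ X) : UnipotentGal X ρ Y := by
  obtain ⟨a, Ψ, s, p, q, k, hΨ, hs0, hp, hpq, hp0, hq0, hc⟩ := h
  obtain ⟨Ψ', h1, h2⟩ := exists_tan he hΨ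
  refine ⟨cjg e a, Ψ', s, p, q, maxField_iso he k, h1, ?_, ?_, ?_, hp0, hq0, ?_⟩
  · rw [minpoly_cjg]
    exact hs0
  · rw [h2, hp]
  · rw [minpoly_cjg, hpq, e.finrank_eq]
  · intro s' hs'
    rw [minpoly_cjg] at hs'
    obtain ⟨γ, t, f, hA, hSp, hb, hd⟩ := hc s' hs'
    obtain rfl := eq_rho hA
    refine ⟨γ, frT e ρ γ, f, acts_frT he hA.1, unipOn_iso e ρ γ a s' hSp, hb, ?_⟩
    intro s'' p' q' hs'' hp' hpq' hp0' hq0'
    rw [minpoly_cjg] at hs''
    rw [h2] at hp'
    exact hd s'' p' q' hs'' hp' hpq' hp0' hq0'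

theorem IsUnip.iff {V : Type} [AddCommGroup V] [Module K V] {T : Module.End K V} {m : ℕ}
    (k : IsUnip T m) : (T - 1) * (T - 1) = 0 ∧ finrank K (LinearMap.range (T - 1)) = m := by
  obtain ⟨h2, h3⟩ := k
  refine ⟨LinearMap.ext fun v => ?_, ?_⟩
  · rw [Module.End.mul_apply, LinearMap.sub_apply, LinearMap.sub_apply, Module.End.one_apply,
      Module.End.one_apply, h2, sub_self]
    rfl
  · rw [← h3]
    have h4 : LinearMap.range (T - 1) = Submodule.span K (Set.range fun v => T v - v) := by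
      apply le_antisymm
      · rintro _ ⟨v, rfl⟩
        exact Submodule.subset_span ⟨v, rfl⟩
      · refine Submodule.span_le.2 ?_
        rintro _ ⟨v, rfl⟩
        exact ⟨v, rfl⟩
    rw [h4]

theorem sub_bc {V : Type} [AddCommGroup V] [Module K V] (T : Module.End K V) :
    T.baseChange ℂ - 1 = (T - 1).baseChange ℂ := by
  rw [LinearMap.baseChange_sub]
  congr 1
  exact LinearMap.baseChange_id.symm

theorem sq_bc {V : Type} [AddCommGroup V] [Module K V] {T : Module.End K V}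
    (hu : (T - 1) * (T - 1) = 0) (w : ℂ ⊗[K] V) :
    (T.baseChange ℂ - 1) ((T.baseChange ℂ - 1) w) = 0 := by
  have h1 : (T.baseChange ℂ - 1) * (T.baseChange ℂ - 1) = 0 := by
    rw [sub_bc]
    change ((T - 1).baseChange ℂ).comp ((T - 1).baseChange ℂ) = 0
    rw [← LinearMap.baseChange_comp]
    change ((T - 1) * (T - 1)).baseChange ℂ = 0
    rw [hu, LinearMap.baseChange_zero]
  exact LinearMap.congr_fun h1 w

theorem rho_smul {X : AV} (ρ : Representation K Γ (K ⊗[ℚ] X.H)) (γ : Γ) (c : ℚ)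
    (w : K ⊗[ℚ] X.H) : ρ γ (c • w) = c • ρ γ w := by
  have h5 := map_ratCast_smul (ρ γ) ℚ ℚ c w
  rwa [Rat.cast_id] at h5

section quad

variable {X : AV} {d : ℚ} {h : Module.End ℚ X.H} (k : EndQuad X d h)
include k

/-- Elements which commute with the imaginary quadratic multiplication. -/
theorem acts_quad {ρ : Representation K Γ (K ⊗[ℚ] X.H)} {γ : Γ}
    (hγ : ∀ v, ρ γ (h.baseChange K v) = h.baseChange K (ρ γ v)) : ActsBy X ρ X γ (ρ γ) := by
  have h1 : ∀ f : X.H →ₗ[ℚ] X.H, IsHom X X f → ∀ v, ρ γ (f.baseChange K v) =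
      f.baseChange K (ρ γ v) := by
    intro f hf v
    obtain ⟨x, y, rfl⟩ := k.max f hf
    rw [LinearMap.baseChange_add, LinearMap.baseChange_smul, LinearMap.baseChange_smul,
      LinearMap.baseChange_id]
    simp only [LinearMap.add_apply, LinearMap.smul_apply, LinearMap.id_apply, map_add]
    rw [rho_smul, rho_smul, hγ]
  exact ⟨h1, h1⟩

variable (hX : IsSimple X) {E : X.H → X.H → ℚ} (hE : Pool.Agent.Y90.St.IsPolarization X.per E)
  {ρ : Representation K Γ (K ⊗[ℚ] X.H)} {χ : Γ →* K} (hρ : IsTateModule X.per E ρ χ) {γ : Γ}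
  (hγ : ∀ v, ρ γ (h.baseChange K v) = h.baseChange K (ρ γ v))
  {f : ℕ} (hu : IsUnip (ρ γ) (2 * f))
include hX hE hρ hγ hu

theorem unipOn_quad {s : ℂ} (hs : s * s = -(d : ℂ)) :
    IsUnipOn ((ρ γ).baseChange ℂ) (VS K X h s) f := by
  obtain ⟨h1, h2⟩ := hu.iff
  exact ⟨fun w _ => sq_bc h1 w, rank_quad k hX hE hρ hγ h1 h2 hs⟩

variable {Ψ : Module.End ℂ X.T} (hΨ : ∀ v, Ψ (X.per v) = X.per (h v)) {s : ℂ} {p q : ℕ}
  (hs : s * s = -(d : ℂ)) (hp : finrank ℂ (Ψ.eigenspace s) = p)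
  (hq : finrank ℂ (Ψ.eigenspace (-s)) = q) (hp0 : 0 < p) (hq0 : 0 < q)
  (hb : NotBinomialRank p q f) (hd : ¬p + q ∣ f * p.gcd q)
include hΨ hs hp hq hp0 hq0 hb hd

theorem unipotentGal_quad : UnipotentGal X ρ X := by
  have hm := minpoly_quad k hX.1
  refine ⟨h, Ψ, s, p, q, maxField_quad k, hΨ, ?_, hp, ?_, hp0, hq0, ?_⟩
  · rw [hm, map_add, map_pow, aeval_X, aeval_C, pow_two, hs]
    simp
  · rw [hm, natDegree_X_pow_add_C, X.rank, ← dim_add k hΨ hs, hp, hq]
  · intro s1 hs1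
    refine ⟨γ, ρ γ, f, acts_quad k hγ, unipOn_quad k hX hE hρ hγ hu (root_quad k hX hs1), hb, ?_⟩
    intro s' p' q' hs' hp' hpq' _ _
    rcases root_cases hs (root_quad k hX hs') with h2 | h2
    · rw [h2, hp] at hp'
      have h3 : q' = q := by omega
      rw [← hp', h3]
      exact hd
    · rw [h2, hq] at hp'
      have h3 : q' = p := by omega
      rw [← hp', h3, Nat.gcd_comm q p]
      exact hd

/-- **Imaginary quadratic multiplication** and one unipotent element. -/
theorem gal_quad [Algebra.IsAlgebraic K ℂ] :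
    TateIsHodge X ρ χ ∧ (p ≠ q → TateGeneratedInDegreeTwo ρ χ) ∧
      (p = q → ∀ m < p, TateGeneratedInCodim ρ χ m) := by
  have hcls : ∀ Y, IsFactor Y X → Good X ρ Y ∨ NewGal X ρ Y := by
    intro Y hY
    obtain ⟨e, he⟩ := factor_simple hX hY
    exact Or.inr (Or.inl (unipotentGal_iso he
      (unipotentGal_quad k hX hE hρ hγ hu hΨ hs hp hq hp0 hq0 hb hd)))
  have hsep := sep_quad k hΨ hs hp hq hp0 hq0
  refine ⟨fun m φ hφ => gal_tensor X hE hcls (centre_quad k hΨ) hsep hρ φ hφ,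
    fun hne => gal_generated X hE hcls (centre_quad k hΨ) hsep
      (nondeg_quad k hΨ hs hp hq hp0 hq0 hne) hρ, fun hpq m hm => ?_⟩
  refine gal_low X hE (N := 2 * p) hcls (fun Y hY => large_quad k hX hY hΨ ?_)
    (centre_quad k hΨ) hsep hρ (by omega)
  rw [X.rank, ← dim_add k hΨ hs, hp, hq]
  omega

end quad

section triv

variable {X : AV} (k : EndTrivial X)
include k

theorem triv_adj {b : Module.End ℚ X.H} (hb : IsHom X X b) : b ∈ Algebra.adjoin ℚ {(0 : Module.End ℚ X.H)} := by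
  obtain ⟨c, rfl⟩ := k.2 b hb
  exact Subalgebra.smul_mem _ (one_mem _) c

omit k in
theorem zero_hom : IsHom X X (0 : Module.End ℚ X.H) :=
  ⟨0, fun v => by rw [LinearMap.zero_apply, LinearMap.zero_apply, map_zero]⟩

theorem maxField_triv : MaxField X 0 := ⟨zero_hom, fun b hb _ => triv_adj k hb⟩

theorem centreGen_triv : CentreGen X 0 :=
  ⟨zero_hom, fun f _ => by rw [mul_zero, zero_mul], fun b hb _ => triv_adj k hb⟩

theorem minpoly_triv : minpoly ℚ (0 : Module.End ℚ X.H) = Polynomial.X := by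
  obtain ⟨v, hv⟩ := k.1.1
  have _ : Nontrivial X.H := ⟨v, 0, hv⟩
  exact minpoly.zero ℚ _

omit k in
theorem eig_zero (t : ℂ) : finrank ℂ ((0 : Module.End ℂ X.T).eigenspace t) =
    if t = 0 then finrank ℂ X.T else 0 := by
  split_ifs with h
  · subst h
    have h1 : (0 : Module.End ℂ X.T).eigenspace 0 = ⊤ := by
      rw [eq_top_iff]
      intro x _
      rw [Module.End.mem_eigenspace_iff, LinearMap.zero_apply, zero_smul]
    rw [h1, finrank_top]
  · have h1 : (0 : Module.End ℂ X.T).eigenspace t = ⊥ := by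
      rw [Submodule.eq_bot_iff]
      intro x hx
      rw [Module.End.mem_eigenspace_iff, LinearMap.zero_apply] at hx
      exact (smul_eq_zero.1 hx.symm).resolve_left h
    rw [h1, finrank_bot]

theorem centre_triv : IsCentreMult X fun t => finrank ℂ ((0 : Module.End ℂ X.T).eigenspace t) :=
  ⟨0, 0, centreGen_triv k, fun v => by
    rw [LinearMap.zero_apply, LinearMap.zero_apply, map_zero], fun _ => rfl⟩

omit k in
theorem sep_triv : IsSeparated fun t => finrank ℂ ((0 : Module.End ℂ X.T).eigenspace t) := by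
  rintro s s' - ⟨τ, hτ⟩
  exfalso
  apply hτ
  have h1 : ∀ t : ℂ, finrank ℂ ((0 : Module.End ℂ X.T).eigenspace (starRingEnd ℂ t)) =
      finrank ℂ ((0 : Module.End ℂ X.T).eigenspace t) := by
    intro t
    rw [eig_zero, eig_zero]
    simp only [map_eq_zero]
  beta_reduce
  rw [h1, h1, mul_comm]

omit k in
theorem nondeg_triv : IsNondegenerate fun t => finrank ℂ ((0 : Module.End ℂ X.T).eigenspace t) := by
  intro c hc _ s hs
  beta_reduce at hs
  rw [eig_zero] at hs
  have h1 : s = 0 := by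
    by_contra h2
    rw [if_neg h2] at hs
    exact hs rfl
  have h2 := hc 0
  rw [map_zero] at h2
  rw [h1]
  linarith

/-- **No multiplication** and one unipotent element of odd rank. -/
theorem gal_triv [Algebra.IsAlgebraic K ℂ] {E : X.H → X.H → ℚ}
    (hE : Pool.Agent.Y90.St.IsPolarization X.per E) {ρ : Representation K Γ (K ⊗[ℚ] X.H)}
    {χ : Γ →* K} (hρ : IsTateModule X.per E ρ χ) {γ : Γ} {f : ℕ} (hu : IsUnip (ρ γ) f)
    (hf : Odd f) : TateGeneratedInDegreeTwo ρ χ := by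
  have hm := minpoly_triv k
  have hg : 0 < finrank ℂ X.T := by
    obtain ⟨v, hv⟩ := k.1.1
    have _ : Nontrivial X.H := ⟨v, 0, hv⟩
    have h1 := X.rank
    have h3 : 0 < finrank ℚ X.H := finrank_pos
    omega
  have hγ : ActsBy X ρ X γ (ρ γ) := by
    have h1 : ∀ f : X.H →ₗ[ℚ] X.H, IsHom X X f → ∀ v, ρ γ (f.baseChange K v) =
        f.baseChange K (ρ γ v) := by
      intro f hf v
      obtain ⟨c, rfl⟩ := k.2 f hf
      rw [LinearMap.baseChange_smul, LinearMap.baseChange_id, LinearMap.smul_apply,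
        LinearMap.smul_apply, LinearMap.id_apply, LinearMap.id_apply, rho_smul]
    exact ⟨h1, h1⟩
  have hU : UnipotentGal X ρ X := by
    refine ⟨0, 0, 0, finrank ℂ X.T, finrank ℂ X.T, maxField_triv k, fun v => ?_, ?_, ?_, ?_, hg, hg,
      ?_⟩
    · rw [LinearMap.zero_apply, LinearMap.zero_apply, map_zero]
    · rw [hm, aeval_X]
    · rw [eig_zero, if_pos rfl]
    · rw [hm, natDegree_X, X.rank, one_mul, two_mul]
    · intro s hs
      rw [hm, aeval_X] at hs
      subst hs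
      obtain ⟨h1, h2⟩ := hu.iff
      refine ⟨γ, ρ γ, f, hγ, ⟨fun w _ => sq_bc h1 w, ?_⟩, notBinomialRank_odd hf, ?_⟩
      · have h3 : VS K X 0 0 = ⊤ := by
          rw [eq_top_iff]
          intro x _
          unfold VS
          rw [Module.End.mem_eigenspace_iff, zero_smul, LinearMap.baseChange_zero,
            LinearMap.baseChange_zero, LinearMap.zero_apply]
        rw [h3, Submodule.map_top, sub_bc, rank_bc, h2]
      · intro s' p' q' hs' hp' hpq' _ _
        rw [hm, aeval_X] at hs'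
        rw [hs', eig_zero, if_pos rfl] at hp'
        have h3 : q' = finrank ℂ X.T := by omega
        rw [← hp', h3]
        exact odd_not_dvd hg hf
  refine gal_generated X hE (fun Y hY => ?_) (centre_triv k) sep_triv nondeg_triv hρ
  obtain ⟨e, he⟩ := factor_simple k.1 hY
  exact Or.inr (Or.inl (unipotentGal_iso he hU))

end triv

end

end Pool.Agent.K9h17.D
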